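import Mathlib
import Pool.Agent.H805R2.Base

/-! Definitions for MP_fedc70_an (S06843): closed subsets of non-uniqueness sets for `A^∞`. -/

set_option autoImplicit false

open MeasureTheory Metric Set Filter Topology
open scoped ENNReal NNReal ContDiff ComplexConjugate

namespace Pool.Agent.Helper123

open Pool.Agent.H805R2

/-- Data for the reproducing kernel: a real function `r` (defining function) and the coefficients of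
`w_j(ζ,z) = a_j(ζ) + ∑_k b_jk(ζ)(ζ_k - z_k)` (support function). -/
structure KD (n : ℕ) where
  r : Cn n → ℝ
  a : Fin n → Cn n → ℂ
  b : Fin n → Fin n → Cn n → ℂ
  hr : ContDiff ℝ ∞ r
  ha : ∀ j, ContDiff ℝ ∞ (a j)
  hb : ∀ j k, ContDiff ℝ ∞ (b j k)

variable {n : ℕ}

/-- `w_j(ζ,z)` -/
noncomputable def KD.w (D : KD n) (j : Fin n) (ζ z : Cn n) : ℂ :=
  D.a j ζ + ∑ k, D.b j k ζ * (ζ k - z k)

/-- `⟨w(ζ,z), ζ - z⟩` (bilinear pairing) -/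
noncomputable def KD.pw (D : KD n) (ζ z : Cn n) : ℂ := ∑ j, D.w j ζ z * (ζ j - z j)

/-- `W₁ = (τ - r(ζ)) + ⟨w(ζ,z), ζ - z⟩` -/
noncomputable def KD.W1 (D : KD n) (τ : ℝ) (ζ z : Cn n) : ℂ := ((τ - D.r ζ : ℝ) : ℂ) + D.pw ζ z

/-- `W₂ = R² - ∑ conj(ζ_j-p_j)(z_j-p_j)` -/
noncomputable def W2 (p : Cn n) (R : ℝ) (ζ z : Cn n) : ℂ :=
  ((R ^ 2 : ℝ) : ℂ) - ∑ j, conj (ζ j - p j) * (z j - p j)

/-- `a₁ = (τ - r(ζ))/W₁` -/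
noncomputable def KD.a1 (D : KD n) (τ : ℝ) (ζ z : Cn n) : ℂ := ((τ - D.r ζ : ℝ) : ℂ) / D.W1 τ ζ z

/-- `a₂ = (R² - |ζ-p|²)/W₂` -/
noncomputable def a2 (p : Cn n) (R : ℝ) (ζ z : Cn n) : ℂ :=
  (((R ^ 2 : ℝ) : ℂ) - ∑ j, conj (ζ j - p j) * (ζ j - p j)) / W2 p R ζ z

/-- `q_j = -w_j/W₁ - a₁ conj(ζ_j-p_j)/W₂` -/
noncomputable def KD.q (D : KD n) (p : Cn n) (R τ : ℝ) (j : Fin n) (ζ z : Cn n) : ℂ :=
  - D.w j ζ z / D.W1 τ ζ z - D.a1 τ ζ z * conj (ζ j - p j) / W2 p R ζ z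

/-- the domain of integration -/
def Om (p : Cn n) (R : ℝ) (r : Cn n → ℝ) (τ : ℝ) : Set (Cn n) := {ζ | ‖ζ - p‖ < R ∧ r ζ < τ}

/-- the (unnormalised) kernel `(a₁a₂)^M det(∂q_j/∂ζ̄_k)` -/
noncomputable def KD.ker (D : KD n) (p : Cn n) (R : ℝ) (M : ℕ) (τ : ℝ) (ζ z : Cn n) : ℂ :=
  (D.a1 τ ζ z * a2 p R ζ z) ^ M *
    (Matrix.of fun j k : Fin n => wdb k (fun x => D.q p R τ j x z) ζ).det

/-- explicit formula for `∂w_j/∂ζ̄_k` -/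
noncomputable def KD.Dw (D : KD n) (k j : Fin n) (ζ z : Cn n) : ℂ :=
  wdb k (D.a j) ζ + ∑ l, wdb k (D.b j l) ζ * (ζ l - z l)

/-- explicit formula for `∂W₁/∂ζ̄_k` -/
noncomputable def KD.DW1 (D : KD n) (k : Fin n) (ζ z : Cn n) : ℂ :=
  - wdb k (fun x => (D.r x : ℂ)) ζ + ∑ j, D.Dw k j ζ z * (ζ j - z j)

/-- explicit formula for `∂a₁/∂ζ̄_k` -/
noncomputable def KD.Da1 (D : KD n) (τ : ℝ) (k : Fin n) (ζ z : Cn n) : ℂ :=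
  - wdb k (fun x => (D.r x : ℂ)) ζ / D.W1 τ ζ z
    - ((τ - D.r ζ : ℝ) : ℂ) * D.DW1 k ζ z / D.W1 τ ζ z ^ 2

/-- explicit formula for `∂q_j/∂ζ̄_k` -/
noncomputable def KD.Dq (D : KD n) (p : Cn n) (R τ : ℝ) (j k : Fin n) (ζ z : Cn n) : ℂ :=
  - D.Dw k j ζ z / D.W1 τ ζ z + D.w j ζ z * D.DW1 k ζ z / D.W1 τ ζ z ^ 2
    - D.Da1 τ k ζ z * conj (ζ j - p j) / W2 p R ζ z
    - D.a1 τ ζ z * (if j = k then 1 else 0) / W2 p R ζ z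
    - D.a1 τ ζ z * conj (ζ j - p j) * (z k - p k) / W2 p R ζ z ^ 2

/-- support condition: `Re ⟨w(ζ,z), ζ-z⟩ ≥ (r(ζ)-r(z))/2 + c₁|ζ-z|²` on `B(p,R₀)` -/
def KD.LP (D : KD n) (p : Cn n) (R0 c1 : ℝ) : Prop :=
  ∀ ζ ∈ ball p R0, ∀ z ∈ ball p R0, (D.r ζ - D.r z) / 2 + c1 * ‖ζ - z‖ ^ 2 ≤ (D.pw ζ z).re

/-- the properties of the kernel which are used later; the kernel is `K τ ζ z` -/
structure KPack (p : Cn n) (R R' : ℝ) (r : Cn n → ℝ) (τ0 c1 C : ℝ) (M : ℕ)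
    (K : ℝ → Cn n → Cn n → ℂ) : Prop where
  /-- measurability in `ζ` -/
  meas : ∀ τ ∈ Icc 0 τ0, ∀ z ∈ ball p R',
    AEStronglyMeasurable (fun ζ => K τ ζ z) (volume.restrict (Om p R r τ))
  /-- size -/
  bound : ∀ τ ∈ Icc 0 τ0, ∀ z ∈ ball p R', ∀ ζ ∈ Om p R r τ, ∀ κ > 0,
    κ ≤ (τ - r ζ) + (τ - r z) + c1 * ‖ζ - z‖ ^ 2 →
    ‖K τ ζ z‖ * κ ^ (M + n + 1) ≤ C * (τ - r ζ) ^ M
  /-- integrals of the kernel are holomorphic in `z` -/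
  hol : ∀ τ ∈ Icc 0 τ0, ∀ (b : Cn n → ℂ) (O : Set (Cn n)), IsOpen O → O ⊆ ball p R' →
    AEStronglyMeasurable b (volume.restrict (Om p R r τ)) →
    (∃ B, ∀ ζ ∈ Om p R r τ, ‖b ζ‖ * (τ - r ζ) ^ M ≤ B) →
    (∃ κ > 0, ∀ z ∈ O, ∀ ζ ∈ Om p R r τ, b ζ ≠ 0 →
      κ ≤ (τ - r ζ) + (τ - r z) + c1 * ‖ζ - z‖ ^ 2) →
    DifferentiableOn ℂ (fun z => ∫ ζ in Om p R r τ, K τ ζ z * b ζ) O
  /-- reproducing property -/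
  repro : ∀ τ ∈ Icc 0 τ0, ∀ (u : Cn n → ℂ) (U : Set (Cn n)), IsOpen U →
    {ζ | ‖ζ - p‖ ≤ R ∧ r ζ ≤ τ} ⊆ U → DifferentiableOn ℂ u U →
    ∀ z ∈ ball p R', r z < τ → ∫ ζ in Om p R r τ, K τ ζ z * u ζ = u z
  /-- the near part -/
  near : ∀ τ ∈ Icc 0 τ0, ∀ z ∈ ball p R', r z < τ →
    IntegrableOn (fun ζ => ‖K τ ζ z‖ * ‖ζ - z‖ * (τ - r ζ) ^ (-(3 / 8) : ℝ)) (Om p R r τ) ∧
    ∫ ζ in Om p R r τ, ‖K τ ζ z‖ * ‖ζ - z‖ * (τ - r ζ) ^ (-(3 / 8) : ℝ) ≤ C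

/-- the family of shifted copies of `g`; the constants are uniform in `t` -/
structure Fam (p : Cn n) (R0 : ℝ) (r : Cn n → ℝ) (ts A A0 A3 : ℝ) (g : ℝ → Cn n → ℂ) : Prop where
  hol : ∀ t ∈ Ioo 0 ts, DifferentiableOn ℂ (g t) {z | ‖z - p‖ < R0 ∧ r z < 2 * t}
  re1 : ∀ t ∈ Ioo 0 ts, ∀ z, ‖z - p‖ < R0 → r z < 2 * t → 1 ≤ (g t z).re
  lip : ∀ t' t, 0 < t' → t' ≤ t → t < ts → ∀ z, ‖z - p‖ < R0 → r z < t' →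
    ‖Complex.log (g t' z) - Complex.log (g t z)‖ ≤ A0 * t / ((t' - r z) + t')
  grow : ∀ t ∈ Ioo 0 ts, ∀ z, ‖z - p‖ < R0 → r z < t → ‖g t z‖ ≤ A3 * ((t - r z) + t) ^ (-A)

/-- `F` is a set of non-uniqueness, in a quantitative form which is stable under unions -/
def NU (D F : Set (Cn n)) : Prop :=
  ∃ (f : Cn n → ℂ) (m : ℕ) (c : ℝ), 0 < c ∧
    (∀ z ∈ closure D \ F, DifferentiableOn ℂ f (ball z (c * infDist z F ^ m)) ∧ f z ≠ 0) ∧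
    ∀ N : ℕ, ∃ C : ℝ, ∀ z ∈ closure D \ F, ∀ x ∈ ball z (c * infDist z F ^ m),
      ‖f x‖ ≤ C * infDist z F ^ N

/-- the data attached to a smooth real function: `a_j = ∂_j r`, `b_jk = -½ ∂_j∂_k r` -/
structure IsLeviData (D : KD n) : Prop where
  ha : ∀ j ζ, D.a j ζ = wd j (fun x => (D.r x : ℂ)) ζ
  hb : ∀ j k ζ, D.b j k ζ = -(1 / 2) * wd j (wd k (fun x => (D.r x : ℂ))) ζ

/-- strictly pseudoconvex domain with a good defining function -/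
structure SPD (D : Set (Cn n)) (ρ : Cn n → ℝ) (c : ℝ) : Prop where
  smooth : ContDiff ℝ ∞ ρ
  eq : D = {z | ρ z < 0}
  bdd : Bornology.IsBounded D
  grad : ∀ z, ρ z = 0 → fderiv ℝ ρ z ≠ 0
  c_pos : 0 < c
  levi : ∀ z, ρ z = 0 → ∀ ξ : Cn n, c * ‖ξ‖ ^ 2 ≤ levi ρ z ξ

/-- cut-off profile: `1` on `x ≤ 1/2`, `0` on `x ≥ 3/4`, `4`-Lipschitz -/
noncomputable def lam (x : ℝ) : ℝ := max 0 (min 1 (3 - 4 * x))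

/-- `θ_k(z) = lam (2^k dist(z,F))` -/
noncomputable def th (F : Set (Cn n)) (k : ℕ) (z : Cn n) : ℝ := lam (2 ^ k * infDist z F)

/-- `t_k = t₀ 2^{-βk}` -/
noncomputable def tk (t0 : ℝ) (β k : ℕ) : ℝ := t0 / 2 ^ (β * k)

/-- `P_τ[θ u](z) = ∫ K_τ(ζ,z) θ(ζ) u(ζ) dV(ζ)` over `Om p R r τ` -/
noncomputable def PP (K : ℝ → Cn n → Cn n → ℂ) (p : Cn n) (R : ℝ) (r : Cn n → ℝ) (τ : ℝ)
    (θ : Cn n → ℝ) (u : Cn n → ℂ) (z : Cn n) : ℂ :=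
  ∫ ζ in Om p R r τ, K τ ζ z * ((θ ζ : ℂ) * u ζ)

/-- `Ω` has a smooth plurisubharmonic exhaustion function -/
def PscE (Ω : Set (Cn n)) : Prop :=
  ∃ ψ : Cn n → ℝ, ContDiffOn ℝ ∞ ψ Ω ∧ (∀ c : ℝ, IsCompact {z | z ∈ Ω ∧ ψ z ≤ c}) ∧
    ∀ z ∈ Ω, ∀ ξ : Cn n, 0 ≤ levi ψ z ξ

/-- `f` is in `A^∞(D)`, with zero set `E`, flat on `E` (as in the frozen statement) -/
def AInf (D E : Set (Cn n)) (f : Cn n → ℂ) : Prop :=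
  DifferentiableOn ℂ f D ∧ ContinuousOn f (closure D) ∧
  (∀ k : ℕ, ∃ g : Cn n → ContinuousMultilinearMap ℝ (fun _ : Fin k => Cn n) ℂ,
    ContinuousOn g (closure D) ∧ (∀ z ∈ D, iteratedFDeriv ℝ k f z = g z) ∧
    (∀ z ∈ E, g z = 0)) ∧
  (∃ z ∈ D, f z ≠ 0) ∧
  {z | z ∈ closure D ∧ f z = 0} = E

end Pool.Agent.Helper123
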