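import Mathlib
import Pool.Agent.H805R2.Base
import Pool.Agent.Helper123.Defs

/-! Part of the proof of S06843 (MP_fedc70_an). -/

set_option autoImplicit false

open MeasureTheory Metric Set Filter Topology
open scoped ENNReal NNReal ContDiff ComplexConjugate

namespace Pool.Agent.Helper123

open Pool.Agent.H805R2

variable {n : ℕ}

section fam_aux

open unitInterval in
/-- Lifting through `exp` on an open set which is star-shaped about `q0`. -/
theorem fam_exists_log {V : Set (Cn n)} (hV : IsOpen V) {q0 : Cn n} (hq0 : q0 ∈ V)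
    (hstar : ∀ x ∈ V, ∀ s ∈ Icc (0 : ℝ) 1, q0 + s • (x - q0) ∈ V)
    {f : Cn n → ℂ} (hf : DifferentiableOn ℂ f V) (hf0 : ∀ z ∈ V, f z ≠ 0) :
    ∃ G : Cn n → ℂ, DifferentiableOn ℂ G V ∧ ∀ z ∈ V, Complex.exp (G z) = f z := by
  classical
  have hmem : ∀ p : I × V, q0 + (p.1 : ℝ) • ((p.2 : Cn n) - q0) ∈ V := fun p =>
    hstar p.2 p.2.2 p.1 p.1.2
  have hcont : Continuous (fun p : I × V => f (q0 + (p.1 : ℝ) • ((p.2 : Cn n) - q0)) / f q0) := by
    have h1 : Continuous (fun p : I × V => q0 + (p.1 : ℝ) • ((p.2 : Cn n) - q0)) := by fun_prop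
    exact (hf.continuousOn.comp_continuous h1 hmem).div_const _
  let H : C(I × V, {z : ℂ // z ≠ 0}) :=
    ⟨fun p => ⟨f (q0 + (p.1 : ℝ) • ((p.2 : Cn n) - q0)) / f q0,
      div_ne_zero (hf0 _ (hmem p)) (hf0 _ hq0)⟩, hcont.subtype_mk _⟩
  have cov := Complex.isCoveringMap_exp
  have h0 : ∀ a, H (0, a) = (fun z : ℂ ↦ (⟨_, z.exp_ne_zero⟩ : {z : ℂ // z ≠ 0}))
      ((ContinuousMap.const V (0 : ℂ)) a) := by
    intro a
    apply Subtype.ext
    simp [H, div_self (hf0 _ hq0)]
  have hL1 : ∀ p, Complex.exp (cov.liftHomotopy H (ContinuousMap.const V 0) h0 p) = (H p : ℂ) := by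
    intro p
    have := congrFun (cov.liftHomotopy_lifts H (ContinuousMap.const V 0) h0) p
    have h2 := congrArg Subtype.val this
    simpa using h2
  set L := cov.liftHomotopy H (ContinuousMap.const V 0) h0 with hL
  set G : Cn n → ℂ := fun x => (if hx : x ∈ V then L (1, ⟨x, hx⟩) else 0) + Complex.log (f q0)
    with hG
  have hGc : ContinuousOn G V := by
    rw [continuousOn_iff_continuous_domRestrict]
    have : V.domRestrict G = fun q : V => L (1, q) + Complex.log (f q0) := by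
      funext q
      simp [Set.domRestrict, hG]
    rw [this]
    fun_prop
  have hGe : ∀ z ∈ V, Complex.exp (G z) = f z := by
    intro z hz
    rw [hG]
    simp only [hz, dif_pos]
    rw [Complex.exp_add, hL1, Complex.exp_log (hf0 _ hq0)]
    simp only [H, ContinuousMap.coe_mk]
    rw [div_mul_cancel₀ _ (hf0 _ hq0)]
    simp
  refine ⟨G, fun x hx => ?_, hGe⟩
  apply DifferentiableAt.differentiableWithinAt
  have hfx : DifferentiableAt ℂ f x := (hf x hx).differentiableAt (hV.mem_nhds hx)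
  have h1 : DifferentiableAt ℂ (fun y => G x + Complex.log (f y / f x)) x := by
    refine (differentiableAt_const _).add ?_
    have h0 : DifferentiableAt ℂ (fun y => f y / f x) x := by
      simp only [div_eq_mul_inv]
      exact hfx.mul_const _
    refine h0.clog ?_
    rw [div_self (hf0 x hx)]
    exact Complex.one_mem_slitPlane
  refine h1.congr_of_eventuallyEq ?_
  have hGx : ContinuousAt G x := hGc.continuousAt (hV.mem_nhds hx)
  have h2 : ∀ᶠ y in 𝓝 x, ‖G y - G x‖ < 1 := by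
    have h3 : Tendsto (fun y => ‖G y - G x‖) (𝓝 x) (𝓝 0) := by
      have := (hGx.sub (continuousAt_const (y := G x))).norm
      simpa [ContinuousAt] using this
    exact h3.eventually_lt_const one_pos
  filter_upwards [h2, hV.mem_nhds hx] with y hy hyV
  have h4 : f y / f x = Complex.exp (G y - G x) := by
    rw [Complex.exp_sub, hGe y hyV, hGe x hx]
  have h5 : |(G y - G x).im| < 1 := lt_of_le_of_lt (Complex.abs_im_le_norm _) hy
  rw [abs_lt] at h5
  have h6 := Real.pi_gt_three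
  rw [h4, Complex.log_exp (by linarith) (by linarith)]
  ring

/-- Cauchy estimate for `log g` with `Re g > 0`. -/
theorem fam_cauchy {g : ℂ → ℂ} {c : ℂ} {R : ℝ} (hR : 0 < R)
    (hg : ∀ z, ‖z - c‖ < R → DifferentiableAt ℂ g z) (hre : ∀ z, ‖z - c‖ < R → 0 < (g z).re) :
    ‖deriv (fun z => Complex.log (g z)) c‖ ≤ 2 * Real.exp Real.pi / R := by
  have hlog : ∀ z, ‖z - c‖ < R → DifferentiableAt ℂ (fun z => Complex.log (g z)) z := by
    intro z hz
    exact (hg z hz).clog (Or.inl (hre z hz))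
  have him : ∀ z, ‖z - c‖ < R → |(Complex.log (g z)).im| ≤ Real.pi / 2 := by
    intro z hz
    rw [Complex.log_im]
    exact Complex.abs_arg_le_pi_div_two_iff.2 (hre z hz).le
  have hcc : ‖c - c‖ < R := by simpa using hR
  set u : ℂ → ℂ := fun z => Complex.exp (Complex.I * Complex.log (g z)) with hu
  have hun : ∀ z, ‖u z‖ = Real.exp (-(Complex.log (g z)).im) := by
    intro z
    rw [hu]
    simp only
    rw [Complex.norm_exp]
    simp
  have hud : ∀ z, ‖z - c‖ < R → DifferentiableAt ℂ u z := fun z hz =>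
    ((hlog z hz).const_mul Complex.I).cexp
  have hR2 : 0 < R / 2 := by linarith
  have h1 : ‖deriv u c‖ ≤ Real.exp (Real.pi / 2) / (R / 2) := by
    apply Complex.norm_deriv_le_of_forall_mem_sphere_norm_le hR2
    · apply DifferentiableOn.diffContOnCl
      rw [closure_ball _ hR2.ne']
      intro z hz
      apply (hud z _).differentiableWithinAt
      rw [mem_closedBall, dist_eq_norm] at hz
      linarith
    · intro z hz
      rw [mem_sphere, dist_eq_norm] at hz
      rw [hun]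
      apply Real.exp_le_exp.2
      have := him z (by linarith)
      rw [abs_le] at this
      linarith
  have h2 : deriv u c = u c * (Complex.I * deriv (fun z => Complex.log (g z)) c) :=
    (((hlog c hcc).hasDerivAt.const_mul Complex.I).cexp).deriv
  have h3 : ‖deriv u c‖ = ‖u c‖ * ‖deriv (fun z => Complex.log (g z)) c‖ := by
    rw [h2, norm_mul, norm_mul, Complex.norm_I, one_mul]
  have h4 : Real.exp (-(Real.pi / 2)) ≤ ‖u c‖ := by
    rw [hun]
    apply Real.exp_le_exp.2
    have := him c hcc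
    rw [abs_le] at this
    linarith
  have h5 : Real.exp (-(Real.pi / 2)) * ‖deriv (fun z => Complex.log (g z)) c‖ ≤
      Real.exp (Real.pi / 2) / (R / 2) := by
    refine le_trans (mul_le_mul_of_nonneg_right h4 (norm_nonneg _)) ?_
    rw [← h3]; exact h1
  have h6 : Real.exp (Real.pi / 2) * (Real.exp (-(Real.pi / 2)) *
      ‖deriv (fun z => Complex.log (g z)) c‖) ≤
      Real.exp (Real.pi / 2) * (Real.exp (Real.pi / 2) / (R / 2)) :=
    mul_le_mul_of_nonneg_left h5 (Real.exp_pos _).le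
  rw [← mul_assoc, ← Real.exp_add, add_neg_cancel, Real.exp_zero, one_mul, ← mul_div_assoc,
    ← Real.exp_add, add_halves] at h6
  refine h6.trans (le_of_eq ?_)
  field_simp

end fam_aux

/-- TARGET. PROOF. Write r=rho, l = dr(p) (real linear, nonzero), nu0 a unit vector with c0 := l(nu0) > 0. For RV small: |dr(y)-l| <= eps:=c0/8 on ball p (4RV), so dr(y)(nu0)>=c0/2.
STAR-SHAPED: V = D inter ball p RV is star-shaped about q0 = p-(RV/2)nu0: x in V, y=(1-t)x+t q0: r(y) <= r(x)+l(y-x)+eps|y-x| <= r(x) + t(l(q0-p)-l(x-p)) + 2 eps t RV and -l(x-p) <= -r(x)+eps RV (r(p)=0), so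
r(y) <= (1-t) r(x) - t RV (c0/2 - 3 eps) < 0. Hence f (nonvanishing holomorphic) has a holomorphic logarithm on V (star-shaped open set: primitive of f'/f along rays, or a continuous lift through exp
(simply connected; library: Pool/Agent/H712R2/LogLift.lean, Pool/Agent/H712R2/Par.lean, Y87/TY/Log.lean, grep 'exists_log' / 'StarConvex' in ~/DOCS.tsv), a continuous logarithm of a holomorphic function is holomorphic).
g0=-log f on V, Re g0 = -log|f| >= 1. h = Complex.log g0 is holomorphic on V (Re g0>0), |Im h|<=pi/2; Cauchy estimate on complex lines for exp(i h), |exp(ih)| in [e^{-pi/2},e^{pi/2}]: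
|fderiv C h x| <= e^pi/delta whenever ball x delta subset V.
SHIFT: nu = C1 nu0, C1=4/c0 (so that C1*c0/2=2), g t z = g0(z - t nu). For |z-p|<R0 (R0<Rm:=RV/4), 0<lam<ts (ts small): r(z-lam nu) <= r(z) - 2 lam, i.e. -r(z-lam nu) >= 2lam - r z, and
ball (z-lam nu) (delta_lam) subset V for delta_lam = min((2lam - r z)/(2L+1), RV/4), |dr|<=L on ball p (4RV). So z-t nu in V when r z<2t: hol, re1 and the last clause hold. Since 2lam-r z is bounded,
delta_lam >= c(2lam - r z), so |d/dlam h(z-lam nu)| <= A'/(2lam - r z).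
(lip) t'<=t, r z<t': |log g^{t'} z - log g^t z| <= int_{t'}^t A'/(2lam-r z) dlam <= A' t/(2t'-r z) = A' t/((t'-r z)+t').
(grow) compare with lam=ts1 slightly larger than ts (or with lam = ts): log|g^t z| <= log|g0(z-ts1 nu)| + int_t^{ts1} A'/(2lam - r z) dlam <= const + (A'/2) log(C/(2t - r z)); for r z<t, z near p: g0(z-ts1 nu) is bounded because for
|z-p| < R0 small compared to ts1... (r z < t < ts1 <= gives -r(z-ts1 nu) >= 2ts1 - r z >= ts1, so z-ts1 nu stays in a compact subset of V (closure in V): |g0| bounded there). Hence |g^t z| <= A3 (2t-r z)^(-A'/2); replace A'/2 by a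
natural number A >= max(1, A'/2), the base (t - r z)+t being bounded above. -/
theorem exists_fam {D : Set (Cn n)} {ρ : Cn n → ℝ} {c : ℝ} (hD : SPD D ρ c) (p : Cn n)
    (hp : ρ p = 0) {f : Cn n → ℂ} (hf : DifferentiableOn ℂ f D) (hf0 : ∀ z ∈ D, f z ≠ 0)
    (hf1 : ∀ z ∈ D, ‖f z‖ ≤ Real.exp (-1)) :
    ∃ Rm > 0, ∀ R0, 0 < R0 → R0 < Rm → ∃ (ν : Cn n) (ts A0 A3 : ℝ) (A : ℕ) (g : ℝ → Cn n → ℂ),
      0 < ts ∧ 0 ≤ A0 ∧ 0 ≤ A3 ∧ 1 ≤ A ∧ Fam p R0 ρ ts A A0 A3 g ∧
      ∀ t ∈ Ioo 0 ts, ∀ z, ‖z - p‖ < R0 → ρ z < 2 * t →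
        z - (t : ℂ) • ν ∈ D ∧ (g t z).re = - Real.log ‖f (z - (t : ℂ) • ν)‖ := by
  classical
  have hl : fderiv ℝ ρ p ≠ 0 := hD.grad p hp
  have hdiff : ∀ x, DifferentiableAt ℝ ρ x := fun x =>
    (hD.smooth.differentiable (by simp)).differentiableAt
  have hcd : Continuous (fderiv ℝ ρ) := hD.smooth.continuous_fderiv (by simp)
  have hρc : Continuous ρ := hD.smooth.continuous
  obtain ⟨l, hldef⟩ : ∃ l, l = fderiv ℝ ρ p := ⟨_, rfl⟩
  rw [← hldef] at hl
  -- the direction
  obtain ⟨ν, hν⟩ : ∃ ν, l ν = 4 := by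
    by_contra hcon
    push Not at hcon
    apply hl
    ext v
    by_contra hv
    rw [zero_apply] at hv
    apply hcon ((4 / l v) • v)
    rw [map_smul, smul_eq_mul, div_mul_cancel₀ _ hv]
  have hK : 0 < ‖ν‖ := by
    rw [norm_pos_iff]
    intro h
    rw [h, map_zero] at hν
    norm_num at hν
  obtain ⟨K, hKdef⟩ : ∃ K, K = ‖ν‖ := ⟨_, rfl⟩
  rw [← hKdef] at hK
  obtain ⟨ε, hεdef⟩ : ∃ ε, ε = 1 / (2 * K) := ⟨_, rfl⟩
  have hε : 0 < ε := by rw [hεdef]; positivity
  have hεK : ε * K = 1 / 2 := by rw [hεdef]; field_simp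
  obtain ⟨RV, hRV, hball⟩ : ∃ RV > 0, ∀ y ∈ ball p RV, ‖fderiv ℝ ρ y - l‖ ≤ ε := by
    have h1 : ∀ᶠ y in 𝓝 p, ‖fderiv ℝ ρ y - l‖ < ε := by
      have h2 : Tendsto (fun y => ‖fderiv ℝ ρ y - l‖) (𝓝 p) (𝓝 0) := by
        have := (hcd.continuousAt (x := p)).sub (continuousAt_const (y := l))
        have h3 := this.norm
        simpa [ContinuousAt, ← hldef] using h3
      exact h2.eventually_lt_const hε
    rw [Metric.eventually_nhds_iff_ball] at h1
    obtain ⟨r, hr, hr'⟩ := h1
    exact ⟨r, hr, fun y hy => (hr' y hy).le⟩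
  have mv : ∀ x ∈ ball p RV, ∀ y ∈ ball p RV, |ρ y - ρ x - l (y - x)| ≤ ε * ‖y - x‖ := by
    intro x hx y hy
    have := (convex_ball p RV).norm_image_sub_le_of_norm_fderiv_le' (𝕜 := ℝ) (f := ρ) (φ := l)
      (fun x _ => hdiff x) hball hx hy
    rwa [Real.norm_eq_abs] at this
  have hpb : p ∈ ball p RV := mem_ball_self hRV
  obtain ⟨L, hLdef⟩ : ∃ L, L = ‖l‖ + ε := ⟨_, rfl⟩
  have hL : 0 < L := by rw [hLdef]; positivity
  have lip : ∀ x ∈ ball p RV, ∀ y ∈ ball p RV, |ρ y - ρ x| ≤ L * ‖y - x‖ := by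
    intro x hx y hy
    have h1 := mv x hx y hy
    have h2 := l.le_opNorm (y - x)
    rw [Real.norm_eq_abs] at h2
    have h3 := abs_add_le (ρ y - ρ x - l (y - x)) (l (y - x))
    rw [sub_add_cancel] at h3
    rw [hLdef, add_mul]
    linarith
  have desc : ∀ x ∈ ball p RV, ∀ s : ℝ, 0 ≤ s → x - (s : ℂ) • ν ∈ ball p RV →
      ρ (x - (s : ℂ) • ν) ≤ ρ x - 3 * s := by
    intro x hx s hs hxs
    have h1 := mv x hx _ hxs
    have e1 : x - (s : ℂ) • ν - x = -(s • ν) := by
      rw [Complex.coe_smul]; abel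
    rw [e1, map_neg, map_smul, smul_eq_mul, hν, norm_neg, norm_smul, Real.norm_eq_abs,
      abs_of_nonneg hs, ← hKdef] at h1
    have h2 := (abs_le.1 h1).2
    have h3 : ε * (s * K) = s / 2 := by
      calc ε * (s * K) = s * (ε * K) := by ring
        _ = s / 2 := by rw [hεK]; ring
    linarith
  -- the star-shaped set
  obtain ⟨V, hVdef⟩ : ∃ V, V = D ∩ ball p RV := ⟨_, rfl⟩
  have hDo : IsOpen D := by
    rw [hD.eq]
    exact isOpen_lt hρc continuous_const
  have hVo : IsOpen V := by rw [hVdef]; exact hDo.inter isOpen_ball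
  have hVm : ∀ x, x ∈ V ↔ ρ x < 0 ∧ x ∈ ball p RV := by
    intro x
    rw [hVdef, mem_inter_iff, hD.eq, mem_ofPred_eq]
  obtain ⟨s0, hs0def⟩ : ∃ s0, s0 = ε * RV := ⟨_, rfl⟩
  have hs0 : 0 < s0 := by rw [hs0def]; positivity
  have hs0K : s0 * K = RV / 2 := by
    rw [hs0def]
    calc ε * RV * K = RV * (ε * K) := by ring
      _ = RV / 2 := by rw [hεK]; ring
  obtain ⟨q0, hq0def⟩ : ∃ q0, q0 = p - (s0 : ℂ) • ν := ⟨_, rfl⟩
  have hnormν : ∀ c : ℂ, ‖c • ν‖ = ‖c‖ * K := fun c => by rw [norm_smul, hKdef]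
  have hq0n : ‖q0 - p‖ = RV / 2 := by
    rw [hq0def, show p - (s0 : ℂ) • ν - p = -((s0 : ℂ) • ν) by abel, norm_neg, hnormν,
      Complex.norm_real, Real.norm_eq_abs, abs_of_pos hs0, hs0K]
  have hq0b : q0 ∈ ball p RV := by
    rw [mem_ball, dist_eq_norm, hq0n]; linarith
  have hq0V : q0 ∈ V := by
    rw [hVm]
    refine ⟨?_, hq0b⟩
    have := desc p hpb s0 hs0.le (by rw [← hq0def]; exact hq0b)
    rw [← hq0def, hp] at this
    linarith
  have hstar : ∀ x ∈ V, ∀ s ∈ Icc (0 : ℝ) 1, q0 + s • (x - q0) ∈ V := by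
    intro x hx s hs
    rw [hVm] at hx ⊢
    obtain ⟨hx1, hx2⟩ := hx
    have hyb : q0 + s • (x - q0) ∈ ball p RV := by
      have := (convex_ball p RV) hq0b hx2 (sub_nonneg.2 hs.2) hs.1 (by ring)
      have e : (1 - s) • q0 + s • x = q0 + s • (x - q0) := by
        rw [sub_smul, one_smul, smul_sub]; abel
      rwa [e] at this
    refine ⟨?_, hyb⟩
    have h1 := (abs_le.1 (mv x hx2 _ hyb)).2
    have e1 : q0 + s • (x - q0) - x = (1 - s) • (q0 - x) := by
      rw [sub_smul, one_smul, smul_sub, smul_sub]; abel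
    have hx3 : ‖x - p‖ ≤ RV := by
      rw [mem_ball, dist_eq_norm] at hx2; exact hx2.le
    have e2 : ‖q0 - x‖ ≤ 3 / 2 * RV := by
      have : q0 - x = (q0 - p) - (x - p) := by abel
      rw [this]
      have := norm_sub_le (q0 - p) (x - p)
      rw [hq0n] at this
      linarith
    have h1s : 0 ≤ 1 - s := sub_nonneg.2 hs.2
    rw [e1, map_smul, smul_eq_mul, norm_smul, Real.norm_eq_abs, abs_of_nonneg h1s] at h1
    have e3 : l (q0 - x) = -l (x - p) - 4 * s0 := by
      have : q0 - x = -(x - p) - s0 • ν := by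
        rw [hq0def, Complex.coe_smul]; abel
      rw [this, map_sub, map_neg, map_smul, smul_eq_mul, hν]
      ring
    have h2 := (abs_le.1 (mv p hpb x hx2)).2
    rw [hp, sub_zero] at h2
    have h3 : ε * ‖x - p‖ ≤ s0 := by
      rw [hs0def]; exact mul_le_mul_of_nonneg_left hx3 hε.le
    have h4 : ε * ((1 - s) * ‖q0 - x‖) ≤ (1 - s) * (3 / 2 * s0) := by
      calc ε * ((1 - s) * ‖q0 - x‖) = (1 - s) * (ε * ‖q0 - x‖) := by ring
        _ ≤ (1 - s) * (ε * (3 / 2 * RV)) := by gcongr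
        _ = (1 - s) * (3 / 2 * s0) := by rw [hs0def]; ring
    have h5 : l (q0 - x) ≤ -ρ x + s0 - 4 * s0 := by
      rw [e3]; linarith
    have h6 : (1 - s) * l (q0 - x) ≤ (1 - s) * (-ρ x + s0 - 4 * s0) :=
      mul_le_mul_of_nonneg_left h5 h1s
    have h7 : ρ (q0 + s • (x - q0)) ≤ s * ρ x - (1 - s) * (3 / 2 * s0) := by
      nlinarith
    rcases eq_or_lt_of_le hs.1 with h0 | h0
    · rw [← h0] at h7 ⊢
      linarith
    · have : s * ρ x < 0 := mul_neg_of_pos_of_neg h0 hx1
      have : 0 ≤ (1 - s) * (3 / 2 * s0) := by positivity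
      linarith
  obtain ⟨G, hGd, hGe⟩ := fam_exists_log hVo hq0V hstar
    (hf.mono (by rw [hVdef]; exact inter_subset_left))
    (fun z hz => hf0 z (by rw [hVdef] at hz; exact hz.1))
  have hVD : ∀ z ∈ V, z ∈ D := fun z hz => by rw [hVdef] at hz; exact hz.1
  have hGre : ∀ z ∈ V, (-G z).re = -Real.log ‖f z‖ := by
    intro z hz
    rw [← hGe z hz, Complex.norm_exp, Real.log_exp, Complex.neg_re]
  have hG1 : ∀ z ∈ V, 1 ≤ (-G z).re := by
    intro z hz
    rw [hGre z hz]
    have h1 := hf1 z (hVD z hz)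
    have h2 : 0 < ‖f z‖ := norm_pos_iff.2 (hf0 z (hVD z hz))
    have h3 := Real.log_le_log h2 h1
    rw [Real.log_exp] at h3
    linarith
  refine ⟨RV / 4, by linarith, ?_⟩
  intro R0 hR0 hR0'
  obtain ⟨ts, htsdef⟩ : ∃ ts, ts = RV / (4 * K) := ⟨_, rfl⟩
  have hts : 0 < ts := by rw [htsdef]; positivity
  have htsK : ts * K = RV / 4 := by rw [htsdef]; field_simp
  obtain ⟨M, hMdef⟩ : ∃ M, M = 2 * ts + L * RV := ⟨_, rfl⟩
  have hM : 0 < M := by rw [hMdef]; positivity
  obtain ⟨c1, hc1def⟩ : ∃ c1, c1 = min (1 / (L * K + 1)) (RV / (4 * K * M)) := ⟨_, rfl⟩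
  have hc1 : 0 < c1 := by rw [hc1def]; positivity
  have hc1a : c1 * (L * K) ≤ 1 := by
    have h1 : c1 ≤ 1 / (L * K + 1) := by rw [hc1def]; exact min_le_left _ _
    have h2 : c1 * (L * K) ≤ 1 / (L * K + 1) * (L * K) :=
      mul_le_mul_of_nonneg_right h1 (by positivity)
    refine h2.trans ?_
    rw [one_div_mul_eq_div, div_le_one (by positivity)]
    linarith
  have hc1b : c1 * M * K ≤ RV / 4 := by
    have h1 : c1 ≤ RV / (4 * K * M) := by rw [hc1def]; exact min_le_right _ _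
    have h2 : c1 * (M * K) ≤ RV / (4 * K * M) * (M * K) :=
      mul_le_mul_of_nonneg_right h1 (by positivity)
    rw [mul_assoc]
    refine h2.trans (le_of_eq ?_)
    field_simp
  have hMb : ∀ z, ‖z - p‖ < R0 → ∀ s, s ≤ ts → 2 * s - ρ z ≤ M := by
    intro z hz s hs
    have hzb : z ∈ ball p RV := by rw [mem_ball, dist_eq_norm]; linarith
    have h1 := (abs_le.1 (lip p hpb z hzb)).1
    rw [hp, sub_zero] at h1
    have h2 : L * ‖z - p‖ ≤ L * RV := mul_le_mul_of_nonneg_left (by linarith) hL.le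
    rw [hMdef]
    linarith
  have inV : ∀ z, ‖z - p‖ < R0 → ∀ s, 0 < s → s ≤ ts → ρ z < 2 * s → ∀ μ : ℂ,
      ‖μ - s‖ < c1 * (2 * s - ρ z) → z - μ • ν ∈ V := by
    intro z hz s hs hs' hρz μ hμ
    have hzb : z ∈ ball p RV := by rw [mem_ball, dist_eq_norm]; linarith
    have hsK : s * K ≤ RV / 4 := by
      rw [← htsK]; exact mul_le_mul_of_nonneg_right hs' hK.le
    have hzs : z - (s : ℂ) • ν ∈ ball p RV := by
      rw [mem_ball, dist_eq_norm, show z - (s : ℂ) • ν - p = (z - p) - (s : ℂ) • ν by abel]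
      have := norm_sub_le (z - p) ((s : ℂ) • ν)
      rw [hnormν, Complex.norm_real, Real.norm_eq_abs, abs_of_pos hs] at this
      linarith
    have h1 : ‖μ - s‖ * K ≤ RV / 4 := by
      have h2 := hMb z hz s hs'
      calc ‖μ - s‖ * K ≤ c1 * (2 * s - ρ z) * K := by gcongr
        _ ≤ c1 * M * K := by gcongr
        _ ≤ RV / 4 := hc1b
    have hzm : z - μ • ν ∈ ball p RV := by
      rw [mem_ball, dist_eq_norm, show z - μ • ν - p = (z - p) - (s : ℂ) • ν - (μ - s) • ν by
        rw [sub_smul]; abel]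
      have a1 := norm_sub_le ((z - p) - (s : ℂ) • ν) ((μ - s) • ν)
      have a2 := norm_sub_le (z - p) ((s : ℂ) • ν)
      rw [hnormν] at a1 a2
      rw [Complex.norm_real, Real.norm_eq_abs, abs_of_pos hs] at a2
      linarith
    rw [hVm]
    refine ⟨?_, hzm⟩
    have h3 := desc z hzb s hs.le hzs
    have h4 := (abs_le.1 (lip _ hzs _ hzm)).2
    have e4 : z - μ • ν - (z - (s : ℂ) • ν) = -((μ - s) • ν) := by
      rw [sub_smul]; abel
    rw [e4, norm_neg, hnormν] at h4
    have h5 : L * (‖μ - s‖ * K) ≤ 2 * s - ρ z := by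
      have hpos : 0 ≤ 2 * s - ρ z := by linarith
      calc L * (‖μ - s‖ * K) ≤ L * (c1 * (2 * s - ρ z) * K) := by gcongr
        _ = c1 * (L * K) * (2 * s - ρ z) := by ring
        _ ≤ 1 * (2 * s - ρ z) := by gcongr
        _ = 2 * s - ρ z := one_mul _
    linarith
  have inV0 : ∀ z, ‖z - p‖ < R0 → ∀ s, 0 < s → s ≤ ts → ρ z < 2 * s → z - (s : ℂ) • ν ∈ V := by
    intro z hz s hs hs' hρz
    refine inV z hz s hs hs' hρz s ?_
    rw [sub_self, norm_zero]
    exact mul_pos hc1 (by linarith)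
  -- the exponent
  obtain ⟨A, hA⟩ := exists_nat_ge (max 1 (Real.exp Real.pi / c1))
  have hA1 : (1 : ℝ) ≤ A := (le_max_left _ _).trans hA
  have hA2 : Real.exp Real.pi / c1 ≤ A := (le_max_right _ _).trans hA
  -- the function along the line
  obtain ⟨φ, hφ⟩ : ∃ φ : Cn n → ℂ → ℂ, φ = fun z μ => Complex.log (-G (z - μ • ν)) := ⟨_, rfl⟩
  have hGline : ∀ z, ‖z - p‖ < R0 → ∀ s, 0 < s → s ≤ ts → ρ z < 2 * s → ∀ μ : ℂ,
      ‖μ - s‖ < c1 * (2 * s - ρ z) → DifferentiableAt ℂ (fun μ : ℂ => -G (z - μ • ν)) μ := by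
    intro z hz s hs hs' hρz μ hμ
    have h1 := inV z hz s hs hs' hρz μ hμ
    have h2 : DifferentiableAt ℂ G (z - μ • ν) := (hGd _ h1).differentiableAt (hVo.mem_nhds h1)
    have h3 : DifferentiableAt ℂ (fun μ : ℂ => z - μ • ν) μ := by fun_prop
    exact (h2.comp μ h3).neg
  have hder : ∀ z, ‖z - p‖ < R0 → ∀ s, 0 < s → s ≤ ts → ρ z < 2 * s →
      HasDerivAt (fun y : ℝ => φ z y) (deriv (φ z) s) s ∧
      ‖deriv (φ z) s‖ ≤ 2 * A / (2 * s - ρ z) := by
    intro z hz s hs hs' hρz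
    have hpos : 0 < 2 * s - ρ z := by linarith
    have hR : 0 < c1 * (2 * s - ρ z) := by positivity
    have hre : ∀ μ : ℂ, ‖μ - s‖ < c1 * (2 * s - ρ z) → 0 < (-G (z - μ • ν)).re := by
      intro μ hμ
      have := hG1 _ (inV z hz s hs hs' hρz μ hμ)
      linarith
    have hgl := hGline z hz s hs hs' hρz
    constructor
    · have h1 : DifferentiableAt ℂ (φ z) s := by
        rw [hφ]
        have h0 : ‖(s : ℂ) - s‖ < c1 * (2 * s - ρ z) := by rw [sub_self, norm_zero]; exact hR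
        exact (hgl s h0).clog (Or.inl (hre s h0))
      exact h1.hasDerivAt.comp_ofReal
    · have h1 := fam_cauchy (g := fun μ : ℂ => -G (z - μ • ν)) (c := s) hR hgl hre
      have h2 : deriv (φ z) s = deriv (fun μ : ℂ => Complex.log (-G (z - μ • ν))) s := by rw [hφ]
      rw [h2]
      refine h1.trans ?_
      have h3 : 2 * Real.exp Real.pi / (c1 * (2 * s - ρ z)) =
          2 * (Real.exp Real.pi / c1) / (2 * s - ρ z) := by field_simp
      rw [h3]
      gcongr
  refine ⟨ν, ts, 2 * A, ?_⟩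
  -- the bound on a compact set
  obtain ⟨B, hB⟩ : ∃ B, ∀ x ∈ closedBall p (RV / 2) ∩ {x | ρ x ≤ -ts}, ‖G x‖ ≤ B := by
    apply IsCompact.exists_bound_of_continuousOn
    · exact (isCompact_closedBall _ _).inter_right (isClosed_le hρc continuous_const)
    · refine hGd.continuousOn.mono ?_
      rintro x ⟨hx1, hx2⟩
      rw [hVm]
      rw [mem_ofPred_eq] at hx2
      rw [mem_closedBall] at hx1
      exact ⟨by linarith, by rw [mem_ball]; linarith⟩
  refine ⟨|B| * M ^ A, A, fun t z => -G (z - (t : ℂ) • ν), hts, by positivity, by positivity,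
    by exact_mod_cast hA1, ⟨?_, ?_, ?_, ?_⟩, ?_⟩
  · -- hol
    intro t ht z hz
    have h1 := inV0 z hz.1 t ht.1 ht.2.le hz.2
    have h2 : DifferentiableAt ℂ G (z - (t : ℂ) • ν) :=
      (hGd _ h1).differentiableAt (hVo.mem_nhds h1)
    have h3 : DifferentiableAt ℂ (fun z : Cn n => z - (t : ℂ) • ν) z := by fun_prop
    exact ((h2.comp z h3).neg).differentiableWithinAt
  · -- re1
    intro t ht z hz hz2
    exact hG1 _ (inV0 z hz t ht.1 ht.2.le hz2)
  · -- lip
    intro t' t ht' htt ht z hz hz2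
    have hpos : 0 < (t' - ρ z) + t' := by linarith
    have h1 : ‖φ z t - φ z t'‖ ≤ 2 * A / ((t' - ρ z) + t') * ‖t - t'‖ := by
      refine (convex_Icc t' t).norm_image_sub_le_of_norm_hasDerivWithin_le
        (f := fun y : ℝ => φ z y) (f' := fun y : ℝ => deriv (φ z) y) ?_ ?_ ?_ ?_
      · intro x hx
        exact (hder z hz x (by linarith [hx.1]) (by linarith [hx.2])
          (by linarith [hx.1])).1.hasDerivWithinAt
      · intro x hx
        refine (hder z hz x (by linarith [hx.1]) (by linarith [hx.2]) (by linarith [hx.1])).2.trans ?_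
        apply div_le_div_of_nonneg_left (by positivity) hpos
        linarith [hx.1]
      · exact left_mem_Icc.2 htt
      · exact right_mem_Icc.2 htt
    have h2 : ‖t - t'‖ ≤ t := by
      rw [Real.norm_eq_abs, abs_of_nonneg (by linarith)]; linarith
    have h3 : ‖φ z t' - φ z t‖ ≤ 2 * A * t / ((t' - ρ z) + t') := by
      rw [norm_sub_rev]
      refine h1.trans ?_
      calc 2 * A / ((t' - ρ z) + t') * ‖t - t'‖ ≤ 2 * A / ((t' - ρ z) + t') * t := by gcongr
        _ = 2 * A * t / ((t' - ρ z) + t') := by ring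
    rw [hφ] at h3
    exact h3
  · -- grow
    intro t ht z hz hz2
    obtain ⟨ht0, ht1⟩ := ht
    have hpos : 0 < 2 * t - ρ z := by linarith
    have hpos2 : 0 < 2 * ts - ρ z := by linarith
    have h1 : ‖φ z ts - φ z t‖ ≤ A * (Real.log (2 * ts - ρ z) - Real.log (2 * t - ρ z)) := by
      have hcont : ∀ x ∈ Icc t ts, HasDerivAt (fun y : ℝ => φ z y - φ z t) (deriv (φ z) x) x := by
        intro x hx
        exact (hder z hz x (by linarith [hx.1]) hx.2 (by linarith [hx.1])).1.sub_const _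
      have hlogd : ∀ x ∈ Icc t ts, HasDerivAt
          (fun y : ℝ => A * (Real.log (2 * y - ρ z) - Real.log (2 * t - ρ z)))
          (2 * A / (2 * x - ρ z)) x := by
        intro x hx
        have hx0 : 2 * x - ρ z ≠ 0 := by
          have := hx.1
          intro h; linarith
        have e1 : HasDerivAt (fun y : ℝ => 2 * y - ρ z) 2 x := by
          simpa using ((hasDerivAt_id x).const_mul 2).sub_const (ρ z)
        have e2 := ((e1.log hx0).sub_const (Real.log (2 * t - ρ z))).const_mul (A : ℝ)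
        have e3 : (A : ℝ) * (2 / (2 * x - ρ z)) = 2 * A / (2 * x - ρ z) := by ring
        rw [← e3]
        exact e2
      have := image_norm_le_of_norm_deriv_right_le_deriv_boundary' (a := t) (b := ts)
        (f := fun y : ℝ => φ z y - φ z t) (f' := fun x : ℝ => deriv (φ z) x)
        (B := fun y : ℝ => A * (Real.log (2 * y - ρ z) - Real.log (2 * t - ρ z)))
        (B' := fun x => 2 * A / (2 * x - ρ z))
        (fun x hx => (hcont x hx).continuousAt.continuousWithinAt)
        (fun x hx => (hcont x ⟨hx.1, hx.2.le⟩).hasDerivWithinAt)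
        (by simp)
        (fun x hx => (hlogd x hx).continuousAt.continuousWithinAt)
        (fun x hx => (hlogd x ⟨hx.1, hx.2.le⟩).hasDerivWithinAt)
        (fun x hx => (hder z hz x (by linarith [hx.1]) hx.2.le (by linarith [hx.1])).2)
      exact this (right_mem_Icc.2 ht1.le)
    have hVt := inV0 z hz t ht0 ht1.le (by linarith)
    have hVts := inV0 z hz ts hts le_rfl (by linarith)
    have hne : ∀ x ∈ V, -G x ≠ 0 := by
      intro x hx h
      have := hG1 x hx
      rw [h] at this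
      norm_num at this
    have hexp : ∀ x ∈ V, ‖-G x‖ = Real.exp (Complex.log (-G x)).re := by
      intro x hx
      rw [← Complex.norm_exp, Complex.exp_log (hne x hx)]
    have h2 : (φ z t).re ≤ (φ z ts).re +
        A * (Real.log (2 * ts - ρ z) - Real.log (2 * t - ρ z)) := by
      have h3 := (Complex.abs_re_le_norm (φ z ts - φ z t)).trans h1
      rw [Complex.sub_re, abs_le] at h3
      linarith [h3.1]
    have hφt : φ z t = Complex.log (-G (z - (t : ℂ) • ν)) := by rw [hφ]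
    have hφts : φ z ts = Complex.log (-G (z - (ts : ℂ) • ν)) := by rw [hφ]
    have h4 : ‖-G (z - (t : ℂ) • ν)‖ ≤ ‖-G (z - (ts : ℂ) • ν)‖ *
        Real.exp (A * (Real.log (2 * ts - ρ z) - Real.log (2 * t - ρ z))) := by
      rw [hexp _ hVt, hexp _ hVts, ← Real.exp_add, ← hφt, ← hφts]
      exact Real.exp_le_exp.2 h2
    have h5 : ‖-G (z - (ts : ℂ) • ν)‖ ≤ |B| := by
      rw [norm_neg]
      refine (hB _ ⟨?_, ?_⟩).trans (le_abs_self B)
      · rw [mem_closedBall, dist_eq_norm,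
          show z - (ts : ℂ) • ν - p = (z - p) - (ts : ℂ) • ν by abel]
        have a2 := norm_sub_le (z - p) ((ts : ℂ) • ν)
        rw [hnormν, Complex.norm_real, Real.norm_eq_abs, abs_of_pos hts, htsK] at a2
        linarith
      · rw [mem_ofPred_eq]
        have hzb : z ∈ ball p RV := by rw [mem_ball, dist_eq_norm]; linarith
        have := desc z hzb ts hts.le ((hVm _).1 hVts).2
        linarith
    have h6 : Real.exp (A * (Real.log (2 * ts - ρ z) - Real.log (2 * t - ρ z))) =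
        (2 * ts - ρ z) ^ A * ((t - ρ z) + t) ^ (-(A : ℝ)) := by
      have e1 : (t - ρ z) + t = 2 * t - ρ z := by ring
      rw [e1, Real.rpow_def_of_pos hpos, ← Real.rpow_natCast, Real.rpow_def_of_pos hpos2,
        ← Real.exp_add]
      congr 1
      ring
    have h7 : (2 * ts - ρ z) ^ A ≤ M ^ A := by
      have := hMb z hz ts le_rfl
      gcongr
    have h8 : 0 ≤ ((t - ρ z) + t) ^ (-(A : ℝ)) := by
      apply Real.rpow_nonneg; linarith
    calc ‖-G (z - (t : ℂ) • ν)‖ ≤ ‖-G (z - (ts : ℂ) • ν)‖ *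
          ((2 * ts - ρ z) ^ A * ((t - ρ z) + t) ^ (-(A : ℝ))) := by rw [← h6]; exact h4
      _ ≤ |B| * (M ^ A * ((t - ρ z) + t) ^ (-(A : ℝ))) := by gcongr
      _ = |B| * M ^ A * ((t - ρ z) + t) ^ (-(A : ℝ)) := by ring
  · -- last clause
    intro t ht z hz hz2
    have h1 := inV0 z hz t ht.1 ht.2.le hz2
    exact ⟨hVD _ h1, hGre _ h1⟩

end Pool.Agent.Helper123
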