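import Mathlib
import Pool.Agent.H805R2.Base
import Pool.Agent.Helper123.Defs
import Pool.Agent.Helper123.CRX.Holo

/-! Part of the proof of S06843 (MP_fedc70_an). -/

set_option autoImplicit false

open MeasureTheory Metric Set Filter Topology
open scoped ENNReal NNReal ContDiff ComplexConjugate

namespace Pool.Agent.Helper123

open Pool.Agent.H805R2

variable {n : ℕ}

/-- mean value inequality for the derivatives along a segment, the end point being in the closure -/
lemma flat_seg {D : Set (Cn n)} (hDo : IsOpen D) {f : Cn n → ℂ}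
    (hf : ∀ m : ℕ, ContDiffOn ℝ m f D)
    (g : ∀ k : ℕ, Cn n → ContinuousMultilinearMap ℝ (fun _ : Fin k => Cn n) ℂ)
    (hgc : ∀ k, ContinuousOn (g k) (closure D)) (hgf : ∀ k, ∀ z ∈ D, iteratedFDeriv ℝ k f z = g k z)
    (k : ℕ) {x y : Cn n} (hy : y ∈ closure D) (hx : ∀ t ∈ Ico (0 : ℝ) 1, x + t • (y - x) ∈ D)
    {B : ℝ} (hB : ∀ t ∈ Ico (0 : ℝ) 1, ‖g (k + 1) (x + t • (y - x))‖ ≤ B) :
    ‖g k y - g k x‖ ≤ B * ‖y - x‖ := by
  set γ : ℝ → Cn n := fun t => x + t • (y - x) with hγ
  have hγc : Continuous γ := by fun_prop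
  have hγ1 : γ 1 = y := by simp [hγ]
  have hγ0 : γ 0 = x := by simp [hγ]
  have hmaps : MapsTo γ (Icc 0 1) (closure D) := by
    intro t ht
    rcases eq_or_lt_of_le ht.2 with h1 | h1
    · rw [h1, hγ1]; exact hy
    · exact subset_closure (hx t ⟨ht.1, h1⟩)
  have hcont : ContinuousOn (fun t => g k (γ t)) (Icc 0 1) := (hgc k).comp hγc.continuousOn hmaps
  have hder : ∀ t ∈ Ico (0 : ℝ) 1, HasDerivWithinAt (fun t => g k (γ t))
      (fderiv ℝ (iteratedFDeriv ℝ k f) (γ t) (y - x)) (Ici t) t := by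
    intro t ht
    have hD : γ t ∈ D := hx t ht
    have h1 : DifferentiableAt ℝ (iteratedFDeriv ℝ k f) (γ t) := by
      have h2 : ContDiffAt ℝ ((k + 1 : ℕ) : WithTop ℕ∞) f (γ t) :=
        (hf (k + 1)).contDiffAt (hDo.mem_nhds hD)
      exact h2.differentiableAt_iteratedFDeriv (by exact_mod_cast Nat.lt_succ_self k)
    have h3 : HasDerivAt γ (y - x) t := by
      have h4 : HasDerivAt (fun t : ℝ => t • (y - x)) ((1 : ℝ) • (y - x)) t :=
        (hasDerivAt_id t).smul_const (y - x)
      rw [one_smul] at h4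
      exact h4.const_add x
    have h5 : HasDerivAt (fun t => iteratedFDeriv ℝ k f (γ t))
        (fderiv ℝ (iteratedFDeriv ℝ k f) (γ t) (y - x)) t :=
      h1.hasFDerivAt.comp_hasDerivAt t h3
    refine (h5.congr_of_eventuallyEq ?_).hasDerivWithinAt
    filter_upwards [hγc.continuousAt.preimage_mem_nhds (hDo.mem_nhds hD)] with s hs
    exact (hgf k _ hs).symm
  have hbound : ∀ t ∈ Ico (0 : ℝ) 1,
      ‖fderiv ℝ (iteratedFDeriv ℝ k f) (γ t) (y - x)‖ ≤ B * ‖y - x‖ := by
    intro t ht
    refine (ContinuousLinearMap.le_opNorm _ _).trans ?_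
    rw [norm_fderiv_iteratedFDeriv, hgf (k + 1) _ (hx t ht)]
    exact mul_le_mul_of_nonneg_right (hB t ht) (norm_nonneg _)
  have := norm_image_sub_le_of_norm_deriv_right_le_segment hcont hder hbound 1
    ⟨zero_le_one, le_rfl⟩
  simpa [hγ1, hγ0] using this

/-- the defining function near a boundary point -/
lemma flat_geom {ρ : Cn n → ℝ} (hρ : ContDiff ℝ ∞ ρ) (p : Cn n) (hp : fderiv ℝ ρ p ≠ 0) :
    ∃ (ν : Cn n) (c L R : ℝ), 0 < c ∧ 0 < L ∧ 0 < R ∧
      (∀ x ∈ ball p R, ∀ t : ℝ, 0 ≤ t → x - t • ν ∈ ball p R → ρ (x - t • ν) ≤ ρ x - c * t) ∧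
      ∀ x ∈ ball p R, ∀ y ∈ ball p R, ρ y ≤ ρ x + L * ‖y - x‖ := by
  obtain ⟨v, hv⟩ : ∃ v, fderiv ℝ ρ p v ≠ 0 := by
    by_contra hcon
    push Not at hcon
    exact hp (ContinuousLinearMap.ext hcon)
  obtain ⟨ν, hν⟩ : ∃ ν, 0 < fderiv ℝ ρ p ν := by
    rcases lt_or_gt_of_ne hv with h | h
    · exact ⟨-v, by rw [map_neg]; linarith⟩
    · exact ⟨v, h⟩
  have hcont : Continuous (fderiv ℝ ρ) := hρ.continuous_fderiv (by simp)
  have hdiff : ∀ x, DifferentiableAt ℝ ρ x := fun x => (hρ.differentiable (by simp)) x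
  have h1 : ∀ᶠ x in 𝓝 p, fderiv ℝ ρ p ν / 2 < fderiv ℝ ρ x ν := by
    have : Continuous fun x => fderiv ℝ ρ x ν := hcont.clm_apply continuous_const
    exact this.continuousAt.eventually_const_lt (by linarith)
  have h2 : ∀ᶠ x in 𝓝 p, ‖fderiv ℝ ρ x‖ < ‖fderiv ℝ ρ p‖ + 1 :=
    hcont.norm.continuousAt.eventually_lt_const (by linarith)
  obtain ⟨R, hR, hball⟩ := Metric.eventually_nhds_iff_ball.1 (h1.and h2)
  have hmvt : ∀ x ∈ ball p R, ∀ y ∈ ball p R, ∃ z ∈ ball p R, ρ y - ρ x = fderiv ℝ ρ z (y - x) := by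
    intro x hx y hy
    obtain ⟨z, hz, hz'⟩ := domain_mvt (f := ρ) (s := ball p R) (f' := fderiv ℝ ρ)
      (fun x _ => (hdiff x).hasFDerivAt.hasFDerivWithinAt) (convex_ball p R) hx hy
    exact ⟨z, (convex_ball p R).segment_subset hx hy hz, hz'⟩
  refine ⟨ν, fderiv ℝ ρ p ν / 2, ‖fderiv ℝ ρ p‖ + 1, R, by linarith, by positivity, hR, ?_, ?_⟩
  · intro x hx t ht hxt
    obtain ⟨z, hz, hz'⟩ := hmvt x hx _ hxt
    have h3 := (hball z hz).1
    have h4 : x - t • ν - x = -(t • ν) := by abel
    rw [h4, map_neg, map_smul, smul_eq_mul] at hz'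
    nlinarith
  · intro x hx y hy
    obtain ⟨z, hz, hz'⟩ := hmvt x hx y hy
    have h3 := (hball z hz).2.le
    have h4 : fderiv ℝ ρ z (y - x) ≤ ‖fderiv ℝ ρ z‖ * ‖y - x‖ :=
      (le_abs_self _).trans ((fderiv ℝ ρ z).le_opNorm (y - x))
    have h5 : ‖fderiv ℝ ρ z‖ * ‖y - x‖ ≤ (‖fderiv ℝ ρ p‖ + 1) * ‖y - x‖ :=
      mul_le_mul_of_nonneg_right h3 (norm_nonneg _)
    linarith

/-- TARGET. PROOF. Choose nu with d rho(p)(nu)>0; on ball p (2R2) we have d rho(x)(nu) >= c_nu>0 and |d rho|<=L. For e in E near p (rho e=0; frontier D subset {rho=0}), z in D near p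
(rho z<0), put lam0 = (2L/c_nu)|z-e| (R small makes everything stay in ball p (2R2)): the open segments e -> e-lam0 nu -> z-lam0 nu -> z lie in D except e:
rho(e-lam nu) <= -c_nu lam <0 (0<lam<=lam0), rho(x-lam0 nu) <= rho(x)-c_nu lam0 <= L|z-e| - c_nu lam0 <0 for x in the segment [e,z], rho(z-lam nu)<0. All points of the path are within
C|z-e| of e and its length is <= C|z-e|. Let g_k be the continuous extensions of iteratedFDeriv R k f (AInf), g_k(e)=0. Induction on N, for all k:
|iteratedFDeriv R k f z| <= C_{N,k}|z-e|^N. N=0: g_k bounded on the compact closure D (D bounded). N -> N+1: at the points of the path in D, the derivative of iteratedFDeriv k f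
has norm |iteratedFDeriv (k+1) f| <= C|y-e|^N <= C'|z-e|^N; mean value inequality on the three segments (continuity of g_k at e, g_k(e)=0) gives
|iteratedFDeriv k f z| = |g_k(z)-g_k(e)| <= C'|z-e|^N * C|z-e|. k=0 is the claim (f is smooth on D as it is holomorphic there; norm_iteratedFDeriv_zero). -/
theorem flat {D : Set (Cn n)} {ρ : Cn n → ℝ} {c : ℝ} (hD : SPD D ρ c) {E : Set (Cn n)}
    (hE : E ⊆ frontier D) {f : Cn n → ℂ} (hf : AInf D E f) (p : Cn n) (hp : ρ p = 0) :
    ∃ R > 0, ∀ N : ℕ, ∃ C : ℝ, ∀ z ∈ D, ‖z - p‖ < R → ∀ e ∈ E, ‖e - p‖ < R →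
      ‖f z‖ ≤ C * ‖z - e‖ ^ N := by
  obtain ⟨ν, c', L, R2, hc', hL, hR2, hdown, hlip⟩ := flat_geom hD.smooth p (hD.grad p hp)
  obtain ⟨hhol, _, hext, _, _⟩ := hf
  choose g hgc hgf hgE using hext
  have hρc : Continuous ρ := hD.smooth.continuous
  have hDo : IsOpen D := by
    rw [hD.eq]; exact isOpen_lt hρc continuous_const
  have hfr : ∀ e ∈ E, ρ e = 0 ∧ e ∈ closure D := by
    intro e he
    have h1 := hE he
    refine ⟨?_, frontier_subset_closure h1⟩
    rw [hD.eq] at h1
    exact frontier_lt_subset_eq hρc continuous_const h1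
  have hsm : ∀ m : ℕ, ContDiffOn ℝ m f D := fun m =>
    (CRX.Holo.contDiffOn_of_differentiableOn hDo hhol m).restrict_scalars ℝ
  -- bounds for the derivatives
  have hcpt : IsCompact (closure D) := hD.bdd.isCompact_closure
  have hM : ∀ k, ∃ M : ℝ, 0 ≤ M ∧ ∀ z ∈ closure D, ‖g k z‖ ≤ M := by
    intro k
    obtain ⟨M, hM⟩ := hcpt.exists_bound_of_continuousOn (hgc k)
    exact ⟨max M 0, le_max_right _ _, fun z hz => (hM z hz).trans (le_max_left _ _)⟩
  choose M hM0 hM using hM
  set K : ℝ := 1 + 4 * L * ‖ν‖ / c' with hK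
  have hK1 : 1 ≤ K := by
    have : 0 ≤ 4 * L * ‖ν‖ / c' := by positivity
    linarith
  refine ⟨R2 / (2 * K + 1), by positivity, fun N => ⟨M N * K ^ N, ?_⟩⟩
  intro z hz hzR e he heR
  set R := R2 / (2 * K + 1) with hR
  have hRpos : 0 < R := by positivity
  have hRR : R * (2 * K + 1) = R2 := by rw [hR]; field_simp
  obtain ⟨hρe, hec⟩ := hfr e he
  have hρz : ρ z < 0 := by rw [hD.eq] at hz; exact hz
  set δ := ‖z - e‖ with hδ
  have hne : z ≠ e := by
    rintro rfl; linarith
  have hδpos : 0 < δ := norm_pos_iff.2 (sub_ne_zero.2 hne)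
  have hδ2 : δ < 2 * R := by
    calc δ = ‖(z - p) - (e - p)‖ := by rw [hδ]; congr 1; abel
      _ ≤ ‖z - p‖ + ‖e - p‖ := norm_sub_le _ _
      _ < 2 * R := by linarith
  set l0 : ℝ := 2 * L / c' * δ with hl0
  have hl0pos : 0 < l0 := by positivity
  have hcl0 : c' * l0 = 2 * L * δ := by rw [hl0]; field_simp
  have hl0ν : 2 * (l0 * ‖ν‖) = (K - 1) * δ := by rw [hl0, hK]; field_simp; ring
  -- points at distance at most `K δ` from `e` are in the big ball
  have hbig : ∀ w : Cn n, ‖w - e‖ ≤ K * δ → w ∈ ball p R2 := by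
    intro w hw
    rw [mem_ball, dist_eq_norm]
    calc ‖w - p‖ = ‖(w - e) + (e - p)‖ := by congr 1; abel
      _ ≤ ‖w - e‖ + ‖e - p‖ := norm_add_le _ _
      _ < K * (2 * R) + R := by nlinarith
      _ = R2 := by rw [← hRR]; ring
  have heb : e ∈ ball p R2 := hbig e (by rw [sub_self, norm_zero]; positivity)
  have hzb : z ∈ ball p R2 := hbig z (by nlinarith)
  -- first part of the path
  have hP1 : ∀ t : ℝ, 0 < t → t ≤ l0 → e - t • ν ∈ D := by
    intro t ht ht'
    have h1 : e - t • ν ∈ ball p R2 := by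
      apply hbig
      have : e - t • ν - e = -(t • ν) := by abel
      rw [this, norm_neg, norm_smul, Real.norm_of_nonneg ht.le]
      have := mul_le_mul_of_nonneg_right ht' (norm_nonneg ν)
      have := norm_nonneg ν
      nlinarith
    have h2 := hdown e heb t ht.le h1
    rw [hD.eq]
    show ρ (e - t • ν) < 0
    have : 0 < c' * t := by positivity
    linarith
  have hP2 : ∀ s : ℝ, 0 ≤ s → s ≤ 1 → e + s • (z - e) - l0 • ν ∈ D := by
    intro s hs hs'
    have hx : e + s • (z - e) ∈ ball p R2 := by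
      apply hbig
      have : e + s • (z - e) - e = s • (z - e) := by abel
      rw [this, norm_smul, Real.norm_of_nonneg hs, ← hδ]
      nlinarith
    have h1 : e + s • (z - e) - l0 • ν ∈ ball p R2 := by
      apply hbig
      have : e + s • (z - e) - l0 • ν - e = s • (z - e) - l0 • ν := by abel
      rw [this]
      refine (norm_sub_le _ _).trans ?_
      rw [norm_smul, norm_smul, Real.norm_of_nonneg hs, Real.norm_of_nonneg hl0pos.le, ← hδ]
      have := norm_nonneg ν
      nlinarith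
    have h2 := hdown _ hx l0 hl0pos.le h1
    have h3 := hlip e heb _ hx
    have h4 : ‖e + s • (z - e) - e‖ ≤ δ := by
      have : e + s • (z - e) - e = s • (z - e) := by abel
      rw [this, norm_smul, Real.norm_of_nonneg hs, ← hδ]
      nlinarith
    have h5 := mul_le_mul_of_nonneg_left h4 hL.le
    rw [hD.eq]
    show ρ (e + s • (z - e) - l0 • ν) < 0
    have h6 : 0 < L * δ := by positivity
    linarith
  have hP3 : ∀ t : ℝ, 0 ≤ t → t ≤ l0 → z - t • ν ∈ D := by
    intro t ht ht'
    have h1 : z - t • ν ∈ ball p R2 := by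
      apply hbig
      have : z - t • ν - e = (z - e) - t • ν := by abel
      rw [this]
      refine (norm_sub_le _ _).trans ?_
      rw [norm_smul, Real.norm_of_nonneg ht, ← hδ]
      have := mul_le_mul_of_nonneg_right ht' (norm_nonneg ν)
      have := norm_nonneg ν
      nlinarith
    have h2 := hdown z hzb t ht h1
    rw [hD.eq]
    show ρ (z - t • ν) < 0
    have : 0 ≤ c' * t := by positivity
    linarith
  -- the claim along the path
  have key : ∀ N : ℕ, ∀ k : ℕ,
      (∀ t : ℝ, 0 < t → t ≤ l0 → ‖g k (e - t • ν)‖ ≤ M (k + N) * (K * δ) ^ N) ∧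
      (∀ s : ℝ, 0 ≤ s → s ≤ 1 → ‖g k (e + s • (z - e) - l0 • ν)‖ ≤ M (k + N) * (K * δ) ^ N) ∧
      (∀ t : ℝ, 0 ≤ t → t ≤ l0 → ‖g k (z - t • ν)‖ ≤ M (k + N) * (K * δ) ^ N) := by
    intro N
    induction N with
    | zero =>
      intro k
      simp only [pow_zero, mul_one, add_zero]
      exact ⟨fun t h1 h2 => hM k _ (subset_closure (hP1 t h1 h2)),
        fun s h1 h2 => hM k _ (subset_closure (hP2 s h1 h2)),
        fun t h1 h2 => hM k _ (subset_closure (hP3 t h1 h2))⟩
    | succ N ih =>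
      intro k
      obtain ⟨i1, i2, i3⟩ := ih (k + 1)
      set B : ℝ := M (k + 1 + N) * (K * δ) ^ N with hB
      have hB0 : 0 ≤ B := mul_nonneg (hM0 _) (by positivity)
      have hgoal : M (k + (N + 1)) * (K * δ) ^ (N + 1) = B * (K * δ) := by
        rw [hB, pow_succ, show k + (N + 1) = k + 1 + N by ring]; ring
      rw [hgoal]
      -- first segment
      have s1 : ∀ t : ℝ, 0 < t → t ≤ l0 → ‖g k (e - t • ν)‖ ≤ B * (l0 * ‖ν‖) := by
        intro t ht ht'
        have h1 : ∀ s : ℝ, (e - t • ν) + s • (e - (e - t • ν)) = e - (t * (1 - s)) • ν := by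
          intro s
          have : e - (e - t • ν) = t • ν := by abel
          rw [this, smul_smul, mul_sub, mul_one, sub_smul, mul_comm s t]
          abel
        have h2 := flat_seg hDo hsm g hgc hgf k (x := e - t • ν) (y := e) hec
          (fun s hs => by
            rw [h1]
            exact hP1 _ (mul_pos ht (by linarith [hs.2])) (by nlinarith [hs.1, hs.2]))
          (B := B) (fun s hs => by
            rw [h1]
            exact i1 _ (mul_pos ht (by linarith [hs.2])) (by nlinarith [hs.1, hs.2]))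
        rw [hgE k e he, zero_sub, norm_neg] at h2
        refine h2.trans (mul_le_mul_of_nonneg_left ?_ hB0)
        have : e - (e - t • ν) = t • ν := by abel
        rw [this, norm_smul, Real.norm_of_nonneg ht.le]
        exact mul_le_mul_of_nonneg_right ht' (norm_nonneg ν)
      -- second segment
      have s2 : ∀ s : ℝ, 0 ≤ s → s ≤ 1 → ‖g k (e + s • (z - e) - l0 • ν)‖ ≤
          B * (l0 * ‖ν‖) + B * δ := by
        intro s hs hs'
        have h1 : ∀ r : ℝ, (e - l0 • ν) + r • ((e + s • (z - e) - l0 • ν) - (e - l0 • ν)) =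
            e + (r * s) • (z - e) - l0 • ν := by
          intro r
          have : (e + s • (z - e) - l0 • ν) - (e - l0 • ν) = s • (z - e) := by abel
          rw [this, smul_smul]
          abel
        have h2 := flat_seg hDo hsm g hgc hgf k (x := e - l0 • ν) (y := e + s • (z - e) - l0 • ν)
          (subset_closure (hP2 s hs hs'))
          (fun r hr => by
            rw [h1]
            exact hP2 _ (mul_nonneg hr.1 hs) (by nlinarith [hr.1, hr.2]))
          (B := B) (fun r hr => by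
            rw [h1]
            exact i2 _ (mul_nonneg hr.1 hs) (by nlinarith [hr.1, hr.2]))
        have h3 := s1 l0 hl0pos le_rfl
        have h4 : ‖e + s • (z - e) - l0 • ν - (e - l0 • ν)‖ ≤ δ := by
          have : (e + s • (z - e) - l0 • ν) - (e - l0 • ν) = s • (z - e) := by abel
          rw [this, norm_smul, Real.norm_of_nonneg hs, ← hδ]
          nlinarith
        have h5 := mul_le_mul_of_nonneg_left h4 hB0
        calc ‖g k (e + s • (z - e) - l0 • ν)‖
            = ‖g k (e - l0 • ν) + (g k (e + s • (z - e) - l0 • ν) - g k (e - l0 • ν))‖ := by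
              congr 1; abel
          _ ≤ ‖g k (e - l0 • ν)‖ + ‖g k (e + s • (z - e) - l0 • ν) - g k (e - l0 • ν)‖ :=
              norm_add_le _ _
          _ ≤ B * (l0 * ‖ν‖) + B * δ := add_le_add h3 (h2.trans h5)
      -- third segment
      have s3 : ∀ t : ℝ, 0 ≤ t → t ≤ l0 → ‖g k (z - t • ν)‖ ≤
          B * (l0 * ‖ν‖) + B * δ + B * (l0 * ‖ν‖) := by
        intro t ht ht'
        have h1 : ∀ r : ℝ, (z - l0 • ν) + r • ((z - t • ν) - (z - l0 • ν)) =
            z - (l0 - r * (l0 - t)) • ν := by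
          intro r
          have : (z - t • ν) - (z - l0 • ν) = (l0 - t) • ν := by rw [sub_smul]; abel
          rw [this, smul_smul, sub_smul]
          abel
        have h2 := flat_seg hDo hsm g hgc hgf k (x := z - l0 • ν) (y := z - t • ν)
          (subset_closure (hP3 t ht ht'))
          (fun r hr => by
            rw [h1]
            exact hP3 _ (by nlinarith [hr.1, hr.2]) (by nlinarith [hr.1, hr.2]))
          (B := B) (fun r hr => by
            rw [h1]
            exact i3 _ (by nlinarith [hr.1, hr.2]) (by nlinarith [hr.1, hr.2]))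
        have h3 := s2 1 zero_le_one le_rfl
        have h3' : e + (1 : ℝ) • (z - e) - l0 • ν = z - l0 • ν := by rw [one_smul]; abel
        rw [h3'] at h3
        have h4 : ‖z - t • ν - (z - l0 • ν)‖ ≤ l0 * ‖ν‖ := by
          have : (z - t • ν) - (z - l0 • ν) = (l0 - t) • ν := by rw [sub_smul]; abel
          rw [this, norm_smul, Real.norm_of_nonneg (by linarith)]
          have := norm_nonneg ν
          nlinarith
        have h5 := mul_le_mul_of_nonneg_left h4 hB0
        calc ‖g k (z - t • ν)‖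
            = ‖g k (z - l0 • ν) + (g k (z - t • ν) - g k (z - l0 • ν))‖ := by
              congr 1; abel
          _ ≤ ‖g k (z - l0 • ν)‖ + ‖g k (z - t • ν) - g k (z - l0 • ν)‖ :=
              norm_add_le _ _
          _ ≤ B * (l0 * ‖ν‖) + B * δ + B * (l0 * ‖ν‖) := add_le_add h3 (h2.trans h5)
      have htot : B * (l0 * ‖ν‖) + B * δ + B * (l0 * ‖ν‖) = B * (K * δ) := by
        calc B * (l0 * ‖ν‖) + B * δ + B * (l0 * ‖ν‖) = B * (2 * (l0 * ‖ν‖) + δ) := by ring
          _ = B * (K * δ) := by rw [hl0ν]; ring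
      have hx1 : 0 ≤ B * (l0 * ‖ν‖) := by positivity
      have hx2 : 0 ≤ B * δ := by positivity
      exact ⟨fun t h1 h2 => (s1 t h1 h2).trans (by linarith),
        fun s h1 h2 => (s2 s h1 h2).trans (by linarith),
        fun t h1 h2 => (s3 t h1 h2).trans htot.le⟩
  have hfin := (key N 0).2.2 0 le_rfl hl0pos.le
  rw [zero_smul, sub_zero, ← hgf 0 z hz, norm_iteratedFDeriv_zero, zero_add, mul_pow,
    ← mul_assoc] at hfin
  exact hfin

end Pool.Agent.Helper123
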