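import Mathlib
import Pool.Agent.Helper123.Defs

/-! Interfaces for the two patching steps (MP_fedc70_an). -/

set_option autoImplicit false

open MeasureTheory Metric Set Filter Topology
open scoped ENNReal NNReal ContDiff ComplexConjugate

namespace Pool.Agent.Helper123

open Pool.Agent.H805R2

variable {n : ℕ}

/-- the set `W_l` of points at distance `> 2^{-l}` from `F`, in a thin outer neighbourhood -/
def Wl (p : Cn n) (R : ℝ) (r : Cn n → ℝ) (F : Set (Cn n)) (t0 : ℝ) (β l : ℕ) : Set (Cn n) :=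
  {z | ‖z - p‖ < R ∧ r z < tk t0 β (l + 1) ∧ (1 / 2) ^ l < infDist z F}

/-- properties of the patched logarithms `L_k` (step 1) -/
structure LSeq (p : Cn n) (R : ℝ) (r : Cn n → ℝ) (F : Set (Cn n)) (g : ℝ → Cn n → ℂ) (t0 : ℝ)
    (β : ℕ) (ε : ℝ) (L : ℕ → Cn n → ℂ) (Cm : ℝ) (m : ℕ) : Prop where
  hol : ∀ k, DifferentiableOn ℂ (L k) {z | ‖z - p‖ < R ∧ r z < tk t0 β k}
  im : ∀ k z, ‖z - p‖ < R → r z < tk t0 β k → |(L k z).im| ≤ Real.pi / 2 + ε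
  re : ∀ k z, ‖z - p‖ < R → r z < tk t0 β k → -ε ≤ (L k z).re
  up : ∀ k z, ‖z - p‖ < R → r z < tk t0 β k → Real.exp ((L k z).re) ≤ Cm * 2 ^ (m * k)
  near : ∀ k z, ‖z - p‖ < R → r z < tk t0 β k → infDist z F ≤ (1 / 2) ^ k →
    ‖L k z - Complex.log (g (tk t0 β k) z)‖ ≤ ε
  holW : ∀ l k, l < k → DifferentiableOn ℂ (L k) (Wl p R r F t0 β l)
  bdW : ∀ l k, l < k → ∀ z ∈ Wl p R r F t0 β l, Real.exp ((L k z).re) ≤ Cm * 2 ^ (m * l)

/-- properties of the terms `T_k` of the series for `G` (step 2) -/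
structure TSeq (p : Cn n) (R : ℝ) (r : Cn n → ℝ) (F : Set (Cn n)) (g : ℝ → Cn n → ℂ) (t0 : ℝ)
    (β : ℕ) (T : ℕ → Cn n → ℂ) (Cm : ℝ) (m : ℕ) : Prop where
  hol : ∀ k, DifferentiableOn ℂ (T k) {z | ‖z - p‖ < R ∧ r z < tk t0 β (k + 1)}
  bd : ∀ k z, ‖z - p‖ < R → r z < tk t0 β (k + 1) → ‖T k z‖ ≤ Cm * 2 ^ (m * k)
  holW : ∀ l k, l < k → DifferentiableOn ℂ (T k) (Wl p R r F t0 β l)
  bdW : ∀ l k, l < k → ∀ z ∈ Wl p R r F t0 β l, ‖T k z‖ ≤ Cm * 2 ^ (m * l) * (1 / 2) ^ k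
  re : ∀ k z, ‖z - p‖ < R → r z < tk t0 β (k + 1) →
    th F k z * ((g (tk t0 β (k + 1)) z).re - (g (tk t0 β k) z).re) ≤ (T k z).re

end Pool.Agent.Helper123
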