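import Mathlib
import Pool.Agent.H805R2.IBP
import Pool.Agent.Helper123.Defs

/-! Part of the proof of S06843 (MP_fedc70_an). -/

set_option autoImplicit false

open MeasureTheory Metric Set Filter Topology
open scoped ENNReal NNReal ContDiff ComplexConjugate

namespace Pool.Agent.Helper123

open Pool.Agent.H805R2

variable {n : ℕ}

/-- `f` has the Wirtinger derivative `d` in the `k`-th antiholomorphic direction at `z` -/
def Dq_H (k : Fin n) (f : Cn n → ℂ) (d : ℂ) (z : Cn n) : Prop :=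
  ∃ L : Cn n →L[ℝ] ℂ, HasFDerivAt f L z ∧ (L (bas k) + Complex.I * L (Complex.I • bas k)) / 2 = d

lemma Dq_H.wdb_eq {k : Fin n} {f : Cn n → ℂ} {d : ℂ} {z : Cn n} (h : Dq_H k f d z) :
    wdb k f z = d := by
  obtain ⟨L, hL, rfl⟩ := h
  unfold wdb
  rw [hL.fderiv]

lemma Dq_of_diff (k : Fin n) {f : Cn n → ℂ} {z : Cn n} (h : DifferentiableAt ℝ f z) :
    Dq_H k f (wdb k f z) z := ⟨_, h.hasFDerivAt, rfl⟩

lemma Dq_const (k : Fin n) (c : ℂ) (z : Cn n) : Dq_H k (fun _ => c) 0 z :=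
  ⟨0, hasFDerivAt_const c z, by simp⟩

lemma Dq_add {k : Fin n} {f g : Cn n → ℂ} {a b : ℂ} {z : Cn n} (hf : Dq_H k f a z)
    (hg : Dq_H k g b z) : Dq_H k (fun x => f x + g x) (a + b) z := by
  obtain ⟨L, hL, rfl⟩ := hf
  obtain ⟨M, hM, rfl⟩ := hg
  refine ⟨L + M, hL.add hM, ?_⟩
  simp only [add_apply]
  ring

lemma Dq_neg {k : Fin n} {f : Cn n → ℂ} {a : ℂ} {z : Cn n} (hf : Dq_H k f a z) :
    Dq_H k (fun x => - f x) (-a) z := by
  obtain ⟨L, hL, rfl⟩ := hf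
  refine ⟨-L, hL.neg, ?_⟩
  simp only [neg_apply]
  ring

lemma Dq_sub {k : Fin n} {f g : Cn n → ℂ} {a b : ℂ} {z : Cn n} (hf : Dq_H k f a z)
    (hg : Dq_H k g b z) : Dq_H k (fun x => f x - g x) (a - b) z := by
  have := Dq_add hf (Dq_neg hg)
  simpa only [← sub_eq_add_neg] using this

lemma Dq_mul {k : Fin n} {f g : Cn n → ℂ} {a b : ℂ} {z : Cn n} (hf : Dq_H k f a z)
    (hg : Dq_H k g b z) : Dq_H k (fun x => f x * g x) (a * g z + f z * b) z := by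
  obtain ⟨L, hL, rfl⟩ := hf
  obtain ⟨M, hM, rfl⟩ := hg
  refine ⟨_, hL.mul hM, ?_⟩
  simp only [add_apply, smul_apply, smul_eq_mul]
  ring

lemma Dq_inv {k : Fin n} {f : Cn n → ℂ} {a : ℂ} {z : Cn n} (hf : Dq_H k f a z)
    (h0 : f z ≠ 0) : Dq_H k (fun x => (f x)⁻¹) (-a / f z ^ 2) z := by
  obtain ⟨L, hL, rfl⟩ := hf
  have h1 : HasFDerivAt (fun y : ℂ => y⁻¹)
      ((ContinuousLinearMap.toSpanSingleton ℂ (-(f z ^ 2)⁻¹)).restrictScalars ℝ) (f z) :=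
    (hasDerivAt_inv h0).hasFDerivAt.restrictScalars ℝ
  refine ⟨_, h1.comp z hL, ?_⟩
  simp
  ring

lemma Dq_div {k : Fin n} {f g : Cn n → ℂ} {a b : ℂ} {z : Cn n} (hf : Dq_H k f a z)
    (hg : Dq_H k g b z) (h0 : g z ≠ 0) :
    Dq_H k (fun x => f x / g x) (a / g z - f z * b / g z ^ 2) z := by
  have h := Dq_mul hf (Dq_inv hg h0)
  have e : a * (g z)⁻¹ + f z * (-b / g z ^ 2) = a / g z - f z * b / g z ^ 2 := by ring
  rw [e] at h
  exact h

lemma Dq_sum {k : Fin n} {ι : Type} (s : Finset ι) {f : ι → Cn n → ℂ} {a : ι → ℂ} {z : Cn n}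
    (hf : ∀ i ∈ s, Dq_H k (f i) (a i) z) : Dq_H k (fun x => ∑ i ∈ s, f i x) (∑ i ∈ s, a i) z := by
  classical
  induction s using Finset.induction_on with
  | empty => simpa using Dq_const k 0 z
  | insert i s hi ih =>
    simp only [Finset.sum_insert hi]
    exact Dq_add (hf i (Finset.mem_insert_self _ _))
      (ih fun j hj => hf j (Finset.mem_insert_of_mem hj))

lemma Dq_coord (k j : Fin n) (z : Cn n) : Dq_H k (fun x => x j) 0 z := by
  refine ⟨(EuclideanSpace.proj (𝕜 := ℂ) j).restrictScalars ℝ,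
    ((EuclideanSpace.proj (𝕜 := ℂ) j).restrictScalars ℝ).hasFDerivAt, ?_⟩
  show ((bas k : Cn n) j + Complex.I * (Complex.I * (bas k : Cn n) j)) / 2 = 0
  rw [← mul_assoc, Complex.I_mul_I]
  ring

lemma Dq_conj (k j : Fin n) (z : Cn n) :
    Dq_H k (fun x => conj (x j)) (if j = k then 1 else 0) z := by
  refine ⟨(Complex.conjCLE : ℂ →L[ℝ] ℂ).comp ((EuclideanSpace.proj (𝕜 := ℂ) j).restrictScalars ℝ),
    ((Complex.conjCLE : ℂ →L[ℝ] ℂ).comp
      ((EuclideanSpace.proj (𝕜 := ℂ) j).restrictScalars ℝ)).hasFDerivAt, ?_⟩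
  have h1 : (bas k : Cn n) j = if j = k then 1 else 0 := by
    unfold bas
    simp
  show (conj ((bas k : Cn n) j) + Complex.I * conj (Complex.I * (bas k : Cn n) j)) / 2 = _
  rw [h1]
  by_cases h : j = k
  · simp [h]
  · simp [h]

lemma Dq_sm {f : Cn n → ℂ} (h : ContDiff ℝ ∞ f) (z : Cn n) : DifferentiableAt ℝ f z :=
  (h.differentiable (by simp)).differentiableAt

lemma Dq_w (D : KD n) (k j : Fin n) (ζ z : Cn n) :
    Dq_H k (fun x => D.w j x z) (D.Dw k j ζ z) ζ := by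
  unfold KD.w KD.Dw
  refine Dq_add (Dq_of_diff k (Dq_sm (D.ha j) ζ)) (Dq_sum _ fun l _ => ?_)
  have h := Dq_mul (Dq_of_diff k (Dq_sm (D.hb j l) ζ)) (Dq_sub (Dq_coord k l ζ) (Dq_const k (z l) ζ))
  simpa using h

lemma Dq_r (D : KD n) (τ : ℝ) (k : Fin n) (ζ : Cn n) :
    Dq_H k (fun x => ((τ - D.r x : ℝ) : ℂ)) (- wdb k (fun x => (D.r x : ℂ)) ζ) ζ := by
  have hr : ContDiff ℝ ∞ (fun x => (D.r x : ℂ)) := Complex.ofRealCLM.contDiff.comp D.hr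
  have h := Dq_sub (Dq_const k (τ : ℂ) ζ) (Dq_of_diff k (Dq_sm hr ζ))
  simpa using h

lemma Dq_W1 (D : KD n) (τ : ℝ) (k : Fin n) (ζ z : Cn n) :
    Dq_H k (fun x => D.W1 τ x z) (D.DW1 k ζ z) ζ := by
  unfold KD.W1 KD.DW1 KD.pw
  refine Dq_add (Dq_r D τ k ζ) (Dq_sum _ fun l _ => ?_)
  have h := Dq_mul (Dq_w D k l ζ z) (Dq_sub (Dq_coord k l ζ) (Dq_const k (z l) ζ))
  simpa using h

lemma Dq_a1 (D : KD n) (τ : ℝ) (k : Fin n) (ζ z : Cn n) (h1 : D.W1 τ ζ z ≠ 0) :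
    Dq_H k (fun x => D.a1 τ x z) (D.Da1 τ k ζ z) ζ := by
  unfold KD.a1 KD.Da1
  exact Dq_div (Dq_r D τ k ζ) (Dq_W1 D τ k ζ z) h1

lemma Dq_conj' (k j : Fin n) (p z : Cn n) :
    Dq_H k (fun x => conj (x j - p j)) (if j = k then 1 else 0) z := by
  have h := Dq_sub (Dq_conj k j z) (Dq_const k (conj (p j)) z)
  simpa using h

lemma Dq_W2 (p : Cn n) (R : ℝ) (k : Fin n) (ζ z : Cn n) :
    Dq_H k (fun x => W2 p R x z) (-(z k - p k)) ζ := by
  unfold W2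
  have h := Dq_sub (Dq_const k (((R ^ 2 : ℝ) : ℂ)) ζ)
    (Dq_sum Finset.univ fun j _ => Dq_mul (Dq_conj' k j p ζ) (Dq_const k (z j - p j) ζ))
  simpa using h

/-- TARGET. PROOF. Calculus: near zeta all functions are smooth/differentiable over R. With wdb k a derivation (fderiv rules), wdb k (zeta_j) = 0,
wdb k (conj zeta_j) = if j = k then 1 else 0, wdb k of a constant 0: wdb k w_j = Dw k j, wdb k W1 = DW1 k, wdb k a1 = Da1 k, wdb k W2 = -(z_k-p_k),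
quotient rule. -/
theorem Dq_eq (D : KD n) (p : Cn n) (R τ : ℝ) (j k : Fin n) (ζ z : Cn n)
    (h1 : D.W1 τ ζ z ≠ 0) (h2 : W2 p R ζ z ≠ 0) :
    wdb k (fun x => D.q p R τ j x z) ζ = D.Dq p R τ j k ζ z := by
  apply Dq_H.wdb_eq
  have hq := Dq_sub (Dq_div (Dq_neg (Dq_w D k j ζ z)) (Dq_W1 D τ k ζ z) h1)
    (Dq_div (Dq_mul (Dq_a1 D τ k ζ z h1) (Dq_conj' k j p ζ)) (Dq_W2 p R k ζ z) h2)
  unfold KD.q
  convert hq using 1
  unfold KD.Dq
  field_simp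
  ring

end Pool.Agent.Helper123
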