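import Mathlib
import Pool.Agent.Helper123.Dq
import Pool.Agent.H805R2.IBP
import Pool.Agent.Helper123.Defs

/-! Part of the proof of S06843 (MP_fedc70_an). -/

set_option autoImplicit false

open MeasureTheory Metric Set Filter Topology
open scoped ENNReal NNReal ContDiff ComplexConjugate

namespace Pool.Agent.Helper123

open Pool.Agent.H805R2

variable {n : ℕ}


theorem kb_bdd {ι : Type} [Finite ι] {X : Type} [TopologicalSpace X] (F : ι → X → ℂ)
    (hF : ∀ i, Continuous (F i)) {K : Set X} (hK : IsCompact K) :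
    ∃ B : ℝ, 0 ≤ B ∧ ∀ i, ∀ x ∈ K, ‖F i x‖ ≤ B := by
  classical
  have := Fintype.ofFinite ι
  choose B hB using fun i => hK.exists_bound_of_continuousOn (hF i).continuousOn
  refine ⟨∑ i, |B i|, Finset.sum_nonneg fun i _ => abs_nonneg _, fun i x hx => ?_⟩
  exact ((hB i x hx).trans (le_abs_self _)).trans
    (Finset.single_le_sum (f := fun i => |B i|) (fun i _ => abs_nonneg _) (Finset.mem_univ i))

theorem kb_det {m : Type} [Fintype m] [DecidableEq m] (N : Matrix m m ℂ) (c : m → ℝ)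
    (h : ∀ i j, ‖N i j‖ ≤ c j) : ‖N.det‖ ≤ (Fintype.card m).factorial * ∏ j, c j := by
  rw [Matrix.det_apply]
  refine (norm_sum_le _ _).trans ?_
  have : ∀ σ ∈ (Finset.univ : Finset (Equiv.Perm m)),
      ‖Equiv.Perm.sign σ • ∏ i, N (σ i) i‖ ≤ ∏ j, c j := by
    intro σ _
    have e : ‖Equiv.Perm.sign σ • ∏ i, N (σ i) i‖ = ‖∏ i, N (σ i) i‖ := by
      rcases Int.units_eq_one_or (Equiv.Perm.sign σ) with h | h
      · rw [h, one_smul]
      · rw [h, Units.neg_smul, one_smul, norm_neg]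
    rw [e, norm_prod]
    exact Finset.prod_le_prod (fun i _ => norm_nonneg _) fun i _ => h _ _
  refine (Finset.sum_le_card_nsmul _ _ _ this).trans (le_of_eq ?_)
  rw [Finset.card_univ, Fintype.card_perm, nsmul_eq_mul]

theorem kb_coord (k : Fin n) : Continuous fun x : Cn n => x k :=
  (EuclideanSpace.proj (𝕜 := ℂ) k).continuous

theorem kb_wdb (k : Fin n) {f : Cn n → ℂ} (hf : ContDiff ℝ ∞ f) : Continuous (wdb k f) := by
  have h : Continuous (fderiv ℝ f) := hf.continuous_fderiv (by simp)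
  have h2 : ∀ v : Cn n, Continuous fun z => fderiv ℝ f z v := fun v => h.clm_apply continuous_const
  unfold wdb
  exact ((h2 _).add (continuous_const.mul (h2 _))).div_const _

/-- all the ingredients are bounded -/
theorem kb_all (D : KD n) (p : Cn n) (R R' : ℝ) :
    ∃ B : ℝ, 1 ≤ B ∧ ∀ ζ ∈ closedBall p R, ∀ z ∈ closedBall p R',
      (∀ j, ‖D.w j ζ z‖ ≤ B) ∧ (∀ k j, ‖D.Dw k j ζ z‖ ≤ B) ∧ (∀ k, ‖D.DW1 k ζ z‖ ≤ B) ∧
      (∀ k, ‖wdb k (fun x => (D.r x : ℂ)) ζ‖ ≤ B) ∧ (∀ j, ‖conj (ζ j - p j)‖ ≤ B) ∧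
      (∀ j, ‖z j - p j‖ ≤ B) ∧ ‖D.pw ζ z‖ ≤ B ∧ |D.r ζ| ≤ B ∧
      ‖((R ^ 2 : ℝ) : ℂ) - ∑ j, conj (ζ j - p j) * (ζ j - p j)‖ ≤ B := by
  have hK : IsCompact (closedBall p R ×ˢ closedBall p R' : Set (Cn n × Cn n)) :=
    (isCompact_closedBall p R).prod (isCompact_closedBall p R')
  have c1 : ∀ k : Fin n, Continuous fun x : Cn n × Cn n => x.1 k :=
    fun k => (kb_coord k).comp continuous_fst
  have c2 : ∀ k : Fin n, Continuous fun x : Cn n × Cn n => x.2 k :=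
    fun k => (kb_coord k).comp continuous_snd
  have hw : ∀ j, Continuous fun x : Cn n × Cn n => D.w j x.1 x.2 := by
    intro j
    unfold KD.w
    exact ((D.ha j).continuous.comp continuous_fst).add (continuous_finsetSum _ fun k _ =>
      ((D.hb j k).continuous.comp continuous_fst).mul ((c1 k).sub (c2 k)))
  have hDw : ∀ k j, Continuous fun x : Cn n × Cn n => D.Dw k j x.1 x.2 := by
    intro k j
    unfold KD.Dw
    exact ((kb_wdb k (D.ha j)).comp continuous_fst).add (continuous_finsetSum _ fun l _ =>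
      ((kb_wdb k (D.hb j l)).comp continuous_fst).mul ((c1 l).sub (c2 l)))
  have hrc : ContDiff ℝ ∞ fun x => (D.r x : ℂ) := Complex.ofRealCLM.contDiff.comp D.hr
  have hwr : ∀ k, Continuous fun x : Cn n × Cn n => wdb k (fun x => (D.r x : ℂ)) x.1 := fun k =>
    (kb_wdb k hrc).comp continuous_fst
  have hDW1 : ∀ k, Continuous fun x : Cn n × Cn n => D.DW1 k x.1 x.2 := by
    intro k
    unfold KD.DW1
    exact (hwr k).neg.add (continuous_finsetSum _ fun j _ => (hDw k j).mul ((c1 j).sub (c2 j)))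
  have hnu : ∀ j : Fin n, Continuous fun x : Cn n × Cn n => conj (x.1 j - p j) := fun j =>
    Complex.continuous_conj.comp ((c1 j).sub continuous_const)
  have hzp : ∀ j : Fin n, Continuous fun x : Cn n × Cn n => x.2 j - p j := fun j =>
    (c2 j).sub continuous_const
  have hpw : Continuous fun x : Cn n × Cn n => D.pw x.1 x.2 := by
    unfold KD.pw
    exact continuous_finsetSum _ fun j _ => (hw j).mul ((c1 j).sub (c2 j))
  have hr : Continuous fun x : Cn n × Cn n => (D.r x.1 : ℂ) := hrc.continuous.comp continuous_fst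
  have hnum : Continuous fun x : Cn n × Cn n =>
      ((R ^ 2 : ℝ) : ℂ) - ∑ j, conj (x.1 j - p j) * (x.1 j - p j) :=
    continuous_const.sub (continuous_finsetSum _ fun j _ =>
      (hnu j).mul ((c1 j).sub continuous_const))
  obtain ⟨B1, p1, b1⟩ := kb_bdd _ hw hK
  obtain ⟨B2, p2, b2⟩ := kb_bdd (fun i : Fin n × Fin n => fun x : Cn n × Cn n =>
    D.Dw i.1 i.2 x.1 x.2) (fun i => hDw i.1 i.2) hK
  obtain ⟨B3, p3, b3⟩ := kb_bdd _ hDW1 hK
  obtain ⟨B4, p4, b4⟩ := kb_bdd _ hwr hK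
  obtain ⟨B5, p5, b5⟩ := kb_bdd _ hnu hK
  obtain ⟨B6, p6, b6⟩ := kb_bdd _ hzp hK
  obtain ⟨B7, p7, b7⟩ := kb_bdd (fun _ : Unit => _) (fun _ => hpw) hK
  obtain ⟨B8, p8, b8⟩ := kb_bdd (fun _ : Unit => _) (fun _ => hr) hK
  obtain ⟨B9, p9, b9⟩ := kb_bdd (fun _ : Unit => _) (fun _ => hnum) hK
  refine ⟨1 + B1 + B2 + B3 + B4 + B5 + B6 + B7 + B8 + B9, by linarith, fun ζ hζ z hz => ?_⟩
  have hm : (ζ, z) ∈ (closedBall p R ×ˢ closedBall p R' : Set (Cn n × Cn n)) := ⟨hζ, hz⟩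
  refine ⟨fun j => (b1 j _ hm).trans (by linarith), fun k j => (b2 (k, j) _ hm).trans (by linarith),
    fun k => (b3 k _ hm).trans (by linarith), fun k => (b4 k _ hm).trans (by linarith),
    fun j => (b5 j _ hm).trans (by linarith), fun j => (b6 j _ hm).trans (by linarith),
    (b7 () _ hm).trans (by linarith), ?_, (b9 () _ hm).trans (by linarith)⟩
  have h8 := b8 () _ hm
  simp only [Complex.norm_real, Real.norm_eq_abs] at h8
  exact h8.trans (by linarith)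

theorem kb_W2 (p : Cn n) {R R' : ℝ} (hR' : 0 < R') (hR : R' < R) {ζ z : Cn n}
    (hζ : ζ ∈ closedBall p R) (hz : z ∈ closedBall p R') : R * (R - R') ≤ ‖W2 p R ζ z‖ := by
  have e : ∑ j, conj (ζ j - p j) * (z j - p j) = inner ℂ (ζ - p) (z - p) := by
    rw [PiLp.inner_apply]
    refine Finset.sum_congr rfl fun j _ => ?_
    rw [RCLike.inner_apply, mul_comm]
    rfl
  have h1 : ‖ζ - p‖ ≤ R := by simpa [dist_eq_norm] using hζ
  have h2 : ‖z - p‖ ≤ R' := by simpa [dist_eq_norm] using hz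
  have h3 : ‖inner ℂ (ζ - p) (z - p)‖ ≤ R * R' :=
    (norm_inner_le_norm _ _).trans (mul_le_mul h1 h2 (norm_nonneg _) (by linarith))
  unfold W2
  rw [e]
  have h4 : ‖((R ^ 2 : ℝ) : ℂ)‖ = R ^ 2 := by
    rw [Complex.norm_real, Real.norm_eq_abs, abs_of_nonneg (by positivity)]
  have h5 := norm_sub_norm_le (((R ^ 2 : ℝ) : ℂ)) (inner ℂ (ζ - p) (z - p))
  rw [h4] at h5
  nlinarith

/-- the matrix times `W₁` is a bounded matrix plus a rank one matrix -/
theorem kb_split (D : KD n) (p : Cn n) (R τ : ℝ) (j k : Fin n) (ζ z : Cn n)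
    (h1 : D.W1 τ ζ z ≠ 0) (h2 : W2 p R ζ z ≠ 0) :
    D.W1 τ ζ z * D.Dq p R τ j k ζ z =
      (- D.Dw k j ζ z + wdb k (fun x => (D.r x : ℂ)) ζ * conj (ζ j - p j) / W2 p R ζ z
        - ((τ - D.r ζ : ℝ) : ℂ) * (if j = k then 1 else 0) / W2 p R ζ z
        - ((τ - D.r ζ : ℝ) : ℂ) * conj (ζ j - p j) * (z k - p k) / W2 p R ζ z ^ 2) -
      (- (D.w j ζ z + ((τ - D.r ζ : ℝ) : ℂ) * conj (ζ j - p j) / W2 p R ζ z) / D.W1 τ ζ z) *
        D.DW1 k ζ z := by
  unfold KD.Dq KD.Da1 KD.a1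
  generalize D.W1 τ ζ z = W at *
  generalize W2 p R ζ z = V at *
  generalize ((τ - D.r ζ : ℝ) : ℂ) = s
  generalize (if j = k then (1 : ℂ) else 0) = d
  field_simp
  ring

theorem kb_detDq (D : KD n) (p : Cn n) (R τ : ℝ) (ζ z : Cn n)
    (h1 : D.W1 τ ζ z ≠ 0) (h2 : W2 p R ζ z ≠ 0) {B V : ℝ} (hB : 1 ≤ B) (hV : 0 < V)
    (hV2 : V ≤ ‖W2 p R ζ z‖)
    (b1 : ∀ j, ‖D.w j ζ z‖ ≤ B) (b2 : ∀ k j, ‖D.Dw k j ζ z‖ ≤ B) (b3 : ∀ k, ‖D.DW1 k ζ z‖ ≤ B)
    (b4 : ∀ k, ‖wdb k (fun x => (D.r x : ℂ)) ζ‖ ≤ B) (b5 : ∀ j, ‖conj (ζ j - p j)‖ ≤ B)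
    (b6 : ∀ j, ‖z j - p j‖ ≤ B) (b7 : ‖((τ - D.r ζ : ℝ) : ℂ)‖ ≤ B) (b8 : ‖D.W1 τ ζ z‖ ≤ B) :
    ‖(Matrix.of fun j k : Fin n => D.Dq p R τ j k ζ z).det‖ * ‖D.W1 τ ζ z‖ ^ (n + 1) ≤
      (n + 1).factorial * (2 * B + B * B / V + B / V + B * B * B / V ^ 2) ^ n *
        (2 * B + B * B / V) := by
  have hB0 : 0 < B := by linarith
  have hW : 0 < ‖D.W1 τ ζ z‖ := norm_pos_iff.2 h1
  set E : Matrix (Fin n) (Fin n) ℂ := Matrix.of fun j k =>
    (- D.Dw k j ζ z + wdb k (fun x => (D.r x : ℂ)) ζ * conj (ζ j - p j) / W2 p R ζ z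
        - ((τ - D.r ζ : ℝ) : ℂ) * (if j = k then 1 else 0) / W2 p R ζ z
        - ((τ - D.r ζ : ℝ) : ℂ) * conj (ζ j - p j) * (z k - p k) / W2 p R ζ z ^ 2) with hE
  set X : Matrix (Fin n) Unit ℂ := Matrix.of fun j _ =>
    (- (D.w j ζ z + ((τ - D.r ζ : ℝ) : ℂ) * conj (ζ j - p j) / W2 p R ζ z) / D.W1 τ ζ z) with hX
  set Y : Matrix Unit (Fin n) ℂ := Matrix.of fun _ k => D.DW1 k ζ z with hY
  have e1 : D.W1 τ ζ z • (Matrix.of fun j k : Fin n => D.Dq p R τ j k ζ z) = E - X * Y := by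
    ext j k
    rw [Matrix.smul_apply, Matrix.of_apply, smul_eq_mul, kb_split D p R τ j k ζ z h1 h2,
      Matrix.sub_apply, Matrix.mul_apply]
    simp [hE, hX, hY]
  have e2 := congrArg Matrix.det e1
  rw [Matrix.det_smul, ← Matrix.det_fromBlocks_one₂₂, Fintype.card_fin] at e2
  have inv1 : ‖(W2 p R ζ z)⁻¹‖ ≤ 1 / V := by
    rw [norm_inv, one_div]
    exact inv_anti₀ hV hV2
  have hdiv : ∀ (a : ℂ) (A : ℝ), ‖a‖ ≤ A → ‖a / W2 p R ζ z‖ ≤ A / V := by
    intro a A ha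
    rw [norm_div]
    exact div_le_div₀ (le_trans (norm_nonneg _) ha) ha hV hV2
  have hdiv2 : ∀ (a : ℂ) (A : ℝ), ‖a‖ ≤ A → ‖a / W2 p R ζ z ^ 2‖ ≤ A / V ^ 2 := by
    intro a A ha
    rw [norm_div, norm_pow]
    exact div_le_div₀ (le_trans (norm_nonneg _) ha) ha (by positivity)
      (pow_le_pow_left₀ hV.le hV2 2)
  have hb : ∀ i j, ‖(Matrix.fromBlocks E X Y 1) i j‖ ≤
      (Sum.elim (fun _ : Fin n => 2 * B + B * B / V + B / V + B * B * B / V ^ 2)
        (fun _ : Unit => (2 * B + B * B / V) / ‖D.W1 τ ζ z‖) : Fin n ⊕ Unit → ℝ) j := by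
    have n1 : 0 ≤ B * B / V := by positivity
    have n2 : 0 ≤ B / V := by positivity
    have n3 : 0 ≤ B * B * B / V ^ 2 := by positivity
    rintro (i | i) (j | j)
    · simp only [Matrix.fromBlocks_apply₁₁, Sum.elim_inl, hE, Matrix.of_apply]
      have t1 : ‖wdb j (fun x => (D.r x : ℂ)) ζ * conj (ζ i - p i) / W2 p R ζ z‖ ≤ B * B / V := by
        apply hdiv
        rw [norm_mul]
        exact mul_le_mul (b4 _) (b5 _) (norm_nonneg _) hB0.le
      have t2 : ‖((τ - D.r ζ : ℝ) : ℂ) * (if i = j then 1 else 0) / W2 p R ζ z‖ ≤ B / V := by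
        apply hdiv
        rw [norm_mul]
        split_ifs
        · simpa using b7
        · simpa using hB0.le
      have t3 : ‖((τ - D.r ζ : ℝ) : ℂ) * conj (ζ i - p i) * (z j - p j) / W2 p R ζ z ^ 2‖ ≤
          B * B * B / V ^ 2 := by
        apply hdiv2
        rw [norm_mul, norm_mul]
        exact mul_le_mul (mul_le_mul b7 (b5 _) (norm_nonneg _) hB0.le) (b6 _) (norm_nonneg _)
          (by positivity)
      refine (norm_sub_le _ _).trans ?_
      refine (add_le_add ((norm_sub_le _ _).trans (add_le_add ((norm_add_le _ _).trans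
        (add_le_add (le_of_eq (norm_neg _)) t1)) t2)) t3).trans ?_
      have := b2 j i
      linarith
    · simp only [Matrix.fromBlocks_apply₁₂, Sum.elim_inr, hX, Matrix.of_apply]
      rw [norm_div, norm_neg]
      gcongr
      refine (norm_add_le _ _).trans (add_le_add ((b1 i).trans (by linarith)) (hdiv _ _ ?_))
      rw [norm_mul]
      exact mul_le_mul b7 (b5 _) (norm_nonneg _) hB0.le
    · simp only [Matrix.fromBlocks_apply₂₁, Sum.elim_inl, hY, Matrix.of_apply]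
      have := b3 j
      linarith
    · simp only [Matrix.fromBlocks_apply₂₂, Sum.elim_inr]
      rw [Matrix.one_apply_eq, norm_one, le_div_iff₀ hW]
      linarith
  have h3 := kb_det _ _ hb
  rw [← e2, norm_mul, norm_pow, Fintype.prod_sum_type] at h3
  simp only [Sum.elim_inl, Sum.elim_inr, Finset.prod_const, Finset.card_univ, Fintype.card_sum,
    Fintype.card_fin, Fintype.card_unit, pow_one] at h3
  have h4 := mul_le_mul_of_nonneg_right h3 hW.le
  calc ‖(Matrix.of fun j k : Fin n => D.Dq p R τ j k ζ z).det‖ * ‖D.W1 τ ζ z‖ ^ (n + 1)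
      = ‖D.W1 τ ζ z‖ ^ n * ‖(Matrix.of fun j k : Fin n => D.Dq p R τ j k ζ z).det‖ *
          ‖D.W1 τ ζ z‖ := by rw [pow_succ]; ring
    _ ≤ _ := h4
    _ = _ := by
      field_simp

/-- TARGET. PROOF. On the compact set closedBall p R x closedBall p R' (and tau in [0,tau0]) all of w_j, Dw, DW1, r, wdb k r, conj(zeta_j-p_j), ... are bounded by a
constant B (they are continuous in (zeta,z); r, a_j, b_jk smooth), |W2| >= R^2 - R R' > 0, s = tau - r zeta in (0,B], |W1| <= B. By Dq_eq the matrix is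
 Dq_jk = E_jk + (w_j + s nu_j/W2) * DW1_k/W1^2  with nu_j = conj(zeta_j-p_j) and
 E_jk = -Dw_kj/W1 + (wdb k r) nu_j/(W1 W2) - a1 delta_jk/W2 - a1 nu_j (z_k-p_k)/W2^2,  a1 = s/W1, so |E_jk| <= B'/|W1|.
So Dq = E + x y^T with |x_j| <= B', |y_k| <= B'/|W1|^2 : det(E + x y^T) = det E + sum_j x_j det(E with row j replaced by y) (matrix determinant lemma in
the form det_add_replicateCol_mul_replicateRow / adjugate, or expand by multilinearity), hence |det| <= B''|W1|^{-(n-1)-2} = B''|W1|^{-(n+1)}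
(|det E| <= n! (B'/|W1|)^n = ... <= B4 |W1|^{-(n+1)} because |W1| <= B). Finally |a1 a2|^M <= (s/|W1|)^M B^M. -/
theorem ker_bound (D : KD n) (p : Cn n) (R R' τ0 : ℝ) (hR' : 0 < R') (hR : R' < R) (M : ℕ) :
    ∃ C : ℝ, 0 ≤ C ∧ ∀ τ ∈ Icc 0 τ0, ∀ z ∈ ball p R', ∀ ζ ∈ Om p R D.r τ, D.W1 τ ζ z ≠ 0 →
      ‖D.ker p R M τ ζ z‖ * ‖D.W1 τ ζ z‖ ^ (M + n + 1) ≤ C * (τ - D.r ζ) ^ M := by
  obtain ⟨B0, hB0, hall⟩ := kb_all D p R R'
  have hRp : 0 < R := hR'.trans hR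
  set V : ℝ := R * (R - R') with hV
  have hVp : 0 < V := mul_pos hRp (by linarith)
  set B : ℝ := 2 * B0 + |τ0| with hBdef
  have hτ0 : 0 ≤ |τ0| := abs_nonneg _
  have hB1 : 1 ≤ B := by linarith
  refine ⟨(B0 / V) ^ M * ((n + 1).factorial *
    (2 * B + B * B / V + B / V + B * B * B / V ^ 2) ^ n * (2 * B + B * B / V)), by positivity, ?_⟩
  intro τ hτ z hz ζ hζ hW
  have hζ' : ζ ∈ closedBall p R := by
    rw [mem_closedBall, dist_eq_norm]; exact hζ.1.le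
  have hz' : z ∈ closedBall p R' := ball_subset_closedBall hz
  have hs : 0 < τ - D.r ζ := by have := hζ.2; linarith
  have hV2 : V ≤ ‖W2 p R ζ z‖ := kb_W2 p hR' hR hζ' hz'
  have hW2 : W2 p R ζ z ≠ 0 := norm_pos_iff.1 (hVp.trans_le hV2)
  obtain ⟨b1, b2, b3, b4, b5, b6, b7, b8, b9⟩ := hall ζ hζ' z hz'
  have hle : B0 ≤ B := by linarith
  have hsn : ‖((τ - D.r ζ : ℝ) : ℂ)‖ = τ - D.r ζ := by
    rw [Complex.norm_real, Real.norm_eq_abs, abs_of_pos hs]
  have hsB : τ - D.r ζ ≤ B0 + |τ0| := by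
    have h1 := hτ.2
    have h2 := le_abs_self τ0
    have h3 := (abs_le.1 b8).1
    linarith
  have hW1B : ‖D.W1 τ ζ z‖ ≤ B := by
    unfold KD.W1
    refine (norm_add_le _ _).trans ?_
    rw [hsn]
    linarith
  have hdet := kb_detDq D p R τ ζ z hW hW2 hB1 hVp hV2 (fun j => (b1 j).trans hle)
    (fun k j => (b2 k j).trans hle) (fun k => (b3 k).trans hle) (fun k => (b4 k).trans hle)
    (fun j => (b5 j).trans hle) (fun j => (b6 j).trans hle) (by rw [hsn]; linarith) hW1B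
  have hmat : (Matrix.of fun j k : Fin n => wdb k (fun x => D.q p R τ j x z) ζ) =
      Matrix.of fun j k : Fin n => D.Dq p R τ j k ζ z := by
    ext j k
    rw [Matrix.of_apply, Matrix.of_apply, Dq_eq D p R τ j k ζ z hW hW2]
  have ha1 : ‖D.a1 τ ζ z‖ * ‖D.W1 τ ζ z‖ = τ - D.r ζ := by
    unfold KD.a1
    rw [norm_div, hsn, div_mul_cancel₀ _ (norm_ne_zero_iff.2 hW)]
  have ha2 : ‖a2 p R ζ z‖ ≤ B0 / V := by
    unfold a2
    rw [norm_div]
    exact div_le_div₀ (by linarith) b9 hVp hV2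
  unfold KD.ker
  rw [hmat, norm_mul, norm_pow, norm_mul]
  set dt := ‖(Matrix.of fun j k : Fin n => D.Dq p R τ j k ζ z).det‖ with hdt
  calc (‖D.a1 τ ζ z‖ * ‖a2 p R ζ z‖) ^ M * dt * ‖D.W1 τ ζ z‖ ^ (M + n + 1)
      = (‖D.a1 τ ζ z‖ * ‖D.W1 τ ζ z‖) ^ M * ‖a2 p R ζ z‖ ^ M *
          (dt * ‖D.W1 τ ζ z‖ ^ (n + 1)) := by
        rw [add_assoc M n 1, pow_add]
        ring
    _ ≤ (τ - D.r ζ) ^ M * (B0 / V) ^ M * ((n + 1).factorial *
    (2 * B + B * B / V + B / V + B * B * B / V ^ 2) ^ n * (2 * B + B * B / V)) := by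
        rw [ha1]
        have : 0 ≤ dt * ‖D.W1 τ ζ z‖ ^ (n + 1) := by positivity
        gcongr
    _ = _ := by ring

end Pool.Agent.Helper123
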