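import Mathlib
import Pool.Agent.Helper123.KBound
import Pool.Agent.Helper123.Dq
import Pool.Agent.H805R2.IBP
import Pool.Agent.Helper123.Defs

/-! Part of the proof of S06843 (MP_fedc70_an). -/

set_option autoImplicit false

open MeasureTheory Metric Set Filter Topology
open scoped ENNReal NNReal ContDiff ComplexConjugate

namespace Pool.Agent.Helper123

open Pool.Agent.H805R2

variable {n : ℕ}



/-- slices of a differentiable function -/
lemma kh_slice {O : Set (Cn n)} (hO : IsOpen O) {f : Cn n → ℂ} (hf : DifferentiableOn ℂ f O)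
    {z : Cn n} (hz : z ∈ O) (v : Cn n) :
    HasDerivAt (fun t : ℂ => f (z + t • v)) (fderiv ℂ f z v) 0 := by
  have h1 : HasFDerivAt f (fderiv ℂ f z) (z + (0 : ℂ) • v) := by
    rw [zero_smul, add_zero]
    exact (hf.differentiableAt (hO.mem_nhds hz)).hasFDerivAt
  have h2 : HasDerivAt (fun t : ℂ => z + t • v) v 0 := by
    have := ((hasDerivAt_id (0 : ℂ)).smul_const v).const_add z
    simpa using this
  exact h1.comp_hasDerivAt (0 : ℂ) h2

/-- Cauchy estimate for the derivative -/
lemma kh_cauchy {O : Set (Cn n)} (hO : IsOpen O) {f : Cn n → ℂ} (hf : DifferentiableOn ℂ f O)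
    {z : Cn n} {ε B : ℝ} (hε : 0 < ε) (hball : closedBall z ε ⊆ O)
    (hB : ∀ x ∈ O, ‖f x‖ ≤ B) : ‖fderiv ℂ f z‖ ≤ B / ε := by
  have hz : z ∈ O := hball (mem_closedBall_self hε.le)
  have hB0 : 0 ≤ B := (norm_nonneg _).trans (hB z hz)
  refine ContinuousLinearMap.opNorm_le_bound' _ (by positivity) fun v hv => ?_
  have hv' : 0 < ‖v‖ := lt_of_le_of_ne (norm_nonneg _) (Ne.symm hv)
  have hd : DiffContOnCl ℂ (fun t : ℂ => f (z + t • v)) (ball 0 (ε / ‖v‖)) := by
    have h1 : DifferentiableOn ℂ (fun t : ℂ => f (z + t • v)) (closedBall 0 (ε / ‖v‖)) := by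
      refine hf.comp (by fun_prop) ?_
      intro t ht
      apply hball
      rw [mem_closedBall, dist_eq_norm, add_sub_cancel_left, norm_smul]
      rw [mem_closedBall, dist_zero_right] at ht
      calc ‖t‖ * ‖v‖ ≤ ε / ‖v‖ * ‖v‖ := by gcongr
        _ = ε := by field_simp
    exact h1.diffContOnCl_ball (subset_refl _)
  have hr : 0 < ε / ‖v‖ := by positivity
  have key := Complex.norm_deriv_le_of_forall_mem_sphere_norm_le hr hd (C := B) ?_
  · rw [(kh_slice hO hf hz v).deriv] at key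
    calc ‖fderiv ℂ f z v‖ ≤ B / (ε / ‖v‖) := key
      _ = B / ε * ‖v‖ := by field_simp
  · intro t ht
    apply hB
    apply hball
    rw [mem_closedBall, dist_eq_norm, add_sub_cancel_left, norm_smul]
    rw [mem_sphere, dist_zero_right] at ht
    rw [ht]
    apply le_of_eq
    field_simp

/-- a continuous linear form in coordinates -/
lemma kh_coord (L : Cn n →L[ℂ] ℂ) :
    L = ∑ j, (L (bas j)) • (EuclideanSpace.proj j : Cn n →L[ℂ] ℂ) := by
  ext v
  conv_lhs => rw [sum_bas v]
  rw [map_sum, sum_apply]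
  refine Finset.sum_congr rfl fun j _ => ?_
  rw [map_smul, smul_apply, smul_eq_mul, smul_eq_mul, mul_comm]
  rfl

/-- integrals of holomorphic functions depending on a parameter -/
theorem kh_param {X : Type*} [MeasurableSpace X] {μ : Measure X} [IsFiniteMeasure μ]
    {O : Set (Cn n)} (hO : IsOpen O) (F : Cn n → X → ℂ)
    (hF : ∀ᵐ x ∂μ, DifferentiableOn ℂ (fun z => F z x) O)
    (hm : ∀ z ∈ O, AEStronglyMeasurable (F z) μ) (B : ℝ)
    (hbd : ∀ᵐ x ∂μ, ∀ z ∈ O, ‖F z x‖ ≤ B) :
    DifferentiableOn ℂ (fun z => ∫ x, F z x ∂μ) O := by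
  intro z0 hz0
  obtain ⟨ε, hε, hball⟩ : ∃ ε > 0, ball z0 (2 * ε) ⊆ O := by
    obtain ⟨ε, hε, h⟩ := Metric.isOpen_iff.1 hO z0 hz0
    exact ⟨ε / 2, by positivity, by convert h using 2; ring⟩
  have hsub : ball z0 ε ⊆ O := (ball_subset_ball (by linarith)).trans hball
  have hderb : ∀ᵐ x ∂μ, ∀ z ∈ ball z0 ε, ‖fderiv ℂ (fun z => F z x) z‖ ≤ B / (ε / 2) := by
    filter_upwards [hF, hbd] with x hx1 hx2 z hz
    refine kh_cauchy hO hx1 (by positivity) ?_ hx2
    refine Subset.trans ?_ hball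
    intro w hw
    rw [mem_ball] at hz ⊢
    rw [mem_closedBall] at hw
    have := dist_triangle w z z0
    linarith
  have hmder1 : ∀ v : Cn n, AEStronglyMeasurable (fun x => fderiv ℂ (fun z => F z x) z0 v) μ := by
    intro v
    -- small steps
    set η : ℝ := ε / (‖v‖ + 1) with hη
    have hη0 : 0 < η := by positivity
    have hin : ∀ m : ℕ, z0 + ((η / (m + 1) : ℝ) : ℂ) • v ∈ O := by
      intro m
      apply hsub
      rw [mem_ball, dist_eq_norm, add_sub_cancel_left, norm_smul, Complex.norm_real,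
        Real.norm_eq_abs, abs_of_pos (by positivity)]
      have h1 : η / ((m : ℝ) + 1) ≤ η := div_le_self hη0.le (by linarith [(Nat.cast_nonneg m : (0:ℝ) ≤ m)])
      calc η / ((m : ℝ) + 1) * ‖v‖ ≤ η * ‖v‖ := by gcongr
        _ < η * (‖v‖ + 1) := by nlinarith
        _ = ε := by rw [hη]; field_simp
    refine aestronglyMeasurable_of_tendsto_ae (u := atTop)
      (f := fun (m : ℕ) x => (((η / (m + 1) : ℝ) : ℂ))⁻¹ •
        (F (z0 + ((η / (m + 1) : ℝ) : ℂ) • v) x - F z0 x)) ?_ ?_
    · intro m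
      exact ((hm _ (hin m)).sub (hm z0 hz0)).const_smul ((((η / (m + 1) : ℝ) : ℂ))⁻¹)
    · filter_upwards [hF] with x hx
      have h1 := (kh_slice hO hx hz0 v).tendsto_slope_zero
      simp only [zero_add, zero_smul, add_zero] at h1
      refine h1.comp ?_
      rw [tendsto_nhdsWithin_iff]
      constructor
      · have h2 : Tendsto (fun m : ℕ => (η / ((m:ℝ) + 1) : ℝ)) atTop (𝓝 0) := by
          refine Tendsto.div_atTop tendsto_const_nhds ?_
          exact tendsto_atTop_add_const_right _ _ tendsto_natCast_atTop_atTop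
        have h3 := (Complex.continuous_ofReal.tendsto 0).comp h2
        rw [Complex.ofReal_zero] at h3
        exact h3
      · refine Eventually.of_forall fun m => ?_
        have : (0:ℝ) < (m:ℝ) + 1 := by positivity
        simp only [mem_compl_iff, mem_singleton_iff, Complex.ofReal_eq_zero]
        positivity
  have hmder : AEStronglyMeasurable (fun x => fderiv ℂ (fun z => F z x) z0) μ := by
    have h1 : (fun x => fderiv ℂ (fun z => F z x) z0) = fun x =>
        ∑ j, (fderiv ℂ (fun z => F z x) z0 (bas j)) • (EuclideanSpace.proj j : Cn n →L[ℂ] ℂ) := by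
      funext x
      exact kh_coord _
    rw [h1]
    refine Finset.aestronglyMeasurable_fun_sum _ fun j _ => ?_
    exact (hmder1 (bas j)).smul_const _
  have key := hasFDerivAt_integral_of_dominated_of_fderiv_le (𝕜 := ℂ) (μ := μ) (F := F)
    (F' := fun z x => fderiv ℂ (fun z => F z x) z) (x₀ := z0) (s := ball z0 ε)
    (bound := fun _ => B / (ε / 2)) (ball_mem_nhds _ hε) ?_ ?_ hmder hderb (integrable_const _) ?_
  · exact key.differentiableAt.differentiableWithinAt
  · filter_upwards [hO.mem_nhds hz0] with z hz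
    exact hm z hz
  · refine Integrable.mono' (integrable_const B) (hm z0 hz0) ?_
    filter_upwards [hbd] with x hx using hx z0 hz0
  · filter_upwards [hF] with x hx z hz
    exact (hx.differentiableAt (hO.mem_nhds (hsub hz))).hasFDerivAt

lemma kh_div {O : Set (Cn n)} {f g : Cn n → ℂ} (hf : DifferentiableOn ℂ f O)
    (hg : DifferentiableOn ℂ g O) (h : ∀ z ∈ O, g z ≠ 0) :
    DifferentiableOn ℂ (fun z => f z / g z) O := by
  simp only [div_eq_mul_inv]
  exact hf.mul (hg.inv h)

lemma kh_prod {O : Set (Cn n)} {ι : Type*} (s : Finset ι) (f : ι → Cn n → ℂ)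
    (h : ∀ i ∈ s, DifferentiableOn ℂ (f i) O) :
    DifferentiableOn ℂ (fun z => ∏ i ∈ s, f i z) O := by
  classical
  induction s using Finset.induction_on with
  | empty => simp only [Finset.prod_empty]; exact differentiableOn_const _
  | insert a s ha ih =>
    simp only [Finset.prod_insert ha]
    exact (h a (Finset.mem_insert_self _ _)).mul
      (ih fun i hi => h i (Finset.mem_insert_of_mem hi))

/-- determinants of differentiable matrices -/
lemma kh_det {O : Set (Cn n)} (A : Cn n → Matrix (Fin n) (Fin n) ℂ)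
    (h : ∀ j k, DifferentiableOn ℂ (fun z => A z j k) O) :
    DifferentiableOn ℂ (fun z => (A z).det) O := by
  simp only [Matrix.det_apply]
  refine DifferentiableOn.fun_sum fun σ _ => ?_
  refine DifferentiableOn.const_smul ?_ _
  exact kh_prod _ (fun i z => A z (σ i) i) fun i _ => h (σ i) i

/-- determinants of measurable matrices -/
lemma kh_det_meas {X : Type*} [MeasurableSpace X] (A : X → Matrix (Fin n) (Fin n) ℂ)
    (h : ∀ j k, Measurable (fun z => A z j k)) : Measurable (fun z => (A z).det) := by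
  simp only [Matrix.det_apply]
  refine Finset.measurable_fun_sum _ fun σ _ => ?_
  refine Measurable.const_smul ?_ _
  exact Finset.measurable_fun_prod _ fun i _ => h _ _

lemma kh_wdb_meas (k : Fin n) (f : Cn n → ℂ) : Measurable (wdb k f) := by
  unfold wdb
  have h1 := measurable_fderiv_apply_const ℝ f (bas k)
  have h2 := measurable_fderiv_apply_const ℝ f (Complex.I • bas k)
  exact (h1.add (h2.const_mul Complex.I)).div_const 2

lemma kh_pw_cont (D : KD n) (z : Cn n) : Continuous (fun ζ => D.pw ζ z) := by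
  unfold KD.pw KD.w
  have h1 : ∀ j, Continuous (D.a j) := fun j => (D.ha j).continuous
  have h2 : ∀ j k, Continuous (D.b j k) := fun j k => (D.hb j k).continuous
  fun_prop

lemma kh_W1_cont (D : KD n) (τ : ℝ) (z : Cn n) : Continuous (fun ζ => D.W1 τ ζ z) := by
  unfold KD.W1
  have h1 := D.hr.continuous
  have h2 := kh_pw_cont D z
  fun_prop

lemma kh_W2_cont (p : Cn n) (R : ℝ) (z : Cn n) : Continuous (fun ζ => W2 p R ζ z) := by
  unfold W2
  fun_prop

lemma kh_ker_meas (D : KD n) (p : Cn n) (R : ℝ) (M : ℕ) (τ : ℝ) (z : Cn n) :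
    Measurable (fun ζ => D.ker p R M τ ζ z) := by
  unfold KD.ker
  have hr := D.hr.continuous
  have h1 : Measurable (fun ζ => D.a1 τ ζ z) := by
    unfold KD.a1
    have : Continuous (fun ζ => ((τ - D.r ζ : ℝ) : ℂ)) := by fun_prop
    exact this.measurable.div (kh_W1_cont D τ z).measurable
  have h2 : Measurable (fun ζ => a2 p R ζ z) := by
    unfold a2
    have : Continuous (fun ζ : Cn n =>
      (((R ^ 2 : ℝ) : ℂ) - ∑ j, conj (ζ j - p j) * (ζ j - p j))) := by fun_prop
    exact this.measurable.div (kh_W2_cont p R z).measurable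
  refine ((h1.mul h2).pow_const M).mul ?_
  refine kh_det_meas _ fun j k => ?_
  simp only [Matrix.of_apply]
  exact kh_wdb_meas k _

lemma kh_W1_re (D : KD n) (p : Cn n) (R0 c1 : ℝ) (hLP : D.LP p R0 c1) (τ : ℝ) {ζ z : Cn n}
    (hζ : ζ ∈ ball p R0) (hz : z ∈ ball p R0) :
    ((τ - D.r ζ) + (τ - D.r z)) / 2 + c1 * ‖ζ - z‖ ^ 2 ≤ (D.W1 τ ζ z).re := by
  have := hLP ζ hζ z hz
  unfold KD.W1
  rw [Complex.add_re, Complex.ofReal_re]
  linarith

lemma kh_W2_ne (p : Cn n) {R R' : ℝ} (hR' : 0 < R') (hR : R' < R) {ζ z : Cn n}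
    (hζ : ‖ζ - p‖ < R) (hz : z ∈ ball p R') : W2 p R ζ z ≠ 0 := by
  have h1 : ∑ j, conj (ζ j - p j) * (z j - p j) = inner ℂ (ζ - p) (z - p) := by
    rw [PiLp.inner_apply]
    refine Finset.sum_congr rfl fun j _ => ?_
    simp [mul_comm]
  have h2 : ‖(inner ℂ (ζ - p) (z - p) : ℂ)‖ ≤ ‖ζ - p‖ * ‖z - p‖ := norm_inner_le_norm _ _
  rw [mem_ball, dist_eq_norm] at hz
  have h3 : ‖ζ - p‖ * ‖z - p‖ < R ^ 2 := by
    have := norm_nonneg (ζ - p)
    have := norm_nonneg (z - p)
    nlinarith
  intro h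
  unfold W2 at h
  rw [h1, sub_eq_zero] at h
  rw [← h, Complex.norm_real, Real.norm_eq_abs, abs_of_nonneg (sq_nonneg R)] at h2
  linarith

/-- TARGET. PROOF. For z in O, zeta in Om with b zeta != 0: LP gives 2 Re W1 >= (tau-r zeta)+(tau-r z)+2c1|zeta-z|^2 >= kappa > 0 and W2 != 0 (|W2|>=R^2-RR'), so by Dq_eq
the function z -> ker(zeta,z) b(zeta) equals on O a rational expression in z (D.Dq is a polynomial in z divided by powers of W1, W2), hence is complex
differentiable on O; if b zeta = 0 it is 0. It is bounded: |ker||b| <= C s^M |b| (2/kappa)^{M+n+1} <= C B (2/kappa)^{M+n+1} by ker_bound with tau0:=tau. It is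
a.e. strongly measurable in zeta (D.ker is built from measurable operations: `measurable_fderiv` holds for every function; r, a, b_jk continuous).
Om has finite volume. General lemma (prove it or find it: grep 'holomorphic' 'parameter' 'integral' in ~/DOCS.tsv): if F : X -> Cn n -> C, mu finite,
F x differentiable on the open set O for every x, |F|<=B, measurable in x, then z -> int F x z dmu is DifferentiableOn O (dominated convergence for the
derivative: |fderiv C (F x) z| <= B'/delta by the Cauchy estimate on ball z delta subset O; hasFDerivAt_integral_of_dominated_of_fderiv_le). -/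
theorem ker_hol (D : KD n) (p : Cn n) (R R' R0 c1 : ℝ) (hR' : 0 < R') (hR : R' < R)
    (hR0 : R < R0) (hc1 : 0 < c1) (hLP : D.LP p R0 c1) (M : ℕ) (τ : ℝ) (hτ : 0 ≤ τ)
    (b : Cn n → ℂ) (O : Set (Cn n)) (hO : IsOpen O) (hOR : O ⊆ ball p R')
    (hbm : AEStronglyMeasurable b (volume.restrict (Om p R D.r τ)))
    (hbB : ∃ B, ∀ ζ ∈ Om p R D.r τ, ‖b ζ‖ * (τ - D.r ζ) ^ M ≤ B)
    (hκ : ∃ κ > 0, ∀ z ∈ O, ∀ ζ ∈ Om p R D.r τ, b ζ ≠ 0 →
      κ ≤ (τ - D.r ζ) + (τ - D.r z) + c1 * ‖ζ - z‖ ^ 2) :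
    DifferentiableOn ℂ (fun z => ∫ ζ in Om p R D.r τ, D.ker p R M τ ζ z * b ζ) O := by
  obtain ⟨B, hB⟩ := hbB
  obtain ⟨κ, hκ0, hκ⟩ := hκ
  obtain ⟨C, hC0, hC⟩ := ker_bound D p R R' τ hR' hR M
  have hrc := D.hr.continuous
  have hOmo : IsOpen (Om p R D.r τ) := by
    have h1 : IsOpen {ζ : Cn n | ‖ζ - p‖ < R} := isOpen_lt (by fun_prop) continuous_const
    have h2 : IsOpen {ζ : Cn n | D.r ζ < τ} := isOpen_lt hrc continuous_const
    exact h1.inter h2
  have hOmm : MeasurableSet (Om p R D.r τ) := hOmo.measurableSet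
  have hfin : volume (Om p R D.r τ) < ⊤ := by
    refine lt_of_le_of_lt (measure_mono (t := ball p R) ?_) measure_ball_lt_top
    intro ζ hζ
    rw [mem_ball, dist_eq_norm]
    exact hζ.1
  haveI : IsFiniteMeasure (volume.restrict (Om p R D.r τ)) := ⟨by
    rw [Measure.restrict_apply_univ]; exact hfin⟩
  have hζ0 : ∀ ζ ∈ Om p R D.r τ, ζ ∈ ball p R0 := by
    intro ζ hζ
    rw [mem_ball, dist_eq_norm]
    exact hζ.1.trans hR0
  have hz0 : ∀ z ∈ O, z ∈ ball p R0 := fun z hz => ball_subset_ball (by linarith) (hOR hz)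
  have hW1 : ∀ z ∈ O, ∀ ζ ∈ Om p R D.r τ, b ζ ≠ 0 → κ / 2 ≤ ‖D.W1 τ ζ z‖ := by
    intro z hz ζ hζ hb
    have h1 := kh_W1_re D p R0 c1 hLP τ (hζ0 ζ hζ) (hz0 z hz)
    have h2 := hκ z hz ζ hζ hb
    have h3 := Complex.re_le_norm (D.W1 τ ζ z)
    have h4 : 0 ≤ c1 * ‖ζ - z‖ ^ 2 := by positivity
    linarith
  have hW2 : ∀ z ∈ O, ∀ ζ ∈ Om p R D.r τ, W2 p R ζ z ≠ 0 :=
    fun z hz ζ hζ => kh_W2_ne p hR' hR hζ.1 (hOR hz)
  have hB0 : ∀ ζ ∈ Om p R D.r τ, 0 ≤ B := by
    intro ζ hζ
    refine le_trans ?_ (hB ζ hζ)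
    have : 0 < τ - D.r ζ := sub_pos.mpr hζ.2
    positivity
  refine kh_param hO (fun z ζ => D.ker p R M τ ζ z * b ζ) ?_ ?_
    (C * |B| / (κ / 2) ^ (M + n + 1)) ?_
  · refine ae_restrict_of_forall_mem hOmm fun ζ hζ => ?_
    by_cases hb : b ζ = 0
    · simp only [hb, mul_zero]
      exact differentiableOn_const _
    have hW1' : ∀ z ∈ O, D.W1 τ ζ z ≠ 0 := by
      intro z hz h
      have := hW1 z hz ζ hζ hb
      rw [h, norm_zero] at this
      linarith
    have hW2' : ∀ z ∈ O, W2 p R ζ z ≠ 0 := fun z hz => hW2 z hz ζ hζ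
    have dw : ∀ j, Differentiable ℂ (fun z => D.w j ζ z) := by
      intro j
      unfold KD.w
      fun_prop
    have dW1 : Differentiable ℂ (fun z => D.W1 τ ζ z) := by
      unfold KD.W1 KD.pw
      fun_prop
    have dW2 : Differentiable ℂ (fun z => W2 p R ζ z) := by
      unfold W2
      fun_prop
    have dDw : ∀ k j, Differentiable ℂ (fun z => D.Dw k j ζ z) := by
      intro k j
      unfold KD.Dw
      fun_prop
    have dDW1 : ∀ k, Differentiable ℂ (fun z => D.DW1 k ζ z) := by
      intro k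
      unfold KD.DW1
      have := fun j => dDw k j
      fun_prop
    have da1 : DifferentiableOn ℂ (fun z => D.a1 τ ζ z) O := by
      unfold KD.a1
      exact kh_div (differentiableOn_const _) dW1.differentiableOn hW1'
    have da2 : DifferentiableOn ℂ (fun z => a2 p R ζ z) O := by
      unfold a2
      exact kh_div (differentiableOn_const _) dW2.differentiableOn hW2'
    have dDa1 : ∀ k, DifferentiableOn ℂ (fun z => D.Da1 τ k ζ z) O := by
      intro k
      unfold KD.Da1
      exact (kh_div (differentiableOn_const _) dW1.differentiableOn hW1').sub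
        (kh_div ((dDW1 k).const_mul _).differentiableOn (dW1.pow 2).differentiableOn
          fun z hz => pow_ne_zero 2 (hW1' z hz))
    have dDq : ∀ j k, DifferentiableOn ℂ (fun z => D.Dq p R τ j k ζ z) O := by
      intro j k
      unfold KD.Dq
      have t1 : DifferentiableOn ℂ (fun z => -D.Dw k j ζ z / D.W1 τ ζ z) O :=
        kh_div (dDw k j).neg.differentiableOn dW1.differentiableOn hW1'
      have t2 : DifferentiableOn ℂ (fun z => D.w j ζ z * D.DW1 k ζ z / D.W1 τ ζ z ^ 2) O :=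
        kh_div ((dw j).mul (dDW1 k)).differentiableOn (dW1.pow 2).differentiableOn
          fun z hz => pow_ne_zero 2 (hW1' z hz)
      have t3 : DifferentiableOn ℂ
          (fun z => D.Da1 τ k ζ z * conj (ζ j - p j) / W2 p R ζ z) O :=
        kh_div ((dDa1 k).mul_const _) dW2.differentiableOn hW2'
      have t4 : DifferentiableOn ℂ
          (fun z => D.a1 τ ζ z * (if j = k then 1 else 0) / W2 p R ζ z) O :=
        kh_div (da1.mul_const _) dW2.differentiableOn hW2'
      have t5 : DifferentiableOn ℂ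
          (fun z => D.a1 τ ζ z * conj (ζ j - p j) * (z k - p k) / W2 p R ζ z ^ 2) O := by
        refine kh_div ((da1.mul_const _).mul ?_) (dW2.pow 2).differentiableOn
          fun z hz => pow_ne_zero 2 (hW2' z hz)
        fun_prop
      exact (((t1.add t2).sub t3).sub t4).sub t5
    have hform : DifferentiableOn ℂ (fun z => (D.a1 τ ζ z * a2 p R ζ z) ^ M *
        (Matrix.of fun j k : Fin n => D.Dq p R τ j k ζ z).det * b ζ) O := by
      refine DifferentiableOn.mul_const (((da1.mul da2).pow M).mul ?_) _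
      exact kh_det (fun z => Matrix.of fun j k : Fin n => D.Dq p R τ j k ζ z)
        fun j k => dDq j k
    refine hform.congr fun z hz => ?_
    unfold KD.ker
    have : (Matrix.of fun j k : Fin n => wdb k (fun x => D.q p R τ j x z) ζ)
        = Matrix.of fun j k : Fin n => D.Dq p R τ j k ζ z := by
      ext j k
      rw [Matrix.of_apply, Matrix.of_apply]
      exact Dq_eq D p R τ j k ζ z (hW1' z hz) (hW2' z hz)
    rw [this]
  · intro z hz
    exact (kh_ker_meas D p R M τ z).aestronglyMeasurable.mul hbm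
  · refine ae_restrict_of_forall_mem hOmm fun ζ hζ z hz => ?_
    rw [norm_mul]
    by_cases hb : b ζ = 0
    · rw [hb, norm_zero, mul_zero]
      positivity
    have h1 := hW1 z hz ζ hζ hb
    have h2 : 0 < κ / 2 := by positivity
    have h3 : D.W1 τ ζ z ≠ 0 := by
      intro h
      rw [h, norm_zero] at h1
      linarith
    have h4 := hC τ ⟨hτ, le_rfl⟩ z (hOR hz) ζ hζ h3
    have h5 : (κ / 2) ^ (M + n + 1) ≤ ‖D.W1 τ ζ z‖ ^ (M + n + 1) := pow_le_pow_left₀ h2.le h1 _
    rw [le_div_iff₀ (by positivity)]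
    calc ‖D.ker p R M τ ζ z‖ * ‖b ζ‖ * (κ / 2) ^ (M + n + 1)
        ≤ ‖D.ker p R M τ ζ z‖ * ‖b ζ‖ * ‖D.W1 τ ζ z‖ ^ (M + n + 1) := by gcongr
      _ = (‖D.ker p R M τ ζ z‖ * ‖D.W1 τ ζ z‖ ^ (M + n + 1)) * ‖b ζ‖ := by ring
      _ ≤ (C * (τ - D.r ζ) ^ M) * ‖b ζ‖ := by gcongr
      _ = C * (‖b ζ‖ * (τ - D.r ζ) ^ M) := by ring
      _ ≤ C * B := by gcongr; exact hB ζ hζ
      _ ≤ C * |B| := by gcongr; exact le_abs_self B

end Pool.Agent.Helper123
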