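import Mathlib
import Pool.Agent.H805R2.IBP
import Pool.Agent.Helper123.Defs

set_option autoImplicit false

open MeasureTheory Metric Set Filter Topology
open scoped ENNReal NNReal ContDiff ComplexConjugate

namespace Pool.Agent.Helper123

open Pool.Agent.H805R2

variable {n : ℕ}

lemma vol_map (n : ℕ) : ∃ c : ℝ≥0, Measure.map (fun x : Cn n => (fun j => x j : Fin n → ℂ)) volume
    = c • (volume : Measure (Fin n → ℂ)) := by
  let L : Cn n ≃L[ℝ] (Fin n → ℂ) := PiLp.continuousLinearEquiv 2 ℝ (fun _ : Fin n => ℂ)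
  have hL : (fun x : Cn n => (fun j => x j : Fin n → ℂ)) = L := rfl
  rw [hL]
  have : (Measure.map L (volume : Measure (Cn n))).IsAddHaarMeasure :=
    L.isAddHaarMeasure_map volume
  exact ⟨_, Measure.isAddLeftInvariant_eq_smul _ _⟩

lemma vol_slab (m : ℕ) (j0 : Fin (m + 1)) (v : Fin (m + 1) → ℂ) (c0 ρ δ : ℝ) (hc0 : 0 < c0)
    (hv : c0 ≤ ‖v j0‖) (hδ : 0 ≤ δ) :
    volume {x : Fin (m + 1) → ℂ | (∀ j, ‖x j‖ ≤ ρ) ∧ ‖∑ j, v j * x j‖ ≤ δ} ≤
      (ENNReal.ofReal (δ / c0) ^ 2 * NNReal.pi) * (ENNReal.ofReal ρ ^ 2 * NNReal.pi) ^ m := by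
  have hv0 : v j0 ≠ 0 := by
    intro h
    rw [h, norm_zero] at hv
    linarith
  have hvpos : 0 < ‖v j0‖ := norm_pos_iff.2 hv0
  set e := MeasurableEquiv.piFinSuccAbove (fun _ : Fin (m + 1) => ℂ) j0 with he
  have hmp : MeasurePreserving e volume volume :=
    volume_preserving_piFinSuccAbove (fun _ : Fin (m + 1) => ℂ) j0
  set S' : Set (ℂ × (Fin m → ℂ)) := {q | (∀ j, ‖q.2 j‖ ≤ ρ) ∧
    ‖v j0 * q.1 + ∑ j, v (j0.succAbove j) * q.2 j‖ ≤ δ} with hS'
  have hclosed : IsClosed S' := by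
    rw [hS']
    have h1 : IsClosed {q : ℂ × (Fin m → ℂ) | ∀ j, ‖q.2 j‖ ≤ ρ} := by
      rw [Set.ofPred_forall]
      refine isClosed_iInter fun j => isClosed_le ?_ continuous_const
      fun_prop
    have h2 : IsClosed {q : ℂ × (Fin m → ℂ) | ‖v j0 * q.1 + ∑ j, v (j0.succAbove j) * q.2 j‖ ≤ δ} := by
      refine isClosed_le ?_ continuous_const
      fun_prop
    exact h1.inter h2
  have hsub : {x : Fin (m + 1) → ℂ | (∀ j, ‖x j‖ ≤ ρ) ∧ ‖∑ j, v j * x j‖ ≤ δ} ⊆ e ⁻¹' S' := by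
    intro x hx
    refine ⟨fun j => hx.1 (j0.succAbove j), ?_⟩
    have := hx.2
    rw [Fin.sum_univ_succAbove _ j0] at this
    exact this
  have hclosedP : MeasurableSet {y : Fin m → ℂ | ∀ j, ‖y j‖ ≤ ρ} := by
    apply IsClosed.measurableSet
    rw [Set.ofPred_forall]
    refine isClosed_iInter fun j => isClosed_le ?_ continuous_const
    fun_prop
  calc volume {x : Fin (m + 1) → ℂ | (∀ j, ‖x j‖ ≤ ρ) ∧ ‖∑ j, v j * x j‖ ≤ δ}
      ≤ volume (e ⁻¹' S') := measure_mono hsub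
    _ = volume S' := hmp.measure_preimage hclosed.measurableSet.nullMeasurableSet
    _ = ∫⁻ y, volume ((fun t => (t, y)) ⁻¹' S') := by
        rw [Measure.volume_eq_prod, Measure.prod_apply_symm hclosed.measurableSet]
    _ ≤ ∫⁻ y, {y : Fin m → ℂ | ∀ j, ‖y j‖ ≤ ρ}.indicator
          (fun _ => ENNReal.ofReal (δ / c0) ^ 2 * NNReal.pi) y := by
        refine lintegral_mono fun y => ?_
        by_cases hy : ∀ j, ‖y j‖ ≤ ρ
        · rw [indicator_of_mem (by exact hy)]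
          rw [← Complex.volume_closedBall (-(∑ j, v (j0.succAbove j) * y j) / v j0) (δ / c0)]
          refine measure_mono ?_
          intro t ht
          have ht2 : ‖v j0 * t + ∑ j, v (j0.succAbove j) * y j‖ ≤ δ := ht.2
          rw [mem_closedBall, dist_eq_norm]
          have : t - -(∑ j, v (j0.succAbove j) * y j) / v j0 =
              (v j0 * t + ∑ j, v (j0.succAbove j) * y j) / v j0 := by
            field_simp
            ring
          rw [this, norm_div]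
          calc ‖v j0 * t + ∑ j, v (j0.succAbove j) * y j‖ / ‖v j0‖ ≤ δ / ‖v j0‖ := by gcongr
            _ ≤ δ / c0 := by gcongr
        · rw [indicator_of_notMem (by exact hy)]
          have : (fun t => (t, y)) ⁻¹' S' = ∅ := by
            ext t
            simp only [mem_preimage, mem_empty_iff_false, iff_false]
            intro ht
            exact hy ht.1
          rw [this, measure_empty]
    _ = (ENNReal.ofReal (δ / c0) ^ 2 * NNReal.pi) * volume {y : Fin m → ℂ | ∀ j, ‖y j‖ ≤ ρ} := by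
        rw [lintegral_indicator hclosedP, lintegral_const, Measure.restrict_apply MeasurableSet.univ,
          univ_inter]
    _ = (ENNReal.ofReal (δ / c0) ^ 2 * NNReal.pi) * (ENNReal.ofReal ρ ^ 2 * NNReal.pi) ^ m := by
        congr 1
        have : {y : Fin m → ℂ | ∀ j, ‖y j‖ ≤ ρ} = Set.pi univ fun _ => closedBall (0 : ℂ) ρ := by
          ext y
          simp
        rw [this, volume_pi_pi]
        simp [Complex.volume_closedBall]

lemma vol_lip (f : Cn n → ℂ) (hf : ContDiff ℝ ∞ f) (p : Cn n) (R : ℝ) :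
    ∃ L : ℝ, 0 ≤ L ∧ ∀ x ∈ closedBall p R, ∀ y ∈ closedBall p R, ‖f x - f y‖ ≤ L * ‖x - y‖ := by
  have hc : IsCompact (closedBall p R) := isCompact_closedBall p R
  have hcont : Continuous (fderiv ℝ f) := hf.continuous_fderiv (by simp)
  obtain ⟨L, hL⟩ := hc.exists_bound_of_continuousOn hcont.continuousOn
  refine ⟨max L 0, le_max_right _ _, fun x hx y hy => ?_⟩
  have := (convex_closedBall p R).norm_image_sub_le_of_norm_fderiv_le (𝕜 := ℝ) (f := f) (C := max L 0)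
    (fun z _ => (hf.differentiable (by simp)).differentiableAt)
    (fun z hz => (hL z hz).trans (le_max_left _ _)) hy hx
  exact this

lemma vol_bd (f : Cn n → ℂ) (hf : ContDiff ℝ ∞ f) (p : Cn n) (R : ℝ) :
    ∃ B : ℝ, 0 ≤ B ∧ ∀ x ∈ closedBall p R, ‖f x‖ ≤ B := by
  obtain ⟨L, hL⟩ := (isCompact_closedBall p R).exists_bound_of_continuousOn hf.continuous.continuousOn
  exact ⟨max L 0, le_max_right _ _, fun x hx => (hL x hx).trans (le_max_left _ _)⟩

lemma vol_coord (x : Cn n) (j : Fin n) : ‖x j‖ ≤ ‖x‖ := PiLp.norm_apply_le x j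

theorem vol_W1 (D : KD n) (p : Cn n) (R R' R0 τ0 c1 : ℝ) (hR' : 0 < R') (hR : R' < R)
    (hR0 : R < R0) (hc1 : 0 < c1) (hLP : D.LP p R0 c1) (j0 : Fin n) (c0 : ℝ) (hc0 : 0 < c0)
    (ha : ∀ z ∈ ball p R0, c0 ≤ ‖D.a j0 z‖) :
    ∃ C : ℝ, 0 ≤ C ∧ ∀ τ ∈ Icc 0 τ0, ∀ z ∈ ball p R', D.r z < τ → ∀ h : ℝ, 0 < h →
      volume {ζ | ζ ∈ Om p R D.r τ ∧ ‖D.W1 τ ζ z‖ < h} ≤ ENNReal.ofReal (C * h ^ (n + 1)) := by
  obtain ⟨m, rfl⟩ : ∃ m, n = m + 1 := ⟨n - 1, by have := j0.2; omega⟩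
  choose La hLa0 hLa using fun j => vol_lip (D.a j) (D.ha j) p R
  choose Bb hBb0 hBb using fun j k => vol_bd (D.b j k) (D.hb j k) p R
  obtain ⟨c, hc⟩ := vol_map (m + 1)
  set K : ℝ := ∑ j, La j + ∑ j, ∑ k, Bb j k with hK
  have hK0 : 0 ≤ K := by
    refine add_nonneg (Finset.sum_nonneg fun j _ => hLa0 j) (Finset.sum_nonneg fun j _ =>
      Finset.sum_nonneg fun k _ => hBb0 j k)
  set C1 : ℝ := 3 + K / c1 with hC1
  have hC10 : 0 ≤ C1 := by positivity
  refine ⟨c * ((C1 / c0) ^ 2 * Real.pi * (1 / c1 * Real.pi) ^ m), by positivity, ?_⟩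
  intro τ hτ z hz hrz h hh
  have hz' : z ∈ closedBall p R := ball_subset_closedBall (ball_subset_ball hR.le hz)
  have hz0 : z ∈ ball p R0 := ball_subset_ball (hR.le.trans hR0.le) hz
  -- the set is contained in a translate
  have hsub : {ζ | ζ ∈ Om p R D.r τ ∧ ‖D.W1 τ ζ z‖ < h} ⊆
      (fun ζ : Cn (m + 1) => ζ - z) ⁻¹' ((fun x : Cn (m + 1) => (fun j => x j : Fin (m + 1) → ℂ)) ⁻¹'
        {x : Fin (m + 1) → ℂ | (∀ j, ‖x j‖ ≤ Real.sqrt (h / c1)) ∧ ‖∑ j, D.a j z * x j‖ ≤ C1 * h}) := by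
    rintro ζ ⟨⟨hζ1, hζ2⟩, hW⟩
    have hζb : ζ ∈ ball p R := by rwa [mem_ball, dist_eq_norm]
    have hζ' : ζ ∈ closedBall p R := ball_subset_closedBall hζb
    have hζ0 : ζ ∈ ball p R0 := ball_subset_ball hR0.le hζb
    have hlp := hLP ζ hζ0 z hz0
    have hre : (D.W1 τ ζ z).re = (τ - D.r ζ) + (D.pw ζ z).re := by
      simp [KD.W1]
    have hre2 : (D.W1 τ ζ z).re < h := (Complex.re_le_norm _).trans_lt hW
    have hs : 0 < τ - D.r ζ := by linarith
    have hd : c1 * ‖ζ - z‖ ^ 2 ≤ h := by linarith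
    have hs2 : τ - D.r ζ ≤ 2 * h := by
      have : 0 ≤ c1 * ‖ζ - z‖ ^ 2 := by positivity
      linarith
    have hd2 : ‖ζ - z‖ ^ 2 ≤ h / c1 := by
      rw [le_div_iff₀ hc1]
      linarith
    refine ⟨fun j => ?_, ?_⟩
    · refine (vol_coord (ζ - z) j).trans ?_
      exact Real.le_sqrt_of_sq_le hd2
    · have hcj : ∀ j, ‖ζ j - z j‖ ≤ ‖ζ - z‖ := fun j => vol_coord (ζ - z) j
      have hsum : ∑ j, D.a j z * (ζ - z) j = D.W1 τ ζ z - ((τ - D.r ζ : ℝ) : ℂ)
          + ∑ j, (D.a j z - D.a j ζ) * (ζ j - z j)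
          - ∑ j, (∑ k, D.b j k ζ * (ζ k - z k)) * (ζ j - z j) := by
        simp only [KD.W1, KD.pw, KD.w, add_sub_cancel_left]
        rw [← Finset.sum_add_distrib, ← Finset.sum_sub_distrib]
        refine Finset.sum_congr rfl fun j _ => ?_
        simp only [PiLp.sub_apply]
        ring
      have h1 : ‖∑ j, (D.a j z - D.a j ζ) * (ζ j - z j)‖ ≤ (∑ j, La j) * ‖ζ - z‖ ^ 2 := by
        rw [Finset.sum_mul]
        refine norm_sum_le_of_le _ fun j _ => ?_
        rw [norm_mul]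
        calc ‖D.a j z - D.a j ζ‖ * ‖ζ j - z j‖ ≤ (La j * ‖ζ - z‖) * ‖ζ - z‖ := by
              have := hLa j z hz' ζ hζ'
              rw [norm_sub_rev z ζ] at this
              exact mul_le_mul this (hcj j) (norm_nonneg _) (by have := hLa0 j; positivity)
          _ = La j * ‖ζ - z‖ ^ 2 := by ring
      have h2 : ‖∑ j, (∑ k, D.b j k ζ * (ζ k - z k)) * (ζ j - z j)‖ ≤
          (∑ j, ∑ k, Bb j k) * ‖ζ - z‖ ^ 2 := by
        rw [Finset.sum_mul]
        refine norm_sum_le_of_le _ fun j _ => ?_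
        rw [norm_mul]
        have h3 : ‖∑ k, D.b j k ζ * (ζ k - z k)‖ ≤ (∑ k, Bb j k) * ‖ζ - z‖ := by
          rw [Finset.sum_mul]
          refine norm_sum_le_of_le _ fun k _ => ?_
          rw [norm_mul]
          exact mul_le_mul (hBb j k ζ hζ') (hcj k) (norm_nonneg _) (hBb0 j k)
        calc ‖∑ k, D.b j k ζ * (ζ k - z k)‖ * ‖ζ j - z j‖ ≤ ((∑ k, Bb j k) * ‖ζ - z‖) * ‖ζ - z‖ := by
              refine mul_le_mul h3 (hcj j) (norm_nonneg _) ?_
              have : 0 ≤ ∑ k, Bb j k := Finset.sum_nonneg fun k _ => hBb0 j k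
              positivity
          _ = (∑ k, Bb j k) * ‖ζ - z‖ ^ 2 := by ring
      have h4 : ‖((τ - D.r ζ : ℝ) : ℂ)‖ ≤ 2 * h := by
        rw [Complex.norm_real, Real.norm_eq_abs, abs_of_pos hs]
        exact hs2
      have h5 : ‖∑ j, D.a j z * (ζ - z) j‖ ≤ C1 * h := by
        rw [hsum]
        calc _ ≤ ‖D.W1 τ ζ z - ((τ - D.r ζ : ℝ) : ℂ) + ∑ j, (D.a j z - D.a j ζ) * (ζ j - z j)‖
              + ‖∑ j, (∑ k, D.b j k ζ * (ζ k - z k)) * (ζ j - z j)‖ := norm_sub_le _ _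
          _ ≤ (‖D.W1 τ ζ z - ((τ - D.r ζ : ℝ) : ℂ)‖ + ‖∑ j, (D.a j z - D.a j ζ) * (ζ j - z j)‖)
              + ‖∑ j, (∑ k, D.b j k ζ * (ζ k - z k)) * (ζ j - z j)‖ := by
              gcongr
              exact norm_add_le _ _
          _ ≤ ((‖D.W1 τ ζ z‖ + ‖((τ - D.r ζ : ℝ) : ℂ)‖) + ‖∑ j, (D.a j z - D.a j ζ) * (ζ j - z j)‖)
              + ‖∑ j, (∑ k, D.b j k ζ * (ζ k - z k)) * (ζ j - z j)‖ := by
              gcongr
              exact norm_sub_le _ _
          _ ≤ ((h + 2 * h) + (∑ j, La j) * ‖ζ - z‖ ^ 2) + (∑ j, ∑ k, Bb j k) * ‖ζ - z‖ ^ 2 := by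
              gcongr
          _ = 3 * h + K * ‖ζ - z‖ ^ 2 := by rw [hK]; ring
          _ ≤ 3 * h + K * (h / c1) := by gcongr
          _ = C1 * h := by rw [hC1]; ring
      exact h5
  set P : Set (Fin (m + 1) → ℂ) := {x : Fin (m + 1) → ℂ | (∀ j, ‖x j‖ ≤ Real.sqrt (h / c1)) ∧
    ‖∑ j, D.a j z * x j‖ ≤ C1 * h} with hP
  have hPm : MeasurableSet P := by
    apply IsClosed.measurableSet
    have h1 : IsClosed {x : Fin (m + 1) → ℂ | ∀ j, ‖x j‖ ≤ Real.sqrt (h / c1)} := by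
      rw [Set.ofPred_forall]
      refine isClosed_iInter fun j => isClosed_le ?_ continuous_const
      fun_prop
    have h2 : IsClosed {x : Fin (m + 1) → ℂ | ‖∑ j, D.a j z * x j‖ ≤ C1 * h} := by
      refine isClosed_le ?_ continuous_const
      fun_prop
    exact h1.inter h2
  have hmeas : Measurable (fun x : Cn (m + 1) => (fun j => x j : Fin (m + 1) → ℂ)) := by
    have : Continuous (fun x : Cn (m + 1) => (fun j => x j : Fin (m + 1) → ℂ)) := by fun_prop
    exact this.measurable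
  calc volume {ζ | ζ ∈ Om p R D.r τ ∧ ‖D.W1 τ ζ z‖ < h}
      ≤ volume ((fun ζ : Cn (m + 1) => ζ - z) ⁻¹'
        ((fun x : Cn (m + 1) => (fun j => x j : Fin (m + 1) → ℂ)) ⁻¹' P)) := measure_mono hsub
    _ = volume ((fun x : Cn (m + 1) => (fun j => x j : Fin (m + 1) → ℂ)) ⁻¹' P) := by
        exact (measurePreserving_sub_right volume z).measure_preimage (hmeas hPm).nullMeasurableSet
    _ = Measure.map (fun x : Cn (m + 1) => (fun j => x j : Fin (m + 1) → ℂ)) volume P := by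
        rw [Measure.map_apply hmeas hPm]
    _ = c * volume P := by
        rw [hc, Measure.smul_apply, ENNReal.smul_def, smul_eq_mul]
    _ ≤ c * ((ENNReal.ofReal (C1 * h / c0) ^ 2 * NNReal.pi) *
          (ENNReal.ofReal (Real.sqrt (h / c1)) ^ 2 * NNReal.pi) ^ m) := by
        gcongr
        exact vol_slab m j0 (fun j => D.a j z) c0 _ _ hc0 (ha z hz0) (by positivity)
    _ = ENNReal.ofReal (c * ((C1 / c0) ^ 2 * Real.pi * (1 / c1 * Real.pi) ^ m) * h ^ (m + 1 + 1)) := by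
        have e1 : (NNReal.pi : ℝ≥0∞) = ENNReal.ofReal Real.pi := by
          rw [← NNReal.coe_real_pi, ENNReal.ofReal_coe_nnreal]
        have e2 : (c : ℝ≥0∞) = ENNReal.ofReal (c : ℝ) := by
          rw [ENNReal.ofReal_coe_nnreal]
        rw [e1, e2, ← ENNReal.ofReal_pow (by positivity), ← ENNReal.ofReal_pow (by positivity),
          ← ENNReal.ofReal_mul (by positivity), ← ENNReal.ofReal_mul (by positivity),
          ← ENNReal.ofReal_pow (by positivity), ← ENNReal.ofReal_mul (by positivity),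
          ← ENNReal.ofReal_mul (by positivity), Real.sq_sqrt (by positivity)]
        congr 1
        rw [show h / c1 * Real.pi = (1 / c1 * Real.pi) * h by ring, mul_pow]
        ring

end Pool.Agent.Helper123
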