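import Mathlib
import Pool.Agent.Helper123.Vol
import Pool.Agent.Helper123.KBound
import Pool.Agent.H805R2.IBP
import Pool.Agent.Helper123.Defs

set_option autoImplicit false

open MeasureTheory Metric Set Filter Topology
open scoped ENNReal NNReal ContDiff ComplexConjugate

namespace Pool.Agent.Helper123

open Pool.Agent.H805R2

variable {n : ℕ}



/-- pointwise lower bound for `|W₁|` -/
theorem near_pt (D : KD n) (p : Cn n) (R R' R0 c1 : ℝ) (hR : R' < R)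
    (hR0 : R < R0) (hLP : D.LP p R0 c1) (τ : ℝ) (z : Cn n) (hz : z ∈ ball p R')
    (hzτ : D.r z < τ) (ζ : Cn n) (hζ : ζ ∈ Om p R D.r τ) :
    (τ - D.r ζ) / 2 + c1 * ‖ζ - z‖ ^ 2 ≤ ‖D.W1 τ ζ z‖ := by
  have h1 : ζ ∈ ball p R0 := by
    rw [mem_ball, dist_eq_norm]; exact lt_trans hζ.1 hR0
  have h2 : z ∈ ball p R0 := by
    rw [mem_ball] at hz ⊢; linarith
  have h := hLP ζ h1 z h2
  have h3 : (D.W1 τ ζ z).re = (τ - D.r ζ) + (D.pw ζ z).re := by
    rw [KD.W1, Complex.add_re, Complex.ofReal_re]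
  have h4 := Complex.re_le_norm (D.W1 τ ζ z)
  rw [h3] at h4
  linarith

/-- the elementary estimate of the integrand -/
theorem near_bd (s w d c1 C1 k : ℝ) (M n : ℕ) (hM : 1 ≤ M) (hs : 0 < s) (hc1 : 0 < c1)
    (hd : 0 ≤ d) (h : s / 2 + c1 * d ^ 2 ≤ w) (hC1 : 0 ≤ C1)
    (hkw : k * w ^ (M + n + 1) ≤ C1 * s ^ M) :
    k * d * s ^ (-(3 / 8) : ℝ) ≤
      (C1 * 2 ^ M * c1 ^ (-(1 / 2) : ℝ)) * w ^ (-((n : ℝ) + 7 / 8)) := by
  have hw : 0 < w := by
    have : 0 ≤ c1 * d ^ 2 := by positivity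
    linarith
  have hs2 : s ≤ 2 * w := by
    have : 0 ≤ c1 * d ^ 2 := by positivity
    linarith
  have hd2 : d ≤ c1 ^ (-(1 / 2) : ℝ) * w ^ (1 / 2 : ℝ) := by
    have h1 : d ^ 2 ≤ w / c1 := by
      rw [le_div_iff₀ hc1]; nlinarith
    have h2 : d ≤ Real.sqrt (w / c1) := Real.le_sqrt_of_sq_le h1
    rw [Real.sqrt_eq_rpow, Real.div_rpow hw.le hc1.le, div_eq_mul_inv,
      ← Real.rpow_neg hc1.le] at h2
    rw [mul_comm]
    exact h2
  have hk : k ≤ C1 * s ^ M * w ^ (-((M : ℝ) + n + 1)) := by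
    rw [Real.rpow_neg hw.le, ← div_eq_mul_inv, le_div_iff₀ (by positivity)]
    have : w ^ ((M : ℝ) + n + 1) = w ^ (M + n + 1) := by
      rw [← Real.rpow_natCast]; push_cast; ring_nf
    rw [this]; exact hkw
  have hs3 : s ^ M * s ^ (-(3 / 8) : ℝ) ≤ 2 ^ M * w ^ ((M : ℝ) - 3 / 8) := by
    have h1 : s ^ M * s ^ (-(3 / 8) : ℝ) = s ^ ((M : ℝ) - 3 / 8) := by
      rw [← Real.rpow_natCast, ← Real.rpow_add hs]; ring_nf
    have hM' : (1 : ℝ) ≤ M := by exact_mod_cast hM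
    rw [h1]
    calc s ^ ((M : ℝ) - 3 / 8) ≤ (2 * w) ^ ((M : ℝ) - 3 / 8) :=
          Real.rpow_le_rpow hs.le hs2 (by linarith)
      _ = 2 ^ ((M : ℝ) - 3 / 8) * w ^ ((M : ℝ) - 3 / 8) := by
          rw [Real.mul_rpow (by norm_num) hw.le]
      _ ≤ 2 ^ M * w ^ ((M : ℝ) - 3 / 8) := by
          apply mul_le_mul_of_nonneg_right _ (by positivity)
          rw [← Real.rpow_natCast]
          exact Real.rpow_le_rpow_of_exponent_le (by norm_num) (by linarith)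
  have hsp : 0 < s ^ (-(3 / 8) : ℝ) := Real.rpow_pos_of_pos hs _
  have hc' : 0 < c1 ^ (-(1 / 2) : ℝ) := Real.rpow_pos_of_pos hc1 _
  calc k * d * s ^ (-(3 / 8) : ℝ)
      ≤ (C1 * s ^ M * w ^ (-((M : ℝ) + n + 1))) * d * s ^ (-(3 / 8) : ℝ) := by
        gcongr
    _ ≤ (C1 * s ^ M * w ^ (-((M : ℝ) + n + 1))) * (c1 ^ (-(1 / 2) : ℝ) * w ^ (1 / 2 : ℝ)) *
          s ^ (-(3 / 8) : ℝ) := by
        gcongr
    _ = C1 * c1 ^ (-(1 / 2) : ℝ) * (w ^ (-((M : ℝ) + n + 1)) * w ^ (1 / 2 : ℝ)) *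
          (s ^ M * s ^ (-(3 / 8) : ℝ)) := by ring
    _ ≤ C1 * c1 ^ (-(1 / 2) : ℝ) * (w ^ (-((M : ℝ) + n + 1)) * w ^ (1 / 2 : ℝ)) *
          (2 ^ M * w ^ ((M : ℝ) - 3 / 8)) := by
        gcongr
    _ = (C1 * 2 ^ M * c1 ^ (-(1 / 2) : ℝ)) *
          (w ^ (-((M : ℝ) + n + 1)) * w ^ (1 / 2 : ℝ) * w ^ ((M : ℝ) - 3 / 8)) := by ring
    _ = (C1 * 2 ^ M * c1 ^ (-(1 / 2) : ℝ)) * w ^ (-((n : ℝ) + 7 / 8)) := by
        rw [← Real.rpow_add hw, ← Real.rpow_add hw]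
        ring_nf

/-- the dyadic bound -/
theorem near_lint {α : Type*} [MeasurableSpace α] (μ : Measure α) (S : Set α)
    (hS : MeasurableSet S) (w : α → ℝ) (hw : Measurable w) (hpos : ∀ x ∈ S, 0 < w x) (n : ℕ)
    (C2 : ℝ) (hC2 : 0 ≤ C2)
    (hv : ∀ h : ℝ, 0 < h → μ {x | x ∈ S ∧ w x < h} ≤ ENNReal.ofReal (C2 * h ^ (n + 1))) :
    ∫⁻ x in S, ENNReal.ofReal (w x ^ (-((n : ℝ) + 7 / 8))) ∂μ ≤
      μ S + ∑' j : ℕ, ENNReal.ofReal (C2 * 2 ^ (n + 1) * 2 ^ ((n : ℝ) + 7 / 8) *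
        ((2 : ℝ) ^ (-(1 / 8) : ℝ)) ^ j) := by
  classical
  have hmeas : ∀ j : ℕ, MeasurableSet {x | x ∈ S ∧ w x < 2 * (1 / 2) ^ j} := fun j =>
    hS.inter (hw measurableSet_Iio)
  have hn0 : (0 : ℝ) ≤ n := Nat.cast_nonneg n
  have hpt : ∀ x ∈ S, ENNReal.ofReal (w x ^ (-((n : ℝ) + 7 / 8))) ≤
      1 + ∑' j : ℕ, indicator {x | x ∈ S ∧ w x < 2 * (1 / 2) ^ j}
        (fun _ => ENNReal.ofReal ((2 ^ (j + 1) : ℝ) ^ ((n : ℝ) + 7 / 8))) x := by
    intro x hx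
    have h0 := hpos x hx
    by_cases h1 : 1 ≤ w x
    · refine le_trans ?_ le_self_add
      rw [ENNReal.ofReal_le_one]
      exact Real.rpow_le_one_of_one_le_of_nonpos h1 (by linarith)
    · push Not at h1
      obtain ⟨j, hj1, hj2⟩ := exists_nat_pow_near_of_lt_one h0 h1.le (by norm_num : (0 : ℝ) < 1 / 2)
        (by norm_num)
      refine le_trans ?_ le_add_self
      refine le_trans ?_ (ENNReal.le_tsum j)
      have hmem : x ∈ {x | x ∈ S ∧ w x < 2 * (1 / 2) ^ j} := by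
        refine ⟨hx, lt_of_le_of_lt hj2 ?_⟩
        have : (0 : ℝ) < (1 / 2) ^ j := by positivity
        linarith
      rw [indicator_of_mem hmem]
      apply ENNReal.ofReal_le_ofReal
      rw [Real.rpow_neg h0.le, ← Real.inv_rpow h0.le]
      apply Real.rpow_le_rpow (by positivity) _ (by linarith)
      rw [inv_le_comm₀ h0 (by positivity)]
      refine le_trans (le_of_eq ?_) hj1.le
      rw [one_div, inv_pow]
  calc ∫⁻ x in S, ENNReal.ofReal (w x ^ (-((n : ℝ) + 7 / 8))) ∂μ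
      ≤ ∫⁻ x in S, (1 + ∑' j : ℕ, indicator {x | x ∈ S ∧ w x < 2 * (1 / 2) ^ j}
        (fun _ => ENNReal.ofReal ((2 ^ (j + 1) : ℝ) ^ ((n : ℝ) + 7 / 8))) x) ∂μ :=
        setLIntegral_mono' hS hpt
    _ = μ S + ∑' j : ℕ, ∫⁻ x in S, indicator {x | x ∈ S ∧ w x < 2 * (1 / 2) ^ j}
        (fun _ => ENNReal.ofReal ((2 ^ (j + 1) : ℝ) ^ ((n : ℝ) + 7 / 8))) x ∂μ := by
        rw [lintegral_add_left measurable_const, lintegral_tsum]
        · simp
        · intro j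
          exact (measurable_const.indicator (hmeas j)).aemeasurable
    _ ≤ _ := by
        gcongr with j
        refine (setLIntegral_le_lintegral _ _).trans ?_
        rw [lintegral_indicator_const (hmeas j)]
        refine (mul_le_mul_right (hv _ (by positivity)) _).trans ?_
        rw [← ENNReal.ofReal_mul (by positivity)]
        apply ENNReal.ofReal_le_ofReal
        have e1 : ((2 : ℝ) ^ (j + 1)) ^ ((n : ℝ) + 7 / 8) =
            (2 : ℝ) ^ ((n : ℝ) + 7 / 8) * (2 : ℝ) ^ ((j : ℝ) * ((n : ℝ) + 7 / 8)) := by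
          rw [← Real.rpow_natCast, ← Real.rpow_mul (by norm_num), ← Real.rpow_add (by norm_num)]
          congr 1
          push_cast; ring
        have e2 : (2 * (1 / 2 : ℝ) ^ j) ^ (n + 1) = 2 ^ (n + 1) * (2 : ℝ) ^ (-((j : ℝ) * ((n : ℝ) + 1))) := by
          rw [mul_pow, one_div, inv_pow, inv_pow, ← pow_mul, Real.rpow_neg (by norm_num)]
          congr 2
          rw [← Real.rpow_natCast]
          congr 1
          push_cast; ring
        have e3 : ((2 : ℝ) ^ (-(1 / 8) : ℝ)) ^ j = (2 : ℝ) ^ ((j : ℝ) * ((n : ℝ) + 7 / 8)) *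
            (2 : ℝ) ^ (-((j : ℝ) * ((n : ℝ) + 1))) := by
          rw [← Real.rpow_natCast, ← Real.rpow_mul (by norm_num), ← Real.rpow_add (by norm_num)]
          congr 1
          ring
        rw [e1, e2, e3]
        apply le_of_eq
        ring

/-- measurability of the kernel in `ζ` -/
theorem near_meas (D : KD n) (p : Cn n) (R : ℝ) (M : ℕ) (τ : ℝ) (z : Cn n) :
    Measurable (fun ζ => D.ker p R M τ ζ z) := by
  have hwd : ∀ (k : Fin n) (f : Cn n → ℂ), Measurable (wdb k f) := by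
    intro k f
    unfold wdb
    exact ((measurable_fderiv_apply_const ℝ f (bas k)).add
      ((measurable_fderiv_apply_const ℝ f (Complex.I • bas k)).const_mul _)).div_const _
  have hr : Continuous D.r := D.hr.continuous
  have hcoord : ∀ j : Fin n, Continuous fun ζ : Cn n => ζ j := fun j => by fun_prop
  have hW1 : Continuous fun ζ => D.W1 τ ζ z := by
    unfold KD.W1 KD.pw KD.w
    have ha : ∀ j, Continuous (D.a j) := fun j => (D.ha j).continuous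
    have hb : ∀ j k, Continuous (D.b j k) := fun j k => (D.hb j k).continuous
    fun_prop
  have hW2 : Continuous fun ζ => W2 p R ζ z := by
    unfold W2
    fun_prop
  have ha1 : Measurable fun ζ => D.a1 τ ζ z := by
    unfold KD.a1
    exact (Complex.measurable_ofReal.comp (measurable_const.sub hr.measurable)).div hW1.measurable
  have ha2 : Measurable fun ζ => a2 p R ζ z := by
    unfold a2
    refine Measurable.div (Continuous.measurable ?_) hW2.measurable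
    fun_prop
  unfold KD.ker
  refine ((ha1.mul ha2).pow_const M).mul ?_
  simp only [Matrix.det_apply, Matrix.of_apply]
  refine Finset.measurable_fun_sum _ fun σ _ => ?_
  refine Measurable.const_smul ?_ _
  exact Finset.measurable_fun_prod _ fun i _ => hwd _ _

/-- TARGET. PROOF. For zeta in Om: LP gives 2|W1| >= s + 2c1|zeta-z|^2 (s=tau-r zeta>0, tau-r z>0), so s<=2|W1|, |zeta-z| <= (|W1|/c1)^{1/2}, W1 != 0. By ker_bound the
integrand is <= C s^{M-3/8} |W1|^{-(M+n+1)} |zeta-z| <= C' |W1|^{-(n+1)+1/8}  (M>=1). |W1|<=B on Om (bounded continuous). Integral: split Om into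
A_j = {2^{-j-1}B <= |W1| < 2^{-j}B} , j>=0 (plus |W1|=B): the integrand is <= C'(2^{-j-1}B)^{-(n+1)+1/8} there and vol A_j <= C''(2^{-j}B)^{n+1} by
vol_W1, so the sum is <= C5 sum_j 2^{-j/8} < infinity. (Use lintegral of the bound, or the layer cake formula, or HasFiniteIntegral via
lintegral_iUnion.) Measurability as in: D.ker measurable in zeta by `measurable_fderiv` (true for every function). -/
theorem near_int (D : KD n) (p : Cn n) (R R' R0 τ0 c1 : ℝ) (hR' : 0 < R') (hR : R' < R)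
    (hR0 : R < R0) (hc1 : 0 < c1) (hLP : D.LP p R0 c1) (j0 : Fin n) (c0 : ℝ) (hc0 : 0 < c0)
    (ha : ∀ z ∈ ball p R0, c0 ≤ ‖D.a j0 z‖) (M : ℕ) (hM : 1 ≤ M) :
    ∃ C : ℝ, 0 ≤ C ∧ ∀ τ ∈ Icc 0 τ0, ∀ z ∈ ball p R', D.r z < τ →
      IntegrableOn (fun ζ => ‖D.ker p R M τ ζ z‖ * ‖ζ - z‖ * (τ - D.r ζ) ^ (-(3 / 8) : ℝ))
        (Om p R D.r τ) ∧
      ∫ ζ in Om p R D.r τ, ‖D.ker p R M τ ζ z‖ * ‖ζ - z‖ * (τ - D.r ζ) ^ (-(3 / 8) : ℝ) ≤ C := by
  obtain ⟨C1, hC1, hk⟩ := ker_bound D p R R' τ0 hR' hR M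
  obtain ⟨C2, hC2, hv⟩ := vol_W1 D p R R' R0 τ0 c1 hR' hR hR0 hc1 hLP j0 c0 hc0 ha
  set Kc : ℝ := C1 * 2 ^ M * c1 ^ (-(1 / 2) : ℝ) with hKc
  have hKc0 : 0 ≤ Kc := by positivity
  set T : ℝ≥0∞ := ENNReal.ofReal Kc * (volume (ball p R) +
    ∑' j : ℕ, ENNReal.ofReal (C2 * 2 ^ (n + 1) * 2 ^ ((n : ℝ) + 7 / 8) *
        ((2 : ℝ) ^ (-(1 / 8) : ℝ)) ^ j)) with hT
  have hTfin : T ≠ ⊤ := by
    refine ENNReal.mul_ne_top ENNReal.ofReal_ne_top (ENNReal.add_ne_top.2 ⟨?_, ?_⟩)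
    · exact measure_ball_lt_top.ne
    · refine Summable.tsum_ofReal_ne_top ?_
      refine Summable.mul_left _ ?_
      refine summable_geometric_of_lt_one (by positivity) ?_
      exact Real.rpow_lt_one_of_one_lt_of_neg (by norm_num) (by norm_num)
  refine ⟨T.toReal, ENNReal.toReal_nonneg, ?_⟩
  intro τ hτ z hz hzτ
  have hr : Continuous D.r := D.hr.continuous
  have hOm : MeasurableSet (Om p R D.r τ) := by
    apply IsOpen.measurableSet
    have h1 : IsOpen {ζ : Cn n | ‖ζ - p‖ < R} := isOpen_lt (by fun_prop) continuous_const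
    have h2 : IsOpen {ζ : Cn n | D.r ζ < τ} := isOpen_lt hr continuous_const
    exact h1.inter h2
  have hW1 : Continuous fun ζ => D.W1 τ ζ z := by
    unfold KD.W1 KD.pw KD.w
    have ha : ∀ j, Continuous (D.a j) := fun j => (D.ha j).continuous
    have hb : ∀ j k, Continuous (D.b j k) := fun j k => (D.hb j k).continuous
    fun_prop
  have hlow := near_pt D p R R' R0 c1 hR hR0 hLP τ z hz hzτ
  have hpos : ∀ ζ ∈ Om p R D.r τ, 0 < ‖D.W1 τ ζ z‖ := by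
    intro ζ hζ
    have h1 := hlow ζ hζ
    have h2 : 0 < τ - D.r ζ := sub_pos.2 hζ.2
    have h3 : 0 ≤ c1 * ‖ζ - z‖ ^ 2 := by positivity
    linarith
  have hbd : ∀ ζ ∈ Om p R D.r τ, ‖D.ker p R M τ ζ z‖ * ‖ζ - z‖ * (τ - D.r ζ) ^ (-(3 / 8) : ℝ) ≤
      Kc * ‖D.W1 τ ζ z‖ ^ (-((n : ℝ) + 7 / 8)) := by
    intro ζ hζ
    exact near_bd _ _ _ c1 C1 _ M n hM (sub_pos.2 hζ.2) hc1 (norm_nonneg _) (hlow ζ hζ) hC1
      (hk τ hτ z hz ζ hζ (norm_pos_iff.1 (hpos ζ hζ)))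
  have hnn : ∀ ζ ∈ Om p R D.r τ,
      0 ≤ ‖D.ker p R M τ ζ z‖ * ‖ζ - z‖ * (τ - D.r ζ) ^ (-(3 / 8) : ℝ) := by
    intro ζ hζ
    have : 0 ≤ (τ - D.r ζ) ^ (-(3 / 8) : ℝ) := Real.rpow_nonneg (sub_pos.2 hζ.2).le _
    positivity
  have hmeas : Measurable fun ζ => ‖D.ker p R M τ ζ z‖ * ‖ζ - z‖ *
      (τ - D.r ζ) ^ (-(3 / 8) : ℝ) := by
    refine ((near_meas D p R M τ z).norm.mul ?_).mul ?_
    · exact (by fun_prop : Continuous fun ζ : Cn n => ‖ζ - z‖).measurable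
    · exact (measurable_const.sub hr.measurable).pow_const _
  have hlint : ∫⁻ ζ in Om p R D.r τ, ENNReal.ofReal (‖D.ker p R M τ ζ z‖ * ‖ζ - z‖ *
      (τ - D.r ζ) ^ (-(3 / 8) : ℝ)) ≤ T := by
    calc ∫⁻ ζ in Om p R D.r τ, ENNReal.ofReal (‖D.ker p R M τ ζ z‖ * ‖ζ - z‖ *
          (τ - D.r ζ) ^ (-(3 / 8) : ℝ))
        ≤ ∫⁻ ζ in Om p R D.r τ, ENNReal.ofReal Kc *
            ENNReal.ofReal (‖D.W1 τ ζ z‖ ^ (-((n : ℝ) + 7 / 8))) := by
          refine setLIntegral_mono' hOm fun ζ hζ => ?_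
          rw [← ENNReal.ofReal_mul hKc0]
          exact ENNReal.ofReal_le_ofReal (hbd ζ hζ)
      _ = ENNReal.ofReal Kc * ∫⁻ ζ in Om p R D.r τ,
            ENNReal.ofReal (‖D.W1 τ ζ z‖ ^ (-((n : ℝ) + 7 / 8))) := by
          rw [lintegral_const_mul' _ _ ENNReal.ofReal_ne_top]
      _ ≤ T := by
          rw [hT]
          gcongr
          refine (near_lint volume (Om p R D.r τ) hOm (fun ζ => ‖D.W1 τ ζ z‖)
            hW1.norm.measurable hpos n C2 hC2 (hv τ hτ z hz hzτ)).trans ?_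
          gcongr
          intro ζ hζ
          rw [mem_ball, dist_eq_norm]
          exact hζ.1
  have hae : 0 ≤ᵐ[volume.restrict (Om p R D.r τ)] fun ζ => ‖D.ker p R M τ ζ z‖ * ‖ζ - z‖ *
      (τ - D.r ζ) ^ (-(3 / 8) : ℝ) := by
    filter_upwards [ae_restrict_mem hOm] with ζ hζ
    exact hnn ζ hζ
  refine ⟨⟨hmeas.aestronglyMeasurable, ?_⟩, ?_⟩
  · rw [hasFiniteIntegral_iff_ofReal hae]
    exact lt_of_le_of_lt hlint (lt_top_iff_ne_top.2 hTfin)
  · rw [integral_eq_lintegral_of_nonneg_ae hae hmeas.aestronglyMeasurable]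
    exact ENNReal.toReal_mono hTfin hlint

end Pool.Agent.Helper123
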