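import Mathlib
import Pool.Agent.H805R2.Path
import Pool.Agent.Helper123.Defs

/-
Job HOM for MP_fedc70_an / S06843, owner helper123: homotopy invariance of the weighted kernel
integral.
-/

set_option autoImplicit false

open MeasureTheory Metric Set Filter Topology
open scoped ENNReal NNReal ContDiff ComplexConjugate

namespace Pool.Agent.Helper123

open Pool.Agent.H805R2

section hom_ring

variable {R : Type*} [CommRing R] [Algebra ℂ R] {n : ℕ} (D : Fin n → Derivation ℂ R R)
  (hcomm : ∀ j k f, D j (D k f) = D k (D j f))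

open Matrix in
include hcomm in
/-- Piola identity for a matrix of derivatives. -/
lemma hom_piola (G : Fin n → R) (k : Fin n) :
    ∑ j, D j ((Matrix.of fun a b : Fin n => D a (G b)).adjugate k j) = 0 := by
  set H : Matrix (Fin n) (Fin n) R := Matrix.of fun a b : Fin n => D a (G b) with hH
  have h1 : ∀ j, D j (H.adjugate k j) = ∑ l, if l = j then 0 else
      ((H.updateRow j (Pi.single k 1)).updateRow l (fun i => D j (D l (G i)))).det := by
    intro j
    rw [Matrix.adjugate_apply, deriv_det]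
    apply Finset.sum_congr rfl
    intro l _
    by_cases hl : l = j
    · subst hl
      rw [if_pos rfl]
      apply Matrix.det_eq_zero_of_row_eq_zero l
      intro i
      rw [updateRow_self, updateRow_self]
      by_cases hik : i = k
      · subst hik
        rw [Pi.single_eq_same]
        exact (D l).map_one_eq_zero
      · rw [Pi.single_eq_of_ne hik, map_zero]
    · rw [if_neg hl]
      congr 2
      funext i
      rw [updateRow_ne hl]
      rfl
  simp_rw [h1]
  apply antisymm_sum
  intro j l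
  by_cases hjl : l = j
  · subst hjl; simp
  · rw [if_neg hjl, if_neg (Ne.symm hjl), det_swap_rows _ _ _ (Ne.symm hjl)]
    congr 3
    funext i
    rw [hcomm]

/-- the matrix `(D k (q j))` -/
def hom_J (q : Fin n → R) : Matrix (Fin n) (Fin n) R := Matrix.of fun j k : Fin n => D k (q j)

include hcomm in
lemma hom_piola' (q : Fin n → R) (j : Fin n) : ∑ k, D k ((hom_J D q).adjugate k j) = 0 := by
  have h1 : hom_J D q = (Matrix.of fun a b : Fin n => D a (q b)).transpose := by
    ext a b
    rfl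
  have h2 := hom_piola D hcomm q j
  rw [h1, ← Matrix.adjugate_transpose]
  exact h2

include hcomm in
/-- the divergence identity -/
lemma hom_div (q p X : Fin n → R) (hX : ∀ j k, D k (X j) = 0) (M : ℕ) :
    ∑ k, D k ((1 + ∑ j, q j * X j) ^ M * ∑ j, p j * (hom_J D q).adjugate k j) =
      (M : R) * (1 + ∑ j, q j * X j) ^ (M - 1) * (∑ i, p i * X i) * (hom_J D q).det +
        (1 + ∑ j, q j * X j) ^ M * ∑ j, ∑ k, (hom_J D q).adjugate k j * D k (p j) := by
  set A : R := 1 + ∑ j, q j * X j with hA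
  set J := hom_J D q with hJ
  have hDA : ∀ k, D k A = ∑ i, D k (q i) * X i := by
    intro k
    rw [hA, map_add, (D k).map_one_eq_zero, zero_add, map_sum]
    apply Finset.sum_congr rfl
    intro i _
    rw [(D k).leibniz, hX, smul_zero, zero_add, smul_eq_mul, mul_comm]
  have hDAM : ∀ k, D k (A ^ M) = (M : R) * A ^ (M - 1) * ∑ i, D k (q i) * X i := by
    intro k
    rw [(D k).leibniz_pow, hDA]
    simp only [smul_eq_mul, nsmul_eq_mul]
    ring
  have hJadj : ∀ i j, ∑ k, D k (q i) * J.adjugate k j = if i = j then J.det else 0 := by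
    intro i j
    have h1 := congrFun (congrFun (Matrix.mul_adjugate J) i) j
    rw [Matrix.mul_apply, Matrix.smul_apply, Matrix.one_apply, smul_eq_mul, mul_ite, mul_one,
      mul_zero] at h1
    exact h1
  have h1 : ∀ k, D k (A ^ M * ∑ j, p j * J.adjugate k j) =
      (M : R) * A ^ (M - 1) * ((∑ i, D k (q i) * X i) * ∑ j, p j * J.adjugate k j) +
        (A ^ M * ∑ j, J.adjugate k j * D k (p j) + A ^ M * ∑ j, p j * D k (J.adjugate k j)) := by
    intro k
    rw [(D k).leibniz, hDAM, smul_eq_mul, smul_eq_mul, map_sum]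
    have h2 : ∑ j, D k (p j * J.adjugate k j) =
        ∑ j, J.adjugate k j * D k (p j) + ∑ j, p j * D k (J.adjugate k j) := by
      rw [← Finset.sum_add_distrib]
      apply Finset.sum_congr rfl
      intro j _
      rw [(D k).leibniz, smul_eq_mul, smul_eq_mul]
      ring
    rw [h2]
    ring
  simp_rw [h1]
  rw [Finset.sum_add_distrib, Finset.sum_add_distrib, ← Finset.mul_sum, ← Finset.mul_sum,
    ← Finset.mul_sum]
  have h3 : ∑ k, ∑ j, p j * D k (J.adjugate k j) = 0 := by
    rw [Finset.sum_comm]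
    apply Finset.sum_eq_zero
    intro j _
    rw [← Finset.mul_sum, hom_piola' D hcomm q j, mul_zero]
  have h4 : ∑ k, (∑ i, D k (q i) * X i) * ∑ j, p j * J.adjugate k j =
      (∑ i, p i * X i) * J.det := by
    calc ∑ k, (∑ i, D k (q i) * X i) * ∑ j, p j * J.adjugate k j
        = ∑ k, ∑ i, ∑ j, X i * p j * (D k (q i) * J.adjugate k j) := by
          apply Finset.sum_congr rfl
          intro k _
          rw [Finset.sum_mul_sum]
          apply Finset.sum_congr rfl
          intro i _
          apply Finset.sum_congr rfl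
          intro j _
          ring
      _ = ∑ i, ∑ j, X i * p j * ∑ k, D k (q i) * J.adjugate k j := by
          rw [Finset.sum_comm]
          apply Finset.sum_congr rfl
          intro i _
          rw [Finset.sum_comm]
          apply Finset.sum_congr rfl
          intro j _
          rw [Finset.mul_sum]
      _ = ∑ i, X i * p i * J.det := by
          apply Finset.sum_congr rfl
          intro i _
          simp_rw [hJadj]
          simp
      _ = (∑ i, p i * X i) * J.det := by
          rw [Finset.sum_mul]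
          apply Finset.sum_congr rfl
          intro i _
          ring
  have h5 : ∑ k, ∑ j, J.adjugate k j * D k (p j) = ∑ j, ∑ k, J.adjugate k j * D k (p j) :=
    Finset.sum_comm
  rw [h3, h4, h5]
  ring

end hom_ring

section hom_ind

variable {E F : Type*} [NormedAddCommGroup E] [NormedSpace ℝ E] [NormedAddCommGroup F]
  [NormedSpace ℝ F]

/-- The restriction by zero of a `C¹` function which vanishes to first order on the frontier. -/
lemma hom_indicator {Ω : Set E} (hΩ : IsOpen Ω) {G : E → F} (hG : ContDiff ℝ 1 G)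
    (h0 : ∀ x ∈ frontier Ω, G x = 0) (h1 : ∀ x ∈ frontier Ω, fderiv ℝ G x = 0) :
    Continuous (Ω.indicator (fderiv ℝ G)) ∧
      ∀ x, HasFDerivAt (Ω.indicator G) (Ω.indicator (fderiv ℝ G) x) x := by
  classical
  constructor
  · rw [← Set.piecewise_eq_indicator]
    refine Continuous.piecewise ?_ (hG.continuous_fderiv (by norm_num)) continuous_zero
    intro x hx
    exact h1 x hx
  · intro x
    have hd : HasFDerivAt G (fderiv ℝ G x) x := (hG.differentiable (by norm_num) x).hasFDerivAt
    by_cases hx : x ∈ Ω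
    · rw [Set.indicator_of_mem hx]
      refine hd.congr_of_eventuallyEq ?_
      filter_upwards [hΩ.mem_nhds hx] with y hy
      exact Set.indicator_of_mem hy _
    · rw [Set.indicator_of_notMem hx]
      by_cases hxc : x ∈ closure Ω
      · have hxf : x ∈ frontier Ω := by
          rw [hΩ.frontier_eq]
          exact ⟨hxc, hx⟩
        rw [h1 x hxf] at hd
        rw [hasFDerivAt_iff_isLittleO_nhds_zero] at hd ⊢
        rw [Set.indicator_of_notMem hx]
        simp only [h0 x hxf, sub_zero, zero_apply] at hd ⊢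
        refine Asymptotics.IsLittleO.of_norm_left ?_
        refine (Asymptotics.IsBigO.of_bound 1 ?_).trans_isLittleO hd
        filter_upwards with h
        rw [norm_norm, one_mul]
        exact norm_indicator_le_norm_self _ _
      · refine (hasFDerivAt_const (0 : F) x).congr_of_eventuallyEq ?_
        filter_upwards [isClosed_closure.isOpen_compl.mem_nhds hxc] with y hy
        exact Set.indicator_of_notMem (fun h => hy (subset_closure h)) _

end hom_ind

section hom_main

variable {n : ℕ}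

/-- the coordinate functions have vanishing antiholomorphic derivatives -/
lemma hom_Db_coord (z : Cn n) (j k : Fin n) (h : ContDiff ℝ ∞ fun ζ : Cn n => ζ j - z j) :
    Db k (mkS (fun ζ : Cn n => ζ j - z j) h) = 0 := by
  apply fn_ext
  intro ζ
  rw [Db_apply, fn_mk, fn_zero, wdb]
  have h1 : HasFDerivAt (fun ζ : Cn n => ζ j - z j)
      ((EuclideanSpace.proj j : Cn n →L[ℂ] ℂ).restrictScalars ℝ) ζ :=
    (((EuclideanSpace.proj j : Cn n →L[ℂ] ℂ).restrictScalars ℝ).hasFDerivAt).sub_const (z j)
  rw [h1.fderiv]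
  have h2 : ∀ v : Cn n, ((EuclideanSpace.proj j : Cn n →L[ℂ] ℂ).restrictScalars ℝ) v = v j :=
    fun _ => rfl
  rw [h2, h2, PiLp.smul_apply, smul_eq_mul, ← mul_assoc, Complex.I_mul_I]
  ring

/-- Integral of the divergence over `Ω`. -/
lemma hom_int_zero {Ω : Set (Cn n)} (hΩ : IsOpen Ω) (hb : Bornology.IsBounded Ω)
    (A H : SR n) (hA : ∀ ζ ∈ frontier Ω, fn A ζ = 0) (M : ℕ) (hM : 2 ≤ M) (k : Fin n) :
    ∫ ζ in Ω, wdb k (fn (A ^ M * H)) ζ = 0 := by
  obtain ⟨m, rfl⟩ := Nat.exists_eq_add_of_le hM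
  have hd : ∀ ζ ∈ frontier Ω, ∀ v, fderiv ℝ (fn (A ^ (2 + m) * H)) ζ v = 0 := by
    intro ζ hζ v
    rw [← Dv_apply, (Dv v).leibniz, (Dv v).leibniz_pow]
    have h1 : (2 + m - 1) = m + 1 := by omega
    rw [h1]
    simp only [smul_eq_mul, nsmul_eq_mul]
    rw [← evz_apply]
    simp only [map_add, map_mul, map_pow, evz_apply, hA ζ hζ]
    simp
  have h0 : ∀ ζ ∈ frontier Ω, fn (A ^ (2 + m) * H) ζ = 0 := by
    intro ζ hζ
    rw [← evz_apply]
    simp only [map_mul, map_pow, evz_apply, hA ζ hζ]
    simp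
  set G := fn (A ^ (2 + m) * H) with hG
  have hGC : ContDiff ℝ 1 G := fn_C1 _
  obtain ⟨hc, hf⟩ := hom_indicator hΩ hGC h0 (fun ζ hζ => by
    ext v
    rw [hd ζ hζ v]
    simp)
  have hC1 : ContDiff ℝ 1 (Ω.indicator G) := contDiff_one_iff_hasFDerivAt.2 ⟨_, hc, hf⟩
  have hcs : HasCompactSupport (Ω.indicator G) := by
    refine HasCompactSupport.of_support_subset_isCompact hb.isCompact_closure ?_
    exact Set.support_indicator_subset.trans subset_closure
  have h2 := (int_wd_zero k _ hC1 hcs).2.1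
  have h3 : wdb k (Ω.indicator G) = Ω.indicator (wdb k G) := by
    funext ζ
    rw [wdb, (hf ζ).fderiv]
    by_cases hζ : ζ ∈ Ω
    · rw [Set.indicator_of_mem hζ, Set.indicator_of_mem hζ, wdb]
    · rw [Set.indicator_of_notMem hζ, Set.indicator_of_notMem hζ]
      simp
  rw [h3, integral_indicator hΩ.measurableSet] at h2
  exact h2

end hom_main

variable {n : ℕ}

/-- TARGET. Homotopy invariance. Write A = 1+sum_j q_j (zeta_j-z_j), q_t=(1-t)q+t q', A_t, J_t = (wdb k (q_t)_j)_{jk}.
PROOF. (1) Algebra in the ring `SR n` of smooth functions (H805R2/IBP: mkS, fn, Db, Db_comm, deriv_det, deriv_det_adj, det_swap_rows,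
antisymm_sum): for p_j = q'_j - q_j, with cof = adjugate,
   M A_t^{M-1} (sum_i p_i (zeta_i - z_i)) det J_t + A_t^M sum_{j,k} adj(J_t)_{kj} Db_k p_j = sum_k Db_k ( A_t^M sum_j p_j adj(J_t)_{kj} ).
 Ingredients: Piola identity sum_k Db_k (adj(J)_{kj}) = 0 for J_{jk} = Db_k q_j (proof as in H805R2/Piola.lean `piola`: adj(J)_{kj} =
 det of J with row j replaced by e_k; differentiate; antisymmetric double sum, using Db_comm: work with adjugate_apply and deriv_det);
 Db_k A = sum_i (Db_k q_i)(zeta_i - z_i) because wdb k of the coordinate zeta_i is 0; sum_k J_{ik} adj(J)_{kj} = delta_ij det J. So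
 sum_k Db_k(A^M) sum_j p_j adj_{kj} = M A^{M-1} sum_{i,j} (zeta_i-z_i) p_j delta_ij det J.
 Multiplying by u: on Omega (where wdb k u = 0) the right side times u is sum_k wdb k (u A_t^M sum_j p_j adj(J_t)_{kj}).
(2) Left side of (1) is d/dt of A_t^M det J_t (use H805R2/Path `det_path`).
(3) V_k := indicator of Omega of (u A_t^M sum_j p_j adj(J_t)_{kj}) is C^1 on C^n with compact support: A_t vanishes on frontier Omega
 (convex combination) and M>=2, so at a point x0 of the frontier |V_k(x)| <= C|x-x0|^2, derivative 0 there, and the derivative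
 M A^{M-1} dA * S + A^M dS inside tends to 0 at x0 (general lemma: if a, S smooth, a = 0 on frontier Omega, M>=2, then the indicator of
 Omega of a^M*S is C^1, with derivative the indicator of the derivative). Hence int V_k's wdb k is 0 (`int_wd_zero` in H805R2/IBP), so
 int_Omega d/dt(u A_t^M det J_t) = 0 for every t.
(4) Fubini on Omega x [0,1] (everything continuous, Omega bounded): int_Omega (F_1 - F_0) = int_0^1 int_Omega d/dt F_t = 0. The pattern is in
 H805R2/Path.lean `path_formula`. -/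
theorem hom (Ω : Set (Cn n)) (hΩ : IsOpen Ω) (hb : Bornology.IsBounded Ω)
    (u : Cn n → ℂ) (hu : ContDiff ℝ ∞ u) (huΩ : ∀ ζ ∈ Ω, ∀ k, wdb k u ζ = 0)
    (q q' : Fin n → Cn n → ℂ) (hq : ∀ j, ContDiff ℝ ∞ (q j)) (hq' : ∀ j, ContDiff ℝ ∞ (q' j))
    (z : Cn n) (M : ℕ) (hM : 2 ≤ M)
    (hA : ∀ ζ ∈ frontier Ω, 1 + ∑ j, q j ζ * (ζ j - z j) = 0)
    (hA' : ∀ ζ ∈ frontier Ω, 1 + ∑ j, q' j ζ * (ζ j - z j) = 0) :
    ∫ ζ in Ω, u ζ * (1 + ∑ j, q j ζ * (ζ j - z j)) ^ M *
        (Matrix.of fun j k : Fin n => wdb k (q j) ζ).det =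
      ∫ ζ in Ω, u ζ * (1 + ∑ j, q' j ζ * (ζ j - z j)) ^ M *
        (Matrix.of fun j k : Fin n => wdb k (q' j) ζ).det := by
  classical
  -- the ring elements
  have hX : ∀ j : Fin n, ContDiff ℝ ∞ fun ζ : Cn n => ζ j - z j := fun j =>
    (((EuclideanSpace.proj j : Cn n →L[ℂ] ℂ).restrictScalars ℝ).contDiff).sub contDiff_const
  set X : Fin n → SR n := fun j => mkS (fun ζ : Cn n => ζ j - z j) (hX j) with hXdef
  set qS : Fin n → SR n := fun j => mkS (q j) (hq j) with hqS
  set pS : Fin n → SR n := fun j => mkS (fun ζ => q' j ζ - q j ζ) ((hq' j).sub (hq j)) with hpS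
  set uS : SR n := mkS u hu with huS
  set qt : ℝ → Fin n → SR n := fun t j => qS j + (t : ℂ) • pS j with hqt
  set At : ℝ → SR n := fun t => 1 + ∑ j, qt t j * X j with hAt
  set St : ℝ → Fin n → SR n := fun t k => ∑ j, pS j * (hom_J Db (qt t)).adjugate k j with hSt
  -- the functions
  set a : Cn n → ℂ := fun ζ => 1 + ∑ j, q j ζ * (ζ j - z j) with ha
  set b : Cn n → ℂ := fun ζ => ∑ j, (q' j ζ - q j ζ) * (ζ j - z j) with hbdef
  set J : Cn n → Matrix (Fin n) (Fin n) ℂ := fun ζ => Matrix.of fun j k => wdb k (q j) ζ with hJ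
  set P : Cn n → Matrix (Fin n) (Fin n) ℂ := fun ζ => Matrix.of fun j k =>
    wdb k (fun ζ => q' j ζ - q j ζ) ζ with hP
  have hev_A : ∀ t ζ, fn (At t) ζ = a ζ + t * b ζ := by
    intro t ζ
    rw [← evz_apply, hAt]
    simp only [map_add, map_one, map_sum, map_mul, hqt, evz_apply, fn_smul, hqS, hpS, hXdef, fn_mk]
    rw [ha, hbdef]
    simp only
    rw [Finset.mul_sum, add_assoc, ← Finset.sum_add_distrib]
    congr 1
    apply Finset.sum_congr rfl
    intro j _
    ring
  have hev_J : ∀ t ζ, (hom_J Db (qt t)).map (evz ζ) = J ζ + (t : ℂ) • P ζ := by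
    intro t ζ
    ext j k
    simp only [Matrix.map_apply, hom_J, Matrix.of_apply, hqt, map_add, Derivation.map_smul,
      evz_apply, fn_add, fn_smul, Db_apply, Matrix.add_apply, Matrix.smul_apply, smul_eq_mul, hJ, hP]
    rfl
  have hev_adj : ∀ t ζ k j, fn ((hom_J Db (qt t)).adjugate k j) ζ =
      (J ζ + (t : ℂ) • P ζ).adjugate k j := by
    intro t ζ k j
    rw [← hev_J, ← RingHom.mapMatrix_apply, ← RingHom.map_adjugate]
    rfl
  have hev_det : ∀ t ζ, fn ((hom_J Db (qt t)).det) ζ = (J ζ + (t : ℂ) • P ζ).det := by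
    intro t ζ
    rw [← hev_J, ← RingHom.mapMatrix_apply, ← RingHom.map_det]
    rfl
  -- the integrand and its derivative
  set Φ : Cn n → ℝ → ℂ := fun ζ t => u ζ * (a ζ + t * b ζ) ^ M * (J ζ + (t : ℂ) • P ζ).det with hΦ
  set Ψ : Cn n → ℝ → ℂ := fun ζ t => u ζ * ((M : ℂ) * (a ζ + t * b ζ) ^ (M - 1) * b ζ *
    (J ζ + (t : ℂ) • P ζ).det + (a ζ + t * b ζ) ^ M *
      ((J ζ + (t : ℂ) • P ζ).adjugate * P ζ).trace) with hΨ
  have hderiv : ∀ ζ t, HasDerivAt (fun t : ℝ => Φ ζ t) (Ψ ζ t) t := by
    intro ζ t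
    have h1 : HasDerivAt (fun s : ℂ => a ζ + s * b ζ) (b ζ) (t : ℂ) := by
      simpa using ((hasDerivAt_id (t : ℂ)).mul_const (b ζ)).const_add (a ζ)
    have h2 := (h1.pow M).mul (det_path (J ζ) (P ζ) (t : ℂ))
    have h3 := (h2.const_mul (u ζ)).comp_ofReal
    refine (h3.congr_deriv ?_).congr_of_eventuallyEq (Eventually.of_forall fun s => ?_)
    · simp only [hΨ, Pi.pow_apply]
    · simp only [hΦ]
      rw [mul_assoc]
      rfl
  -- the divergence
  have hdivΨ : ∀ t, ∀ ζ ∈ Ω, Ψ ζ t = ∑ k, wdb k (fn ((At t) ^ M * (uS * St t k))) ζ := by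
    intro t ζ hζ
    have h1 : ∑ k, Db k ((At t) ^ M * St t k) =
        (M : SR n) * (At t) ^ (M - 1) * (∑ i, pS i * X i) * (hom_J Db (qt t)).det +
          (At t) ^ M * ∑ j, ∑ k, (hom_J Db (qt t)).adjugate k j * Db k (pS j) :=
      hom_div Db Db_comm (qt t) pS X (fun j k => hom_Db_coord z j k (hX j)) M
    have h2 := congrArg (evz ζ) h1
    rw [map_sum] at h2
    have h3 : ∀ k, wdb k (fn ((At t) ^ M * (uS * St t k))) ζ =
        u ζ * evz ζ (Db k ((At t) ^ M * St t k)) := by
      intro k
      have e1 : (At t) ^ M * (uS * St t k) = uS * ((At t) ^ M * St t k) := by ring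
      rw [← Db_apply, e1, (Db k).leibniz, fn_add, smul_eq_mul, smul_eq_mul, fn_mul, fn_mul]
      have e2 : fn (Db k uS) ζ = 0 := by
        rw [Db_apply]
        exact huΩ ζ hζ k
      rw [e2, mul_zero, add_zero, evz_apply]
      rfl
    simp_rw [h3]
    rw [← Finset.mul_sum, h2, hΨ]
    simp only [map_add, map_mul, map_pow, map_natCast]
    congr 1
    have e3 : evz ζ (At t) = a ζ + t * b ζ := hev_A t ζ
    have e4 : evz ζ ((hom_J Db (qt t)).det) = (J ζ + (t : ℂ) • P ζ).det := hev_det t ζ
    have e5 : evz ζ (∑ i, pS i * X i) = b ζ := by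
      rw [map_sum]
      rfl
    have e6 : evz ζ (∑ j, ∑ k, (hom_J Db (qt t)).adjugate k j * Db k (pS j)) =
        ((J ζ + (t : ℂ) • P ζ).adjugate * P ζ).trace := by
      rw [Matrix.trace_mul_comm, Matrix.trace, map_sum]
      apply Finset.sum_congr rfl
      intro j _
      rw [Matrix.diag_apply, Matrix.mul_apply, map_sum]
      apply Finset.sum_congr rfl
      intro k _
      rw [map_mul, evz_apply, evz_apply, hev_adj, Db_apply, mul_comm]
      rfl
    rw [e3, e4, e5, e6]
  have hint0 : ∀ t ∈ Icc (0 : ℝ) 1, ∫ ζ in Ω, Ψ ζ t = 0 := by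
    intro t _
    have hAf : ∀ ζ ∈ frontier Ω, fn (At t) ζ = 0 := by
      intro ζ hζ
      rw [hev_A]
      have h1 := hA ζ hζ
      have h2 := hA' ζ hζ
      have h3 : b ζ = 0 := by
        have h4 : b ζ = (1 + ∑ j, q' j ζ * (ζ j - z j)) - (1 + ∑ j, q j ζ * (ζ j - z j)) := by
          rw [hbdef]
          simp only [sub_mul, Finset.sum_sub_distrib]
          ring
        rw [h4, h1, h2, sub_zero]
      rw [h3, mul_zero, add_zero]
      exact h1
    rw [setIntegral_congr_fun hΩ.measurableSet (hdivΨ t)]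
    rw [integral_finsetSum]
    · apply Finset.sum_eq_zero
      intro k _
      exact hom_int_zero hΩ hb (At t) (uS * St t k) hAf M hM k
    · intro k _
      have h1 : Continuous (wdb k (fn ((At t) ^ M * (uS * St t k)))) := by
        rw [← fn_Db]
        exact (fn_smooth _).continuous
      exact (h1.continuousOn.integrableOn_compact hb.isCompact_closure).mono_set subset_closure
  -- continuity
  have hcoord : ∀ j : Fin n, Continuous fun ζ : Cn n => ζ j - z j := fun j => (hX j).continuous
  have hac : Continuous a :=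
    continuous_const.add (continuous_finsetSum _ fun j _ => (hq j).continuous.mul (hcoord j))
  have hbc : Continuous b := continuous_finsetSum _ fun j _ =>
    ((hq' j).continuous.sub (hq j).continuous).mul (hcoord j)
  have hwc : ∀ (f : Cn n → ℂ), ContDiff ℝ ∞ f → ∀ k, Continuous (wdb k f) := by
    intro f hf k
    have : wdb k f = fn (Db k (mkS f hf)) := (fn_Db k (mkS f hf)).symm
    rw [this]
    exact (fn_smooth _).continuous
  have hJc : Continuous J := by
    refine continuous_matrix fun j k => ?_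
    exact hwc _ (hq j) k
  have hPc : Continuous P := by
    refine continuous_matrix fun j k => ?_
    exact hwc _ ((hq' j).sub (hq j)) k
  have hJP : Continuous fun p : Cn n × ℝ => J p.1 + (p.2 : ℂ) • P p.1 :=
    (hJc.comp continuous_fst).add
      ((Complex.continuous_ofReal.comp continuous_snd).smul (hPc.comp continuous_fst))
  have habc : Continuous fun p : Cn n × ℝ => a p.1 + (p.2 : ℂ) * b p.1 :=
    (hac.comp continuous_fst).add
      ((Complex.continuous_ofReal.comp continuous_snd).mul (hbc.comp continuous_fst))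
  have hΨc : Continuous fun p : Cn n × ℝ => Ψ p.1 p.2 := by
    refine (hu.continuous.comp continuous_fst).mul ?_
    refine Continuous.add ?_ ?_
    · exact ((continuous_const.mul (habc.pow _)).mul (hbc.comp continuous_fst)).mul hJP.matrix_det
    · exact (habc.pow _).mul ((hJP.matrix_adjugate.matrix_mul (hPc.comp continuous_fst)).matrix_trace)
  have hΦc : ∀ t, Continuous fun ζ => Φ ζ t := by
    intro t
    have e1 : Continuous fun ζ : Cn n => (ζ, t) := by fun_prop
    exact (hu.continuous.mul ((habc.comp e1).pow _)).mul (hJP.comp e1).matrix_det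
  -- Fubini
  have hftc : ∀ ζ, Φ ζ 1 - Φ ζ 0 = ∫ t in (0 : ℝ)..1, Ψ ζ t := by
    intro ζ
    rw [intervalIntegral.integral_eq_sub_of_hasDerivAt (f := fun t => Φ ζ t)]
    · intro t _
      exact hderiv ζ t
    · have e1 : Continuous fun t : ℝ => (ζ, t) := by fun_prop
      exact (hΨc.comp e1).intervalIntegrable _ _
  have hswap : ∫ ζ in Ω, ∫ t in Ioc (0 : ℝ) 1, Ψ ζ t = ∫ t in Ioc (0 : ℝ) 1, ∫ ζ in Ω, Ψ ζ t := by
    apply integral_integral_swap
    have h1 : IntegrableOn (fun p : Cn n × ℝ => Ψ p.1 p.2) (closure Ω ×ˢ Icc (0 : ℝ) 1) :=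
      hΨc.continuousOn.integrableOn_compact (hb.isCompact_closure.prod isCompact_Icc)
    have h2 := h1.mono_set (prod_mono subset_closure Ioc_subset_Icc_self)
    rw [IntegrableOn, Measure.volume_eq_prod, ← Measure.prod_restrict] at h2
    exact h2
  have hzero : ∫ ζ in Ω, (Φ ζ 1 - Φ ζ 0) = 0 := by
    simp_rw [hftc, intervalIntegral.integral_of_le zero_le_one]
    rw [hswap]
    have : ∀ t ∈ Ioc (0 : ℝ) 1, ∫ ζ in Ω, Ψ ζ t = 0 := fun t ht => hint0 t (Ioc_subset_Icc_self ht)
    rw [setIntegral_congr_fun measurableSet_Ioc this]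
    simp
  have hI : ∀ t, IntegrableOn (fun ζ => Φ ζ t) Ω := fun t =>
    ((hΦc t).continuousOn.integrableOn_compact hb.isCompact_closure).mono_set subset_closure
  rw [integral_sub (hI 1) (hI 0), sub_eq_zero] at hzero
  have hΦ0 : ∀ ζ, Φ ζ 0 = u ζ * (1 + ∑ j, q j ζ * (ζ j - z j)) ^ M *
      (Matrix.of fun j k : Fin n => wdb k (q j) ζ).det := by
    intro ζ
    simp [hΦ, ha, hJ]
  have hΦ1 : ∀ ζ, Φ ζ 1 = u ζ * (1 + ∑ j, q' j ζ * (ζ j - z j)) ^ M *
      (Matrix.of fun j k : Fin n => wdb k (q' j) ζ).det := by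
    intro ζ
    have e1 : a ζ + ((1 : ℝ) : ℂ) * b ζ = 1 + ∑ j, q' j ζ * (ζ j - z j) := by
      rw [ha, hbdef]
      simp only [sub_mul, Finset.sum_sub_distrib, Complex.ofReal_one, one_mul]
      ring
    have e2 : J ζ + ((1 : ℝ) : ℂ) • P ζ = Matrix.of fun j k : Fin n => wdb k (q' j) ζ := by
      rw [← hev_J 1 ζ]
      ext j k
      rw [Matrix.map_apply, hom_J, Matrix.of_apply, Matrix.of_apply, evz_apply, Db_apply]
      congr 1
      funext y
      simp only [hqt, fn_add, fn_smul, hqS, hpS, fn_mk]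
      push_cast
      ring
    simp only [hΦ]
    rw [e1, e2]
  simp_rw [← hΦ0, ← hΦ1]
  exact hzero.symm

end Pool.Agent.Helper123
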