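import Mathlib
import Pool.Agent.H805R2.IBP
import Pool.Agent.Helper123.Defs

set_option autoImplicit false

open MeasureTheory Metric Set Filter Topology
open scoped ENNReal NNReal ContDiff ComplexConjugate

namespace Pool.Agent.Helper123

open Pool.Agent.H805R2

variable {n : ℕ}

/-! ### the profile -/

/-- smooth transition, `0` for `y ≤ 1/4`, `1` for `y ≥ 1` -/
noncomputable def radialT (y : ℝ) : ℝ := Real.smoothTransition ((4 * y - 1) / 3)

/-- `T(y)/y` -/
noncomputable def radialPsi (y : ℝ) : ℝ := radialT y / y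

lemma radial_T_contDiff : ContDiff ℝ ∞ radialT := by
  unfold radialT
  exact Real.smoothTransition.contDiff.comp (by fun_prop)

lemma radial_T_zero {y : ℝ} (h : y ≤ 1 / 4) : radialT y = 0 :=
  Real.smoothTransition.zero_of_nonpos (by linarith)

lemma radial_T_one {y : ℝ} (h : 1 ≤ y) : radialT y = 1 :=
  Real.smoothTransition.one_of_one_le (by linarith)

lemma radial_T_nonneg (y : ℝ) : 0 ≤ radialT y := Real.smoothTransition.nonneg _

lemma radial_T_le_one (y : ℝ) : radialT y ≤ 1 := Real.smoothTransition.le_one _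

lemma radial_T_pos {y : ℝ} (h : 1 / 4 < y) : 0 < radialT y :=
  Real.smoothTransition.pos_of_pos (by linarith)

lemma radial_T_lt_one {y : ℝ} (h : y < 1) : radialT y < 1 :=
  Real.smoothTransition.lt_one_of_lt_one (by linarith)

lemma radial_T_mono : Monotone radialT := by
  intro a b h
  exact Real.smoothTransition.monotone (by linarith)

lemma radial_psi_mul (y : ℝ) : radialPsi y * y = radialT y := by
  unfold radialPsi
  by_cases h : y = 0
  · subst h
    rw [mul_zero, radial_T_zero (by norm_num)]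
  · exact div_mul_cancel₀ _ h

lemma radial_psi_contDiff : ContDiff ℝ ∞ radialPsi := by
  rw [contDiff_iff_contDiffAt]
  intro y
  by_cases h : y < 1 / 4
  · have h1 : radialPsi =ᶠ[𝓝 y] fun _ => 0 := by
      filter_upwards [Iio_mem_nhds h] with x hx
      unfold radialPsi
      rw [radial_T_zero (le_of_lt hx), zero_div]
    exact contDiffAt_const.congr_of_eventuallyEq h1
  · have hy : y ≠ 0 := by
      intro h0; subst h0; exact h (by norm_num)
    exact radial_T_contDiff.contDiffAt.div contDiffAt_id hy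

lemma radial_psi_nonneg {y : ℝ} (h : 0 ≤ y) : 0 ≤ radialPsi y :=
  div_nonneg (radial_T_nonneg y) h

lemma radial_psi_deriv (y : ℝ) : deriv radialPsi y * y + radialPsi y = deriv radialT y := by
  have h1 : HasDerivAt radialPsi (deriv radialPsi y) y :=
    (radial_psi_contDiff.differentiable (by simp)).differentiableAt.hasDerivAt
  have h2 := h1.mul (hasDerivAt_id y)
  have h3 : (radialPsi * id) = radialT := by
    funext x
    exact radial_psi_mul x
  rw [h3] at h2
  rw [h2.deriv]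
  simp

/-- the weight -/
noncomputable def radialW (n M : ℕ) (y : ℝ) : ℝ :=
  (1 - radialT y) ^ M * (radialPsi y ^ n + radialPsi y ^ (n - 1) * deriv radialPsi y * y)

lemma radial_W_cont (n M : ℕ) : Continuous (radialW n M) := by
  unfold radialW
  have h1 : Continuous radialT := radial_T_contDiff.continuous
  have h2 : Continuous radialPsi := radial_psi_contDiff.continuous
  have h3 : Continuous (deriv radialPsi) := radial_psi_contDiff.continuous_deriv (by simp)
  fun_prop

lemma radial_W_zero {n M : ℕ} (hM : 1 ≤ M) {y : ℝ} (hy : 1 ≤ y) : radialW n M y = 0 := by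
  unfold radialW
  rw [radial_T_one hy, sub_self, zero_pow (by omega), zero_mul]

lemma radial_W_eq {n : ℕ} (hn : 1 ≤ n) (M : ℕ) (y : ℝ) :
    radialW n M y = (1 - radialT y) ^ M * (radialPsi y ^ (n - 1) * deriv radialT y) := by
  unfold radialW
  rw [← radial_psi_deriv y]
  obtain ⟨m, rfl⟩ : ∃ m, n = m + 1 := ⟨n - 1, by omega⟩
  simp only [Nat.add_sub_cancel]
  ring

lemma radial_W_nonneg {n : ℕ} (hn : 1 ≤ n) (M : ℕ) {y : ℝ} (hy : 0 ≤ y) : 0 ≤ radialW n M y := by
  rw [radial_W_eq hn]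
  have h1 : 0 ≤ 1 - radialT y := by linarith [radial_T_le_one y]
  have h2 := radial_psi_nonneg hy
  have h3 : 0 ≤ deriv radialT y := radial_T_mono.deriv_nonneg
  positivity

lemma radial_W_pos {n : ℕ} (hn : 1 ≤ n) (M : ℕ) : ∃ y : ℝ, 0 < y ∧ y < 1 ∧ 0 < radialW n M y := by
  obtain ⟨c, hc, hc2⟩ := exists_deriv_eq_slope radialT (a := 1 / 4) (b := 1) (by norm_num)
    radial_T_contDiff.continuous.continuousOn
    ((radial_T_contDiff.differentiable (by simp)).differentiableOn)
  rw [radial_T_one le_rfl, radial_T_zero le_rfl] at hc2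
  refine ⟨c, by linarith [hc.1], hc.2, ?_⟩
  rw [radial_W_eq hn, hc2]
  have h1 : 0 < 1 - radialT c := by linarith [radial_T_lt_one hc.2]
  have h2 : 0 < radialPsi c := div_pos (radial_T_pos hc.1) (by linarith [hc.1])
  positivity

/-! ### linear algebra -/

lemma radial_det {n : ℕ} (hn : 1 ≤ n) (a b : ℂ) (u v : Fin n → ℂ) :
    (Matrix.of fun j k : Fin n => a * (if j = k then 1 else 0) + b * v k * u j).det =
      a ^ n + a ^ (n - 1) * b * ∑ j, v j * u j := by
  have hne : ∀ a : ℂ, a ≠ 0 →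
      (Matrix.of fun j k : Fin n => a * (if j = k then 1 else 0) + b * v k * u j).det =
      a ^ n + a ^ (n - 1) * b * ∑ j, v j * u j := by
    intro a ha
    have h1 : (Matrix.of fun j k : Fin n => a * (if j = k then 1 else 0) + b * v k * u j) =
        a • (1 + Matrix.replicateCol Unit (fun j => (b / a) * u j) * Matrix.replicateRow Unit v) := by
      ext j k
      simp only [Matrix.of_apply, Matrix.smul_apply, Matrix.add_apply, Matrix.mul_apply,
        Matrix.replicateCol_apply, Matrix.replicateRow_apply, Finset.univ_unique,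
        Finset.sum_singleton, smul_eq_mul, Matrix.one_apply]
      field_simp
    rw [h1, Matrix.det_smul, Matrix.det_one_add_replicateCol_mul_replicateRow, Fintype.card_fin]
    obtain ⟨m, rfl⟩ : ∃ m, n = m + 1 := ⟨n - 1, by omega⟩
    simp only [Nat.add_sub_cancel, dotProduct]
    have h2 : ∑ j, v j * (b / a * u j) = (b / a) * ∑ j, v j * u j := by
      rw [Finset.mul_sum]
      exact Finset.sum_congr rfl fun j _ => by ring
    rw [h2, mul_add, mul_one, pow_succ]
    field_simp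
  have hc1 : Continuous fun a : ℂ =>
      (Matrix.of fun j k : Fin n => a * (if j = k then 1 else 0) + b * v k * u j).det := by
    apply Continuous.matrix_det
    fun_prop
  have hc2 : Continuous fun a : ℂ => a ^ n + a ^ (n - 1) * b * ∑ j, v j * u j := by fun_prop
  have := Continuous.ext_on (dense_compl_singleton (0 : ℂ)) hc1 hc2 (fun a ha => hne a ha)
  exact congrFun this a

/-! ### derivatives -/

/-- the model coefficients -/
noncomputable def radialQ (φ : ℝ → ℝ) (z : Cn n) (j : Fin n) (ζ : Cn n) : ℂ :=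
  -((φ (‖ζ - z‖ ^ 2) : ℝ) : ℂ) * conj (ζ j - z j)

lemma radial_Q_contDiff {φ : ℝ → ℝ} (hφ : ContDiff ℝ ∞ φ) (z : Cn n) (j : Fin n) :
    ContDiff ℝ ∞ (radialQ φ z j) := by
  unfold radialQ
  have h1 : ContDiff ℝ ∞ fun ζ : Cn n => ‖ζ - z‖ ^ 2 := by
    have e : (fun ζ : Cn n => ‖ζ - z‖ ^ 2) = fun ζ : Cn n =>
        ∑ i, ((ζ i - z i).re ^ 2 + (ζ i - z i).im ^ 2) := by
      funext ζ
      rw [EuclideanSpace.norm_sq_eq]
      refine Finset.sum_congr rfl fun i _ => ?_
      rw [Complex.sq_norm, Complex.normSq_apply, PiLp.sub_apply]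
      ring
    rw [e]
    have hc : ∀ i : Fin n, ContDiff ℝ ∞ fun ζ : Cn n => ζ i - z i := by
      intro i
      have : ContDiff ℝ ∞ fun ζ : Cn n => ζ i :=
        ((EuclideanSpace.proj i : Cn n →L[ℂ] ℂ).restrictScalars ℝ).contDiff
      exact this.sub contDiff_const
    refine ContDiff.sum fun i _ => ?_
    exact ((Complex.reCLM.contDiff.comp (hc i)).pow 2).add
      ((Complex.imCLM.contDiff.comp (hc i)).pow 2)
  have h2 : ContDiff ℝ ∞ fun ζ : Cn n => ζ j - z j := by
    have : ContDiff ℝ ∞ fun ζ : Cn n => ζ j :=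
      ((EuclideanSpace.proj j : Cn n →L[ℂ] ℂ).restrictScalars ℝ).contDiff
    exact this.sub contDiff_const
  have h3 : ContDiff ℝ ∞ fun ζ : Cn n => conj (ζ j - z j) := Complex.conjCLE.contDiff.comp h2
  have h4 : ContDiff ℝ ∞ fun ζ : Cn n => ((φ (‖ζ - z‖ ^ 2) : ℝ) : ℂ) :=
    Complex.ofRealCLM.contDiff.comp (hφ.comp h1)
  exact h4.neg.mul h3

lemma radial_dir {φ : ℝ → ℝ} (hφ : ContDiff ℝ ∞ φ) (z : Cn n) (j : Fin n) (ζ v : Cn n) :
    fderiv ℝ (radialQ φ z j) ζ v =
      -((deriv φ (‖ζ - z‖ ^ 2) * (2 * (inner ℂ (ζ - z) v).re) : ℝ) : ℂ) * conj (ζ j - z j) -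
        ((φ (‖ζ - z‖ ^ 2) : ℝ) : ℂ) * conj (v j) := by
  have hd : DifferentiableAt ℝ (radialQ φ z j) (ζ + (0 : ℝ) • v) :=
    ((radial_Q_contDiff hφ z j).differentiable (by simp)).differentiableAt
  have hline : HasDerivAt (fun t : ℝ => ζ + t • v) v 0 := by
    simpa using ((hasDerivAt_id (0 : ℝ)).smul_const v).const_add ζ
  have h1 : HasDerivAt (fun t : ℝ => radialQ φ z j (ζ + t • v)) (fderiv ℝ (radialQ φ z j) ζ v) 0 := by
    have h0 := hd.hasFDerivAt.comp_hasDerivAt (0 : ℝ) hline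
    have hz : ζ + (0 : ℝ) • v = ζ := by rw [zero_smul, add_zero]
    rw [hz] at h0
    exact h0
  have hN : ∀ t : ℝ, ‖ζ + t • v - z‖ ^ 2 =
      ‖ζ - z‖ ^ 2 + 2 * t * (inner ℂ (ζ - z) v).re + t ^ 2 * ‖v‖ ^ 2 := by
    intro t
    have e : ζ + t • v - z = (ζ - z) + ((t : ℝ) : ℂ) • v := by
      rw [Complex.coe_smul]; abel
    rw [e, @norm_add_sq ℂ, inner_smul_right, norm_smul, Complex.norm_real, Real.norm_eq_abs, mul_pow,
      sq_abs]
    simp only [RCLike.re_eq_complex_re, Complex.re_ofReal_mul]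
    ring
  have h2 : HasDerivAt (fun t : ℝ => ‖ζ - z‖ ^ 2 + 2 * t * (inner ℂ (ζ - z) v).re + t ^ 2 * ‖v‖ ^ 2)
      (2 * (inner ℂ (ζ - z) v).re) 0 := by
    have a1 : HasDerivAt (fun t : ℝ => 2 * t * (inner ℂ (ζ - z) v).re)
        (2 * (inner ℂ (ζ - z) v).re) 0 := by
      simpa using ((hasDerivAt_id (0 : ℝ)).const_mul 2).mul_const (inner ℂ (ζ - z) v).re
    have a2 : HasDerivAt (fun t : ℝ => t ^ 2 * ‖v‖ ^ 2) 0 0 := by
      simpa using (hasDerivAt_pow 2 (0 : ℝ)).mul_const (‖v‖ ^ 2)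
    have a3 := (a1.const_add (‖ζ - z‖ ^ 2)).add a2
    rw [add_zero] at a3
    exact a3
  have h3 : HasDerivAt (fun t : ℝ => φ (‖ζ + t • v - z‖ ^ 2))
      (deriv φ (‖ζ - z‖ ^ 2) * (2 * (inner ℂ (ζ - z) v).re)) 0 := by
    have b1 : HasDerivAt φ (deriv φ (‖ζ - z‖ ^ 2))
        (‖ζ - z‖ ^ 2 + 2 * 0 * (inner ℂ (ζ - z) v).re + 0 ^ 2 * ‖v‖ ^ 2) := by
      have e : ‖ζ - z‖ ^ 2 + 2 * 0 * (inner ℂ (ζ - z) v).re + 0 ^ 2 * ‖v‖ ^ 2 = ‖ζ - z‖ ^ 2 := by ring
      rw [e]
      exact ((hφ.differentiable (by simp)).differentiableAt).hasDerivAt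
    have b2 := HasDerivAt.comp (0 : ℝ) b1 h2
    have e : (fun t : ℝ => φ (‖ζ + t • v - z‖ ^ 2)) =
        φ ∘ (fun t : ℝ => ‖ζ - z‖ ^ 2 + 2 * t * (inner ℂ (ζ - z) v).re + t ^ 2 * ‖v‖ ^ 2) := by
      funext t
      simp only [Function.comp, hN]
    rw [e]
    exact b2
  have h4 : HasDerivAt (fun t : ℝ => conj ((ζ + t • v) j - z j)) (conj (v j)) 0 := by
    have c1 : HasDerivAt (fun t : ℝ => (t : ℂ)) 1 0 := (hasDerivAt_id (0 : ℝ)).ofReal_comp
    have c2 : HasDerivAt (fun t : ℝ => conj (ζ j - z j) + (t : ℂ) * conj (v j)) (conj (v j)) 0 := by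
      simpa using (c1.mul_const (conj (v j))).const_add (conj (ζ j - z j))
    have e : (fun t : ℝ => conj ((ζ + t • v) j - z j)) =
        fun t : ℝ => conj (ζ j - z j) + (t : ℂ) * conj (v j) := by
      funext t
      simp only [PiLp.add_apply, PiLp.smul_apply, Complex.real_smul, map_sub, map_add, map_mul,
        Complex.conj_ofReal]
      ring
    rw [e]
    exact c2
  have h5 := (h3.ofReal_comp.neg).mul h4
  have h6 : (fun t : ℝ => radialQ φ z j (ζ + t • v)) =
      (-fun t : ℝ => ((φ (‖ζ + t • v - z‖ ^ 2) : ℝ) : ℂ)) * fun t : ℝ => conj ((ζ + t • v) j - z j) := by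
    funext t
    rfl
  have h7 := h5.congr_of_eventuallyEq (Filter.EventuallyEq.of_eq h6)
  rw [h1.unique h7]
  simp only [zero_smul, add_zero, Pi.neg_apply]
  ring

lemma radial_wdb {φ : ℝ → ℝ} (hφ : ContDiff ℝ ∞ φ) (z : Cn n) (j k : Fin n) (ζ : Cn n) :
    wdb k (radialQ φ z j) ζ =
      (-((φ (‖ζ - z‖ ^ 2) : ℝ) : ℂ)) * (if j = k then 1 else 0) +
        (-((deriv φ (‖ζ - z‖ ^ 2) : ℝ) : ℂ)) * (ζ k - z k) * conj (ζ j - z j) := by
  have hb : ∀ k : Fin n, inner ℂ (ζ - z) (bas k) = conj (ζ k - z k) := by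
    intro k
    rw [bas, EuclideanSpace.inner_single_right, one_mul, PiLp.sub_apply]
  have hbj : (bas k : Cn n) j = if j = k then 1 else 0 := by
    simp [bas]
  rw [wdb, radial_dir hφ, radial_dir hφ, inner_smul_right, hb, PiLp.smul_apply, hbj]
  have hx : (ζ k - z k) = ((ζ k - z k).re : ℂ) + ((ζ k - z k).im : ℂ) * Complex.I :=
    (Complex.re_add_im _).symm
  have e1 : (conj (ζ k - z k)).re = (ζ k - z k).re := Complex.conj_re _
  have e2 : (Complex.I * conj (ζ k - z k)).re = (ζ k - z k).im := by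
    simp; ring
  rw [e1, e2]
  have e3 : conj (Complex.I • (if j = k then (1 : ℂ) else 0)) = -Complex.I * (if j = k then 1 else 0) := by
    split_ifs <;> simp
  have e4 : conj (if j = k then (1 : ℂ) else 0) = (if j = k then 1 else 0) := by
    split_ifs <;> simp
  rw [e3, e4]
  conv_rhs => rw [hx]
  push_cast
  linear_combination (((φ (‖ζ - z‖ ^ 2) : ℝ) : ℂ) * (if j = k then 1 else 0) / 2) * Complex.I_mul_I

lemma radial_det_wdb (hn : 1 ≤ n) {φ : ℝ → ℝ} (hφ : ContDiff ℝ ∞ φ) (z ζ : Cn n) :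
    (Matrix.of fun j k : Fin n => wdb k (radialQ φ z j) ζ).det =
      (-1) ^ n * ((φ (‖ζ - z‖ ^ 2) ^ n + φ (‖ζ - z‖ ^ 2) ^ (n - 1) * deriv φ (‖ζ - z‖ ^ 2) *
        ‖ζ - z‖ ^ 2 : ℝ) : ℂ) := by
  have h1 : (Matrix.of fun j k : Fin n => wdb k (radialQ φ z j) ζ) =
      Matrix.of fun j k : Fin n => (-((φ (‖ζ - z‖ ^ 2) : ℝ) : ℂ)) * (if j = k then 1 else 0) +
        (-((deriv φ (‖ζ - z‖ ^ 2) : ℝ) : ℂ)) * (ζ k - z k) * conj (ζ j - z j) := by
    ext j k
    exact radial_wdb hφ z j k ζ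
  rw [h1, radial_det hn]
  have h2 : ∑ j, (ζ j - z j) * conj (ζ j - z j) = ((‖ζ - z‖ ^ 2 : ℝ) : ℂ) := by
    rw [EuclideanSpace.norm_sq_eq]
    push_cast
    refine Finset.sum_congr rfl fun j _ => ?_
    rw [Complex.mul_conj']
    rfl
  rw [h2]
  obtain ⟨m, rfl⟩ : ∃ m, n = m + 1 := ⟨n - 1, by omega⟩
  simp only [Nat.add_sub_cancel]
  push_cast
  rw [neg_pow, neg_pow (((φ (‖ζ - z‖ ^ 2) : ℝ) : ℂ)) m]
  ring

lemma radial_sum (φ : ℝ → ℝ) (z ζ : Cn n) :
    1 + ∑ j, radialQ φ z j ζ * (ζ j - z j) = ((1 - φ (‖ζ - z‖ ^ 2) * ‖ζ - z‖ ^ 2 : ℝ) : ℂ) := by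
  have h1 : ∀ j, radialQ φ z j ζ * (ζ j - z j) =
      -((φ (‖ζ - z‖ ^ 2) : ℝ) : ℂ) * ((ζ j - z j) * conj (ζ j - z j)) := by
    intro j
    unfold radialQ
    ring
  have h2 : ∑ j, (ζ j - z j) * conj (ζ j - z j) = ((‖ζ - z‖ ^ 2 : ℝ) : ℂ) := by
    rw [EuclideanSpace.norm_sq_eq]
    push_cast
    refine Finset.sum_congr rfl fun j _ => ?_
    rw [Complex.mul_conj']
    rfl
  simp_rw [h1]
  rw [← Finset.mul_sum, h2]
  push_cast
  ring

/-! ### mean value -/

/-- rotation of `ℂⁿ` -/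
noncomputable def radialRot (n : ℕ) (θ : ℝ) : Cn n ≃ₗᵢ[ℝ] Cn n where
  toLinearEquiv :=
    { toFun := fun x => Complex.exp (θ * Complex.I) • x
      invFun := fun x => Complex.exp (-(θ * Complex.I)) • x
      map_add' := fun x y => smul_add _ _ _
      map_smul' := fun c x => by
        rw [RingHom.id_apply, smul_comm]
      left_inv := fun x => by
        change Complex.exp (-(θ * Complex.I)) • (Complex.exp (θ * Complex.I) • x) = x
        rw [smul_smul, ← Complex.exp_add, neg_add_cancel, Complex.exp_zero, one_smul]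
      right_inv := fun x => by
        change Complex.exp (θ * Complex.I) • (Complex.exp (-(θ * Complex.I)) • x) = x
        rw [smul_smul, ← Complex.exp_add, add_neg_cancel, Complex.exp_zero, one_smul] }
  norm_map' := fun x => by
    change ‖Complex.exp (θ * Complex.I) • x‖ = ‖x‖
    rw [norm_smul, Complex.norm_exp_ofReal_mul_I, one_mul]

lemma radial_rot_apply (θ : ℝ) (x : Cn n) : radialRot n θ x = Complex.exp (θ * Complex.I) • x := rfl

lemma radial_mean {v : Cn n → ℂ} (hv : DifferentiableOn ℂ v (ball 0 2)) {w : ℝ → ℝ}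
    (hw : Continuous w) (hw0 : ∀ y, 1 ≤ y → w y = 0) :
    ∫ x, v x * ((w (‖x‖ ^ 2) : ℝ) : ℂ) = v 0 * ∫ x : Cn n, ((w (‖x‖ ^ 2) : ℝ) : ℂ) := by
  let K : ℝ × Cn n → ℂ := fun q => v (Complex.exp (q.1 * Complex.I) • q.2) *
    ((w (‖q.2‖ ^ 2) : ℝ) : ℂ)
  have hz : ∀ y : Cn n, y ∉ closedBall (0 : Cn n) 1 → w (‖y‖ ^ 2) = 0 := by
    intro y hy
    rw [mem_closedBall_zero_iff, not_le] at hy
    apply hw0
    nlinarith
  have hrc : Continuous fun q : ℝ × Cn n => Complex.exp (q.1 * Complex.I) • q.2 := by fun_prop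
  have hrn : ∀ q : ℝ × Cn n, ‖Complex.exp (q.1 * Complex.I) • q.2‖ = ‖q.2‖ := by
    intro q
    rw [norm_smul, Complex.norm_exp_ofReal_mul_I, one_mul]
  have hdat : ∀ x : Cn n, ‖x‖ < 2 → DifferentiableAt ℂ v x := fun x hx =>
    hv.differentiableAt (isOpen_ball.mem_nhds (by simpa using hx))
  have hKc : Continuous K := by
    rw [continuous_iff_continuousAt]
    rintro ⟨θ, y⟩
    by_cases hy : ‖y‖ < 2
    · have h2 : ContinuousAt v (Complex.exp (θ * Complex.I) • y) :=
        (hdat _ (by rw [hrn (θ, y)]; exact hy)).continuousAt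
      have h3 : ContinuousAt (fun q : ℝ × Cn n => v (Complex.exp (q.1 * Complex.I) • q.2)) (θ, y) :=
        ContinuousAt.comp (g := v) (f := fun q : ℝ × Cn n => Complex.exp (q.1 * Complex.I) • q.2) h2
          hrc.continuousAt
      exact h3.mul (Complex.continuous_ofReal.comp
        (hw.comp (continuous_snd.norm.pow 2))).continuousAt
    · have hev : K =ᶠ[𝓝 (θ, y)] fun _ => 0 := by
        have ho : IsOpen {q : ℝ × Cn n | q.2 ∈ (closedBall (0 : Cn n) 1)ᶜ} :=
          isClosed_closedBall.isOpen_compl.preimage continuous_snd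
        have hy' : y ∉ closedBall (0 : Cn n) 1 := by
          rw [mem_closedBall_zero_iff]; intro h; exact hy (by linarith)
        filter_upwards [ho.mem_nhds hy'] with q hq
        simp only [K]
        rw [hz _ hq]
        simp
      exact continuousAt_const.congr hev.symm
  have hpi : (0 : ℝ) ≤ 2 * Real.pi := by positivity
  have hKi : Integrable K ((volume.restrict (Ioc 0 (2 * Real.pi))).prod volume) := by
    have h1 : IntegrableOn K (Icc 0 (2 * Real.pi) ×ˢ closedBall (0 : Cn n) 1)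
        (volume.prod volume) :=
      hKc.continuousOn.integrableOn_compact (isCompact_Icc.prod (isCompact_closedBall _ _))
    have h2 : IntegrableOn K (Ioc 0 (2 * Real.pi) ×ˢ closedBall (0 : Cn n) 1)
        (volume.prod volume) :=
      h1.mono_set (prod_mono Ioc_subset_Icc_self subset_rfl)
    have h3 : IntegrableOn K (Ioc 0 (2 * Real.pi) ×ˢ (univ : Set (Cn n))) (volume.prod volume) := by
      apply h2.of_forall_sdiff_eq_zero (measurableSet_Ioc.prod MeasurableSet.univ)
      rintro ⟨θ, y⟩ hy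
      have hy' : y ∉ closedBall (0 : Cn n) 1 := fun h => hy.2 ⟨hy.1.1, h⟩
      simp only [K]
      rw [hz _ hy']
      simp
    unfold IntegrableOn at h3
    rwa [← Measure.prod_restrict, Measure.restrict_univ] at h3
  have hA : ∀ θ : ℝ, ∫ y, K (θ, y) = ∫ y, v y * ((w (‖y‖ ^ 2) : ℝ) : ℂ) := by
    intro θ
    have h := (LinearIsometryEquiv.measurePreserving (radialRot n θ)).integral_comp
      (radialRot n θ).toHomeomorph.measurableEmbedding
      (fun y => v y * ((w (‖y‖ ^ 2) : ℝ) : ℂ))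
    rw [← h]
    simp only [K]
    congr 1
    funext y
    rw [LinearIsometryEquiv.norm_map, radial_rot_apply]
  have hB : ∀ y, ∫ θ in Ioc 0 (2 * Real.pi), K (θ, y) =
      2 * Real.pi * v 0 * ((w (‖y‖ ^ 2) : ℝ) : ℂ) := by
    intro y
    by_cases hy : y ∈ closedBall (0 : Cn n) 1
    · have hy1 : ‖y‖ ≤ 1 := by simpa using hy
      have hd : ∀ ζ ∈ Metric.closedBall (0 : ℂ) 1, DifferentiableAt ℂ (fun ζ : ℂ => v (ζ • y)) ζ := by
        intro ζ hζ
        have h1 : ‖ζ • y‖ < 2 := by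
          rw [norm_smul]
          have h3 : ‖ζ‖ ≤ 1 := by simpa using hζ
          calc ‖ζ‖ * ‖y‖ ≤ 1 * 1 := mul_le_mul h3 hy1 (norm_nonneg _) zero_le_one
            _ < 2 := by norm_num
        exact DifferentiableAt.comp ζ (g := v) (f := fun ζ : ℂ => ζ • y) (hdat _ h1) (by fun_prop)
      have h := circleAverage_of_differentiable_on_off_countable (f := fun ζ : ℂ => v (ζ • y))
        (c := 0) (R := 1) countable_empty
        (by
          rw [abs_one]
          intro ζ hζ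
          exact (hd ζ hζ).continuousAt.continuousWithinAt)
        (by
          rw [abs_one]
          intro ζ hζ
          exact hd ζ (Metric.ball_subset_closedBall hζ.1))
      rw [Real.circleAverage_def] at h
      have e : ∀ θ : ℝ, circleMap 0 1 θ = Complex.exp (θ * Complex.I) := by
        intro θ
        simp [circleMap]
      simp_rw [e] at h
      rw [zero_smul] at h
      have e2 : ∫ θ in Ioc 0 (2 * Real.pi), K (θ, y) =
          (∫ θ in (0 : ℝ)..2 * Real.pi, v (Complex.exp (θ * Complex.I) • y)) *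
            ((w (‖y‖ ^ 2) : ℝ) : ℂ) := by
        rw [intervalIntegral.integral_of_le hpi, ← integral_mul_const]
      rw [e2, ← h, Complex.real_smul]
      push_cast
      have : (2 * Real.pi : ℂ) ≠ 0 := by simp [Real.pi_ne_zero]
      rw [← mul_assoc, mul_inv_cancel₀ this, one_mul]
    · simp only [K]
      rw [hz _ hy]
      simp
  have hswap := integral_integral_swap (f := fun θ y => K (θ, y)) hKi
  simp_rw [hA, hB] at hswap
  rw [integral_const_mul, integral_const] at hswap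
  simp only [MeasurableSet.univ, measureReal_restrict_apply, univ_inter, Real.volume_real_Ioc,
    sub_zero] at hswap
  rw [max_eq_left hpi, Complex.real_smul] at hswap
  push_cast at hswap
  have : (2 * Real.pi : ℂ) ≠ 0 := by simp [Real.pi_ne_zero]
  apply mul_left_cancel₀ this
  rw [hswap]
  push_cast
  ring

/-- positivity of the constant -/
lemma radial_const_pos (hn : 1 ≤ n) {M : ℕ} (hM : 1 ≤ M) :
    0 < ∫ x : Cn n, radialW n M (‖x‖ ^ 2) := by
  obtain ⟨y, hy0, hy1, hy⟩ := radial_W_pos hn M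
  have hc : Continuous fun x : Cn n => radialW n M (‖x‖ ^ 2) :=
    (radial_W_cont n M).comp (continuous_norm.pow 2)
  have hcs : HasCompactSupport fun x : Cn n => radialW n M (‖x‖ ^ 2) := by
    apply HasCompactSupport.intro (isCompact_closedBall (0 : Cn n) 1)
    intro x hx
    rw [mem_closedBall_zero_iff, not_le] at hx
    exact radial_W_zero hM (by nlinarith)
  refine hc.integral_pos_of_hasCompactSupport_nonneg_nonzero hcs
    (fun x => radial_W_nonneg hn M (by positivity))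
    (x := ((Real.sqrt y : ℝ) : ℂ) • bas ⟨0, by omega⟩) ?_
  have : ‖((Real.sqrt y : ℝ) : ℂ) • (bas ⟨0, by omega⟩ : Cn n)‖ ^ 2 = y := by
    rw [norm_smul, Complex.norm_real, Real.norm_eq_abs, mul_pow, sq_abs, Real.sq_sqrt hy0.le]
    simp [bas]
  change radialW n M _ ≠ 0
  rw [this]
  exact hy.ne'

/-- TARGET. Model kernel. -/
theorem radial (hn : 1 ≤ n) (M : ℕ) (hM : 1 ≤ M) :
    ∃ C0 : ℂ, C0 ≠ 0 ∧ ∀ (z : Cn n) (ε : ℝ), 0 < ε → ∃ q' : Fin n → Cn n → ℂ,
      (∀ j, ContDiff ℝ ∞ (q' j)) ∧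
      (∀ ζ, ε ≤ ‖ζ - z‖ → 1 + ∑ j, q' j ζ * (ζ j - z j) = 0) ∧
      ∀ u : Cn n → ℂ, DifferentiableOn ℂ u (ball z (2 * ε)) →
        ∫ ζ in ball z ε, u ζ * (1 + ∑ j, q' j ζ * (ζ j - z j)) ^ M *
          (Matrix.of fun j k : Fin n => wdb k (q' j) ζ).det = C0 * u z := by
  refine ⟨(-1) ^ n * ∫ x : Cn n, ((radialW n M (‖x‖ ^ 2) : ℝ) : ℂ), ?_, ?_⟩
  · rw [integral_complex_ofReal]
    refine mul_ne_zero (pow_ne_zero _ (by norm_num)) ?_
    exact_mod_cast (radial_const_pos hn hM).ne'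
  intro z ε hε
  set e : ℝ := (ε ^ 2)⁻¹ with he
  have he0 : 0 < e := by positivity
  have heε : e * ε ^ 2 = 1 := by rw [he]; field_simp
  let φ : ℝ → ℝ := fun y => e * radialPsi (e * y)
  have hφ : ContDiff ℝ ∞ φ := contDiff_const.mul
    (radial_psi_contDiff.comp (contDiff_const.mul contDiff_id))
  have hφ' : ∀ y, deriv φ y = e * (deriv radialPsi (e * y) * e) := by
    intro y
    have h1 : HasDerivAt (fun y : ℝ => e * y) e y := by
      simpa using (hasDerivAt_id y).const_mul e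
    have h2 : HasDerivAt radialPsi (deriv radialPsi (e * y)) (e * y) :=
      (radial_psi_contDiff.differentiable (by simp)).differentiableAt.hasDerivAt
    exact ((HasDerivAt.comp y h2 h1).const_mul e).deriv
  have hsum : ∀ ζ : Cn n, 1 + ∑ j, radialQ φ z j ζ * (ζ j - z j) =
      ((1 - radialT (e * ‖ζ - z‖ ^ 2) : ℝ) : ℂ) := by
    intro ζ
    rw [radial_sum]
    congr 2
    simp only [φ]
    rw [← radial_psi_mul]
    ring
  refine ⟨radialQ φ z, fun j => radial_Q_contDiff hφ z j, ?_, ?_⟩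
  · intro ζ hζ
    rw [hsum, radial_T_one]
    · simp
    · rw [← heε]
      apply mul_le_mul_of_nonneg_left _ he0.le
      exact pow_le_pow_left₀ hε.le hζ 2
  · intro u hu
    -- the integrand
    have hint : ∀ ζ : Cn n, u ζ * (1 + ∑ j, radialQ φ z j ζ * (ζ j - z j)) ^ M *
          (Matrix.of fun j k : Fin n => wdb k (radialQ φ z j) ζ).det =
        ((-1) ^ n * ((e ^ n : ℝ) : ℂ)) * (u ζ * ((radialW n M (e * ‖ζ - z‖ ^ 2) : ℝ) : ℂ)) := by
      intro ζ
      rw [hsum, radial_det_wdb hn hφ]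
      have h1 : (φ (‖ζ - z‖ ^ 2) ^ n + φ (‖ζ - z‖ ^ 2) ^ (n - 1) * deriv φ (‖ζ - z‖ ^ 2) *
          ‖ζ - z‖ ^ 2) = e ^ n * (radialPsi (e * ‖ζ - z‖ ^ 2) ^ n +
            radialPsi (e * ‖ζ - z‖ ^ 2) ^ (n - 1) * deriv radialPsi (e * ‖ζ - z‖ ^ 2) *
            (e * ‖ζ - z‖ ^ 2)) := by
        rw [hφ']
        simp only [φ]
        obtain ⟨m, rfl⟩ : ∃ m, n = m + 1 := ⟨n - 1, by omega⟩
        simp only [Nat.add_sub_cancel]
        ring
      rw [h1, radialW]
      push_cast
      ring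
    simp_rw [hint]
    rw [integral_const_mul]
    have hzero : ∀ ζ : Cn n, ζ ∉ ball z ε → u ζ * ((radialW n M (e * ‖ζ - z‖ ^ 2) : ℝ) : ℂ) = 0 := by
      intro ζ hζ
      rw [mem_ball_iff_norm, not_lt] at hζ
      rw [radial_W_zero hM]
      · simp
      · rw [← heε]
        apply mul_le_mul_of_nonneg_left _ he0.le
        exact pow_le_pow_left₀ hε.le hζ 2
    rw [setIntegral_eq_integral_of_forall_compl_eq_zero hzero]
    -- translation and scaling
    have ht : ∫ ζ : Cn n, u ζ * ((radialW n M (e * ‖ζ - z‖ ^ 2) : ℝ) : ℂ) =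
        ∫ x : Cn n, u (z + x) * ((radialW n M (e * ‖x‖ ^ 2) : ℝ) : ℂ) := by
      rw [← integral_add_left_eq_self _ z]
      congr 1
      funext x
      rw [add_sub_cancel_left]
    have hs := Measure.integral_comp_smul (volume : Measure (Cn n))
      (fun x : Cn n => u (z + x) * ((radialW n M (e * ‖x‖ ^ 2) : ℝ) : ℂ)) ε
    have hfin : Module.finrank ℝ (Cn n) = 2 * n := by
      rw [finrank_real_of_complex, finrank_euclideanSpace, Fintype.card_fin]
    have hs2 : ∀ x : Cn n, u (z + ε • x) * ((radialW n M (e * ‖ε • x‖ ^ 2) : ℝ) : ℂ) =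
        u (z + ε • x) * ((radialW n M (‖x‖ ^ 2) : ℝ) : ℂ) := by
      intro x
      rw [norm_smul, Real.norm_eq_abs, mul_pow, sq_abs, ← mul_assoc, heε, one_mul]
    simp only [hs2] at hs
    have hmv := radial_mean (v := fun x : Cn n => u (z + ε • x)) (w := radialW n M) (by
      intro x hx
      have hx2 : ‖x‖ < 2 := by simpa using hx
      have h1 : z + ε • x ∈ ball z (2 * ε) := by
        rw [mem_ball_iff_norm, add_sub_cancel_left, norm_smul, Real.norm_eq_abs, abs_of_pos hε]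
        nlinarith
      have h2 : DifferentiableAt ℂ u (z + ε • x) :=
        hu.differentiableAt (isOpen_ball.mem_nhds h1)
      have h3 : DifferentiableAt ℂ (fun x : Cn n => z + ε • x) x := by
        have : (fun x : Cn n => z + ε • x) = fun x : Cn n => z + (ε : ℂ) • x := by
          funext x
          rw [Complex.coe_smul]
        rw [this]
        fun_prop
      exact (DifferentiableAt.comp x (g := u) (f := fun x : Cn n => z + ε • x) h2
        h3).differentiableWithinAt) (radial_W_cont n M) (fun y hy => radial_W_zero hM hy)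
    rw [hmv, hfin, smul_zero, add_zero] at hs
    rw [ht]
    have hpos : 0 < ε ^ (2 * n) := by positivity
    rw [abs_of_pos (inv_pos.mpr hpos), Complex.real_smul] at hs
    have hee : ((e ^ n : ℝ) : ℂ) = (((ε ^ (2 * n))⁻¹ : ℝ) : ℂ) := by
      rw [he, inv_pow, ← pow_mul]
    rw [hee, mul_assoc ((-1 : ℂ) ^ n), ← hs]
    ring

end Pool.Agent.Helper123
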