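import Mathlib
import Pool.Agent.Helper123.Radial
import Pool.Agent.Helper123.Hom
import Pool.Agent.H805R2.IBP
import Pool.Agent.Helper123.Defs
import Pool.Agent.Helper540.Holo

/-! Part of the proof of S06843 (MP_fedc70_an). -/

set_option autoImplicit false

open MeasureTheory Metric Set Filter Topology
open scoped ENNReal NNReal ContDiff ComplexConjugate

namespace Pool.Agent.Helper123

open Pool.Agent.H805R2

variable {n : ℕ}



/-! ## auxiliary lemmas -/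

theorem repro_smooth {u : Cn n → ℂ} {U : Set (Cn n)} (hU : IsOpen U)
    (hu : DifferentiableOn ℂ u U) : ContDiffOn ℝ ∞ u U := by
  have h : ContDiffOn ℂ ∞ u U := contDiffOn_infty.mpr fun k =>
    Pool.Agent.Helper540.contDiffOn_of_differentiableOn hU hu k
  exact h.restrict_scalars ℝ

theorem repro_wdb_zero {u : Cn n → ℂ} {ζ : Cn n} (hu : DifferentiableAt ℂ u ζ) (k : Fin n) :
    wdb k u ζ = 0 := by
  unfold wdb
  have h1 : fderiv ℝ u ζ = (fderiv ℂ u ζ).restrictScalars ℝ := hu.fderiv_restrictScalars ℝ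
  have h2 : fderiv ℝ u ζ (Complex.I • bas k) = Complex.I * fderiv ℝ u ζ (bas k) := by
    rw [h1]
    simp only [ContinuousLinearMap.coe_restrictScalars', map_smul, smul_eq_mul]
  rw [h2, ← mul_assoc, Complex.I_mul_I]
  ring

theorem repro_wdb_congr {u v : Cn n → ℂ} {ζ : Cn n} (h : u =ᶠ[𝓝 ζ] v) (k : Fin n) :
    wdb k u ζ = wdb k v ζ := by
  unfold wdb
  rw [h.fderiv_eq]

theorem repro_cutoff {L V : Set (Cn n)} (hL : IsClosed L) (hV : IsOpen V) (h : L ⊆ V) :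
    ∃ χ : Cn n → ℝ, ContDiff ℝ ∞ χ ∧ (∀ x ∈ L, ∀ᶠ y in 𝓝 x, χ y = 1) ∧
      ∀ x, x ∉ V → ∀ᶠ y in 𝓝 x, χ y = 0 := by
  obtain ⟨f, h0, h1, -⟩ := exists_contMDiffMap_zero_one_nhds_of_isClosed (M := Cn n)
    (modelWithCornersSelf ℝ (Cn n)) (n := ⊤) hV.isClosed_compl hL
    (disjoint_compl_left_iff_subset.mpr h)
  refine ⟨f, f.contMDiff.contDiff, fun x hx => ?_, fun x hx => ?_⟩
  · exact h1.filter_mono (nhds_le_nhdsSet hx)
  · exact h0.filter_mono (nhds_le_nhdsSet hx)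

theorem repro_glue {χ : Cn n → ℝ} (hχ : ContDiff ℝ ∞ χ) {V : Set (Cn n)} (hV : IsOpen V)
    (h0 : ∀ x, x ∉ V → ∀ᶠ y in 𝓝 x, χ y = 0) {f : Cn n → ℂ} (hf : ContDiffOn ℝ ∞ f V) :
    ContDiff ℝ ∞ (fun x => (χ x : ℂ) * f x) := by
  rw [contDiff_iff_contDiffAt]
  intro x
  by_cases hx : x ∈ V
  · exact (Complex.ofRealCLM.contDiff.comp hχ).contDiffAt.mul (hf.contDiffAt (hV.mem_nhds hx))
  · have h1 : (fun x => (χ x : ℂ) * f x) =ᶠ[𝓝 x] fun _ => (0 : ℂ) := by
      filter_upwards [h0 x hx] with y hy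
      rw [hy, Complex.ofReal_zero, zero_mul]
    exact contDiffAt_const.congr_of_eventuallyEq h1

theorem repro_coord (k : Fin n) : ContDiff ℝ ∞ (fun ζ : Cn n => ζ k) :=
  (PiLp.proj (𝕜 := ℝ) 2 (fun _ : Fin n => ℂ) k).contDiff

theorem repro_w (D : KD n) (j : Fin n) (z : Cn n) : ContDiff ℝ ∞ (fun ζ => D.w j ζ z) := by
  unfold KD.w
  exact (D.ha j).add (ContDiff.sum fun k _ => (D.hb j k).mul ((repro_coord k).sub contDiff_const))

theorem repro_pw (D : KD n) (z : Cn n) : ContDiff ℝ ∞ (fun ζ => D.pw ζ z) := by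
  unfold KD.pw
  exact ContDiff.sum fun k _ => (repro_w D k z).mul ((repro_coord k).sub contDiff_const)

theorem repro_r (D : KD n) (τ : ℝ) : ContDiff ℝ ∞ (fun ζ : Cn n => ((τ - D.r ζ : ℝ) : ℂ)) :=
  Complex.ofRealCLM.contDiff.comp (contDiff_const.sub D.hr)

theorem repro_W1 (D : KD n) (τ : ℝ) (z : Cn n) : ContDiff ℝ ∞ (fun ζ => D.W1 τ ζ z) := by
  unfold KD.W1
  exact (repro_r D τ).add (repro_pw D z)

theorem repro_conj (p : Cn n) (j : Fin n) : ContDiff ℝ ∞ (fun ζ : Cn n => conj (ζ j - p j)) :=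
  Complex.conjCLE.contDiff.comp ((repro_coord j).sub contDiff_const)

theorem repro_W2 (p : Cn n) (R : ℝ) (z : Cn n) : ContDiff ℝ ∞ (fun ζ => W2 p R ζ z) := by
  unfold W2
  exact contDiff_const.sub (ContDiff.sum fun k _ => (repro_conj p k).mul contDiff_const)

theorem repro_q (D : KD n) (p : Cn n) (R τ : ℝ) (j : Fin n) (z : Cn n) {V : Set (Cn n)}
    (h1 : ∀ ζ ∈ V, D.W1 τ ζ z ≠ 0) (h2 : ∀ ζ ∈ V, W2 p R ζ z ≠ 0) :
    ContDiffOn ℝ ∞ (fun ζ => D.q p R τ j ζ z) V := by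
  unfold KD.q KD.a1
  have e1 := ((repro_W1 D τ z).contDiffOn (s := V)).inv h1
  have e2 := ((repro_W2 p R z).contDiffOn (s := V)).inv h2
  simp only [div_eq_mul_inv]
  exact ((repro_w D j z).neg.contDiffOn.mul e1).sub
    (((((repro_r D τ).contDiffOn.mul e1)).mul (repro_conj p j).contDiffOn).mul e2)

theorem repro_norm_sq (ζ p : Cn n) :
    ∑ j, conj (ζ j - p j) * (ζ j - p j) = ((‖ζ - p‖ ^ 2 : ℝ) : ℂ) := by
  rw [EuclideanSpace.norm_sq_eq]
  push_cast
  refine Finset.sum_congr rfl fun j _ => ?_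
  rw [Complex.conj_mul']
  rfl

theorem repro_inner (ζ p z : Cn n) :
    ‖∑ j, conj (ζ j - p j) * (z j - p j)‖ ≤ ‖ζ - p‖ * ‖z - p‖ := by
  have h := norm_inner_le_norm (𝕜 := ℂ) (ζ - p) (z - p)
  have e : inner ℂ (ζ - p) (z - p) = ∑ j, conj (ζ j - p j) * (z j - p j) := by
    rw [PiLp.inner_apply]
    refine Finset.sum_congr rfl fun j _ => ?_
    rw [RCLike.inner_apply, mul_comm]
    rfl
  rwa [e] at h

theorem repro_W2_ne {p ζ z : Cn n} {R R' : ℝ} (hR' : 0 < R') (hR : R' < R) (hζ : ‖ζ - p‖ ≤ R)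
    (hz : ‖z - p‖ < R') : W2 p R ζ z ≠ 0 := by
  intro h
  unfold W2 at h
  have h1 := sub_eq_zero.mp h
  have h2 := repro_inner ζ p z
  rw [← h1, Complex.norm_real, Real.norm_of_nonneg (by positivity)] at h2
  nlinarith [norm_nonneg (ζ - p), norm_nonneg (z - p)]

theorem repro_W1_ne (D : KD n) {p ζ z : Cn n} {R0 τ c1 : ℝ} (hc1 : 0 < c1) (hLP : D.LP p R0 c1)
    (hζ : ζ ∈ ball p R0) (hz : z ∈ ball p R0) (hr : D.r ζ ≤ τ) (hz' : D.r z < τ) :
    D.W1 τ ζ z ≠ 0 := by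
  intro h
  have h1 := congrArg Complex.re h
  unfold KD.W1 at h1
  rw [Complex.add_re, Complex.ofReal_re, Complex.zero_re] at h1
  have h2 := hLP ζ hζ z hz
  have h3 : 0 ≤ c1 * ‖ζ - z‖ ^ 2 := by positivity
  linarith

theorem repro_alg (D : KD n) (p : Cn n) (R τ : ℝ) (ζ z : Cn n) (h1 : D.W1 τ ζ z ≠ 0)
    (h2 : W2 p R ζ z ≠ 0) :
    1 + ∑ j, D.q p R τ j ζ z * (ζ j - z j) = D.a1 τ ζ z * a2 p R ζ z := by
  have e1 : ∑ j, D.q p R τ j ζ z * (ζ j - z j) =
      - D.pw ζ z / D.W1 τ ζ z -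
        D.a1 τ ζ z / W2 p R ζ z * ∑ j, conj (ζ j - p j) * (ζ j - z j) := by
    unfold KD.q KD.pw
    rw [Finset.mul_sum, ← Finset.sum_neg_distrib, Finset.sum_div, ← Finset.sum_sub_distrib]
    refine Finset.sum_congr rfl fun j _ => ?_
    ring
  have e2 : ∑ j, conj (ζ j - p j) * (ζ j - z j) =
      ∑ j, conj (ζ j - p j) * (ζ j - p j) - (((R ^ 2 : ℝ) : ℂ) - W2 p R ζ z) := by
    unfold W2
    rw [sub_sub_cancel, ← Finset.sum_sub_distrib]
    refine Finset.sum_congr rfl fun j _ => ?_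
    ring
  have e3 : D.pw ζ z = D.W1 τ ζ z - ((τ - D.r ζ : ℝ) : ℂ) := by
    unfold KD.W1; ring
  rw [e1, e2, e3]
  unfold KD.a1 a2
  field_simp
  ring

/-- TARGET. Reproducing property. PROOF. Fix C0 from `radial` (M>=2>=1). Let L = {zeta | |zeta-p|<=R and r zeta<=tau} (compact), Om = Om p R D.r tau (open,
bounded, contains z; Om subset L, closure Om subset L, and on frontier Om either |zeta-p|=R or r zeta = tau). For zeta in L:
 Re W1 >= (tau-r zeta) + (r zeta - r z)/2 + c1|zeta-z|^2 >= (tau - r z)/2 > 0 by LP (L subset ball p R0, z in ball p R0), and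
 |W2| >= R^2 - R|z-p| > 0 (Cauchy-Schwarz). So W1, W2 are nonzero on an open set V containing L, V subset U. Take a smooth compactly supported cut-off
 chi=1 near L, tsupport chi subset V (Mathlib: exists_contDiff_tsupport_subset / exists_smooth_support...; or library). Put qt_j = chi * (D.q p R tau j . z) and
 ut = chi*u: globally smooth (u holomorphic on open U, hence smooth: DifferentiableOn.contDiffOn needs 1 variable, for several variables use
 DifferentiableOn.analyticOnNhd or a library lemma; grep 'contDiff' with 'DifferentiableOn C' in ~/DOCS.tsv). On Om: wdb k ut = wdb k u = 0 (complex differentiable),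
 1+sum qt_j(zeta_j-z_j) = a1*a2 because <w,zeta-z> = W1 - (tau - r zeta) and sum conj(zeta_j-p_j)((zeta_j-p_j)-(z_j-p_j)) = |zeta-p|^2 - (R^2 - W2);
 this is 0 on frontier Om (a1=0 if r=tau, a2=0 if |zeta-p|=R). Choose eps with closedBall z eps subset Om, ball z (2eps) subset Om, and q' from `radial`;
 1+sum q'_j(..)=0 on frontier Om. `hom` gives int_Om ut (1+..)^M det(wdb qt) = int_Om ut (1+..')^M det(wdb q'), the right side is C0 u(z)
 (integrand 0 off the eps-ball, M>=1; u differentiable on ball z (2 eps)), the left side is int_Om ker*u. -/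
theorem ker_repro (hn : 1 ≤ n) (M : ℕ) (hM : 2 ≤ M) :
    ∃ C0 : ℂ, C0 ≠ 0 ∧ ∀ (D : KD n) (p : Cn n) (R R' R0 τ c1 : ℝ), 0 < R' → R' < R → R < R0 →
      0 < c1 → D.LP p R0 c1 → ∀ (u : Cn n → ℂ) (U : Set (Cn n)), IsOpen U →
      {ζ | ‖ζ - p‖ ≤ R ∧ D.r ζ ≤ τ} ⊆ U → DifferentiableOn ℂ u U →
      ∀ z ∈ ball p R', D.r z < τ →
        ∫ ζ in Om p R D.r τ, D.ker p R M τ ζ z * u ζ = C0 * u z := by
  obtain ⟨C0, hC0, hrad⟩ := radial (n := n) hn M (by omega)
  refine ⟨C0, hC0, ?_⟩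
  intro D p R R' R0 τ c1 hR' hRR' hR0 hc1 hLP u U hU hLU hu z hz hzτ
  have hz' : ‖z - p‖ < R' := by rwa [mem_ball, dist_eq_norm] at hz
  have hzR0 : z ∈ ball p R0 := by rw [mem_ball, dist_eq_norm]; linarith
  set L : Set (Cn n) := {ζ | ‖ζ - p‖ ≤ R ∧ D.r ζ ≤ τ} with hL
  have hrc : Continuous D.r := D.hr.continuous
  have hnc : Continuous fun ζ : Cn n => ‖ζ - p‖ := by fun_prop
  have hLclosed : IsClosed L := (isClosed_le hnc continuous_const).inter
    (isClosed_le hrc continuous_const)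
  have hOmOpen : IsOpen (Om p R D.r τ) := (isOpen_lt hnc continuous_const).inter
    (isOpen_lt hrc continuous_const)
  have hOmL : Om p R D.r τ ⊆ L := fun ζ hζ => ⟨hζ.1.le, hζ.2.le⟩
  have hOmB : Bornology.IsBounded (Om p R D.r τ) := by
    refine (isBounded_ball (x := p) (r := R)).subset fun ζ hζ => ?_
    rw [mem_ball, dist_eq_norm]; exact hζ.1
  have hfront : ∀ ζ ∈ frontier (Om p R D.r τ), ζ ∈ L ∧ ζ ∉ Om p R D.r τ := by
    intro ζ hζ
    refine ⟨closure_minimal hOmL hLclosed (frontier_subset_closure hζ), ?_⟩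
    rw [hOmOpen.frontier_eq] at hζ
    exact hζ.2
  have hzOm : z ∈ Om p R D.r τ := ⟨by linarith, hzτ⟩
  set V : Set (Cn n) := U ∩ {ζ | D.W1 τ ζ z ≠ 0 ∧ W2 p R ζ z ≠ 0} with hV
  have hVopen : IsOpen V := hU.inter
    ((isOpen_ne_fun (repro_W1 D τ z).continuous continuous_const).inter
      (isOpen_ne_fun (repro_W2 p R z).continuous continuous_const))
  have hLV : L ⊆ V := fun ζ hζ => ⟨hLU hζ,
    repro_W1_ne D hc1 hLP (by rw [mem_ball, dist_eq_norm]; linarith [hζ.1]) hzR0 hζ.2 hzτ,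
    repro_W2_ne hR' hRR' hζ.1 hz'⟩
  obtain ⟨χ, hχ, hχ1, hχ0⟩ := repro_cutoff hLclosed hVopen hLV
  set qt : Fin n → Cn n → ℂ := fun j ζ => (χ ζ : ℂ) * D.q p R τ j ζ z with hqt
  set ut : Cn n → ℂ := fun ζ => (χ ζ : ℂ) * u ζ with hut
  have hqts : ∀ j, ContDiff ℝ ∞ (qt j) := fun j =>
    repro_glue hχ hVopen hχ0 (repro_q D p R τ j z (fun ζ hζ => hζ.2.1) fun ζ hζ => hζ.2.2)
  have huts : ContDiff ℝ ∞ ut := repro_glue hχ hVopen hχ0
    ((repro_smooth hU hu).mono fun ζ hζ => hζ.1)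
  have hqte : ∀ ζ ∈ L, ∀ j, qt j =ᶠ[𝓝 ζ] fun x => D.q p R τ j x z := by
    intro ζ hζ j
    filter_upwards [hχ1 ζ hζ] with y hy
    rw [hqt]
    simp only [hy, Complex.ofReal_one, one_mul]
  have hute : ∀ ζ ∈ L, ut =ᶠ[𝓝 ζ] u := by
    intro ζ hζ
    filter_upwards [hχ1 ζ hζ] with y hy
    rw [hut]
    simp only [hy, Complex.ofReal_one, one_mul]
  have hwut : ∀ ζ ∈ Om p R D.r τ, ∀ k, wdb k ut ζ = 0 := by
    intro ζ hζ k
    rw [repro_wdb_congr (hute ζ (hOmL hζ)) k]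
    exact repro_wdb_zero (hu.differentiableAt (hU.mem_nhds (hLU (hOmL hζ)))) k
  have halg : ∀ ζ ∈ L, 1 + ∑ j, qt j ζ * (ζ j - z j) = D.a1 τ ζ z * a2 p R ζ z := by
    intro ζ hζ
    rw [← repro_alg D p R τ ζ z (hLV hζ).2.1 (hLV hζ).2.2]
    congr 1
    refine Finset.sum_congr rfl fun j _ => ?_
    rw [(hqte ζ hζ j).self_of_nhds]
  have hA : ∀ ζ ∈ frontier (Om p R D.r τ), 1 + ∑ j, qt j ζ * (ζ j - z j) = 0 := by
    intro ζ hζ
    obtain ⟨h1, h2⟩ := hfront ζ hζ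
    rw [halg ζ h1]
    by_cases h3 : D.r ζ < τ
    · have h4 : ‖ζ - p‖ = R := by
        refine le_antisymm h1.1 ?_
        by_contra h5
        push Not at h5
        exact h2 ⟨h5, h3⟩
      have h5 : a2 p R ζ z = 0 := by
        unfold a2
        rw [repro_norm_sq, h4, sub_self, zero_div]
      rw [h5, mul_zero]
    · have h4 : D.r ζ = τ := le_antisymm h1.2 (not_lt.mp h3)
      have h5 : D.a1 τ ζ z = 0 := by
        unfold KD.a1
        rw [h4, sub_self, Complex.ofReal_zero, zero_div]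
      rw [h5, zero_mul]
  obtain ⟨ε2, hε2, hball⟩ := Metric.isOpen_iff.mp hOmOpen z hzOm
  obtain ⟨q', hq's, hq'0, hq'i⟩ := hrad z (ε2 / 2) (by positivity)
  have h2e : 2 * (ε2 / 2) = ε2 := by ring
  rw [h2e] at hq'i
  have hA' : ∀ ζ ∈ frontier (Om p R D.r τ), 1 + ∑ j, q' j ζ * (ζ j - z j) = 0 := by
    intro ζ hζ
    refine hq'0 ζ ?_
    by_contra h3
    push Not at h3
    refine (hfront ζ hζ).2 (hball ?_)
    rw [mem_ball, dist_eq_norm]
    linarith
  have hmain := hom (Om p R D.r τ) hOmOpen hOmB ut huts hwut qt q' hqts hq's z M hM hA hA'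
  have hleft : ∫ ζ in Om p R D.r τ, ut ζ * (1 + ∑ j, qt j ζ * (ζ j - z j)) ^ M *
      (Matrix.of fun j k : Fin n => wdb k (qt j) ζ).det =
      ∫ ζ in Om p R D.r τ, D.ker p R M τ ζ z * u ζ := by
    refine setIntegral_congr_fun hOmOpen.measurableSet fun ζ hζ => ?_
    have hζL := hOmL hζ
    simp only
    rw [halg ζ hζL, (hute ζ hζL).self_of_nhds]
    unfold KD.ker
    have h1 : (Matrix.of fun j k : Fin n => wdb k (qt j) ζ) =
        Matrix.of fun j k : Fin n => wdb k (fun x => D.q p R τ j x z) ζ := by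
      ext j k
      rw [Matrix.of_apply, Matrix.of_apply, repro_wdb_congr (hqte ζ hζL j) k]
    rw [h1]
    ring
  have hright : ∫ ζ in Om p R D.r τ, ut ζ * (1 + ∑ j, q' j ζ * (ζ j - z j)) ^ M *
      (Matrix.of fun j k : Fin n => wdb k (q' j) ζ).det = C0 * u z := by
    have hsub : ball z (ε2 / 2) ⊆ Om p R D.r τ :=
      (ball_subset_ball (by linarith)).trans hball
    have h1 : ∫ ζ in Om p R D.r τ, ut ζ * (1 + ∑ j, q' j ζ * (ζ j - z j)) ^ M *
        (Matrix.of fun j k : Fin n => wdb k (q' j) ζ).det =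
        ∫ ζ in ball z (ε2 / 2), ut ζ * (1 + ∑ j, q' j ζ * (ζ j - z j)) ^ M *
        (Matrix.of fun j k : Fin n => wdb k (q' j) ζ).det := by
      refine setIntegral_eq_of_subset_of_forall_sdiff_eq_zero hOmOpen.measurableSet hsub ?_
      intro ζ hζ
      have h2 : ε2 / 2 ≤ ‖ζ - z‖ := by
        by_contra h3
        push Not at h3
        exact hζ.2 (by rw [mem_ball, dist_eq_norm]; exact h3)
      rw [hq'0 ζ h2, zero_pow (by omega), mul_zero, zero_mul]
    have h2 : ∫ ζ in ball z (ε2 / 2), ut ζ * (1 + ∑ j, q' j ζ * (ζ j - z j)) ^ M *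
        (Matrix.of fun j k : Fin n => wdb k (q' j) ζ).det =
        ∫ ζ in ball z (ε2 / 2), u ζ * (1 + ∑ j, q' j ζ * (ζ j - z j)) ^ M *
        (Matrix.of fun j k : Fin n => wdb k (q' j) ζ).det := by
      refine setIntegral_congr_fun measurableSet_ball fun ζ hζ => ?_
      simp only
      rw [(hute ζ (hOmL (hsub hζ))).self_of_nhds]
    rw [h1, h2]
    exact hq'i u (hu.mono (hball.trans (hOmL.trans hLU)))
  rw [← hleft, hmain, hright]

end Pool.Agent.Helper123
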