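import Mathlib
import Pool.Agent.Helper123.Near
import Pool.Agent.Helper123.KHol
import Pool.Agent.Helper123.KBound
import Pool.Agent.Helper123.Repro
import Pool.Agent.H805R2.Base
import Pool.Agent.Helper123.Defs2

/-! Part of the proof of S06843 (MP_fedc70_an). -/

set_option autoImplicit false

open MeasureTheory Metric Set Filter Topology
open scoped ENNReal NNReal ContDiff ComplexConjugate

namespace Pool.Agent.Helper123

open Pool.Agent.H805R2

variable {n : ℕ}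






theorem kp_meas_a1 (D : KD n) (τ : ℝ) (z : Cn n) : Measurable (fun ζ => D.a1 τ ζ z) := by
  have hr : Continuous D.r := D.hr.continuous
  have ha : ∀ j, Continuous (D.a j) := fun j => (D.ha j).continuous
  have hb : ∀ j k, Continuous (D.b j k) := fun j k => (D.hb j k).continuous
  have hw : ∀ j, Continuous (fun ζ => D.w j ζ z) := by
    intro j
    unfold KD.w
    fun_prop
  have hpw : Continuous (fun ζ => D.pw ζ z) := by
    unfold KD.pw
    fun_prop
  have hW1 : Continuous (fun ζ => D.W1 τ ζ z) := by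
    unfold KD.W1
    fun_prop
  have hn : Continuous (fun ζ : Cn n => ((τ - D.r ζ : ℝ) : ℂ)) := by fun_prop
  exact hn.measurable.div hW1.measurable

theorem kp_meas_a2 (p : Cn n) (R : ℝ) (z : Cn n) : Measurable (fun ζ => a2 p R ζ z) := by
  have h1 : Continuous (fun ζ : Cn n => (((R ^ 2 : ℝ) : ℂ) - ∑ j, conj (ζ j - p j) * (ζ j - p j))) := by
    have : ∀ j, Continuous (fun ζ : Cn n => conj (ζ j - p j)) := fun j =>
      Complex.continuous_conj.comp (by fun_prop)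
    fun_prop
  have h2 : Continuous (fun ζ : Cn n => W2 p R ζ z) := by
    unfold W2
    have : ∀ j, Continuous (fun ζ : Cn n => conj (ζ j - p j)) := fun j =>
      Complex.continuous_conj.comp (by fun_prop)
    fun_prop
  exact h1.measurable.div h2.measurable

theorem kp_meas_wdb (k : Fin n) (f : Cn n → ℂ) : Measurable (fun ζ => wdb k f ζ) := by
  unfold wdb
  have h1 := measurable_fderiv_apply_const (𝕜 := ℝ) (f := f) (bas k)
  have h2 := measurable_fderiv_apply_const (𝕜 := ℝ) (f := f) (Complex.I • bas k)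
  exact (h1.add (h2.const_mul Complex.I)).div_const 2

theorem kp_meas_ker (D : KD n) (p : Cn n) (R : ℝ) (M : ℕ) (τ : ℝ) (z : Cn n) :
    Measurable (fun ζ => D.ker p R M τ ζ z) := by
  unfold KD.ker
  refine (((kp_meas_a1 D τ z).mul (kp_meas_a2 p R z)).pow_const M).mul ?_
  simp only [Matrix.det_apply]
  refine Finset.measurable_sum _ fun σ _ => ?_
  refine Measurable.const_smul ?_ _
  refine Finset.measurable_prod _ fun i _ => ?_
  simp only [Matrix.of_apply]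
  exact kp_meas_wdb _ _

/-- TARGET. PROOF. C0 from ker_repro, K tau zeta z := C0^{-1} * D.ker p R M tau zeta z. meas: D.ker is measurable in zeta (`measurable_fderiv` holds for arbitrary functions into a complete space; r, a_j, b_jk continuous; det of a measurable
matrix is measurable, det_apply). bound: kappa <= (tau-r zeta)+(tau-r z)+c1|zeta-z|^2 <= 2 Re W1 <= 2|W1| by LP (so W1 != 0), then ker_bound: |ker| kappa^{M+n+1} <= 2^{M+n+1} |ker||W1|^{M+n+1} <= C s^M. hol: ker_hol times the constant C0^{-1}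
(pull the constant out of the integral: integral_const_mul). repro: ker_repro. near: near_int times |C0|^{-1}. One constant C for bound and near: take the max (or sum). -/
theorem exists_kpack (hn : 1 ≤ n) (D : KD n) (p : Cn n) (R R' R0 τ0 c1 : ℝ) (hR' : 0 < R')
    (hR : R' < R) (hR0 : R < R0) (hτ0 : 0 ≤ τ0) (hc1 : 0 < c1) (hLP : D.LP p R0 c1) (j0 : Fin n)
    (c0 : ℝ) (hc0 : 0 < c0) (ha : ∀ z ∈ ball p R0, c0 ≤ ‖D.a j0 z‖) (M : ℕ) (hM : 2 ≤ M) :
    ∃ (C : ℝ) (K : ℝ → Cn n → Cn n → ℂ), 0 ≤ C ∧ KPack p R R' D.r τ0 c1 C M K := by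
  classical
  obtain ⟨C0, hC0, hrep⟩ := ker_repro (n := n) hn M hM
  obtain ⟨Cb, hCb, hbd⟩ := ker_bound D p R R' τ0 hR' hR M
  obtain ⟨Cn', hCn, hnear⟩ := near_int D p R R' R0 τ0 c1 hR' hR hR0 hc1 hLP j0 c0 hc0 ha M (by omega)
  have hC0n : 0 < ‖C0‖ := norm_pos_iff.mpr hC0
  set A : ℝ := ‖C0‖⁻¹ with hA
  have hA0 : 0 ≤ A := by positivity
  have hnorm : ∀ w : ℂ, ‖C0⁻¹ * w‖ = A * ‖w‖ := by
    intro w; rw [norm_mul, norm_inv]
  refine ⟨A * (2 ^ (M + n + 1) * Cb) + A * Cn', fun τ ζ z => C0⁻¹ * D.ker p R M τ ζ z, by positivity, ?_⟩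
  refine ⟨?_, ?_, ?_, ?_, ?_⟩
  · intro τ hτ z hz
    exact ((kp_meas_ker D p R M τ z).const_mul C0⁻¹).aestronglyMeasurable
  · intro τ hτ z hz ζ hζ κ hκ hκ'
    have hζ0 : ζ ∈ ball p R0 := by
      rw [mem_ball, dist_eq_norm]; exact hζ.1.trans hR0
    have hz0 : z ∈ ball p R0 := by
      rw [mem_ball] at hz ⊢; linarith
    have hl := hLP ζ hζ0 z hz0
    have hre : κ ≤ 2 * (D.W1 τ ζ z).re := by
      unfold KD.W1
      rw [Complex.add_re, Complex.ofReal_re]
      nlinarith [mul_nonneg hc1.le (sq_nonneg ‖ζ - z‖)]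
    have hre2 : (D.W1 τ ζ z).re ≤ ‖D.W1 τ ζ z‖ := Complex.re_le_norm _
    have hκ2 : κ ≤ 2 * ‖D.W1 τ ζ z‖ := by linarith
    have hne : D.W1 τ ζ z ≠ 0 := by
      intro h
      rw [h, norm_zero] at hκ2
      linarith
    have hb := hbd τ hτ z hz ζ hζ hne
    have hs : 0 ≤ (τ - D.r ζ) ^ M := pow_nonneg (by have := hζ.2; linarith) _
    show ‖C0⁻¹ * D.ker p R M τ ζ z‖ * κ ^ (M + n + 1) ≤ _
    rw [hnorm]
    have h1 : κ ^ (M + n + 1) ≤ (2 * ‖D.W1 τ ζ z‖) ^ (M + n + 1) := pow_le_pow_left₀ hκ.le hκ2 _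
    calc A * ‖D.ker p R M τ ζ z‖ * κ ^ (M + n + 1)
        ≤ A * ‖D.ker p R M τ ζ z‖ * (2 * ‖D.W1 τ ζ z‖) ^ (M + n + 1) :=
          mul_le_mul_of_nonneg_left h1 (by positivity)
      _ = A * (2 ^ (M + n + 1) * (‖D.ker p R M τ ζ z‖ * ‖D.W1 τ ζ z‖ ^ (M + n + 1))) := by
          rw [mul_pow]; ring
      _ ≤ A * (2 ^ (M + n + 1) * (Cb * (τ - D.r ζ) ^ M)) := by gcongr
      _ = A * (2 ^ (M + n + 1) * Cb) * (τ - D.r ζ) ^ M := by ring
      _ ≤ (A * (2 ^ (M + n + 1) * Cb) + A * Cn') * (τ - D.r ζ) ^ M := by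
          have : 0 ≤ A * Cn' := by positivity
          nlinarith
  · intro τ hτ b O hO hOR hbm hbB hκ
    have h := ker_hol D p R R' R0 c1 hR' hR hR0 hc1 hLP M τ hτ.1 b O hO hOR hbm hbB hκ
    have h2 : DifferentiableOn ℂ (fun z => C0⁻¹ * ∫ ζ in Om p R D.r τ, D.ker p R M τ ζ z * b ζ) O :=
      h.const_mul _
    refine h2.congr fun z _ => ?_
    rw [← integral_const_mul]
    simp only [mul_assoc]
  · intro τ hτ u U hU hsub hu z hz hzr
    have h := hrep D p R R' R0 τ c1 hR' hR hR0 hc1 hLP u U hU hsub hu z hz hzr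
    simp only [mul_assoc]
    rw [integral_const_mul, h, ← mul_assoc, inv_mul_cancel₀ hC0, one_mul]
  · intro τ hτ z hz hzr
    obtain ⟨hi, hle⟩ := hnear τ hτ z hz hzr
    have he : (fun ζ => ‖C0⁻¹ * D.ker p R M τ ζ z‖ * ‖ζ - z‖ * (τ - D.r ζ) ^ (-(3 / 8) : ℝ)) =
        fun ζ => A * (‖D.ker p R M τ ζ z‖ * ‖ζ - z‖ * (τ - D.r ζ) ^ (-(3 / 8) : ℝ)) := by
      funext ζ
      rw [hnorm]; ring
    constructor
    · show IntegrableOn (fun ζ => ‖C0⁻¹ * D.ker p R M τ ζ z‖ * ‖ζ - z‖ * (τ - D.r ζ) ^ (-(3 / 8) : ℝ)) _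
      rw [he]
      exact hi.const_mul A
    · show ∫ ζ in Om p R D.r τ, ‖C0⁻¹ * D.ker p R M τ ζ z‖ * ‖ζ - z‖ * (τ - D.r ζ) ^ (-(3 / 8) : ℝ) ≤ _
      rw [he, integral_const_mul]
      have h3 : 0 ≤ A * (2 ^ (M + n + 1) * Cb) := by positivity
      have h4 : A * ∫ ζ in Om p R D.r τ, ‖D.ker p R M τ ζ z‖ * ‖ζ - z‖ * (τ - D.r ζ) ^ (-(3 / 8) : ℝ)
          ≤ A * Cn' := mul_le_mul_of_nonneg_left hle hA0
      linarith

end Pool.Agent.Helper123
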