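import Mathlib
import Pool.Agent.H805R2.IBP
import Pool.Agent.Helper123.Defs

/-! The Levi polynomial as support function. -/

set_option autoImplicit false

open MeasureTheory Metric Set Filter Topology
open scoped ENNReal NNReal ContDiff ComplexConjugate

namespace Pool.Agent.Helper123

open Pool.Agent.H805R2

variable {n : ℕ}

theorem lp_wd_smooth {f : Cn n → ℂ} (hf : ContDiff ℝ ∞ f) (j : Fin n) : ContDiff ℝ ∞ (wd j f) := by
  have h := (fn_smooth (Dh j (mkS f hf)))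
  rw [fn_Dh] at h
  exact h

/-- TARGET. PROOF. a_j := wd j rho, b_jk := -(1/2) wd j (wd k rho) are smooth. -/
theorem exists_leviData (ρ : Cn n → ℝ) (hρ : ContDiff ℝ ∞ ρ) :
    ∃ D : KD n, D.r = ρ ∧ IsLeviData D := by
  have h0 : ContDiff ℝ ∞ (fun x => (ρ x : ℂ)) := Complex.ofRealCLM.contDiff.comp hρ
  exact ⟨{ r := ρ
           a := fun j ζ => wd j (fun x => (ρ x : ℂ)) ζ
           b := fun j k ζ => -(1 / 2) * wd j (wd k (fun x => (ρ x : ℂ))) ζ
           hr := hρ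
           ha := fun j => lp_wd_smooth h0 j
           hb := fun j k => contDiff_const.mul (lp_wd_smooth (lp_wd_smooth h0 k) j) }, rfl,
    ⟨fun _ _ => rfl, fun _ _ _ => rfl⟩⟩

/-- the complex linear form attached to a real linear form -/
noncomputable def lp_l (L : Cn n →L[ℝ] ℝ) (ξ : Cn n) : ℂ :=
  ((L ξ : ℂ) - Complex.I * (L (Complex.I • ξ) : ℂ)) / 2

/-- the complex bilinear form attached to a real bilinear form -/
noncomputable def lp_q (B : Cn n →L[ℝ] Cn n →L[ℝ] ℝ) (ξ ζ : Cn n) : ℂ :=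
  ((B ξ ζ - B (Complex.I • ξ) (Complex.I • ζ) : ℝ) -
    Complex.I * ((B ξ (Complex.I • ζ) + B (Complex.I • ξ) ζ : ℝ) : ℂ)) / 4

lemma lp_l_add (L : Cn n →L[ℝ] ℝ) (ξ ξ' : Cn n) : lp_l L (ξ + ξ') = lp_l L ξ + lp_l L ξ' := by
  simp only [lp_l, smul_add, map_add]
  push_cast; ring

lemma lp_l_smul (L : Cn n →L[ℝ] ℝ) (c : ℂ) (ξ : Cn n) : lp_l L (c • ξ) = c * lp_l L ξ := by
  simp only [lp_l, I_smul_dec]
  rw [smul_dec c ξ]
  simp only [map_add, map_sub, map_smul, smul_eq_mul]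
  push_cast
  conv_rhs => rw [← Complex.re_add_im c]
  linear_combination ((c.im : ℂ) / 2 * L (Complex.I • ξ)) * Complex.I_mul_I

lemma lp_q_add_left (B : Cn n →L[ℝ] Cn n →L[ℝ] ℝ) (ξ ξ' ζ : Cn n) :
    lp_q B (ξ + ξ') ζ = lp_q B ξ ζ + lp_q B ξ' ζ := by
  simp only [lp_q, smul_add, map_add, add_apply]
  push_cast; ring

lemma lp_q_add_right (B : Cn n →L[ℝ] Cn n →L[ℝ] ℝ) (ξ ζ ζ' : Cn n) :
    lp_q B ξ (ζ + ζ') = lp_q B ξ ζ + lp_q B ξ ζ' := by
  simp only [lp_q, smul_add, map_add]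
  push_cast; ring

lemma lp_q_smul_left (B : Cn n →L[ℝ] Cn n →L[ℝ] ℝ) (c : ℂ) (ξ ζ : Cn n) :
    lp_q B (c • ξ) ζ = c * lp_q B ξ ζ := by
  simp only [lp_q, I_smul_dec]
  rw [smul_dec c ξ]
  simp only [map_add, map_sub, map_smul, add_apply, sub_apply,
    smul_apply, smul_eq_mul]
  push_cast
  conv_rhs => rw [← Complex.re_add_im c]
  linear_combination ((c.im : ℂ) / 4 * ((B ξ) (Complex.I • ζ) + (B (Complex.I • ξ)) ζ)) * Complex.I_mul_I

lemma lp_q_smul_right (B : Cn n →L[ℝ] Cn n →L[ℝ] ℝ) (c : ℂ) (ξ ζ : Cn n) :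
    lp_q B ξ (c • ζ) = c * lp_q B ξ ζ := by
  simp only [lp_q, I_smul_dec]
  rw [smul_dec c ζ]
  simp only [map_add, map_sub, map_smul, smul_eq_mul]
  push_cast
  conv_rhs => rw [← Complex.re_add_im c]
  linear_combination ((c.im : ℂ) / 4 * ((B ξ) (Complex.I • ζ) + (B (Complex.I • ξ)) ζ)) * Complex.I_mul_I

lemma lp_l_sum (L : Cn n →L[ℝ] ℝ) (ξ : Cn n) : lp_l L ξ = ∑ j, ξ j * lp_l L (bas j) := by
  have h1 : ∀ (s : Finset (Fin n)) (f : Fin n → Cn n),
      lp_l L (∑ j ∈ s, f j) = ∑ j ∈ s, lp_l L (f j) := by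
    intro s f
    classical
    induction s using Finset.induction_on with
    | empty => simp [lp_l]
    | insert a s ha ih => rw [Finset.sum_insert ha, Finset.sum_insert ha, lp_l_add, ih]
  conv_lhs => rw [sum_bas ξ]
  rw [h1]
  exact Finset.sum_congr rfl fun j _ => lp_l_smul L _ _

lemma lp_q_sum (B : Cn n →L[ℝ] Cn n →L[ℝ] ℝ) (ξ ζ : Cn n) :
    lp_q B ξ ζ = ∑ j, ∑ k, ξ j * ζ k * lp_q B (bas j) (bas k) := by
  have h1 : ∀ (s : Finset (Fin n)) (f : Fin n → Cn n) (ζ : Cn n),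
      lp_q B (∑ j ∈ s, f j) ζ = ∑ j ∈ s, lp_q B (f j) ζ := by
    intro s f ζ
    classical
    induction s using Finset.induction_on with
    | empty => simp [lp_q]
    | insert a s ha ih => rw [Finset.sum_insert ha, Finset.sum_insert ha, lp_q_add_left, ih]
  have h2 : ∀ (s : Finset (Fin n)) (f : Fin n → Cn n) (ξ : Cn n),
      lp_q B ξ (∑ j ∈ s, f j) = ∑ j ∈ s, lp_q B ξ (f j) := by
    intro s f ξ
    classical
    induction s using Finset.induction_on with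
    | empty => simp [lp_q]
    | insert a s ha ih => rw [Finset.sum_insert ha, Finset.sum_insert ha, lp_q_add_right, ih]
  conv_lhs => rw [sum_bas ξ, sum_bas ζ]
  rw [h1]
  apply Finset.sum_congr rfl
  intro j _
  rw [h2]
  apply Finset.sum_congr rfl
  intro k _
  rw [lp_q_smul_left, lp_q_smul_right]
  ring

lemma lp_wd (u : Cn n → ℝ) (hu : Differentiable ℝ u) (z : Cn n) (j : Fin n) :
    wd j (fun x => (u x : ℂ)) z = lp_l (fderiv ℝ u z) (bas j) := by
  rw [wd, fderiv_ofReal z _ (hu z), fderiv_ofReal z _ (hu z), lp_l]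

lemma lp_wdwd {u : Cn n → ℝ} (hu : ContDiff ℝ 2 u) (z : Cn n) (j k : Fin n) :
    wd j (wd k (fun x => (u x : ℂ))) z = lp_q (fderiv ℝ (fderiv ℝ u) z) (bas j) (bas k) := by
  have hd : ∀ y, DifferentiableAt ℝ u y := fun y => (hu.differentiable (by norm_num)).differentiableAt
  have hd2 : ∀ y, DifferentiableAt ℝ (fderiv ℝ u) y := fun y =>
    ((hu.fderiv_right (m := 1) (by norm_num)).differentiable (by norm_num)).differentiableAt
  have h1 : (wd k fun w => (u w : ℂ)) = fun y => (((fderiv ℝ u y (bas k) : ℝ) : ℂ) -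
      Complex.I * ((fderiv ℝ u y (Complex.I • bas k) : ℝ) : ℂ)) / 2 := by
    funext y
    rw [wd, fderiv_ofReal y _ (hd y), fderiv_ofReal y _ (hd y)]
  have h2 : ∀ v : Cn n, fderiv ℝ (fun y => (((fderiv ℝ u y (bas k) : ℝ) : ℂ) -
      Complex.I * ((fderiv ℝ u y (Complex.I • bas k) : ℝ) : ℂ)) / 2) z v =
      (((fderiv ℝ (fderiv ℝ u) z v (bas k) : ℝ) : ℂ) -
        Complex.I * ((fderiv ℝ (fderiv ℝ u) z v (Complex.I • bas k) : ℝ) : ℂ)) / 2 := by
    intro v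
    have e0 : ∀ w : Cn n, HasFDerivAt (fun y => ((fderiv ℝ u y w : ℝ) : ℂ))
        (Complex.ofRealCLM.comp ((ContinuousLinearMap.apply ℝ ℝ w).comp (fderiv ℝ (fderiv ℝ u) z))) z := by
      intro w
      exact Complex.ofRealCLM.hasFDerivAt.comp z
        ((ContinuousLinearMap.apply ℝ ℝ w).hasFDerivAt.comp z (hd2 z).hasFDerivAt)
    have e1 := ((e0 (bas k)).sub ((e0 (Complex.I • bas k)).const_mul Complex.I)).mul_const (2⁻¹ : ℂ)
    simp only [div_eq_mul_inv]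
    refine (congrArg (fun L : Cn n →L[ℝ] ℂ => L v) e1.fderiv).trans ?_
    simp [smul_apply]
    ring
  rw [h1, wd, h2, h2, lp_q]
  push_cast
  linear_combination ((1/4 : ℂ) * (fderiv ℝ (fderiv ℝ u) z (Complex.I • bas j) (Complex.I • bas k))) *
    Complex.I_mul_I

/-- one variable Taylor estimate -/
lemma lp_taylor {φ φ' φ'' : ℝ → ℝ} {m : ℝ} (h1 : ∀ t, HasDerivAt φ (φ' t) t)
    (h2 : ∀ t, HasDerivAt φ' (φ'' t) t) (hm : ∀ t ∈ Icc (0:ℝ) 1, m ≤ φ'' t) :
    φ 0 + φ' 0 + m / 2 ≤ φ 1 := by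
  have hs : ∀ t ∈ Icc (0:ℝ) 1, φ' 0 + m * t ≤ φ' t := by
    have hmono : MonotoneOn (fun t => φ' t - m * t) (Icc (0:ℝ) 1) := by
      have hd : ∀ t, HasDerivAt (fun t => φ' t - m * t) (φ'' t - m) t := by
        intro t
        exact ((h2 t).sub ((hasDerivAt_id t).const_mul m)).congr_deriv (by simp)
      refine monotoneOn_of_deriv_nonneg (convex_Icc 0 1)
        (fun t _ => (hd t).continuousAt.continuousWithinAt)
        (fun t _ => (hd t).differentiableAt.differentiableWithinAt) fun t ht => ?_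
      rw [(hd t).deriv]
      exact sub_nonneg.2 (hm t (interior_subset ht))
    intro t ht
    have := hmono (left_mem_Icc.2 zero_le_one) ht ht.1
    simp only [mul_zero, sub_zero] at this
    linarith
  have hmono : MonotoneOn (fun t => φ t - (φ' 0 * t + m * t ^ 2 / 2)) (Icc (0:ℝ) 1) := by
    have hd : ∀ t, HasDerivAt (fun t => φ t - (φ' 0 * t + m * t ^ 2 / 2))
        (φ' t - (φ' 0 + m * t)) t := by
      intro t
      have e1 := (hasDerivAt_id t).const_mul (φ' 0)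
      have e2 := ((hasDerivAt_pow 2 t).const_mul m).div_const 2
      have e3 := (h1 t).sub (e1.add e2)
      refine e3.congr_deriv ?_
      simp
      ring
    refine monotoneOn_of_deriv_nonneg (convex_Icc 0 1)
      (fun t _ => (hd t).continuousAt.continuousWithinAt)
      (fun t _ => (hd t).differentiableAt.differentiableWithinAt) fun t ht => ?_
    rw [(hd t).deriv]
    exact sub_nonneg.2 (hs t (interior_subset ht))
  have := hmono (left_mem_Icc.2 zero_le_one) (right_mem_Icc.2 zero_le_one) zero_le_one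
  simp only [mul_zero, mul_one] at this
  norm_num at this
  linarith

/-- Taylor estimate near a point, in a normed space -/
lemma lp_gen {E : Type*} [NormedAddCommGroup E] [NormedSpace ℝ E] {r : E → ℝ}
    (hr2 : ContDiff ℝ 2 r) (p : E) {ε : ℝ} (hε : 0 < ε) : ∃ R0 > 0,
    (∀ y ∈ ball p R0, ∀ v : E,
      |fderiv ℝ (fderiv ℝ r) y v v - fderiv ℝ (fderiv ℝ r) p v v| ≤ ε * ‖v‖ ^ 2) ∧
    ∀ ζ ∈ ball p R0, ∀ z ∈ ball p R0, r ζ - fderiv ℝ r ζ (ζ - z) +
      (fderiv ℝ (fderiv ℝ r) ζ (ζ - z) (ζ - z) - 2 * ε * ‖ζ - z‖ ^ 2) / 2 ≤ r z := by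
  have hrd : Differentiable ℝ r := hr2.differentiable (by norm_num)
  have hr1 : ContDiff ℝ 1 (fderiv ℝ r) := hr2.fderiv_right (by norm_num)
  have hrd2 : Differentiable ℝ (fderiv ℝ r) := hr1.differentiable (by norm_num)
  have hcont : Continuous (fderiv ℝ (fderiv ℝ r)) := hr1.continuous_fderiv (by norm_num)
  set B := fderiv ℝ (fderiv ℝ r) with hB
  obtain ⟨R0, hR0, hball⟩ :=
    (Metric.continuous_iff (β := E →L[ℝ] E →L[ℝ] ℝ) (f := B)).1 hcont p ε hε
  have hBy : ∀ y ∈ ball p R0, ‖B y - B p‖ ≤ ε := by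
    intro y hy
    have h1 : dist (B y) (B p) = ‖B y - B p‖ := dist_eq_norm (B y) (B p)
    rw [← h1]
    exact (hball y hy).le
  have hdiff : ∀ y ∈ ball p R0, ∀ y' ∈ ball p R0, ∀ v : E,
      |B y v v - B y' v v| ≤ 2 * ε * ‖v‖ ^ 2 := by
    intro y hy y' hy' v
    have e1 : B y v v - B y' v v = (B y - B y') v v := rfl
    rw [e1, ← Real.norm_eq_abs]
    have h3 : ‖(B y - B p) - (B y' - B p)‖ ≤ ‖B y - B p‖ + ‖B y' - B p‖ :=
      norm_sub_le (B y - B p) (B y' - B p)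
    calc ‖(B y - B y') v v‖ ≤ ‖B y - B y'‖ * ‖v‖ * ‖v‖ := (B y - B y').le_opNorm₂ v v
      _ = ‖(B y - B p) - (B y' - B p)‖ * ‖v‖ ^ 2 := by rw [sub_sub_sub_cancel_right]; ring
      _ ≤ (‖B y - B p‖ + ‖B y' - B p‖) * ‖v‖ ^ 2 :=
          mul_le_mul_of_nonneg_right h3 (sq_nonneg _)
      _ ≤ (ε + ε) * ‖v‖ ^ 2 :=
          mul_le_mul_of_nonneg_right (add_le_add (hBy y hy) (hBy y' hy')) (sq_nonneg _)
      _ = 2 * ε * ‖v‖ ^ 2 := by ring
  have hdiffp : ∀ y ∈ ball p R0, ∀ v : E, |B y v v - B p v v| ≤ ε * ‖v‖ ^ 2 := by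
    intro y hy v
    have e1 : B y v v - B p v v = (B y - B p) v v := rfl
    rw [e1, ← Real.norm_eq_abs]
    calc ‖(B y - B p) v v‖ ≤ ‖B y - B p‖ * ‖v‖ * ‖v‖ := (B y - B p).le_opNorm₂ v v
      _ = ‖B y - B p‖ * ‖v‖ ^ 2 := by ring
      _ ≤ ε * ‖v‖ ^ 2 := mul_le_mul_of_nonneg_right (hBy y hy) (sq_nonneg _)
  refine ⟨R0, hR0, hdiffp, fun ζ hζ z hz => ?_⟩
  set x : E := ζ - z with hx
  have hseg : ∀ t ∈ Icc (0:ℝ) 1, ζ - t • x ∈ ball p R0 := by
    intro t ht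
    have e1 : ζ - t • x = (1 - t) • ζ + t • z := by
      rw [hx]
      module
    rw [e1]
    exact (convex_ball p R0) hζ hz (by linarith [ht.2]) ht.1 (by ring)
  have hy : ∀ t : ℝ, HasDerivAt (fun t : ℝ => ζ - t • x) (-x) t := by
    intro t
    have := ((hasDerivAt_id t).smul_const x).const_sub ζ
    simpa using this
  have hφ : ∀ t : ℝ, HasDerivAt (fun t : ℝ => r (ζ - t • x))
      (-fderiv ℝ r (ζ - t • x) x) t := by
    intro t
    have := (hrd (ζ - t • x)).hasFDerivAt.comp_hasDerivAt t (hy t)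
    rw [map_neg] at this
    exact this
  have hφ' : ∀ t : ℝ, HasDerivAt (fun t : ℝ => -fderiv ℝ r (ζ - t • x) x)
      (B (ζ - t • x) x x) t := by
    intro t
    have e1 := (hrd2 (ζ - t • x)).hasFDerivAt.comp_hasDerivAt t (hy t)
    have e2 := ((ContinuousLinearMap.apply ℝ ℝ x).hasFDerivAt.comp_hasDerivAt t e1).neg
    refine HasDerivAt.congr_deriv (f := fun t : ℝ => -fderiv ℝ r (ζ - t • x) x) e2 ?_
    rw [map_neg, map_neg, neg_neg]
    rfl
  have hT := lp_taylor (m := B ζ x x - 2 * ε * ‖x‖ ^ 2) hφ hφ' (by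
    intro t ht
    have := hdiff (ζ - t • x) (hseg t ht) ζ hζ x
    rw [abs_le] at this
    linarith [this.1])
  simp only [zero_smul, sub_zero, one_smul] at hT
  have hz' : ζ - x = z := by rw [hx, sub_sub_cancel]
  rw [hz'] at hT
  linarith

lemma lp_pw_re (D : KD n) (hD : IsLeviData D) (ζ z : Cn n) :
    (D.pw ζ z).re = (fderiv ℝ D.r ζ (ζ - z) - fderiv ℝ (fderiv ℝ D.r) ζ (ζ - z) (ζ - z) / 2 +
      levi D.r ζ (ζ - z)) / 2 := by
  have hr2 : ContDiff ℝ 2 D.r := contDiff_infty.1 D.hr 2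
  have hrd : Differentiable ℝ D.r := hr2.differentiable (by norm_num)
  set x : Cn n := ζ - z with hx
  have hxj : ∀ j, ζ j - z j = x j := fun j => rfl
  have h1 : D.pw ζ z = lp_l (fderiv ℝ D.r ζ) x -
      (1 / 2) * lp_q (fderiv ℝ (fderiv ℝ D.r) ζ) x x := by
    rw [lp_l_sum, lp_q_sum, Finset.mul_sum, ← Finset.sum_sub_distrib]
    unfold KD.pw KD.w
    refine Finset.sum_congr rfl fun j _ => ?_
    rw [hxj, hD.ha, lp_wd D.r hrd, Finset.mul_sum, add_mul, Finset.sum_mul, sub_eq_add_neg,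
      ← Finset.sum_neg_distrib]
    congr 1
    · ring
    · refine Finset.sum_congr rfl fun k _ => ?_
      rw [hxj, hD.hb, lp_wdwd hr2]
      ring
  rw [h1, Complex.sub_re]
  have h2 : (lp_l (fderiv ℝ D.r ζ) x).re = fderiv ℝ D.r ζ x / 2 := by
    simp [lp_l]
  have h3 : ((1 / 2 : ℂ) * lp_q (fderiv ℝ (fderiv ℝ D.r) ζ) x x).re =
      (fderiv ℝ (fderiv ℝ D.r) ζ x x -
        fderiv ℝ (fderiv ℝ D.r) ζ (Complex.I • x) (Complex.I • x)) / 8 := by
    have h4 : (1 / 2 : ℂ) * lp_q (fderiv ℝ (fderiv ℝ D.r) ζ) x x =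
        (((fderiv ℝ (fderiv ℝ D.r) ζ x x -
        fderiv ℝ (fderiv ℝ D.r) ζ (Complex.I • x) (Complex.I • x)) / 8 : ℝ) : ℂ) -
        Complex.I * (((fderiv ℝ (fderiv ℝ D.r) ζ x (Complex.I • x) +
        fderiv ℝ (fderiv ℝ D.r) ζ (Complex.I • x) x) / 8 : ℝ) : ℂ) := by
      rw [lp_q]
      push_cast
      ring
    rw [h4]
    simp
  rw [h2, h3, levi, D2, D2]
  ring

/-- TARGET. PROOF. Put x = zeta - z. Taylor at zeta (second derivative continuous, hence for every eps a radius R0 with remainder <= eps|x|^2 for zeta,z in ball p R0):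
r(z) = r(zeta) - dr(zeta)(x) + (1/2) D^2r(zeta)(x,x) + O(eps|x|^2). Algebra: dr(zeta)(x) = 2 Re sum_j (wd j r) x_j and
(1/2) D^2 r(zeta)(x,x) = Re sum_{j,k} (wd j wd k r)(zeta) x_j x_k + levi r zeta x. Hence
Re pw(zeta,z) = Re sum a_j x_j - (1/2) Re sum_{jk} (wd j wd k r) x_j x_k = (1/2)( r(zeta) - r(z) + levi r zeta x ) + O(eps|x|^2), and
levi r zeta x >= (c/2)|x|^2 for zeta near p (continuity and homogeneity). Take c1 = c/8, eps small. -/
theorem LP_of_levi (D : KD n) (hD : IsLeviData D) (p : Cn n) (c : ℝ) (hc : 0 < c)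
    (hl : ∀ ξ : Cn n, c * ‖ξ‖ ^ 2 ≤ levi D.r p ξ) :
    ∃ R0 > 0, ∃ c1 > 0, D.LP p R0 c1 := by
  have hr2 : ContDiff ℝ 2 D.r := contDiff_infty.1 D.hr 2
  obtain ⟨R0, hR0, hdiffp, htay⟩ := lp_gen hr2 p (by positivity : 0 < c / 3)
  refine ⟨R0, hR0, c / 4, by positivity, fun ζ hζ z hz => ?_⟩
  have hT := htay ζ hζ z hz
  rw [lp_pw_re D hD]
  set x : Cn n := ζ - z with hx
  -- the Levi form near `p`
  have hlevi : (c - c / 6) * ‖x‖ ^ 2 ≤ levi D.r ζ x := by
    have e1 := hl x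
    have e2 := hdiffp ζ hζ x
    have e3 := hdiffp ζ hζ (Complex.I • x)
    have e4 : ‖Complex.I • x‖ = ‖x‖ := by rw [norm_smul, Complex.norm_I, one_mul]
    rw [e4] at e3
    rw [levi, D2, D2] at e1 ⊢
    rw [abs_le] at e2 e3
    have e5 := e2.1
    have e6 := e3.1
    linarith
  linarith

end Pool.Agent.Helper123
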