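import Mathlib
import Pool.Agent.H805R2.IBP
import Pool.Agent.Helper123.Defs

/-! Part of the proof of S06843 (MP_fedc70_an). -/

set_option autoImplicit false

open MeasureTheory Metric Set Filter Topology
open scoped ENNReal NNReal ContDiff ComplexConjugate

namespace Pool.Agent.Helper123

open Pool.Agent.H805R2

variable {n : ℕ}

/-! ### the cut-off functions -/

theorem patch_lam_nonneg (x : ℝ) : 0 ≤ lam x := le_max_left _ _

theorem patch_lam_le_one (x : ℝ) : lam x ≤ 1 := max_le zero_le_one (min_le_left _ _)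

theorem patch_lam_zero {x : ℝ} (hx : 3 / 4 ≤ x) : lam x = 0 := by
  apply max_eq_left
  exact (min_le_right _ _).trans (by linarith)

theorem patch_lam_lip (x y : ℝ) : |lam x - lam y| ≤ 4 * |x - y| := by
  have key : ∀ x y : ℝ, lam x - lam y ≤ 4 * |x - y| := by
    intro x y
    have h1 := le_abs_self (x - y)
    have h2 := neg_abs_le (x - y)
    unfold lam
    rcases max_cases 0 (min 1 (3 - 4 * x)) with h | h <;>
      rcases max_cases 0 (min 1 (3 - 4 * y)) with h' | h' <;>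
      rcases min_cases 1 (3 - 4 * x) with h3 | h3 <;>
      rcases min_cases 1 (3 - 4 * y) with h4 | h4 <;>
      linarith [h.1, h.2, h'.1, h'.2, h3.1, h3.2, h4.1, h4.2]
  rw [abs_sub_le_iff]
  refine ⟨key x y, ?_⟩
  rw [abs_sub_comm]
  exact key y x

theorem patch_th_nonneg (F : Set (Cn n)) (k : ℕ) (z : Cn n) : 0 ≤ th F k z := patch_lam_nonneg _

theorem patch_th_le_one (F : Set (Cn n)) (k : ℕ) (z : Cn n) : th F k z ≤ 1 := patch_lam_le_one _

theorem patch_infDist (F : Set (Cn n)) (ζ z : Cn n) :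
    |infDist ζ F - infDist z F| ≤ ‖ζ - z‖ := by
  rw [abs_sub_le_iff]
  have h1 := infDist_le_infDist_add_dist (s := F) (x := ζ) (y := z)
  have h2 := infDist_le_infDist_add_dist (s := F) (x := z) (y := ζ)
  rw [dist_eq_norm] at h1 h2
  rw [norm_sub_rev] at h2
  exact ⟨by linarith, by linarith⟩

theorem patch_th_lip (F : Set (Cn n)) (k : ℕ) (ζ z : Cn n) :
    |th F k ζ - th F k z| ≤ 4 * 2 ^ k * ‖ζ - z‖ := by
  unfold th
  refine (patch_lam_lip _ _).trans ?_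
  rw [← mul_sub, abs_mul, abs_of_nonneg (by positivity : (0:ℝ) ≤ 2 ^ k), mul_assoc]
  have := patch_infDist F ζ z
  gcongr

theorem patch_th_zero (F : Set (Cn n)) (k : ℕ) {z : Cn n} (h : 3 / 4 * (1 / 2) ^ k ≤ infDist z F) :
    th F k z = 0 := by
  unfold th
  apply patch_lam_zero
  have h2 : (2:ℝ) ^ k * (1 / 2) ^ k = 1 := by rw [← mul_pow]; norm_num
  calc (3:ℝ) / 4 = 2 ^ k * (3 / 4 * (1 / 2) ^ k) := by linear_combination (-(3:ℝ) / 4) * h2
    _ ≤ 2 ^ k * infDist z F := by gcongr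

theorem patch_th_cont (F : Set (Cn n)) (k : ℕ) : Continuous (th F k) := by
  unfold th lam
  have := continuous_infDist_pt F
  fun_prop

theorem patch_tk_pos {t0 : ℝ} (h : 0 < t0) (β k : ℕ) : 0 < tk t0 β k := by
  unfold tk; positivity

theorem patch_tk_le {t0 : ℝ} (h : 0 < t0) (β k : ℕ) : tk t0 β k ≤ t0 := by
  unfold tk
  apply div_le_self h.le
  exact one_le_pow₀ (by norm_num)

theorem patch_tk_four {t0 : ℝ} (h : 0 < t0) {β : ℕ} (hβ : 2 ≤ β) (k : ℕ) :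
    tk t0 β k ≤ t0 / 4 ^ k := by
  unfold tk
  have h4 : (4:ℝ) ^ k = 2 ^ (2 * k) := by rw [pow_mul]; norm_num
  rw [h4]
  gcongr
  norm_num

set_option maxHeartbeats 2000000 in
/-- TARGET. PROOF (all for fixed t0<=t1:=min tau0 c1; write t_k = tk t0 beta k, tau=t_{k+1} in [0,tau0], s=tau-r zeta in (0,S] on Om with S=tau0 + sup over closedBall p R of |r|,
V=volume of ball p R, finite; theta=th F k is continuous, 0<=theta<=1, 4*2^k-Lipschitz, theta=0 where d=infDist . F >= (3/4)2^{-k}).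
First hypothesis gives |u| s^M <= B t_k S^{M-A-1} (s <= s+t_k). u is continuous on Om, so theta*u is measurable.
(a) holomorphy on {|z-p|<R', r z<tau}: near z0 take a small ball O in ball p R' where tau - r z >= kappa := (tau-r z0)/2 and apply hK.hol with b=theta*u.
(b) by hK.repro, PP - theta(z)u(z) = int K (theta(zeta)-theta(z)) u(zeta) (integrable: |K| <= C s^M kappa^{-(M+n+1)}, kappa = tau - r z, by hK.bound).
 Where |zeta-z|<=2^{-k-3}: |theta(zeta)-theta(z)| <= 4*2^k|zeta-z|, and it is 0 unless d(zeta) <= 2^{-k} (otherwise both thetas vanish), and there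
 |u| <= B t_k (s+t_k)^{-5/4} <= B t_k^{1/8} s^{-3/8} because (s+t_k)^{5/4} >= t_k^{7/8} s^{3/8}; use hK.near: contribution <= 4*2^k B t_k^{1/8} C.
 Where |zeta-z|>2^{-k-3}: hK.bound with kappa = c1 4^{-k-3}: |K| <= C s^M kappa^{-(M+n+1)}, |theta-theta|<=1, contribution <= C kappa^{-(M+n+1)} B t_k S^{M-A-1} V.
(c) l<k, z in W_l = {|z-p|<R', r z<t_{l+1}, 2^{-l}<d(z)}: if theta(zeta) != 0 then d(zeta)<=(3/4)2^{-k}<=(3/8)2^{-l}, so |zeta-z|>=(5/8)2^{-l} and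
 (tau-r zeta)+(tau-r z)+c1|zeta-z|^2 >= -t_{l+1}+c1(25/64)4^{-l} >= (9/64)c1 4^{-l} =: kappa since t_{l+1} <= t0 4^{-l-1} <= c1 4^{-l}/4 (beta>=2). hK.hol with O=W_l gives
 holomorphy, hK.bound gives |PP| <= C kappa^{-(M+n+1)} B t_k S^{M-A-1} V <= C' B 4^{k(M+n+1)} t_k. -/
theorem patch {p : Cn n} {R R' : ℝ} {r : Cn n → ℝ} {τ0 c1 C : ℝ} {M : ℕ}
    {K : ℝ → Cn n → Cn n → ℂ} (hK : KPack p R R' r τ0 c1 C M K) (hR' : 0 < R') (hR : R' < R)
    (hr : Continuous r) (hτ0 : 0 < τ0) (hc1 : 0 < c1) (hC : 0 ≤ C) (F : Set (Cn n))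
    (hF : F.Nonempty) (A : ℕ) (hA : A + 1 ≤ M) (β : ℕ) (hβ : 2 ≤ β) :
    ∃ C' t1 : ℝ, 0 ≤ C' ∧ 0 < t1 ∧ t1 ≤ τ0 ∧ ∀ t0, 0 < t0 → t0 ≤ t1 → ∀ (k : ℕ) (u : Cn n → ℂ)
      (U : Set (Cn n)) (B : ℝ), 0 ≤ B → IsOpen U →
      {ζ | ‖ζ - p‖ ≤ R ∧ r ζ ≤ tk t0 β (k + 1)} ⊆ U → DifferentiableOn ℂ u U →
      (∀ ζ ∈ Om p R r (tk t0 β (k + 1)),
        ‖u ζ‖ * ((tk t0 β (k + 1) - r ζ) + tk t0 β k) ^ (A + 1) ≤ B * tk t0 β k) →
      (∀ ζ ∈ Om p R r (tk t0 β (k + 1)), infDist ζ F ≤ (1 / 2) ^ k →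
        ‖u ζ‖ * ((tk t0 β (k + 1) - r ζ) + tk t0 β k) ^ (5 / 4 : ℝ) ≤ B * tk t0 β k) →
      DifferentiableOn ℂ (PP K p R r (tk t0 β (k + 1)) (th F k) u)
        {z | ‖z - p‖ < R' ∧ r z < tk t0 β (k + 1)} ∧
      (∀ z ∈ ball p R', r z < tk t0 β (k + 1) →
        ‖PP K p R r (tk t0 β (k + 1)) (th F k) u z - (th F k z : ℂ) * u z‖ ≤
          C' * B * (2 ^ k * tk t0 β k ^ (1 / 8 : ℝ) + 4 ^ (k * (M + n + 1)) * tk t0 β k)) ∧
      ∀ l : ℕ, l < k →
        DifferentiableOn ℂ (PP K p R r (tk t0 β (k + 1)) (th F k) u)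
          {z | ‖z - p‖ < R' ∧ r z < tk t0 β (l + 1) ∧ (1 / 2) ^ l < infDist z F} ∧
        ∀ z, ‖z - p‖ < R' → r z < tk t0 β (l + 1) → (1 / 2) ^ l < infDist z F →
          ‖PP K p R r (tk t0 β (k + 1)) (th F k) u z‖ ≤
            C' * B * (2 ^ k * tk t0 β k ^ (1 / 8 : ℝ) + 4 ^ (k * (M + n + 1)) * tk t0 β k) := by
  classical
  -- constants
  obtain ⟨Rb, hRb⟩ : ∃ Rb : ℝ, ∀ ζ ∈ closedBall p R, |r ζ| ≤ Rb := by
    have := (isCompact_closedBall p R).exists_bound_of_continuousOn hr.continuousOn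
    simpa only [Real.norm_eq_abs] using this
  have hRb0 : 0 ≤ Rb := (abs_nonneg _).trans (hRb p (mem_closedBall_self (by linarith)))
  set S : ℝ := τ0 + Rb with hS
  have hS0 : 0 < S := by linarith
  set N : ℕ := M + n + 1 with hN
  set Q : ℝ := S ^ (M - (A + 1)) with hQ
  have hQ0 : 0 ≤ Q := by positivity
  set Vv : ℝ := (volume (ball p R)).toReal with hVv
  have hV0 : 0 ≤ Vv := ENNReal.toReal_nonneg
  set C2 : ℝ := C * (64 / c1) ^ N * Q * Vv with hC2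
  have hC20 : 0 ≤ C2 := by positivity
  refine ⟨4 * C + C2, min τ0 c1, by positivity, lt_min hτ0 hc1, min_le_left _ _, ?_⟩
  intro t0 ht0 ht01 k u U B hB hU hUsub hu H1 H2
  have ht0τ : t0 ≤ τ0 := ht01.trans (min_le_left _ _)
  have ht0c : t0 ≤ c1 := ht01.trans (min_le_right _ _)
  set t : ℝ := tk t0 β k with ht
  have htpos : 0 < t := patch_tk_pos ht0 β k
  set τ : ℝ := tk t0 β (k + 1) with hτ
  have hτpos : 0 < τ := patch_tk_pos ht0 β (k + 1)
  have hττ0 : τ ≤ τ0 := (patch_tk_le ht0 β (k + 1)).trans ht0τ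
  have hτI : τ ∈ Icc 0 τ0 := ⟨hτpos.le, hττ0⟩
  set Ω : Set (Cn n) := Om p R r τ with hΩ
  have hΩo : IsOpen Ω := by
    have h1 : IsOpen {ζ : Cn n | ‖ζ - p‖ < R} := isOpen_lt (by fun_prop) continuous_const
    have h2 : IsOpen {ζ : Cn n | r ζ < τ} := isOpen_lt hr continuous_const
    exact h1.inter h2
  have hΩm : MeasurableSet Ω := hΩo.measurableSet
  have hΩb : Ω ⊆ ball p R := by
    rintro ζ ⟨h, -⟩
    rw [mem_ball, dist_eq_norm]; exact h
  have hΩv : volume Ω ≤ volume (ball p R) := measure_mono hΩb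
  have hΩfin : volume Ω < ⊤ := hΩv.trans_lt measure_ball_lt_top
  have hΩV : (volume Ω).toReal ≤ Vv := ENNReal.toReal_mono measure_ball_lt_top.ne hΩv
  have hΩU : Ω ⊆ U := by
    rintro ζ ⟨h1, h2⟩
    exact hUsub ⟨h1.le, h2.le⟩
  have hs0 : ∀ ζ ∈ Ω, 0 < τ - r ζ := fun ζ hζ => sub_pos.2 hζ.2
  have hsS : ∀ ζ ∈ Ω, τ - r ζ ≤ S := by
    intro ζ hζ
    have := hRb ζ (ball_subset_closedBall (hΩb hζ))
    have := neg_abs_le (r ζ)
    linarith
  have huM : ∀ ζ ∈ Ω, ‖u ζ‖ * (τ - r ζ) ^ M ≤ B * t * Q := by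
    intro ζ hζ
    have h0 := hs0 ζ hζ
    have h1 := H1 ζ hζ
    have h2 : (τ - r ζ) ^ (A + 1) ≤ ((τ - r ζ) + t) ^ (A + 1) := by
      gcongr; linarith
    have h3 : (τ - r ζ) ^ (M - (A + 1)) ≤ Q := by
      rw [hQ]
      gcongr
      exact hsS ζ hζ
    have h4 : (τ - r ζ) ^ M = (τ - r ζ) ^ (A + 1) * (τ - r ζ) ^ (M - (A + 1)) := by
      rw [← pow_add]; congr 1; omega
    rw [h4, ← mul_assoc]
    have h5 : ‖u ζ‖ * (τ - r ζ) ^ (A + 1) ≤ B * t := by
      refine le_trans ?_ h1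
      gcongr
    exact mul_le_mul h5 h3 (by positivity) (by positivity)
  have hθ0 := patch_th_nonneg F k
  have hθ1 := patch_th_le_one F k
  have hθn : ∀ ζ, ‖((th F k ζ : ℝ) : ℂ)‖ ≤ 1 := by
    intro ζ
    rw [Complex.norm_real, Real.norm_eq_abs, abs_of_nonneg (hθ0 ζ)]
    exact hθ1 ζ
  set b : Cn n → ℂ := fun ζ => ((th F k ζ : ℝ) : ℂ) * u ζ with hb
  have huc : ContinuousOn u Ω := hu.continuousOn.mono hΩU
  have hbc : ContinuousOn b Ω := by
    refine ContinuousOn.mul ?_ huc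
    exact (Complex.continuous_ofReal.comp (patch_th_cont F k)).continuousOn
  have hbm : AEStronglyMeasurable b (volume.restrict Ω) := hbc.aestronglyMeasurable hΩm
  have hum : AEStronglyMeasurable u (volume.restrict Ω) := huc.aestronglyMeasurable hΩm
  have hbM : ∀ ζ ∈ Ω, ‖b ζ‖ * (τ - r ζ) ^ M ≤ B * t * Q := by
    intro ζ hζ
    refine le_trans ?_ (huM ζ hζ)
    have h0 := hs0 ζ hζ
    rw [hb]
    simp only [norm_mul]
    have := hθn ζ
    have h1 : ‖((th F k ζ : ℝ) : ℂ)‖ * ‖u ζ‖ ≤ ‖u ζ‖ := mul_le_of_le_one_left (norm_nonneg _) this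
    gcongr
  -- pointwise bound of the kernel against a function
  have hKb : ∀ z ∈ ball p R', ∀ ζ ∈ Ω, ∀ κ > 0, κ ≤ (τ - r ζ) + (τ - r z) + c1 * ‖ζ - z‖ ^ 2 →
      ∀ v : ℂ, ‖v‖ * (τ - r ζ) ^ M ≤ B * t * Q → ‖K τ ζ z * v‖ ≤ C * (κ ^ N)⁻¹ * (B * t * Q) := by
    intro z hz ζ hζ κ hκ hle v hv
    have h1 := hK.bound τ hτI z hz ζ hζ κ hκ hle
    have h0 := hs0 ζ hζ
    have h2 : ‖K τ ζ z‖ ≤ C * (τ - r ζ) ^ M * (κ ^ N)⁻¹ := by
      rw [← div_eq_mul_inv, le_div_iff₀ (by positivity)]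
      exact h1
    rw [norm_mul]
    calc ‖K τ ζ z‖ * ‖v‖ ≤ C * (τ - r ζ) ^ M * (κ ^ N)⁻¹ * ‖v‖ := by gcongr
      _ = C * (κ ^ N)⁻¹ * (‖v‖ * (τ - r ζ) ^ M) := by ring
      _ ≤ C * (κ ^ N)⁻¹ * (B * t * Q) := by gcongr
  have hint : ∀ z ∈ ball p R', r z < τ → ∀ v : Cn n → ℂ,
      AEStronglyMeasurable v (volume.restrict Ω) → (∀ ζ ∈ Ω, ‖v ζ‖ * (τ - r ζ) ^ M ≤ B * t * Q) →
      IntegrableOn (fun ζ => K τ ζ z * v ζ) Ω := by
    intro z hz hrz v hvm hv
    refine IntegrableOn.of_bound hΩfin ((hK.meas τ hτI z hz).mul hvm)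
      (C * ((τ - r z) ^ N)⁻¹ * (B * t * Q)) ?_
    rw [ae_restrict_iff' hΩm]
    refine Filter.Eventually.of_forall fun ζ hζ => ?_
    refine hKb z hz ζ hζ (τ - r z) (sub_pos.2 hrz) ?_ (v ζ) (hv ζ hζ)
    have := hs0 ζ hζ
    nlinarith [sq_nonneg ‖ζ - z‖]
  have h4k : ∀ m : ℕ, (((1:ℝ) / 2) ^ m) ^ 2 = (1 / 4) ^ m := by
    intro m; rw [← pow_mul, mul_comm, pow_mul]; norm_num
  have hinv4 : ∀ m : ℕ, ((1:ℝ) / 4) ^ m * 4 ^ m = 1 := by
    intro m; rw [← mul_pow]; norm_num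
  refine ⟨?_, ?_, ?_⟩
  · -- (a)
    intro z0 hz0
    obtain ⟨hz0R, hz0τ⟩ := hz0
    have hκ : 0 < (τ - r z0) / 2 := by linarith
    have hOo : IsOpen {z : Cn n | ‖z - p‖ < R' ∧ r z < τ - (τ - r z0) / 2} := by
      have h1 : IsOpen {ζ : Cn n | ‖ζ - p‖ < R'} := isOpen_lt (by fun_prop) continuous_const
      have h2 : IsOpen {ζ : Cn n | r ζ < τ - (τ - r z0) / 2} := isOpen_lt hr continuous_const
      exact h1.inter h2
    have hd := hK.hol τ hτI b {z : Cn n | ‖z - p‖ < R' ∧ r z < τ - (τ - r z0) / 2} hOo (by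
      rintro z ⟨hz, -⟩
      rw [mem_ball, dist_eq_norm]; exact hz) hbm ⟨_, hbM⟩ ⟨(τ - r z0) / 2, hκ, by
      rintro z ⟨hz, hz'⟩ ζ hζ -
      have := hs0 ζ hζ
      nlinarith [sq_nonneg ‖ζ - z‖]⟩
    have hmem : z0 ∈ {z : Cn n | ‖z - p‖ < R' ∧ r z < τ - (τ - r z0) / 2} :=
      ⟨hz0R, by show r z0 < τ - (τ - r z0) / 2; linarith⟩
    exact ((hd z0 hmem).differentiableAt (hOo.mem_nhds hmem)).differentiableWithinAt
  · -- (b)
    intro z hz hrz
    have hrepro := hK.repro τ hτI u U hU hUsub hu z hz hrz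
    have hi1 := hint z hz hrz b hbm hbM
    have hi2 := hint z hz hrz u hum huM
    have hnear := hK.near τ hτI z hz hrz
    have heq : PP K p R r τ (th F k) u z - (th F k z : ℂ) * u z =
        ∫ ζ in Ω, (K τ ζ z * b ζ - (th F k z : ℂ) * (K τ ζ z * u ζ)) := by
      rw [integral_sub hi1 (hi2.const_mul _), integral_const_mul, hrepro]
      rfl
    rw [heq]
    set κ : ℝ := c1 * (1 / 4) ^ (k + 3) with hκdef
    have hκ : 0 < κ := by positivity
    set g : Cn n → ℝ := fun ζ => 4 * 2 ^ k * (B * t ^ (1 / 8 : ℝ)) *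
      (‖K τ ζ z‖ * ‖ζ - z‖ * (τ - r ζ) ^ (-(3 / 8) : ℝ)) + C * (κ ^ N)⁻¹ * (B * t * Q) with hg
    have hgi : IntegrableOn g Ω := by
      refine Integrable.add (hnear.1.const_mul _) ?_
      exact integrableOn_const hΩfin.ne
    have hpt : ∀ ζ ∈ Ω, ‖K τ ζ z * b ζ - (th F k z : ℂ) * (K τ ζ z * u ζ)‖ ≤ g ζ := by
      intro ζ hζ
      have h0 := hs0 ζ hζ
      have e1 : K τ ζ z * b ζ - (th F k z : ℂ) * (K τ ζ z * u ζ) =
          K τ ζ z * (((th F k ζ - th F k z : ℝ) : ℂ) * u ζ) := by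
        rw [hb]; push_cast; ring
      rw [e1]
      have hab : |th F k ζ - th F k z| ≤ 1 := by
        rw [abs_sub_le_iff]
        have a1 := hθ0 ζ
        have a2 := hθ1 ζ
        have a3 := hθ0 z
        have a4 := hθ1 z
        exact ⟨by linarith, by linarith⟩
      have hnn1 : 0 ≤ 4 * 2 ^ k * (B * t ^ (1 / 8 : ℝ)) *
          (‖K τ ζ z‖ * ‖ζ - z‖ * (τ - r ζ) ^ (-(3 / 8) : ℝ)) := by positivity
      have hnn2 : 0 ≤ C * (κ ^ N)⁻¹ * (B * t * Q) := by positivity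
      rcases le_or_gt ‖ζ - z‖ ((1 / 2) ^ (k + 3)) with hfar | hfar
      · -- near
        refine le_trans ?_ (le_add_of_nonneg_right hnn2)
        by_cases hθθ : th F k ζ = th F k z
        · rw [hθθ, sub_self, Complex.ofReal_zero, zero_mul, mul_zero, norm_zero]
          exact hnn1
        · have hdζ : infDist ζ F ≤ (1 / 2) ^ k := by
            by_contra hcon
            push Not at hcon
            apply hθθ
            have h2k : (0:ℝ) < (1 / 2) ^ k := by positivity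
            rw [patch_th_zero F k (z := ζ) (by linarith), patch_th_zero F k (z := z) ?_]
            have h5 := (abs_le.1 (patch_infDist F ζ z)).2
            have h6 : ((1:ℝ) / 2) ^ (k + 3) = (1 / 8) * (1 / 2) ^ k := by rw [pow_add]; ring
            rw [h6] at hfar
            linarith
          have h7 := H2 ζ hζ hdζ
          have h8 : ‖u ζ‖ ≤ B * t ^ (1 / 8 : ℝ) * (τ - r ζ) ^ (-(3 / 8) : ℝ) := by
            have hst : 0 < (τ - r ζ) + t := by linarith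
            have h9 : t ^ (7 / 8 : ℝ) * (τ - r ζ) ^ (3 / 8 : ℝ) ≤
                ((τ - r ζ) + t) ^ (5 / 4 : ℝ) := by
              have : ((τ - r ζ) + t) ^ (5 / 4 : ℝ) =
                  ((τ - r ζ) + t) ^ (7 / 8 : ℝ) * ((τ - r ζ) + t) ^ (3 / 8 : ℝ) := by
                rw [← Real.rpow_add hst]; norm_num
              rw [this]
              apply mul_le_mul
              · exact Real.rpow_le_rpow htpos.le (by linarith) (by norm_num)
              · exact Real.rpow_le_rpow h0.le (by linarith) (by norm_num)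
              · positivity
              · positivity
            have h10 : ‖u ζ‖ * (t ^ (7 / 8 : ℝ) * (τ - r ζ) ^ (3 / 8 : ℝ)) ≤ B * t :=
              le_trans (by gcongr) h7
            have h11 : t ^ (7 / 8 : ℝ) * t ^ (1 / 8 : ℝ) = t := by
              rw [← Real.rpow_add htpos]; norm_num
            have h12 : (τ - r ζ) ^ (3 / 8 : ℝ) * (τ - r ζ) ^ (-(3 / 8) : ℝ) = 1 := by
              rw [← Real.rpow_add h0]; norm_num
            have h13 : 0 < t ^ (7 / 8 : ℝ) := by positivity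
            have h14 : 0 < (τ - r ζ) ^ (-(3 / 8) : ℝ) := by positivity
            have h15 : ‖u ζ‖ * t ^ (7 / 8 : ℝ) ≤ B * t * (τ - r ζ) ^ (-(3 / 8) : ℝ) := by
              calc ‖u ζ‖ * t ^ (7 / 8 : ℝ) = ‖u ζ‖ * (t ^ (7 / 8 : ℝ) * (τ - r ζ) ^ (3 / 8 : ℝ)) *
                    (τ - r ζ) ^ (-(3 / 8) : ℝ) := by
                    linear_combination (-‖u ζ‖ * t ^ (7 / 8 : ℝ)) * h12
                _ ≤ B * t * (τ - r ζ) ^ (-(3 / 8) : ℝ) := by gcongr
            have h16 : B * t * (τ - r ζ) ^ (-(3 / 8) : ℝ) =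
                (B * t ^ (1 / 8 : ℝ) * (τ - r ζ) ^ (-(3 / 8) : ℝ)) * t ^ (7 / 8 : ℝ) := by
              linear_combination (-B * (τ - r ζ) ^ (-(3 / 8) : ℝ)) * h11
            rw [h16] at h15
            exact le_of_mul_le_mul_right h15 h13
          have h17 := patch_th_lip F k ζ z
          rw [norm_mul, norm_mul, Complex.norm_real, Real.norm_eq_abs]
          calc ‖K τ ζ z‖ * (|th F k ζ - th F k z| * ‖u ζ‖)
              ≤ ‖K τ ζ z‖ * ((4 * 2 ^ k * ‖ζ - z‖) *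
                (B * t ^ (1 / 8 : ℝ) * (τ - r ζ) ^ (-(3 / 8) : ℝ))) := by gcongr
            _ = _ := by ring
      · -- far
        refine le_trans ?_ (le_add_of_nonneg_left hnn1)
        refine hKb z hz ζ hζ κ hκ ?_ _ ?_
        · have h5 : (1 / 4 : ℝ) ^ (k + 3) ≤ ‖ζ - z‖ ^ 2 := by
            rw [← h4k]
            gcongr
          have h6 : c1 * (1 / 4 : ℝ) ^ (k + 3) ≤ c1 * ‖ζ - z‖ ^ 2 := by gcongr
          rw [hκdef]
          linarith
        · refine le_trans ?_ (huM ζ hζ)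
          rw [norm_mul, Complex.norm_real, Real.norm_eq_abs]
          have : |th F k ζ - th F k z| * ‖u ζ‖ ≤ ‖u ζ‖ :=
            mul_le_of_le_one_left (norm_nonneg _) hab
          gcongr
    have hle : ‖∫ ζ in Ω, (K τ ζ z * b ζ - (th F k z : ℂ) * (K τ ζ z * u ζ))‖ ≤ ∫ ζ in Ω, g ζ := by
      apply norm_integral_le_of_norm_le hgi
      rw [ae_restrict_iff' hΩm]
      exact Filter.Eventually.of_forall hpt
    refine hle.trans ?_
    have hgint : ∫ ζ in Ω, g ζ = 4 * 2 ^ k * (B * t ^ (1 / 8 : ℝ)) *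
        (∫ ζ in Ω, ‖K τ ζ z‖ * ‖ζ - z‖ * (τ - r ζ) ^ (-(3 / 8) : ℝ)) +
        (volume Ω).toReal * (C * (κ ^ N)⁻¹ * (B * t * Q)) := by
      rw [hg, integral_add (hnear.1.const_mul _) (integrableOn_const hΩfin.ne),
        integral_const_mul, setIntegral_const]
      rfl
    rw [hgint]
    have hκN : (κ ^ N)⁻¹ = (64 / c1) ^ N * 4 ^ (k * N) := by
      have h5 : κ = (64 / c1 * 4 ^ k)⁻¹ := by
        rw [hκdef]
        have := hinv4 k
        have h6 : ((1:ℝ) / 4) ^ (k + 3) = (1 / 64) * (1 / 4) ^ k := by rw [pow_add]; ring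
        rw [h6]
        field_simp
        exact this
      rw [h5, inv_pow, inv_inv, mul_pow, ← pow_mul]
    have h18 : 4 * 2 ^ k * (B * t ^ (1 / 8 : ℝ)) *
        (∫ ζ in Ω, ‖K τ ζ z‖ * ‖ζ - z‖ * (τ - r ζ) ^ (-(3 / 8) : ℝ)) ≤
        4 * 2 ^ k * (B * t ^ (1 / 8 : ℝ)) * C := by
      have := hnear.2
      gcongr
    have h19 : (volume Ω).toReal * (C * (κ ^ N)⁻¹ * (B * t * Q)) ≤
        Vv * (C * (κ ^ N)⁻¹ * (B * t * Q)) := by gcongr
    have h20 : Vv * (C * (κ ^ N)⁻¹ * (B * t * Q)) = C2 * B * (4 ^ (k * N) * t) := by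
      rw [hκN, hC2]; ring
    have h21 : 0 ≤ C2 * B * (2 ^ k * t ^ (1 / 8 : ℝ)) := by positivity
    have h22 : 0 ≤ 4 * C * B * (4 ^ (k * N) * t) := by positivity
    have h23 : (4 * C + C2) * B * (2 ^ k * t ^ (1 / 8 : ℝ) + 4 ^ (k * N) * t) =
        4 * 2 ^ k * (B * t ^ (1 / 8 : ℝ)) * C + C2 * B * (2 ^ k * t ^ (1 / 8 : ℝ)) +
        4 * C * B * (4 ^ (k * N) * t) + C2 * B * (4 ^ (k * N) * t) := by ring
    rw [h23]
    linarith
  · -- (c)
    intro l hl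
    have hκ : 0 < c1 * (9 / 64) * (1 / 4) ^ l := by positivity
    have hsep : ∀ z : Cn n, r z < tk t0 β (l + 1) → (1 / 2) ^ l < infDist z F → ∀ ζ ∈ Ω, b ζ ≠ 0 →
        c1 * (9 / 64) * (1 / 4) ^ l ≤ (τ - r ζ) + (τ - r z) + c1 * ‖ζ - z‖ ^ 2 := by
      intro z hrz hdz ζ hζ hbζ
      have h0 := hs0 ζ hζ
      have hθ : th F k ζ ≠ 0 := by
        intro h
        apply hbζ
        rw [hb]
        simp [h]
      have hdζ : infDist ζ F < 3 / 4 * (1 / 2) ^ k := by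
        by_contra hcon
        push Not at hcon
        exact hθ (patch_th_zero F k hcon)
      have hkl : ((1:ℝ) / 2) ^ k ≤ (1 / 2) * (1 / 2) ^ l := by
        rw [← pow_succ']
        apply pow_le_pow_of_le_one (by norm_num) (by norm_num)
        omega
      have h5 := (abs_le.1 (patch_infDist F ζ z)).1
      have h6 : 5 / 8 * (1 / 2 : ℝ) ^ l ≤ ‖ζ - z‖ := by linarith
      have h7 : 25 / 64 * (1 / 4 : ℝ) ^ l ≤ ‖ζ - z‖ ^ 2 := by
        calc 25 / 64 * (1 / 4 : ℝ) ^ l = (5 / 8 * (1 / 2 : ℝ) ^ l) ^ 2 := by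
              rw [mul_pow, h4k]; norm_num
          _ ≤ ‖ζ - z‖ ^ 2 := by gcongr
      have h8 : c1 * (25 / 64 * (1 / 4 : ℝ) ^ l) ≤ c1 * ‖ζ - z‖ ^ 2 := by gcongr
      have h9 : tk t0 β (l + 1) ≤ c1 * (1 / 4) * (1 / 4) ^ l := by
        refine (patch_tk_four ht0 hβ (l + 1)).trans ?_
        rw [div_le_iff₀ (by positivity), pow_succ]
        have := hinv4 l
        have h10 : c1 * (1 / 4) * (1 / 4) ^ l * (4 ^ l * 4) = c1 := by
          linear_combination c1 * this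
        rw [h10]; exact ht0c
      linarith
    refine ⟨?_, ?_⟩
    · refine hK.hol τ hτI b _ ?_ ?_ hbm ⟨_, hbM⟩ ⟨_, hκ, ?_⟩
      · have h1 : IsOpen {ζ : Cn n | ‖ζ - p‖ < R'} := isOpen_lt (by fun_prop) continuous_const
        have h2 : IsOpen {ζ : Cn n | r ζ < tk t0 β (l + 1)} := isOpen_lt hr continuous_const
        have h3 : IsOpen {ζ : Cn n | (1 / 2 : ℝ) ^ l < infDist ζ F} :=
          isOpen_lt continuous_const (continuous_infDist_pt F)
        exact h1.inter (h2.inter h3)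
      · rintro z ⟨hz, -⟩
        rw [mem_ball, dist_eq_norm]; exact hz
      · rintro z ⟨-, hz2, hz3⟩ ζ hζ hbζ
        exact hsep z hz2 hz3 ζ hζ hbζ
    · intro z hz hrz hdz
      have hzb : z ∈ ball p R' := by rw [mem_ball, dist_eq_norm]; exact hz
      have hpt : ∀ ζ ∈ Ω, ‖K τ ζ z * b ζ‖ ≤
          C * ((c1 * (9 / 64) * (1 / 4) ^ l) ^ N)⁻¹ * (B * t * Q) := by
        intro ζ hζ
        by_cases hbζ : b ζ = 0
        · rw [hbζ, mul_zero, norm_zero]; positivity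
        · exact hKb z hzb ζ hζ _ hκ (hsep z hrz hdz ζ hζ hbζ) _ (hbM ζ hζ)
      have hle : ‖∫ ζ in Ω, K τ ζ z * b ζ‖ ≤
          C * ((c1 * (9 / 64) * (1 / 4) ^ l) ^ N)⁻¹ * (B * t * Q) * (volume Ω).toReal :=
        norm_setIntegral_le_of_norm_le_const hΩfin hpt
      have hPP : PP K p R r τ (th F k) u z = ∫ ζ in Ω, K τ ζ z * b ζ := rfl
      rw [hPP]
      refine hle.trans ?_
      have hκN : ((c1 * (9 / 64) * (1 / 4) ^ l) ^ N)⁻¹ ≤ (64 / c1) ^ N * 4 ^ (k * N) := by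
        have h5 : c1 * (9 / 64) * (1 / 4) ^ l = (64 / 9 / c1 * 4 ^ l)⁻¹ := by
          have := hinv4 l
          have h4l : (0:ℝ) < 4 ^ l := by positivity
          refine eq_inv_of_mul_eq_one_left ?_
          have h6 : c1 * (9 / 64) * (1 / 4) ^ l * (64 / 9 / c1 * 4 ^ l) =
              (c1 / c1) * ((1 / 4) ^ l * 4 ^ l) := by ring
          rw [h6, this, div_self hc1.ne', one_mul]
        rw [h5, inv_pow, inv_inv, mul_pow, ← pow_mul]
        have h7 : (4:ℝ) ^ (l * N) ≤ 4 ^ (k * N) := by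
          apply pow_le_pow_right₀ (by norm_num)
          exact Nat.mul_le_mul_right _ hl.le
        have h8 : (64 / 9 / c1) ^ N ≤ (64 / c1) ^ N := by
          gcongr
          norm_num
        exact mul_le_mul h8 h7 (by positivity) (by positivity)
      have h19 : C * ((c1 * (9 / 64) * (1 / 4) ^ l) ^ N)⁻¹ * (B * t * Q) * (volume Ω).toReal ≤
          C * ((64 / c1) ^ N * 4 ^ (k * N)) * (B * t * Q) * Vv := by gcongr
      refine h19.trans ?_
      have h20 : C * ((64 / c1) ^ N * 4 ^ (k * N)) * (B * t * Q) * Vv =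
          C2 * B * (4 ^ (k * N) * t) := by rw [hC2]; ring
      rw [h20]
      have h21 : 0 ≤ C2 * B * (2 ^ k * t ^ (1 / 8 : ℝ)) := by positivity
      have h22 : 0 ≤ 4 * C * B * (4 ^ (k * N) * t) := by positivity
      have h24 : 0 ≤ 4 * C * B * (2 ^ k * t ^ (1 / 8 : ℝ)) := by positivity
      have h23 : (4 * C + C2) * B * (2 ^ k * t ^ (1 / 8 : ℝ) + 4 ^ (k * N) * t) =
          4 * C * B * (2 ^ k * t ^ (1 / 8 : ℝ)) + C2 * B * (2 ^ k * t ^ (1 / 8 : ℝ)) +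
          4 * C * B * (4 ^ (k * N) * t) + C2 * B * (4 ^ (k * N) * t) := by ring
      rw [h23]
      linarith

end Pool.Agent.Helper123
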