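import Mathlib
import Pool.Agent.Helper123.Patch
import Pool.Agent.H805R2.Base
import Pool.Agent.Helper123.Defs2

/-! Part of the proof of S06843 (MP_fedc70_an). -/

set_option autoImplicit false

open MeasureTheory Metric Set Filter Topology
open scoped ENNReal NNReal ContDiff ComplexConjugate

namespace Pool.Agent.Helper123

open Pool.Agent.H805R2

variable {n : ℕ}


lemma st1_tk_pos {t0 : ℝ} (h : 0 < t0) (β k : ℕ) : 0 < tk t0 β k := by
  unfold tk; positivity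

lemma st1_tk_succ (t0 : ℝ) (β k : ℕ) : tk t0 β k = 2 ^ β * tk t0 β (k + 1) := by
  unfold tk
  rw [Nat.mul_succ, pow_add]
  field_simp

lemma st1_tk_zero (t0 : ℝ) (β : ℕ) : tk t0 β 0 = t0 := by
  unfold tk; simp

lemma st1_tk_anti {t0 : ℝ} (h : 0 < t0) (β : ℕ) {j k : ℕ} (hjk : j ≤ k) :
    tk t0 β k ≤ tk t0 β j := by
  unfold tk
  have h1 : (2 : ℝ) ^ (β * j) ≤ 2 ^ (β * k) :=
    pow_le_pow_right₀ one_le_two (Nat.mul_le_mul_left _ hjk)
  exact div_le_div_of_nonneg_left h.le (by positivity) h1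

lemma st1_lam_nonneg (x : ℝ) : 0 ≤ lam x := le_max_left _ _

lemma st1_lam_le_one (x : ℝ) : lam x ≤ 1 := max_le zero_le_one (min_le_left _ _)

lemma st1_lam_anti {x y : ℝ} (h : x ≤ y) : lam y ≤ lam x :=
  max_le_max le_rfl (min_le_min le_rfl (by linarith))

lemma st1_lam_one {x : ℝ} (h : x ≤ 1 / 2) : lam x = 1 := by
  unfold lam
  rw [min_eq_left (by linarith)]
  norm_num

lemma st1_elem (x θ : ℕ → ℝ) (hθ : ∀ j, 0 ≤ θ j) (h1 : ∀ j, θ j ≤ 1)
    (hanti : ∀ j, θ (j + 1) ≤ θ j) (a : ℝ) (k : ℕ) (ha : ∀ j ≤ k, a ≤ x j) :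
    θ k * (x k - a) ≤ x 0 + ∑ j ∈ Finset.range k, θ j * (x (j + 1) - x j) - a := by
  induction k with
  | zero =>
    rw [Finset.sum_range_zero, add_zero]
    have := ha 0 le_rfl
    nlinarith [h1 0]
  | succ k ih =>
    have h2 := ih fun j hj => ha j (by omega)
    rw [Finset.sum_range_succ]
    have h3 := ha (k + 1) le_rfl
    nlinarith [hanti k]

lemma st1_elem_ge (x θ : ℕ → ℝ) (hθ : ∀ j, 0 ≤ θ j) (h1 : ∀ j, θ j ≤ 1)
    (hanti : ∀ j, θ (j + 1) ≤ θ j) (a : ℝ) (k : ℕ) (ha : ∀ j ≤ k, a ≤ x j) :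
    a ≤ x 0 + ∑ j ∈ Finset.range k, θ j * (x (j + 1) - x j) := by
  have h2 := st1_elem x θ hθ h1 hanti a k ha
  have h3 := mul_nonneg (hθ k) (sub_nonneg.2 (ha k le_rfl))
  linarith

lemma st1_elem_le (x θ : ℕ → ℝ) (hθ : ∀ j, 0 ≤ θ j) (h1 : ∀ j, θ j ≤ 1)
    (hanti : ∀ j, θ (j + 1) ≤ θ j) (a : ℝ) (k : ℕ) (ha : ∀ j ≤ k, x j ≤ a) :
    x 0 + ∑ j ∈ Finset.range k, θ j * (x (j + 1) - x j) ≤ a := by
  have h2 := st1_elem_ge (fun j => - x j) θ hθ h1 hanti (-a) k fun j hj => neg_le_neg (ha j hj)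
  have h3 : ∑ j ∈ Finset.range k, θ j * (- x (j + 1) - - x j) =
      - ∑ j ∈ Finset.range k, θ j * (x (j + 1) - x j) := by
    rw [← Finset.sum_neg_distrib]
    exact Finset.sum_congr rfl fun j _ => by ring
  rw [h3] at h2
  linarith

lemma st1_eps {C' B t0 : ℝ} (hC' : 0 ≤ C') (hB : 0 ≤ B) (ht0 : 0 < t0) (ht1 : t0 ≤ 1)
    (q β : ℕ) (hβ : β = 2 * q + 20) (j : ℕ) :
    C' * B * (2 ^ j * tk t0 β j ^ (1 / 8 : ℝ) + 4 ^ (j * q) * tk t0 β j) ≤
      2 * (C' * B) * t0 ^ (1 / 8 : ℝ) * (1 / 2) ^ j := by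
  have h1 : (2 : ℝ) ^ j * tk t0 β j ^ (1 / 8 : ℝ) ≤ t0 ^ (1 / 8 : ℝ) * (1 / 2) ^ j := by
    unfold tk
    rw [Real.div_rpow ht0.le (by positivity)]
    have h2 : (4 : ℝ) ^ j ≤ ((2 : ℝ) ^ (β * j)) ^ (1 / 8 : ℝ) := by
      have h3 : (4 : ℝ) ^ j = ((((4 : ℝ) ^ j) ^ 8 : ℝ)) ^ (1 / 8 : ℝ) := by
        have := Real.pow_rpow_inv_natCast (x := (4 : ℝ) ^ j) (n := 8) (by positivity) (by norm_num)
        rw [show (1 / 8 : ℝ) = (((8 : ℕ) : ℝ))⁻¹ by norm_num, this]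
      rw [h3]
      apply Real.rpow_le_rpow (by positivity) _ (by norm_num)
      rw [← pow_mul, show (4 : ℝ) = 2 ^ 2 by norm_num, ← pow_mul]
      apply pow_le_pow_right₀ one_le_two
      rw [hβ]
      nlinarith
    have h4 : t0 ^ (1 / 8 : ℝ) / ((2 : ℝ) ^ (β * j)) ^ (1 / 8 : ℝ) ≤ t0 ^ (1 / 8 : ℝ) / 4 ^ j :=
      div_le_div_of_nonneg_left (Real.rpow_nonneg ht0.le _) (by positivity) h2
    calc (2 : ℝ) ^ j * (t0 ^ (1 / 8 : ℝ) / ((2 : ℝ) ^ (β * j)) ^ (1 / 8 : ℝ))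
        ≤ 2 ^ j * (t0 ^ (1 / 8 : ℝ) / 4 ^ j) := mul_le_mul_of_nonneg_left h4 (by positivity)
      _ = t0 ^ (1 / 8 : ℝ) * (1 / 2) ^ j := by
        rw [show (4 : ℝ) = 2 * 2 by norm_num, mul_pow, div_pow, one_pow]
        field_simp
  have h2 : (4 : ℝ) ^ (j * q) * tk t0 β j ≤ t0 ^ (1 / 8 : ℝ) * (1 / 2) ^ j := by
    have h3 : t0 ≤ t0 ^ (1 / 8 : ℝ) := by
      have := Real.rpow_le_rpow_of_exponent_ge ht0 ht1 (by norm_num : (1 / 8 : ℝ) ≤ 1)
      rwa [Real.rpow_one] at this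
    have h4 : (4 : ℝ) ^ (j * q) * tk t0 β j = t0 * (1 / 2) ^ (20 * j) := by
      unfold tk
      have h5 : (2 : ℝ) ^ (β * j) = 4 ^ (j * q) * 2 ^ (20 * j) := by
        rw [show (4 : ℝ) = 2 ^ 2 by norm_num, ← pow_mul, ← pow_add, hβ]
        congr 1; ring
      rw [h5, one_div, inv_pow]
      field_simp
    rw [h4]
    have h6 : ((1 : ℝ) / 2) ^ (20 * j) ≤ (1 / 2) ^ j :=
      pow_le_pow_of_le_one (by norm_num) (by norm_num) (by omega)
    exact mul_le_mul h3 h6 (by positivity) (Real.rpow_nonneg ht0.le _)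
  have h3 : 0 ≤ C' * B := mul_nonneg hC' hB
  calc C' * B * (2 ^ j * tk t0 β j ^ (1 / 8 : ℝ) + 4 ^ (j * q) * tk t0 β j)
      ≤ C' * B * (t0 ^ (1 / 8 : ℝ) * (1 / 2) ^ j + t0 ^ (1 / 8 : ℝ) * (1 / 2) ^ j) :=
        mul_le_mul_of_nonneg_left (add_le_add h1 h2) h3
    _ = 2 * (C' * B) * t0 ^ (1 / 8 : ℝ) * (1 / 2) ^ j := by ring

/-- the sum of the errors -/
lemma st1_eps_sum {C' B t0 ε : ℝ} (hC' : 0 ≤ C') (hB : 0 ≤ B) (ht0 : 0 < t0) (ht1 : t0 ≤ 1)
    (hε : 0 < ε) (htε : t0 ≤ (ε / (4 * (C' * B) + 1)) ^ 8) (q β : ℕ) (hβ : β = 2 * q + 20)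
    (k : ℕ) (s : Finset ℕ) (hs : s ⊆ Finset.range k) :
    ∑ j ∈ s, C' * B * (2 ^ j * tk t0 β j ^ (1 / 8 : ℝ) + 4 ^ (j * q) * tk t0 β j) ≤ ε := by
  have h3 : 0 ≤ C' * B := mul_nonneg hC' hB
  have hδ : 0 < ε / (4 * (C' * B) + 1) := by positivity
  have h1 : t0 ^ (1 / 8 : ℝ) ≤ ε / (4 * (C' * B) + 1) := by
    have h2 := Real.rpow_le_rpow ht0.le htε (by norm_num : (0 : ℝ) ≤ 1 / 8)
    have h4 := Real.pow_rpow_inv_natCast (x := ε / (4 * (C' * B) + 1)) (n := 8) hδ.le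
      (by norm_num)
    rw [show (((8 : ℕ) : ℝ))⁻¹ = 1 / 8 by norm_num] at h4
    rwa [h4] at h2
  have h2 : ∀ j, 0 ≤ C' * B * (2 ^ j * tk t0 β j ^ (1 / 8 : ℝ) + 4 ^ (j * q) * tk t0 β j) := by
    intro j
    have := st1_tk_pos ht0 β j
    have := Real.rpow_nonneg this.le (1 / 8 : ℝ)
    positivity
  have h0 : 0 ≤ t0 ^ (1 / 8 : ℝ) := Real.rpow_nonneg ht0.le _
  calc ∑ j ∈ s, C' * B * (2 ^ j * tk t0 β j ^ (1 / 8 : ℝ) + 4 ^ (j * q) * tk t0 β j)
      ≤ ∑ j ∈ Finset.range k,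
          C' * B * (2 ^ j * tk t0 β j ^ (1 / 8 : ℝ) + 4 ^ (j * q) * tk t0 β j) :=
        Finset.sum_le_sum_of_subset_of_nonneg hs fun j _ _ => h2 j
    _ ≤ ∑ j ∈ Finset.range k, 2 * (C' * B) * t0 ^ (1 / 8 : ℝ) * (1 / 2) ^ j :=
        Finset.sum_le_sum fun j _ => st1_eps hC' hB ht0 ht1 q β hβ j
    _ = 2 * (C' * B) * t0 ^ (1 / 8 : ℝ) * ∑ j ∈ Finset.range k, (1 / 2) ^ j := by
        rw [Finset.mul_sum]
    _ ≤ 2 * (C' * B) * t0 ^ (1 / 8 : ℝ) * 2 :=
        mul_le_mul_of_nonneg_left (sum_geometric_two_le k) (by positivity)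
    _ ≤ (4 * (C' * B) + 1) * (ε / (4 * (C' * B) + 1)) := by
        have := mul_le_mul_of_nonneg_left h1 (by positivity : 0 ≤ 4 * (C' * B))
        have h5 : 0 ≤ ε / (4 * (C' * B) + 1) := hδ.le
        nlinarith
    _ = ε := by field_simp

/-- TARGET. PROOF. t_k = tk t0 beta k, g_k = g t_k, eta_k = Complex.log g_{k+1} - Complex.log g_k, P_k = PP K1 p R1 r t_{k+1} (th F k) eta_k,
 L_k = Complex.log g_0 + sum_{j<k} P_j (Finset.range k). t0<=t1<=1 small.
(0) eta_j is holomorphic on U={|z-p|<R0, r<2 t_{j+1}} (Re g>=1 keeps principal log holomorphic). Fam.lip with t'=t_{j+1}, t=t_j, and s+t_{j+1} >= 2^{-beta}(s+t_j), s=t_{j+1}-r: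
 |eta_j| (s+t_j) <= 2^beta A0 t_j on {|z-p|<R0, r<t_{j+1}}. So `patch` (with A:=0, needs 1<=M) applies with B = 2^beta A0 max(1,S^{1/4}), S an upper bound for s+t_j on closedBall p R1, t0<=1.
 Let C',t1' be its constants, eps_j = C' B (2^j t_j^{1/8} + 4^{j(M+n+1)} t_j) <= 2 C' B t0^{1/8} 2^{-j} (t0<=1, beta/8 >= 2, beta >= 2(M+n+1)+1), so sum_j eps_j <= 4 C' B t0^{1/8} <= eps for t0 small.
(1) On {|z-p|<R2, r<t_k}: |L_k - m_k| <= eps with m_k = log g_0 + sum_{j<k} theta_j(log g_{j+1} - log g_j), theta_j = th F j z in [0,1] decreasing in j.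
 Elementary lemma: x_j real, 1>=theta_0>=theta_1>=...>=0, a<=x_j for j<=k  ==>  a <= x_0+sum_{j<k} theta_j(x_{j+1}-x_j) (induction: m_k - a >= theta_{k-1}(x_k - a)); same with -x. Apply to x_j = Re, Im of log g_j z:
 Re log g_j = log|g_j| >= 0, |Im log g_j| <= pi/2, Re log g_j <= log(A3 t_k^{-A}) type bound: |g_j z| <= A3 ((t_j-r)+t_j)^{-A} <= A3 t_k^{-A} for r<t_k<=t_j. This gives im, re, up (t_k^{-A} = t0^{-A} 2^{beta k A}; if A3 t_k^{-A}<1 impossible as |g|>=1).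
 near: if d(z)<=2^{-k} then theta_j = 1 for j<k (2^j d <= 1/2), so m_k telescopes to log g_k.
 hol: log g_0 holomorphic, P_j holomorphic on {|z-p|<R2, r<t_{j+1}} (patch (a)), t_k<=t_{j+1}.
(2) W_l, l<k: L_k = L_{l+1} + sum_{l+1<=j<k} P_j ; on W_l: L_{l+1} is holomorphic (W_l subset {r<t_{l+1}}) with the bound `up` for l+1, and P_j (j>l) is holomorphic with |P_j|<=eps_j by patch (c). So holW and
 exp(Re L_k) <= e^{eps} Cm0 2^{m(l+1)}; choose the final Cm, m to cover both up and bdW. -/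
theorem step1 {p : Cn n} {R0 R1 R2 : ℝ} (h2 : 0 < R2) (h1 : R2 < R1) (h0 : R1 < R0)
    {r : Cn n → ℝ} (hr : Continuous r) {τ0 c1 C : ℝ} (hτ0 : 0 < τ0) (hc1 : 0 < c1) (hC : 0 ≤ C)
    {M A : ℕ} (hA : 1 ≤ A) (hM : A + 1 ≤ M) {K1 : ℝ → Cn n → Cn n → ℂ}
    (hK1 : KPack p R1 R2 r τ0 c1 C M K1) {ts A0 A3 : ℝ} (hts : 0 < ts) (hA0 : 0 ≤ A0)
    (hA3 : 0 ≤ A3) {g : ℝ → Cn n → ℂ} (hg : Fam p R0 r ts A A0 A3 g) {F : Set (Cn n)}
    (hF : F.Nonempty) (β : ℕ) (hβ : β = 2 * (M + n + 1) + 20) (ε : ℝ) (hε : 0 < ε) :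
    ∃ t1 : ℝ, 0 < t1 ∧ t1 ≤ τ0 ∧ t1 < ts ∧ ∀ t0, 0 < t0 → t0 ≤ t1 →
      ∃ (L : ℕ → Cn n → ℂ) (Cm : ℝ) (m : ℕ), 0 ≤ Cm ∧ LSeq p R2 r F g t0 β ε L Cm m := by
  obtain ⟨C', t1', hC', ht1', ht1τ, hpatch⟩ :=
    patch hK1 h2 h1 hr hτ0 hc1 hC F hF 0 (by omega) β (by omega)
  obtain ⟨S', hS'⟩ := (isCompact_closedBall p R1).exists_bound_of_continuousOn hr.continuousOn
  set S : ℝ := max S' 0 + 2 with hS
  have hSpos : 0 < S := by positivity
  set B : ℝ := 2 ^ β * A0 * max 1 (S ^ (1 / 4 : ℝ)) with hB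
  have hmax : 0 ≤ max 1 (S ^ (1 / 4 : ℝ)) := le_trans zero_le_one (le_max_left _ _)
  have hB0 : 0 ≤ B := by positivity
  have hCB : 0 ≤ C' * B := mul_nonneg hC' hB0
  set δ : ℝ := ε / (4 * (C' * B) + 1) with hδ
  have hδ0 : 0 < δ := by positivity
  refine ⟨min (min t1' (ts / 2)) (min 1 (δ ^ 8)), by positivity, ?_, ?_, ?_⟩
  · exact (min_le_left _ _).trans ((min_le_left _ _).trans ht1τ)
  · exact lt_of_le_of_lt ((min_le_left _ _).trans (min_le_right _ _)) (by linarith)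
  intro t0 ht0 ht0'
  have a1 : t0 ≤ t1' := ht0'.trans ((min_le_left _ _).trans (min_le_left _ _))
  have a2 : t0 < ts := lt_of_le_of_lt (ht0'.trans ((min_le_left _ _).trans (min_le_right _ _)))
    (by linarith)
  have a3 : t0 ≤ 1 := ht0'.trans ((min_le_right _ _).trans (min_le_left _ _))
  have a4 : t0 ≤ δ ^ 8 := ht0'.trans ((min_le_right _ _).trans (min_le_right _ _))
  set T : ℕ → ℝ := tk t0 β with hT
  have hTpos : ∀ j, 0 < T j := fun j => st1_tk_pos ht0 β j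
  have hT0 : T 0 = t0 := st1_tk_zero t0 β
  have hTanti : ∀ {j k : ℕ}, j ≤ k → T k ≤ T j := fun h => st1_tk_anti ht0 β h
  have hTle : ∀ j, T j ≤ t0 := fun j => (hTanti (Nat.zero_le j)).trans_eq hT0
  have hTI : ∀ j, T j ∈ Ioo 0 ts := fun j => ⟨hTpos j, (hTle j).trans_lt a2⟩
  have hTsucc : ∀ j, T j = 2 ^ β * T (j + 1) := fun j => st1_tk_succ t0 β j
  -- the logarithms
  have hlog : ∀ j, DifferentiableOn ℂ (fun z => Complex.log (g (T j) z))
      {z | ‖z - p‖ < R0 ∧ r z < 2 * T j} := by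
    intro j z hz
    have hd := hg.hol (T j) (hTI j) z hz
    have hre := hg.re1 (T j) (hTI j) z hz.1 hz.2
    exact hd.clog (Or.inl (by linarith))
  set η : ℕ → Cn n → ℂ := fun j z => Complex.log (g (T (j + 1)) z) - Complex.log (g (T j) z)
    with hη
  have hTs : ∀ j, T (j + 1) ≤ T j := fun j => hTanti (Nat.le_succ j)
  have hηhol : ∀ j, DifferentiableOn ℂ (η j) {z | ‖z - p‖ < R0 ∧ r z < 2 * T (j + 1)} := by
    intro j
    refine (hlog (j + 1)).sub ((hlog j).mono ?_)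
    rintro z ⟨hz1, hz2⟩
    exact ⟨hz1, hz2.trans_le (by linarith [hTs j])⟩
  -- bound of the differences of logarithms
  have hηb : ∀ j z, ‖z - p‖ < R0 → r z < T (j + 1) →
      ‖η j z‖ * ((T (j + 1) - r z) + T j) ≤ 2 ^ β * A0 * T j := by
    intro j z hz1 hz2
    have hl := hg.lip (T (j + 1)) (T j) (hTpos _) (hTs j) (hTI j).2 z hz1 hz2
    have hs : 0 < T (j + 1) - r z := by linarith
    have hden : 0 < (T (j + 1) - r z) + T (j + 1) := by linarith [hTpos (j + 1)]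
    have h2β : (1 : ℝ) ≤ 2 ^ β := one_le_pow₀ one_le_two
    have h3 : (T (j + 1) - r z) + T j ≤ 2 ^ β * ((T (j + 1) - r z) + T (j + 1)) := by
      rw [mul_add, ← hTsucc j]
      have := mul_le_mul_of_nonneg_right h2β hs.le
      linarith
    calc ‖η j z‖ * ((T (j + 1) - r z) + T j)
        ≤ A0 * T j / ((T (j + 1) - r z) + T (j + 1)) *
            (2 ^ β * ((T (j + 1) - r z) + T (j + 1))) :=
          mul_le_mul hl h3 (by linarith [hTpos j]) (by have := hTpos j; positivity)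
      _ = 2 ^ β * A0 * T j := by field_simp
  have hR01 : ∀ z : Cn n, ‖z - p‖ ≤ R1 → ‖z - p‖ < R0 := fun z hz => hz.trans_lt h0
  have hP := fun j : ℕ => hpatch t0 ht0 a1 j (η j) {z | ‖z - p‖ < R0 ∧ r z < 2 * T (j + 1)} B hB0
    ((isOpen_lt (by fun_prop : Continuous fun z : Cn n => ‖z - p‖) continuous_const).inter
      (isOpen_lt hr continuous_const))
    (by
      rintro z ⟨hz1, hz2⟩
      have hz2' : r z ≤ T (j + 1) := hz2
      exact ⟨hR01 z hz1, by linarith [hTpos (j + 1)]⟩)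
    (hηhol j)
    (by
      rintro z ⟨hz1, hz2⟩
      rw [zero_add, pow_one]
      refine (hηb j z (hR01 z hz1.le) hz2).trans ?_
      refine mul_le_mul_of_nonneg_right ?_ (hTpos j).le
      rw [hB]
      exact le_mul_of_one_le_right (by positivity) (le_max_left _ _))
    (by
      rintro z ⟨hz1, hz2⟩ _
      have hz2' : r z < T (j + 1) := hz2
      have hpos : 0 < (T (j + 1) - r z) + T j := by linarith [hTpos j]
      have hle : (T (j + 1) - r z) + T j ≤ S := by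
        have hb := hS' z (by rw [mem_closedBall, dist_eq_norm]; exact hz1.le)
        have hb' := (neg_abs_le (r z))
        rw [Real.norm_eq_abs] at hb
        have := le_max_left S' 0
        have := hTle j
        have := hTle (j + 1)
        rw [hS]
        linarith
      have h5 : ((T (j + 1) - r z) + T j) ^ (5 / 4 : ℝ) =
          ((T (j + 1) - r z) + T j) * ((T (j + 1) - r z) + T j) ^ (1 / 4 : ℝ) := by
        rw [show (5 / 4 : ℝ) = 1 + 1 / 4 by norm_num, Real.rpow_add hpos, Real.rpow_one]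
      show ‖η j z‖ * ((T (j + 1) - r z) + T j) ^ (5 / 4 : ℝ) ≤ B * T j
      rw [h5, ← mul_assoc]
      have h6 : ((T (j + 1) - r z) + T j) ^ (1 / 4 : ℝ) ≤ max 1 (S ^ (1 / 4 : ℝ)) :=
        (Real.rpow_le_rpow hpos.le hle (by norm_num)).trans (le_max_right _ _)
      calc ‖η j z‖ * ((T (j + 1) - r z) + T j) * ((T (j + 1) - r z) + T j) ^ (1 / 4 : ℝ)
          ≤ 2 ^ β * A0 * T j * max 1 (S ^ (1 / 4 : ℝ)) :=
            mul_le_mul (hηb j z (hR01 z hz1.le) hz2) h6 (Real.rpow_nonneg hpos.le _)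
              (by have := hTpos j; positivity)
        _ = B * T j := by rw [hB]; ring)
  set P : ℕ → Cn n → ℂ := fun j => PP K1 p R1 r (T (j + 1)) (th F j) (η j) with hPd
  set e : ℕ → ℝ := fun j => C' * B * (2 ^ j * T j ^ (1 / 8 : ℝ) + 4 ^ (j * (M + n + 1)) * T j)
    with he
  have hP1 : ∀ j, DifferentiableOn ℂ (P j) {z | ‖z - p‖ < R2 ∧ r z < T (j + 1)} :=
    fun j => (hP j).1
  have hP2 : ∀ j, ∀ z, ‖z - p‖ < R2 → r z < T (j + 1) → ‖P j z - (th F j z : ℂ) * η j z‖ ≤ e j :=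
    fun j z hz1 hz2 => (hP j).2.1 z (by rw [mem_ball, dist_eq_norm]; exact hz1) hz2
  have hP3 : ∀ l j, l < j → DifferentiableOn ℂ (P j) (Wl p R2 r F t0 β l) ∧
      ∀ z ∈ Wl p R2 r F t0 β l, ‖P j z‖ ≤ e j := by
    intro l j hlj
    obtain ⟨b1, b2⟩ := (hP j).2.2 l hlj
    exact ⟨b1, fun z hz => b2 z hz.1 hz.2.1 hz.2.2⟩
  have hesum : ∀ (k : ℕ) (s : Finset ℕ), s ⊆ Finset.range k → ∑ j ∈ s, e j ≤ ε := by
    intro k s hs
    exact st1_eps_sum hC' hB0 ht0 a3 hε a4 (M + n + 1) β hβ k s hs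
  set L : ℕ → Cn n → ℂ := fun k z => Complex.log (g (T 0) z) + ∑ j ∈ Finset.range k, P j z with hL
  set mm : ℕ → Cn n → ℂ := fun k z => Complex.log (g (T 0) z) +
    ∑ j ∈ Finset.range k, (th F j z : ℂ) * η j z with hmm
  -- facts on the cut-off functions
  have hth0 : ∀ j z, 0 ≤ th F j z := fun j z => st1_lam_nonneg _
  have hth1 : ∀ j z, th F j z ≤ 1 := fun j z => st1_lam_le_one _
  have hthanti : ∀ j z, th F (j + 1) z ≤ th F j z := by
    intro j z
    apply st1_lam_anti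
    have := infDist_nonneg (x := z) (s := F)
    have h3 : (2 : ℝ) ^ j ≤ 2 ^ (j + 1) := pow_le_pow_right₀ one_le_two (Nat.le_succ j)
    exact mul_le_mul_of_nonneg_right h3 this
  have hLm : ∀ k z, ‖z - p‖ < R2 → r z < T k → ‖L k z - mm k z‖ ≤ ε := by
    intro k z hz1 hz2
    have h3 : L k z - mm k z = ∑ j ∈ Finset.range k, (P j z - (th F j z : ℂ) * η j z) := by
      rw [Finset.sum_sub_distrib, hL, hmm]; ring
    rw [h3]
    refine (norm_sum_le _ _).trans (le_trans (Finset.sum_le_sum fun j hj => ?_)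
      (hesum k (Finset.range k) subset_rfl))
    rw [Finset.mem_range] at hj
    exact hP2 j z hz1 (hz2.trans_le (hTanti (by omega)))
  -- pointwise facts on the logarithms
  have hR2R0 : ∀ z : Cn n, ‖z - p‖ < R2 → ‖z - p‖ < R0 := fun z hz => by linarith
  have hge1 : ∀ k z, ‖z - p‖ < R2 → r z < T k → ∀ j ≤ k, 1 ≤ (g (T j) z).re := by
    intro k z hz1 hz2 j hj
    exact hg.re1 (T j) (hTI j) z (hR2R0 z hz1)
      (by have := hTanti hj; have := hTpos j; linarith)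
  have hnorm1 : ∀ k z, ‖z - p‖ < R2 → r z < T k → ∀ j ≤ k, 1 ≤ ‖g (T j) z‖ := by
    intro k z hz1 hz2 j hj
    exact (hge1 k z hz1 hz2 j hj).trans (Complex.re_le_norm _)
  have hmre : ∀ k z, (mm k z).re = (Complex.log (g (T 0) z)).re +
      ∑ j ∈ Finset.range k, th F j z * ((Complex.log (g (T (j + 1)) z)).re -
        (Complex.log (g (T j) z)).re) := by
    intro k z
    rw [hmm]
    simp only [Complex.add_re, Complex.re_sum, Complex.re_ofReal_mul, hη, Complex.sub_re]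
  have hmim : ∀ k z, (mm k z).im = (Complex.log (g (T 0) z)).im +
      ∑ j ∈ Finset.range k, th F j z * ((Complex.log (g (T (j + 1)) z)).im -
        (Complex.log (g (T j) z)).im) := by
    intro k z
    rw [hmm]
    simp only [Complex.add_im, Complex.im_sum, Complex.im_ofReal_mul, hη, Complex.sub_im]
  have hmre0 : ∀ k z, ‖z - p‖ < R2 → r z < T k → 0 ≤ (mm k z).re := by
    intro k z hz1 hz2
    rw [hmre]
    refine st1_elem_ge (fun j => (Complex.log (g (T j) z)).re) (fun j => th F j z)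
      (fun j => hth0 j z) (fun j => hth1 j z) (fun j => hthanti j z) 0 k fun j hj => ?_
    simp only [Complex.log_re]
    exact Real.log_nonneg (hnorm1 k z hz1 hz2 j hj)
  have hmim1 : ∀ k z, ‖z - p‖ < R2 → r z < T k → |(mm k z).im| ≤ Real.pi / 2 := by
    intro k z hz1 hz2
    have harg : ∀ j ≤ k, |(Complex.log (g (T j) z)).im| ≤ Real.pi / 2 := by
      intro j hj
      rw [Complex.log_im, Complex.abs_arg_le_pi_div_two_iff]
      linarith [hge1 k z hz1 hz2 j hj]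
    rw [abs_le, hmim]
    constructor
    · exact st1_elem_ge (fun j => (Complex.log (g (T j) z)).im) (fun j => th F j z)
        (fun j => hth0 j z) (fun j => hth1 j z) (fun j => hthanti j z) _ k
        fun j hj => (abs_le.1 (harg j hj)).1
    · exact st1_elem_le (fun j => (Complex.log (g (T j) z)).im) (fun j => th F j z)
        (fun j => hth0 j z) (fun j => hth1 j z) (fun j => hthanti j z) _ k
        fun j hj => (abs_le.1 (harg j hj)).2
  have hmexp : ∀ k z, ‖z - p‖ < R2 → r z < T k →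
      Real.exp ((mm k z).re) ≤ A3 * (T k) ^ (-(A : ℝ)) := by
    intro k z hz1 hz2
    have hgr : ∀ j ≤ k, ‖g (T j) z‖ ≤ A3 * (T k) ^ (-(A : ℝ)) := by
      intro j hj
      have h3 : r z < T j := hz2.trans_le (hTanti hj)
      refine (hg.grow (T j) (hTI j) z (hR2R0 z hz1) h3).trans ?_
      refine mul_le_mul_of_nonneg_left ?_ hA3
      apply Real.rpow_le_rpow_of_nonpos (hTpos k) _ (by simp)
      linarith [hTanti hj]
    have hpos : 0 < A3 * (T k) ^ (-(A : ℝ)) :=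
      lt_of_lt_of_le (by linarith [hnorm1 k z hz1 hz2 k le_rfl]) (hgr k le_rfl)
    rw [← Real.le_log_iff_exp_le hpos, hmre]
    refine st1_elem_le (fun j => (Complex.log (g (T j) z)).re) (fun j => th F j z)
      (fun j => hth0 j z) (fun j => hth1 j z) (fun j => hthanti j z) _ k fun j hj => ?_
    simp only [Complex.log_re]
    exact Real.log_le_log (by linarith [hnorm1 k z hz1 hz2 j hj]) (hgr j hj)
  have hTk : ∀ k, (T k) ^ (-(A : ℝ)) = t0 ^ (-(A : ℝ)) * 2 ^ (β * A * k) := by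
    intro k
    rw [Real.rpow_neg (hTpos k).le, Real.rpow_neg ht0.le, Real.rpow_natCast, Real.rpow_natCast,
      hT, tk, div_pow, ← pow_mul, inv_div, show β * k * A = β * A * k by ring]
    field_simp
  set Cm0 : ℝ := Real.exp ε * A3 * t0 ^ (-(A : ℝ)) with hCm0
  have hCm00 : 0 ≤ Cm0 := by
    have := Real.rpow_nonneg ht0.le (-(A : ℝ))
    positivity
  have hLexp : ∀ k z, ‖z - p‖ < R2 → r z < T k →
      Real.exp ((L k z).re) ≤ Cm0 * 2 ^ (β * A * k) := by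
    intro k z hz1 hz2
    have h3 : (L k z).re ≤ ε + (mm k z).re := by
      have := (Complex.re_le_norm (L k z - mm k z)).trans (hLm k z hz1 hz2)
      rw [Complex.sub_re] at this
      linarith
    calc Real.exp ((L k z).re) ≤ Real.exp (ε + (mm k z).re) := Real.exp_le_exp.2 h3
      _ = Real.exp ε * Real.exp ((mm k z).re) := Real.exp_add _ _
      _ ≤ Real.exp ε * (A3 * (T k) ^ (-(A : ℝ))) :=
        mul_le_mul_of_nonneg_left (hmexp k z hz1 hz2) (Real.exp_pos _).le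
      _ = Cm0 * 2 ^ (β * A * k) := by rw [hTk, hCm0]; ring
  have hLhol : ∀ k, DifferentiableOn ℂ (L k) {z | ‖z - p‖ < R2 ∧ r z < T k} := by
    intro k
    have h3 : DifferentiableOn ℂ (fun z => ∑ j ∈ Finset.range k, P j z)
        {z | ‖z - p‖ < R2 ∧ r z < T k} := by
      apply DifferentiableOn.fun_sum
      intro j hj
      rw [Finset.mem_range] at hj
      refine (hP1 j).mono ?_
      rintro z ⟨hz1, hz2⟩
      exact ⟨hz1, hz2.trans_le (hTanti (by omega))⟩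
    refine ((hlog 0).mono ?_).add h3
    rintro z ⟨hz1, hz2⟩
    exact ⟨hR2R0 z hz1, by
      have := hTanti (Nat.zero_le k)
      have := hTpos 0
      linarith⟩
  have hWl : ∀ l, Wl p R2 r F t0 β l ⊆ {z | ‖z - p‖ < R2 ∧ r z < T (l + 1)} :=
    fun l z hz => ⟨hz.1, hz.2.1⟩
  have hsplit : ∀ l k, l < k → ∀ z, L k z = L (l + 1) z + ∑ j ∈ Finset.Ico (l + 1) k, P j z := by
    intro l k hlk z
    rw [hL]
    simp only
    rw [add_assoc, Finset.sum_range_add_sum_Ico _ (by omega : l + 1 ≤ k)]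
  refine ⟨L, Real.exp ε * Cm0 * 2 ^ (β * A), β * A, by positivity, ?_⟩
  have hCmle : Cm0 ≤ Real.exp ε * Cm0 * 2 ^ (β * A) := by
    have h3 : 1 ≤ Real.exp ε := Real.one_le_exp hε.le
    have h4 : (1 : ℝ) ≤ 2 ^ (β * A) := one_le_pow₀ one_le_two
    calc Cm0 = 1 * Cm0 * 1 := by ring
      _ ≤ Real.exp ε * Cm0 * 2 ^ (β * A) :=
        mul_le_mul (mul_le_mul_of_nonneg_right h3 hCm00) h4 zero_le_one (by positivity)
  refine ⟨hLhol, ?_, ?_, ?_, ?_, ?_, ?_⟩
  · intro k z hz1 hz2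
    have h3 := hmim1 k z hz1 hz2
    have h4 := (Complex.abs_im_le_norm (L k z - mm k z)).trans (hLm k z hz1 hz2)
    rw [Complex.sub_im] at h4
    rw [abs_le] at h3 h4 ⊢
    constructor <;> linarith [h3.1, h3.2, h4.1, h4.2]
  · intro k z hz1 hz2
    have h3 := hmre0 k z hz1 hz2
    have h4 := (Complex.abs_re_le_norm (L k z - mm k z)).trans (hLm k z hz1 hz2)
    rw [Complex.sub_re, abs_le] at h4
    linarith [h4.1]
  · intro k z hz1 hz2
    exact (hLexp k z hz1 hz2).trans (mul_le_mul_of_nonneg_right hCmle (by positivity))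
  · intro k z hz1 hz2 hd
    have h3 : mm k z = Complex.log (g (T k) z) := by
      have h4 : ∀ j < k, th F j z = 1 := by
        intro j hj
        apply st1_lam_one
        have h5 : (2 : ℝ) ^ j * infDist z F ≤ 2 ^ j * (1 / 2) ^ k :=
          mul_le_mul_of_nonneg_left hd (by positivity)
        refine h5.trans ?_
        have h6 : ((1 : ℝ) / 2) ^ k ≤ (1 / 2) ^ (j + 1) :=
          pow_le_pow_of_le_one (by norm_num) (by norm_num) (by omega)
        have h7 : (2 : ℝ) ^ j * (1 / 2) ^ (j + 1) = 1 / 2 := by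
          rw [pow_succ, ← mul_assoc, ← mul_pow]; norm_num
        calc (2 : ℝ) ^ j * (1 / 2) ^ k ≤ 2 ^ j * (1 / 2) ^ (j + 1) :=
              mul_le_mul_of_nonneg_left h6 (by positivity)
          _ = 1 / 2 := h7
      have h5 : ∑ j ∈ Finset.range k, (th F j z : ℂ) * η j z =
          ∑ j ∈ Finset.range k, (Complex.log (g (T (j + 1)) z) - Complex.log (g (T j) z)) := by
        refine Finset.sum_congr rfl fun j hj => ?_
        rw [h4 j (Finset.mem_range.1 hj), Complex.ofReal_one, one_mul]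
      rw [hmm]
      simp only
      rw [h5, Finset.sum_range_sub (fun j => Complex.log (g (T j) z))]
      ring
    have h4 := hLm k z hz1 hz2
    rw [h3] at h4
    exact h4
  · intro l k hlk
    have h3 : DifferentiableOn ℂ (fun z => L (l + 1) z + ∑ j ∈ Finset.Ico (l + 1) k, P j z)
        (Wl p R2 r F t0 β l) := by
      refine ((hLhol (l + 1)).mono (hWl l)).add ?_
      apply DifferentiableOn.fun_sum
      intro j hj
      rw [Finset.mem_Ico] at hj
      exact (hP3 l j (by omega)).1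
    exact h3.congr fun z _ => hsplit l k hlk z
  · intro l k hlk z hz
    have h3 : ‖∑ j ∈ Finset.Ico (l + 1) k, P j z‖ ≤ ε := by
      refine (norm_sum_le _ _).trans (le_trans (Finset.sum_le_sum fun j hj => ?_)
        (hesum k (Finset.Ico (l + 1) k) ?_))
      · rw [Finset.mem_Ico] at hj
        exact (hP3 l j (by omega)).2 z hz
      · intro j hj
        rw [Finset.mem_Ico] at hj
        exact Finset.mem_range.2 hj.2
    have h4 : (L k z).re ≤ ε + (L (l + 1) z).re := by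
      rw [hsplit l k hlk z, Complex.add_re]
      have := (Complex.re_le_norm (∑ j ∈ Finset.Ico (l + 1) k, P j z)).trans h3
      linarith
    have h5 := hLexp (l + 1) z (hWl l hz).1 (hWl l hz).2
    calc Real.exp ((L k z).re) ≤ Real.exp (ε + (L (l + 1) z).re) := Real.exp_le_exp.2 h4
      _ = Real.exp ε * Real.exp ((L (l + 1) z).re) := Real.exp_add _ _
      _ ≤ Real.exp ε * (Cm0 * 2 ^ (β * A * (l + 1))) :=
        mul_le_mul_of_nonneg_left h5 (Real.exp_pos _).le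
      _ = Real.exp ε * Cm0 * 2 ^ (β * A) * 2 ^ (β * A * l) := by
        rw [mul_add, mul_one, pow_add]; ring

end Pool.Agent.Helper123
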