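import Mathlib
import Pool.Agent.Helper123.Patch
import Pool.Agent.H805R2.Base
import Pool.Agent.Helper123.Defs2

set_option autoImplicit false

open MeasureTheory Metric Set Filter Topology
open scoped ENNReal NNReal ContDiff ComplexConjugate

namespace Pool.Agent.Helper123

open Pool.Agent.H805R2

variable {n : ℕ}

theorem st2_tk_pos {t0 : ℝ} (h : 0 < t0) (β k : ℕ) : 0 < tk t0 β k := by
  unfold tk; positivity

theorem st2_tk_succ (t0 : ℝ) (β k : ℕ) : tk t0 β (k + 1) = tk t0 β k / 2 ^ β := by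
  unfold tk
  rw [div_div, ← pow_add]
  congr 2

theorem st2_tk_lt {t0 : ℝ} (h : 0 < t0) {β : ℕ} (hβ : 1 ≤ β) (k : ℕ) :
    tk t0 β (k + 1) < tk t0 β k := by
  rw [st2_tk_succ]
  apply div_lt_self (st2_tk_pos h β k)
  exact one_lt_pow₀ (by norm_num) (by omega)

theorem st2_tk_le {t0 : ℝ} (h : 0 < t0) (β k : ℕ) : tk t0 β (k + 1) ≤ tk t0 β k := by
  rw [st2_tk_succ]
  apply div_le_self (st2_tk_pos h β k).le
  exact one_le_pow₀ (by norm_num)

theorem st2_tk_le0 {t0 : ℝ} (h : 0 < t0) (β k : ℕ) : tk t0 β k ≤ t0 := by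
  unfold tk
  apply div_le_self h.le
  exact one_le_pow₀ (by norm_num)

theorem st2_exp (η : ℂ) : ‖Complex.exp η - 1‖ ≤ ‖η‖ * Real.exp ‖η‖ := by
  have := Complex.norm_exp_sub_sum_le_norm_mul_exp η 1
  simpa using this

theorem st2_eta {p : Cn n} {R0 : ℝ} {r : Cn n → ℝ} {ts A A0 A3 : ℝ} {g : ℝ → Cn n → ℂ}
    (hg : Fam p R0 r ts A A0 A3 g) (hA0 : 0 ≤ A0) {t0 : ℝ} (ht0 : 0 < t0) (ht : t0 < ts)
    (β k : ℕ) (z : Cn n) (hz : ‖z - p‖ < R0) (hr : r z < tk t0 β (k + 1)) :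
    ∃ e : ℂ, g (tk t0 β (k + 1)) z - g (tk t0 β k) z = g (tk t0 β k) z * e ∧
      ‖e‖ ≤ Real.exp (2 ^ β * A0) * (2 ^ β * A0) *
        (tk t0 β k / ((tk t0 β (k + 1) - r z) + tk t0 β k)) := by
  have p1 := st2_tk_pos ht0 β k
  have p2 := st2_tk_pos ht0 β (k + 1)
  have l1 := st2_tk_le ht0 β k
  have l0 := st2_tk_le0 ht0 β k
  have hlip := hg.lip (tk t0 β (k + 1)) (tk t0 β k) p2 l1 (by linarith) z hz hr
  have hpow : (1 : ℝ) ≤ 2 ^ β := one_le_pow₀ (by norm_num)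
  have hs : 0 < tk t0 β (k + 1) - r z := by linarith
  set s := tk t0 β (k + 1) - r z with hsdef
  have hmul : tk t0 β k = 2 ^ β * tk t0 β (k + 1) := by
    rw [st2_tk_succ]; field_simp
  have hη : ‖Complex.log (g (tk t0 β (k + 1)) z) - Complex.log (g (tk t0 β k) z)‖ ≤
      (2 ^ β * A0) * (tk t0 β k / (s + tk t0 β k)) := by
    refine hlip.trans ?_
    rw [mul_div_assoc' , div_le_div_iff₀ (by positivity) (by positivity)]
    have : s + tk t0 β k ≤ 2 ^ β * (s + tk t0 β (k + 1)) := by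
      rw [mul_add, ← hmul]
      nlinarith
    calc A0 * tk t0 β k * (s + tk t0 β k)
        ≤ A0 * tk t0 β k * (2 ^ β * (s + tk t0 β (k + 1))) := by gcongr
      _ = 2 ^ β * A0 * tk t0 β k * (s + tk t0 β (k + 1)) := by ring
  set η := Complex.log (g (tk t0 β (k + 1)) z) - Complex.log (g (tk t0 β k) z) with hηdef
  have n1 : g (tk t0 β (k + 1)) z ≠ 0 := by
    intro h
    have := hg.re1 (tk t0 β (k + 1)) ⟨p2, by linarith⟩ z hz (by linarith)
    rw [h] at this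
    simp at this
    linarith
  have n2 : g (tk t0 β k) z ≠ 0 := by
    intro h
    have := hg.re1 (tk t0 β k) ⟨p1, by linarith⟩ z hz (by linarith)
    rw [h] at this
    simp at this
    linarith
  have hH : 0 ≤ 2 ^ β * A0 := by positivity
  have hfrac : tk t0 β k / (s + tk t0 β k) ≤ 1 := by
    rw [div_le_one (by positivity)]; linarith
  have hηH : ‖η‖ ≤ 2 ^ β * A0 := by
    refine hη.trans ?_
    exact mul_le_of_le_one_right hH hfrac
  refine ⟨Complex.exp η - 1, ?_, ?_⟩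
  · rw [hηdef, Complex.exp_sub, Complex.exp_log n1, Complex.exp_log n2]
    field_simp
  · refine (st2_exp η).trans ?_
    calc ‖η‖ * Real.exp ‖η‖
        ≤ ((2 ^ β * A0) * (tk t0 β k / (s + tk t0 β k))) * Real.exp (2 ^ β * A0) := by
          gcongr
      _ = _ := by ring

theorem st2_gk {p : Cn n} {R0 : ℝ} {r : Cn n → ℝ} {ts A A0 A3 : ℝ} {g : ℝ → Cn n → ℂ}
    (hg : Fam p R0 r ts A A0 A3 g) (hA : 0 ≤ A) (hA3 : 0 ≤ A3) {t0 : ℝ} (ht0 : 0 < t0) (ht : t0 < ts)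
    (β k : ℕ) (z : Cn n) (hz : ‖z - p‖ < R0) (hr : r z < tk t0 β (k + 1)) :
    ‖g (tk t0 β k) z‖ ≤ A3 * ((tk t0 β (k + 1) - r z) + tk t0 β k) ^ (-A) := by
  have p1 := st2_tk_pos ht0 β k
  have p2 := st2_tk_pos ht0 β (k + 1)
  have l1 := st2_tk_le ht0 β k
  have l0 := st2_tk_le0 ht0 β k
  refine (hg.grow (tk t0 β k) ⟨p1, by linarith⟩ z hz (by linarith)).trans ?_
  apply mul_le_mul_of_nonneg_left _ hA3
  apply Real.rpow_le_rpow_of_nonpos
  · linarith
  · linarith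
  · linarith

theorem st2_eps {t0 : ℝ} (h : 0 < t0) (h1 : t0 ≤ 1) (N β k : ℕ) (hβ : β = 2 * N + 20) :
    (2 : ℝ) ^ k * tk t0 β k ^ (1 / 8 : ℝ) + 4 ^ (k * N) * tk t0 β k ≤ 2 * (1 / 2) ^ k := by
  have hle : tk t0 β k ≤ 1 / 2 ^ (β * k) := by
    unfold tk
    gcongr
  have hle2 : tk t0 β k ≤ ((1 / 2 : ℝ) ^ (2 * k)) ^ 8 := by
    refine hle.trans ?_
    rw [← pow_mul, one_div_pow]
    apply one_div_le_one_div_of_le (by positivity)
    apply pow_le_pow_right₀ (by norm_num)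
    rw [hβ]
    nlinarith
  have hrp : tk t0 β k ^ (1 / 8 : ℝ) ≤ (1 / 2 : ℝ) ^ (2 * k) := by
    calc tk t0 β k ^ (1 / 8 : ℝ) ≤ (((1 / 2 : ℝ) ^ (2 * k)) ^ 8) ^ (1 / 8 : ℝ) := by
          apply Real.rpow_le_rpow (st2_tk_pos h β k).le hle2 (by norm_num)
      _ = (1 / 2 : ℝ) ^ (2 * k) := by
          rw [← Real.rpow_natCast (((1 / 2 : ℝ) ^ (2 * k))) 8, ← Real.rpow_mul (by positivity)]
          norm_num
  have a1 : (2 : ℝ) ^ k * tk t0 β k ^ (1 / 8 : ℝ) ≤ (1 / 2) ^ k := by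
    calc (2 : ℝ) ^ k * tk t0 β k ^ (1 / 8 : ℝ) ≤ 2 ^ k * (1 / 2 : ℝ) ^ (2 * k) := by gcongr
      _ = (1 / 2) ^ k := by
        rw [two_mul, pow_add, ← mul_assoc, ← mul_pow]
        norm_num
  have a2 : (4 : ℝ) ^ (k * N) * tk t0 β k ≤ (1 / 2) ^ k := by
    calc (4 : ℝ) ^ (k * N) * tk t0 β k ≤ 4 ^ (k * N) * (1 / 2 ^ (β * k)) := by gcongr
      _ = (1 / 2) ^ (20 * k) := by
        rw [hβ, one_div_pow]
        have : (2 * N + 20) * k = 2 * (k * N) + 20 * k := by ring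
        rw [this, pow_add, pow_mul 2 2]
        norm_num
        field_simp
      _ ≤ (1 / 2) ^ k := by
        apply pow_le_pow_of_le_one (by norm_num) (by norm_num)
        omega
  linarith

/-- the exponent `q` -/
noncomputable def st2q (A : ℕ) : ℝ := 1 - 1 / (4 * A)

theorem st2q_mem {A : ℕ} (hA : 1 ≤ A) : 0 ≤ st2q A ∧ st2q A ≤ 1 ∧ 0 < (A : ℝ) := by
  have h : (1 : ℝ) ≤ A := by exact_mod_cast hA
  unfold st2q
  refine ⟨?_, ?_, by linarith⟩
  · have : 1 / (4 * (A : ℝ)) ≤ 1 := by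
      rw [div_le_one (by linarith)]; linarith
    linarith
  · have : 0 ≤ 1 / (4 * (A : ℝ)) := by positivity
    linarith

theorem st2_Gre {A : ℕ} (hA : 1 ≤ A) {ε : ℝ} (hε' : ε ≤ 1 / (8 * A)) (hε : 0 < ε) (w : ℂ)
    (hw : |w.im| ≤ Real.pi / 2 + ε) :
    Real.sin (1 / (8 * A)) * ‖Complex.exp (st2q A * w)‖ ≤ (Complex.exp (st2q A * w)).re := by
  obtain ⟨q0, q1, hA'⟩ := st2q_mem hA
  rw [Complex.exp_re, Complex.norm_exp, mul_comm]
  apply mul_le_mul_of_nonneg_left _ (Real.exp_pos _).le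
  have him : ((st2q A : ℂ) * w).im = st2q A * w.im := by simp
  rw [him, ← Real.cos_abs, abs_mul, abs_of_nonneg q0, ← Real.cos_pi_div_two_sub]
  have hpi := Real.pi_gt_three
  have hA8 : (0 : ℝ) < 1 / (8 * A) := by positivity
  have hA1 : (1 : ℝ) ≤ A := by exact_mod_cast hA
  have hA8' : (1 : ℝ) / (8 * A) ≤ 1 := by
    rw [div_le_one (by positivity)]; linarith
  have hle : st2q A * |w.im| ≤ Real.pi / 2 - 1 / (8 * A) := by
    calc st2q A * |w.im| ≤ st2q A * (Real.pi / 2 + ε) := by gcongr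
      _ = st2q A * (Real.pi / 2) + st2q A * ε := by ring
      _ ≤ st2q A * (Real.pi / 2) + 1 * ε := by gcongr
      _ ≤ Real.pi / 2 - 1 / (8 * A) := by
        have e : st2q A * (Real.pi / 2) = Real.pi / 2 - Real.pi * (1 / (8 * A)) := by
          unfold st2q; field_simp
          ring
        rw [e]
        nlinarith
  apply Real.cos_le_cos_of_nonneg_of_le_pi
  · positivity
  · linarith
  · exact hle

theorem st2_Gnorm {A : ℕ} (hA : 1 ≤ A) (w : ℂ) :
    ‖Complex.exp (st2q A * w)‖ ≤ 1 + Real.exp w.re := by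
  obtain ⟨q0, q1, hA'⟩ := st2q_mem hA
  rw [Complex.norm_exp]
  have hre : ((st2q A : ℂ) * w).re = st2q A * w.re := by simp
  rw [hre]
  rcases le_total 0 w.re with h | h
  · have : Real.exp (st2q A * w.re) ≤ Real.exp w.re := by
      apply Real.exp_le_exp.mpr
      exact mul_le_of_le_one_left h q1
    linarith
  · have : Real.exp (st2q A * w.re) ≤ 1 := by
      rw [Real.exp_le_one_iff]
      exact mul_nonpos_of_nonneg_of_nonpos q0 h
    have := Real.exp_pos w.re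
    linarith


/-- the function `h_k` -/
noncomputable def st2h (A : ℕ) (g : ℝ → Cn n → ℂ) (t0 : ℝ) (β : ℕ) (L : ℕ → Cn n → ℂ) (k : ℕ)
    (z : Cn n) : ℂ :=
  Complex.exp (-(st2q A * L k z)) * (g (tk t0 β (k + 1)) z - g (tk t0 β k) z)

theorem st2_th (F : Set (Cn n)) (k : ℕ) (z : Cn n) : 0 ≤ th F k z ∧ th F k z ≤ 1 := by
  unfold th lam
  exact ⟨le_max_left _ _, max_le (by norm_num) (min_le_left _ _)⟩

/-- the size of `Δ_k` -/
theorem st2_delta {p : Cn n} {R0 : ℝ} {r : Cn n → ℝ} {ts A0 A3 : ℝ} {A : ℕ} {g : ℝ → Cn n → ℂ}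
    (hg : Fam p R0 r ts A A0 A3 g) (hA0 : 0 ≤ A0) (hA3 : 0 ≤ A3) {t0 : ℝ} (ht0 : 0 < t0)
    (ht : t0 < ts) (β k : ℕ) (z : Cn n) (hz : ‖z - p‖ < R0) (hr : r z < tk t0 β (k + 1)) :
    ‖g (tk t0 β (k + 1)) z - g (tk t0 β k) z‖ * ((tk t0 β (k + 1) - r z) + tk t0 β k) ^ (A + 1)
      ≤ A3 * (Real.exp (2 ^ β * A0) * (2 ^ β * A0)) * tk t0 β k := by
  have p1 := st2_tk_pos ht0 β k
  have p2 := st2_tk_pos ht0 β (k + 1)
  obtain ⟨e, he, hen⟩ := st2_eta hg hA0 ht0 ht β k z hz hr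
  have h1 := st2_gk hg (Nat.cast_nonneg A) hA3 ht0 ht β k z hz hr
  set S := (tk t0 β (k + 1) - r z) + tk t0 β k with hS
  have hSpos : 0 < S := by rw [hS]; linarith
  rw [he, norm_mul]
  rw [Real.rpow_neg hSpos.le, Real.rpow_natCast] at h1
  calc ‖g (tk t0 β k) z‖ * ‖e‖ * S ^ (A + 1)
      ≤ (A3 * (S ^ A)⁻¹) * (Real.exp (2 ^ β * A0) * (2 ^ β * A0) * (tk t0 β k / S)) * S ^ (A + 1) := by
        gcongr
    _ = _ := by
        rw [pow_succ]
        field_simp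

theorem st2_near {p : Cn n} {R0 : ℝ} {r : Cn n → ℝ} {ts A0 A3 : ℝ} {A : ℕ} {g : ℝ → Cn n → ℂ}
    (hA : 1 ≤ A)
    (hg : Fam p R0 r ts A A0 A3 g) (hA0 : 0 ≤ A0) (hA3 : 0 ≤ A3) {t0 : ℝ} (ht0 : 0 < t0)
    (ht : t0 < ts) (β k : ℕ) (z : Cn n) (hz : ‖z - p‖ < R0) (hr : r z < tk t0 β (k + 1))
    {ε : ℝ} (hε : 0 < ε) (L : ℕ → Cn n → ℂ)
    (hL : ‖L k z - Complex.log (g (tk t0 β k) z)‖ ≤ ε) :
    ‖st2h A g t0 β L k z‖ * ((tk t0 β (k + 1) - r z) + tk t0 β k) ^ (5 / 4 : ℝ)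
      ≤ Real.exp ε * A3 ^ (1 / (4 * A) : ℝ) * (Real.exp (2 ^ β * A0) * (2 ^ β * A0)) * tk t0 β k := by
  have p1 := st2_tk_pos ht0 β k
  have p2 := st2_tk_pos ht0 β (k + 1)
  have l0 := st2_tk_le0 ht0 β k
  obtain ⟨e, he, hen⟩ := st2_eta hg hA0 ht0 ht β k z hz hr
  have h1 := st2_gk hg (Nat.cast_nonneg A) hA3 ht0 ht β k z hz hr
  obtain ⟨q0, q1, hA'⟩ := st2q_mem hA
  set S := (tk t0 β (k + 1) - r z) + tk t0 β k with hS
  have hSpos : 0 < S := by rw [hS]; linarith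
  have l1 := st2_tk_le ht0 β k
  have hre1 := hg.re1 (tk t0 β k) ⟨p1, by linarith⟩ z hz (by linarith)
  have n2 : g (tk t0 β k) z ≠ 0 := by
    intro h
    rw [h] at hre1
    simp at hre1
    linarith
  have npos : 0 < ‖g (tk t0 β k) z‖ := norm_pos_iff.mpr n2
  have hLre : Real.log ‖g (tk t0 β k) z‖ - ε ≤ (L k z).re := by
    have h2 := (Complex.abs_re_le_norm (L k z - Complex.log (g (tk t0 β k) z))).trans hL
    rw [Complex.sub_re, Complex.log_re] at h2
    have := (abs_le.mp h2).1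
    linarith
  have hexp : ‖Complex.exp (-(st2q A * L k z))‖ ≤ Real.exp ε * ‖g (tk t0 β k) z‖ ^ (-st2q A) := by
    rw [Complex.norm_exp, Real.rpow_def_of_pos npos, ← Real.exp_add]
    apply Real.exp_le_exp.mpr
    have hre : (-((st2q A : ℂ) * L k z)).re = -(st2q A * (L k z).re) := by simp
    rw [hre]
    have : st2q A * (Real.log ‖g (tk t0 β k) z‖ - ε) ≤ st2q A * (L k z).re := by gcongr
    nlinarith
  have hgq : ‖g (tk t0 β k) z‖ ^ (-st2q A) * ‖g (tk t0 β k) z‖ ≤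
      A3 ^ (1 / (4 * A) : ℝ) * S ^ (-(1 / 4) : ℝ) := by
    have e1 : ‖g (tk t0 β k) z‖ ^ (-st2q A) * ‖g (tk t0 β k) z‖ =
        ‖g (tk t0 β k) z‖ ^ (1 / (4 * A) : ℝ) := by
      nth_rewrite 2 [← Real.rpow_one ‖g (tk t0 β k) z‖]
      rw [← Real.rpow_add npos]
      congr 1
      unfold st2q
      ring
    rw [e1]
    have e2 : ‖g (tk t0 β k) z‖ ^ (1 / (4 * A) : ℝ) ≤ (A3 * S ^ (-(A : ℝ))) ^ (1 / (4 * A) : ℝ) := by
      apply Real.rpow_le_rpow npos.le h1 (by positivity)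
    refine e2.trans (le_of_eq ?_)
    rw [Real.mul_rpow hA3 (Real.rpow_nonneg hSpos.le _), ← Real.rpow_mul hSpos.le]
    congr 2
    field_simp
  unfold st2h
  rw [norm_mul, he, norm_mul]
  have hS54 : S ^ (5 / 4 : ℝ) = S * S ^ (1 / 4 : ℝ) := by
    nth_rewrite 2 [← Real.rpow_one S]
    rw [← Real.rpow_add hSpos]
    norm_num
  calc ‖Complex.exp (-(st2q A * L k z))‖ * (‖g (tk t0 β k) z‖ * ‖e‖) * S ^ (5 / 4 : ℝ)
      ≤ (Real.exp ε * ‖g (tk t0 β k) z‖ ^ (-st2q A)) * (‖g (tk t0 β k) z‖ *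
          (Real.exp (2 ^ β * A0) * (2 ^ β * A0) * (tk t0 β k / S))) * S ^ (5 / 4 : ℝ) := by
        gcongr
    _ = Real.exp ε * (‖g (tk t0 β k) z‖ ^ (-st2q A) * ‖g (tk t0 β k) z‖) *
          (Real.exp (2 ^ β * A0) * (2 ^ β * A0) * (tk t0 β k / S)) * S ^ (5 / 4 : ℝ) := by ring
    _ ≤ Real.exp ε * (A3 ^ (1 / (4 * A) : ℝ) * S ^ (-(1 / 4) : ℝ)) *
          (Real.exp (2 ^ β * A0) * (2 ^ β * A0) * (tk t0 β k / S)) * S ^ (5 / 4 : ℝ) := by
        gcongr
    _ = _ := by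
        rw [hS54, Real.rpow_neg hSpos.le]
        have : S ^ (1 / 4 : ℝ) ≠ 0 := (Real.rpow_pos_of_pos hSpos _).ne'
        field_simp

theorem st2_far {p : Cn n} {R0 : ℝ} {r : Cn n → ℝ} {ts A0 A3 : ℝ} {A : ℕ} {g : ℝ → Cn n → ℂ}
    (hA : 1 ≤ A)
    (hg : Fam p R0 r ts A A0 A3 g) (hA0 : 0 ≤ A0) (hA3 : 0 ≤ A3) {t0 : ℝ} (ht0 : 0 < t0)
    (ht : t0 < ts) (β k : ℕ) (z : Cn n) (hz : ‖z - p‖ < R0) (hr : r z < tk t0 β (k + 1))
    {ε : ℝ} (hε : 0 < ε) (L : ℕ → Cn n → ℂ)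
    (hL : -ε ≤ (L k z).re) :
    ‖st2h A g t0 β L k z‖ * ((tk t0 β (k + 1) - r z) + tk t0 β k) ^ (A + 1)
      ≤ Real.exp ε * A3 * (Real.exp (2 ^ β * A0) * (2 ^ β * A0)) * tk t0 β k := by
  have p1 := st2_tk_pos ht0 β k
  have h := st2_delta hg hA0 hA3 ht0 ht β k z hz hr
  obtain ⟨q0, q1, hA'⟩ := st2q_mem hA
  unfold st2h
  rw [norm_mul]
  have hexp : ‖Complex.exp (-(st2q A * L k z))‖ ≤ Real.exp ε := by
    rw [Complex.norm_exp]
    apply Real.exp_le_exp.mpr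
    have hre : (-((st2q A : ℂ) * L k z)).re = -(st2q A * (L k z).re) := by simp
    rw [hre]
    have : st2q A * (-ε) ≤ st2q A * (L k z).re := by gcongr
    nlinarith
  calc ‖Complex.exp (-(st2q A * L k z))‖ * ‖g (tk t0 β (k + 1)) z - g (tk t0 β k) z‖ *
        ((tk t0 β (k + 1) - r z) + tk t0 β k) ^ (A + 1)
      = ‖Complex.exp (-(st2q A * L k z))‖ * (‖g (tk t0 β (k + 1)) z - g (tk t0 β k) z‖ *
        ((tk t0 β (k + 1) - r z) + tk t0 β k) ^ (A + 1)) := by ring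
    _ ≤ Real.exp ε * (A3 * (Real.exp (2 ^ β * A0) * (2 ^ β * A0)) * tk t0 β k) := by
        gcongr
    _ = _ := by ring

theorem step2 {p : Cn n} {R0 R2 R3 R4 : ℝ} (h4 : 0 < R4) (h3 : R4 < R3) (h2 : R3 < R2)
    (h0 : R2 < R0) {r : Cn n → ℝ} (hr : Continuous r) {τ0 c1 C : ℝ} (hτ0 : 0 < τ0) (hc1 : 0 < c1)
    (hC : 0 ≤ C) {M A : ℕ} (hA : 1 ≤ A) (hM : A + 1 ≤ M) {K2 : ℝ → Cn n → Cn n → ℂ}
    (hK2 : KPack p R3 R4 r τ0 c1 C M K2) {ts A0 A3 : ℝ} (hts : 0 < ts) (hA0 : 0 ≤ A0)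
    (hA3 : 0 ≤ A3) {g : ℝ → Cn n → ℂ} (hg : Fam p R0 r ts A A0 A3 g) {F : Set (Cn n)}
    (hF : F.Nonempty) (β : ℕ) (hβ : β = 2 * (M + n + 1) + 20) (ε : ℝ) (hε : 0 < ε)
    (hε' : ε ≤ 1 / (8 * A)) :
    ∃ t1 : ℝ, 0 < t1 ∧ t1 ≤ τ0 ∧ t1 < ts ∧ ∀ t0, 0 < t0 → t0 ≤ t1 →
      ∀ (L : ℕ → Cn n → ℂ) (Cm : ℝ) (m : ℕ), 0 ≤ Cm → LSeq p R2 r F g t0 β ε L Cm m →
      ∃ (T : ℕ → Cn n → ℂ) (Cm' : ℝ) (m' : ℕ), 0 ≤ Cm' ∧ TSeq p R4 r F g t0 β T Cm' m' := by
  obtain ⟨C', t1', hC', ht1', ht1τ, hpatch⟩ := patch hK2 h4 h3 hr hτ0 hc1 hC F hF A hM β (by omega)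
  obtain ⟨q0, q1, hA'⟩ := st2q_mem hA
  have hAr : (1 : ℝ) ≤ A := by exact_mod_cast hA
  refine ⟨min t1' (min (ts / 2) 1), by positivity, (min_le_left _ _).trans ht1τ,
    lt_of_le_of_lt ((min_le_right _ _).trans (min_le_left _ _)) (by linarith), ?_⟩
  intro t0 ht0 ht01 L Cm m hCm hL
  have ht0a : t0 ≤ t1' := ht01.trans (min_le_left _ _)
  have ht0b : t0 < ts := lt_of_le_of_lt (ht01.trans ((min_le_right _ _).trans (min_le_left _ _)))
    (by linarith)
  have ht0c : t0 ≤ 1 := ht01.trans ((min_le_right _ _).trans (min_le_right _ _))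
  set H : ℝ := 2 ^ β * A0 with hH
  have hH0 : 0 ≤ H := by positivity
  set B : ℝ := Real.exp ε * (Real.exp H * H) * (A3 + A3 ^ (1 / (4 * A) : ℝ)) with hB
  have hB0 : 0 ≤ B := by positivity
  set cq : ℝ := Real.sin (1 / (8 * A)) with hcq
  have hcq0 : 0 < cq := by
    apply Real.sin_pos_of_pos_of_lt_pi
    · positivity
    · have : (1 : ℝ) / (8 * A) ≤ 1 := by
        rw [div_le_one (by positivity)]; linarith
      linarith [Real.pi_gt_three]
  set ep : ℕ → ℝ := fun k =>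
    C' * B * (2 ^ k * tk t0 β k ^ (1 / 8 : ℝ) + 4 ^ (k * (M + n + 1)) * tk t0 β k) with hep
  have hep0 : ∀ k, 0 ≤ ep k := by
    intro k
    have := st2_tk_pos ht0 β k
    simp only [hep]
    positivity
  have hepb : ∀ k, ep k ≤ 2 * C' * B * (1 / 2) ^ k := by
    intro k
    have := st2_eps ht0 ht0c (M + n + 1) β k hβ
    calc ep k ≤ C' * B * (2 * (1 / 2) ^ k) := by
          simp only [hep]
          gcongr
      _ = _ := by ring
  -- the output of the patching lemma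
  have hP : ∀ k : ℕ, _ := fun k => hpatch t0 ht0 ht0a k (st2h A g t0 β L k)
    {z | ‖z - p‖ < R2 ∧ r z < tk t0 β k ∧ r z < 2 * tk t0 β (k + 1)} B hB0
    (by
      have c1 : Continuous (fun z : Cn n => ‖z - p‖) := (continuous_id.sub continuous_const).norm
      exact (isOpen_lt c1 continuous_const).inter
        ((isOpen_lt hr continuous_const).inter (isOpen_lt hr continuous_const)))
    (by
      rintro ζ ⟨hζ1, hζ2⟩
      have := st2_tk_lt ht0 (show 1 ≤ β by omega) k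
      have := st2_tk_pos ht0 β (k + 1)
      exact ⟨by linarith, by linarith, by linarith⟩)
    (by
      unfold st2h
      have d1 : DifferentiableOn ℂ (L k)
          {z | ‖z - p‖ < R2 ∧ r z < tk t0 β k ∧ r z < 2 * tk t0 β (k + 1)} :=
        (hL.hol k).mono (fun z hz => ⟨hz.1, hz.2.1⟩)
      have q1' := st2_tk_pos ht0 β k
      have q2' := st2_tk_pos ht0 β (k + 1)
      have q3' := st2_tk_le0 ht0 β k
      have q4' := st2_tk_le0 ht0 β (k + 1)
      have d2 : DifferentiableOn ℂ (g (tk t0 β k))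
          {z | ‖z - p‖ < R2 ∧ r z < tk t0 β k ∧ r z < 2 * tk t0 β (k + 1)} :=
        (hg.hol (tk t0 β k) ⟨q1', by linarith⟩).mono
          (fun z hz => ⟨lt_trans hz.1 h0, by have := hz.2.1; linarith⟩)
      have d3 : DifferentiableOn ℂ (g (tk t0 β (k + 1)))
          {z | ‖z - p‖ < R2 ∧ r z < tk t0 β k ∧ r z < 2 * tk t0 β (k + 1)} :=
        (hg.hol (tk t0 β (k + 1)) ⟨q2', by linarith⟩).mono
          (fun z hz => ⟨lt_trans hz.1 h0, hz.2.2⟩)
      exact ((d1.const_mul _).neg.cexp).mul (d3.sub d2))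
    (by
      rintro ζ ⟨hζ1, hζ2⟩
      have hle := st2_tk_le ht0 β k
      have hh := st2_far hA hg hA0 hA3 ht0 ht0b β k ζ (by linarith) hζ2 hε L
        (hL.re k ζ (by linarith) (by linarith))
      refine hh.trans ?_
      have := st2_tk_pos ht0 β k
      apply mul_le_mul_of_nonneg_right _ this.le
      rw [hB]
      have : 0 ≤ A3 ^ (1 / (4 * A) : ℝ) := Real.rpow_nonneg hA3 _
      calc Real.exp ε * A3 * (Real.exp H * H) = Real.exp ε * (Real.exp H * H) * A3 := by ring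
        _ ≤ Real.exp ε * (Real.exp H * H) * (A3 + A3 ^ (1 / (4 * A) : ℝ)) := by
          gcongr
          linarith)
    (by
      rintro ζ ⟨hζ1, hζ2⟩ hζF
      have hle := st2_tk_le ht0 β k
      have hh := st2_near hA hg hA0 hA3 ht0 ht0b β k ζ (by linarith) hζ2 hε L
        (hL.near k ζ (by linarith) (by linarith) hζF)
      refine hh.trans ?_
      have := st2_tk_pos ht0 β k
      apply mul_le_mul_of_nonneg_right _ this.le
      rw [hB]
      calc Real.exp ε * A3 ^ (1 / (4 * A) : ℝ) * (Real.exp H * H)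
          = Real.exp ε * (Real.exp H * H) * A3 ^ (1 / (4 * A) : ℝ) := by ring
        _ ≤ Real.exp ε * (Real.exp H * H) * (A3 + A3 ^ (1 / (4 * A) : ℝ)) := by
          gcongr
          linarith)
  set P : ℕ → Cn n → ℂ := fun k => PP K2 p R3 r (tk t0 β (k + 1)) (th F k) (st2h A g t0 β L k)
    with hPdef
  have hPhol : ∀ k, DifferentiableOn ℂ (P k) {z | ‖z - p‖ < R4 ∧ r z < tk t0 β (k + 1)} :=
    fun k => (hP k).1
  have hPb : ∀ k z, ‖z - p‖ < R4 → r z < tk t0 β (k + 1) →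
      ‖P k z - (th F k z : ℂ) * st2h A g t0 β L k z‖ ≤ ep k := fun k z hz hrz =>
    (hP k).2.1 z (by rwa [mem_ball, dist_eq_norm]) hrz
  have hPW : ∀ l k, l < k → DifferentiableOn ℂ (P k) (Wl p R4 r F t0 β l) :=
    fun l k hlk => ((hP k).2.2 l hlk).1
  have hPWb : ∀ l k, l < k → ∀ z ∈ Wl p R4 r F t0 β l, ‖P k z‖ ≤ ep k :=
    fun l k hlk z hz => ((hP k).2.2 l hlk).2 z hz.1 hz.2.1 hz.2.2
  clear_value P
  clear hP hpatch
  -- the terms
  set T : ℕ → Cn n → ℂ := fun k z =>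
    Complex.exp (st2q A * L k z) * (P k z + ((ep k / cq : ℝ) : ℂ)) with hT
  set D1 : ℝ := A3 * (Real.exp H * H) * t0⁻¹ ^ A with hD1
  have hD10 : 0 ≤ D1 := by positivity
  set D2 : ℝ := (1 + Cm) * ((1 + 1 / cq) * (2 * C' * B)) with hD2
  have hD20 : 0 ≤ D2 := by positivity
  refine ⟨T, D1 + D2, m + β * A, by positivity, ?_, ?_, ?_, ?_, ?_⟩
  · -- hol
    intro k
    have d1 : DifferentiableOn ℂ (L k) {z | ‖z - p‖ < R4 ∧ r z < tk t0 β (k + 1)} :=
      (hL.hol k).mono (fun z hz => ⟨by have := hz.1; linarith,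
        lt_of_lt_of_le hz.2 (st2_tk_le ht0 β k)⟩)
    exact ((d1.const_mul _).cexp).mul ((hPhol k).add_const _)
  · -- bd
    intro k z hz hrz
    have hle := st2_tk_le ht0 β k
    have hlt : r z < tk t0 β k := by linarith
    have hup := hL.up k z (by linarith) hlt
    have hGn := st2_Gnorm hA (L k z)
    have hpk := st2_tk_pos ht0 β k
    have hpk1 := st2_tk_pos ht0 β (k + 1)
    have hG : ‖Complex.exp (st2q A * L k z)‖ ≤ (1 + Cm) * 2 ^ (m * k) := by
      have : (1 : ℝ) ≤ 2 ^ (m * k) := one_le_pow₀ (by norm_num)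
      calc _ ≤ 1 + Real.exp ((L k z).re) := hGn
        _ ≤ 2 ^ (m * k) + Cm * 2 ^ (m * k) := by gcongr
        _ = _ := by ring
    have hΔ := st2_delta hg hA0 hA3 ht0 ht0b β k z (by linarith) hrz
    rw [← hH] at hΔ
    have hΔ' : ‖g (tk t0 β (k + 1)) z - g (tk t0 β k) z‖ ≤ D1 * 2 ^ (β * A * k) := by
      have hSle : tk t0 β k ≤ (tk t0 β (k + 1) - r z) + tk t0 β k := by linarith
      have h5 : ‖g (tk t0 β (k + 1)) z - g (tk t0 β k) z‖ * tk t0 β k ^ (A + 1) ≤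
          A3 * (Real.exp H * H) * tk t0 β k := by
        refine le_trans ?_ hΔ
        gcongr
      rw [pow_succ, ← mul_assoc] at h5
      have h6 := le_of_mul_le_mul_right h5 hpk
      have h7 : ‖g (tk t0 β (k + 1)) z - g (tk t0 β k) z‖ ≤
          A3 * (Real.exp H * H) / tk t0 β k ^ A := by
        rw [le_div_iff₀ (by positivity)]
        exact h6
      refine h7.trans (le_of_eq ?_)
      rw [hD1]
      unfold tk
      rw [div_pow, ← pow_mul]
      have : β * k * A = β * A * k := by ring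
      rw [this, inv_pow]
      field_simp
    have hth := st2_th F k z
    have hPn : Complex.exp (st2q A * L k z) * ((th F k z : ℂ) * st2h A g t0 β L k z) =
        (th F k z : ℂ) * (g (tk t0 β (k + 1)) z - g (tk t0 β k) z) := by
      unfold st2h
      have : Complex.exp (st2q A * L k z) * Complex.exp (-(st2q A * L k z)) = 1 := by
        rw [← Complex.exp_add]; simp
      linear_combination ((th F k z : ℂ) * (g (tk t0 β (k + 1)) z - g (tk t0 β k) z)) * this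
    have hTe : T k z = (th F k z : ℂ) * (g (tk t0 β (k + 1)) z - g (tk t0 β k) z) +
        Complex.exp (st2q A * L k z) * (P k z - (th F k z : ℂ) * st2h A g t0 β L k z) +
        Complex.exp (st2q A * L k z) * ((ep k / cq : ℝ) : ℂ) := by
      rw [← hPn]
      simp only [hT]
      ring
    have hb := hPb k z hz hrz
    have hepk := hepb k
    have hepk' : ep k ≤ 2 * C' * B := by
      refine hepk.trans ?_
      apply mul_le_of_le_one_right (by positivity)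
      exact pow_le_one₀ (by norm_num) (by norm_num)
    have hth1 : ‖(th F k z : ℂ)‖ ≤ 1 := by
      rw [Complex.norm_real, Real.norm_eq_abs, abs_of_nonneg hth.1]
      exact hth.2
    have hcn : ‖((ep k / cq : ℝ) : ℂ)‖ = ep k / cq := by
      rw [Complex.norm_real, Real.norm_eq_abs, abs_of_nonneg (div_nonneg (hep0 k) hcq0.le)]
    rw [hTe]
    calc _ ≤ ‖(th F k z : ℂ) * (g (tk t0 β (k + 1)) z - g (tk t0 β k) z)‖ +
          ‖Complex.exp (st2q A * L k z) * (P k z - (th F k z : ℂ) * st2h A g t0 β L k z)‖ +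
          ‖Complex.exp (st2q A * L k z) * ((ep k / cq : ℝ) : ℂ)‖ := norm_add₃_le
      _ = ‖(th F k z : ℂ)‖ * ‖g (tk t0 β (k + 1)) z - g (tk t0 β k) z‖ +
          ‖Complex.exp (st2q A * L k z)‖ * ‖P k z - (th F k z : ℂ) * st2h A g t0 β L k z‖ +
          ‖Complex.exp (st2q A * L k z)‖ * (ep k / cq) := by
          rw [norm_mul, norm_mul, norm_mul, hcn]
      _ ≤ 1 * (D1 * 2 ^ (β * A * k)) + ((1 + Cm) * 2 ^ (m * k)) * (2 * C' * B) +
          ((1 + Cm) * 2 ^ (m * k)) * (2 * C' * B / cq) := by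
          gcongr
          exact hb.trans hepk'
      _ = D1 * 2 ^ (β * A * k) + D2 * 2 ^ (m * k) := by
          rw [hD2]; ring
      _ ≤ D1 * 2 ^ ((m + β * A) * k) + D2 * 2 ^ ((m + β * A) * k) := by
          have e1 : β * A * k ≤ (m + β * A) * k := by gcongr; omega
          have e2 : m * k ≤ (m + β * A) * k := by gcongr; omega
          gcongr <;> norm_num
      _ = _ := by ring
  · -- holW
    intro l k hlk
    have d1 : DifferentiableOn ℂ (L k) (Wl p R4 r F t0 β l) :=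
      (hL.holW l k hlk).mono (fun z hz => ⟨by have := hz.1; linarith, hz.2⟩)
    exact ((d1.const_mul _).cexp).mul ((hPW l k hlk).add_const _)
  · -- bdW
    intro l k hlk z hz
    have hz2 : z ∈ Wl p R2 r F t0 β l := ⟨by have := hz.1; linarith, hz.2⟩
    have hup := hL.bdW l k hlk z hz2
    have hGn := st2_Gnorm hA (L k z)
    have hG : ‖Complex.exp (st2q A * L k z)‖ ≤ (1 + Cm) * 2 ^ (m * l) := by
      have : (1 : ℝ) ≤ 2 ^ (m * l) := one_le_pow₀ (by norm_num)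
      calc _ ≤ 1 + Real.exp ((L k z).re) := hGn
        _ ≤ 2 ^ (m * l) + Cm * 2 ^ (m * l) := by gcongr
        _ = _ := by ring
    have hb := hPWb l k hlk z hz
    have hepk := hepb k
    have hcn : ‖((ep k / cq : ℝ) : ℂ)‖ = ep k / cq := by
      rw [Complex.norm_real, Real.norm_eq_abs, abs_of_nonneg (div_nonneg (hep0 k) hcq0.le)]
    simp only [hT]
    rw [norm_mul]
    have hsum : ‖P k z + ((ep k / cq : ℝ) : ℂ)‖ ≤ (1 + 1 / cq) * ep k := by
      calc _ ≤ ‖P k z‖ + ‖((ep k / cq : ℝ) : ℂ)‖ := norm_add_le _ _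
        _ ≤ ep k + ep k / cq := by rw [hcn]; gcongr
        _ = _ := by ring
    calc ‖Complex.exp (st2q A * L k z)‖ * ‖P k z + ((ep k / cq : ℝ) : ℂ)‖
        ≤ ((1 + Cm) * 2 ^ (m * l)) * ((1 + 1 / cq) * (2 * C' * B * (1 / 2) ^ k)) := by
          gcongr
          exact hsum.trans (by gcongr)
      _ = D2 * 2 ^ (m * l) * (1 / 2) ^ k := by rw [hD2]; ring
      _ ≤ (D1 + D2) * 2 ^ ((m + β * A) * l) * (1 / 2) ^ k := by
          have e2 : m * l ≤ (m + β * A) * l := by gcongr; omega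
          gcongr
          · linarith
          · norm_num
  · -- re
    intro k z hz hrz
    have hle := st2_tk_le ht0 β k
    have hlt : r z < tk t0 β k := by linarith
    have him := hL.im k z (by linarith) hlt
    have hGre := st2_Gre hA hε' hε (L k z) him
    rw [← hcq] at hGre
    have hth := st2_th F k z
    have hPn : Complex.exp (st2q A * L k z) * ((th F k z : ℂ) * st2h A g t0 β L k z) =
        (th F k z : ℂ) * (g (tk t0 β (k + 1)) z - g (tk t0 β k) z) := by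
      unfold st2h
      have : Complex.exp (st2q A * L k z) * Complex.exp (-(st2q A * L k z)) = 1 := by
        rw [← Complex.exp_add]; simp
      linear_combination ((th F k z : ℂ) * (g (tk t0 β (k + 1)) z - g (tk t0 β k) z)) * this
    have hTe : T k z = (th F k z : ℂ) * (g (tk t0 β (k + 1)) z - g (tk t0 β k) z) +
        Complex.exp (st2q A * L k z) * (P k z - (th F k z : ℂ) * st2h A g t0 β L k z) +
        Complex.exp (st2q A * L k z) * ((ep k / cq : ℝ) : ℂ) := by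
      rw [← hPn]
      simp only [hT]
      ring
    have hb := hPb k z hz hrz
    rw [hTe, Complex.add_re, Complex.add_re, Complex.re_ofReal_mul, Complex.re_mul_ofReal,
      Complex.sub_re]
    have e1 : -(‖Complex.exp (st2q A * L k z)‖ * ep k) ≤
        (Complex.exp (st2q A * L k z) * (P k z - (th F k z : ℂ) * st2h A g t0 β L k z)).re := by
      have := (Complex.abs_re_le_norm
        (Complex.exp (st2q A * L k z) * (P k z - (th F k z : ℂ) * st2h A g t0 β L k z)))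
      rw [norm_mul] at this
      have h9 := (abs_le.mp this).1
      have h10 : ‖Complex.exp (st2q A * L k z)‖ * ‖P k z - (th F k z : ℂ) * st2h A g t0 β L k z‖ ≤
        ‖Complex.exp (st2q A * L k z)‖ * ep k := by gcongr
      linarith
    have e2 : ‖Complex.exp (st2q A * L k z)‖ * ep k ≤
        (Complex.exp (st2q A * L k z)).re * (ep k / cq) := by
      have h11 : (cq * ‖Complex.exp (st2q A * L k z)‖) * (ep k / cq) ≤
          (Complex.exp (st2q A * L k z)).re * (ep k / cq) := by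
        apply mul_le_mul_of_nonneg_right hGre (div_nonneg (hep0 k) hcq0.le)
      refine le_trans (le_of_eq ?_) h11
      field_simp
    linarith

end Pool.Agent.Helper123
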