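import Mathlib
import Pool.Agent.H805R2.Base
import Pool.Agent.Helper123.Defs2
import Pool.Agent.Helper540.Holo

/-! Part of the proof of S06843 (MP_fedc70_an). -/

set_option autoImplicit false

open MeasureTheory Metric Set Filter Topology
open scoped ENNReal NNReal ContDiff ComplexConjugate

namespace Pool.Agent.Helper123

open Pool.Agent.H805R2

variable {n : ℕ}

/-! ## auxiliary lemmas -/

theorem st3_abel (θ x : ℕ → ℝ) (a : ℝ) (h1 : ∀ k, θ k ≤ 1)
    (hanti : ∀ k, θ (k + 1) ≤ θ k) (K : ℕ) (ha : ∀ i ≤ K, θ i < 1 → a ≤ x i) :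
    θ K * (x K - a) ≤ x 0 + ∑ k ∈ Finset.range K, θ k * (x (k + 1) - x k) - a := by
  induction K with
  | zero =>
    rw [Finset.sum_range_zero, add_zero]
    rcases (h1 0).lt_or_eq with h | h
    · nlinarith [ha 0 le_rfl h]
    · rw [h]; linarith
  | succ K ih =>
    have ih := ih fun i hi => ha i (by omega)
    rw [Finset.sum_range_succ]
    rcases (h1 (K + 1)).lt_or_eq with h | h
    · have h2 := ha (K + 1) le_rfl h
      nlinarith [mul_nonneg (sub_nonneg.2 (hanti K)) (sub_nonneg.2 h2)]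
    · have h2 : θ K = 1 := le_antisymm (h1 K) (h ▸ hanti K)
      rw [h2] at ih ⊢
      rw [h]
      linarith

theorem st3_lam_le (x : ℝ) : lam x ≤ 1 := max_le zero_le_one (min_le_left _ _)

theorem st3_lam_anti {x y : ℝ} (h : x ≤ y) : lam y ≤ lam x :=
  max_le_max le_rfl (min_le_min le_rfl (by linarith))

theorem st3_lam_lt {x : ℝ} (h : lam x < 1) : 1 / 2 < x := by
  by_contra hx
  push Not at hx
  have h1 : (1 : ℝ) ≤ lam x := (le_min le_rfl (by linarith)).trans (le_max_right _ _)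
  linarith

theorem st3_lam_zero {x : ℝ} (h : 3 / 4 ≤ x) : lam x = 0 :=
  max_eq_left ((min_le_right _ _).trans (by linarith))

theorem st3_tk_pos {t0 : ℝ} (ht0 : 0 < t0) (β k : ℕ) : 0 < tk t0 β k := by
  unfold tk; positivity

theorem st3_tk_anti {t0 : ℝ} (ht0 : 0 < t0) (β : ℕ) {k l : ℕ} (h : k ≤ l) :
    tk t0 β l ≤ tk t0 β k := by
  unfold tk
  refine div_le_div_of_nonneg_left ht0.le (by positivity) ?_
  exact pow_le_pow_right₀ (by norm_num) (Nat.mul_le_mul_left β h)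

theorem st3_tk_zero (t0 : ℝ) (β : ℕ) : tk t0 β 0 = t0 := by
  unfold tk; simp

theorem st3_isOpen_Wl {r : Cn n → ℝ} (hr : Continuous r) (p : Cn n) (R : ℝ) (F : Set (Cn n))
    (t0 : ℝ) (β l : ℕ) : IsOpen (Wl p R r F t0 β l) := by
  have h1 : IsOpen {z : Cn n | ‖z - p‖ < R} := isOpen_lt (by fun_prop) continuous_const
  have h2 : IsOpen {z : Cn n | r z < tk t0 β (l + 1)} := isOpen_lt hr continuous_const
  have h3 : IsOpen {z : Cn n | (1 / 2 : ℝ) ^ l < infDist z F} :=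
    isOpen_lt continuous_const (continuous_infDist_pt F)
  exact h1.inter (h2.inter h3)

section
variable {p : Cn n} {R4 : ℝ} {r : Cn n → ℝ} {g : ℝ → Cn n → ℂ} {F : Set (Cn n)} {t0 : ℝ}
  {β : ℕ} {T : ℕ → Cn n → ℂ} {Cm : ℝ} {m : ℕ}

/-- uniform bound for all the terms on `W_l` -/
theorem st3_bd (ht0 : 0 < t0) (hCm : 0 ≤ Cm) (hT : TSeq p R4 r F g t0 β T Cm m) (l k : ℕ)
    {z : Cn n} (hz : z ∈ Wl p R4 r F t0 β l) :
    ‖T k z‖ ≤ Cm * 2 ^ ((m + 1) * l) * (1 / 2) ^ k := by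
  have e1 : (2 : ℝ) ^ ((m + 1) * l) = 2 ^ (m * l) * 2 ^ l := by rw [← pow_add]; congr 1; ring
  rcases lt_or_ge l k with h | h
  · refine (hT.bdW l k h z hz).trans ?_
    refine mul_le_mul_of_nonneg_right ?_ (by positivity)
    refine mul_le_mul_of_nonneg_left ?_ hCm
    exact pow_le_pow_right₀ (by norm_num) (Nat.mul_le_mul_right l (by omega))
  · refine (hT.bd k z hz.1 (hz.2.1.trans_le (st3_tk_anti ht0 β (by omega)))).trans ?_
    rw [mul_assoc]
    refine mul_le_mul_of_nonneg_left ?_ hCm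
    rw [e1, mul_assoc]
    have h1 : (1 : ℝ) ≤ 2 ^ l * (1 / 2) ^ k := by
      obtain ⟨j, rfl⟩ := Nat.exists_eq_add_of_le h
      rw [pow_add]
      have : (2 : ℝ) ^ k * 2 ^ j * (1 / 2) ^ k = 2 ^ j := by
        rw [mul_right_comm, ← mul_pow]; norm_num
      rw [this]
      exact one_le_pow₀ (by norm_num)
    have h2 : (2 : ℝ) ^ (m * k) ≤ 2 ^ (m * l) :=
      pow_le_pow_right₀ (by norm_num) (Nat.mul_le_mul_left m h)
    calc (2 : ℝ) ^ (m * k) = 2 ^ (m * k) * 1 := (mul_one _).symm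
      _ ≤ 2 ^ (m * l) * (2 ^ l * (1 / 2) ^ k) := mul_le_mul h2 h1 zero_le_one (by positivity)

theorem st3_summable_u (C : ℝ) : Summable fun k : ℕ => C * (1 / 2 : ℝ) ^ k :=
  (summable_geometric_of_lt_one (by norm_num) (by norm_num)).mul_left C

theorem st3_summable (ht0 : 0 < t0) (hCm : 0 ≤ Cm) (hT : TSeq p R4 r F g t0 β T Cm m) (l : ℕ)
    {z : Cn n} (hz : z ∈ Wl p R4 r F t0 β l) : Summable fun k => T k z :=
  Summable.of_norm_bounded (st3_summable_u _) fun k => st3_bd ht0 hCm hT l k hz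

theorem st3_norm_tsum (ht0 : 0 < t0) (hCm : 0 ≤ Cm) (hT : TSeq p R4 r F g t0 β T Cm m) (l : ℕ)
    {z : Cn n} (hz : z ∈ Wl p R4 r F t0 β l) :
    ‖∑' k, T k z‖ ≤ 2 * Cm * 2 ^ ((m + 1) * l) := by
  have h1 : HasSum (fun k : ℕ => Cm * 2 ^ ((m + 1) * l) * (1 / 2 : ℝ) ^ k)
      (Cm * 2 ^ ((m + 1) * l) * 2) := hasSum_geometric_two.mul_left _
  have h2 := tsum_of_norm_bounded h1 fun k => st3_bd ht0 hCm hT l k hz
  linarith

theorem st3_hol (hr : Continuous r) (ht0 : 0 < t0) (hCm : 0 ≤ Cm)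
    (hT : TSeq p R4 r F g t0 β T Cm m) (l : ℕ) :
    DifferentiableOn ℂ (fun z => ∑' k, T k z) (Wl p R4 r F t0 β l) := by
  intro z hz
  obtain ⟨ρ, hρ, hball⟩ := Metric.isOpen_iff.mp (st3_isOpen_Wl hr p R4 F t0 β l) z hz
  have hd : ∀ k, DifferentiableOn ℂ (T k) (Wl p R4 r F t0 β l) := by
    intro k
    rcases lt_or_ge l k with h | h
    · exact hT.holW l k h
    · exact (hT.hol k).mono fun z hz => ⟨hz.1, hz.2.1.trans_le (st3_tk_anti ht0 β (by omega))⟩
  have hlim : TendstoUniformlyOn (fun N z => ∑ k ∈ Finset.range N, T k z)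
      (fun z => ∑' k, T k z) atTop (ball z ρ) :=
    tendstoUniformlyOn_tsum_nat (st3_summable_u _) fun k x hx =>
      st3_bd ht0 hCm hT l k (hball hx)
  have h1 := Pool.Agent.Helper540.differentiableOn_of_uniform_limit (fun N => by
    refine DifferentiableOn.fun_sum fun k _ => (hd k).mono hball) hlim
  exact (h1.differentiableAt (ball_mem_nhds z (by positivity))).differentiableWithinAt

end

theorem st3_lip {r : Cn n → ℝ} (hr : ContDiff ℝ ∞ r) (p : Cn n) (R : ℝ) :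
    ∃ L0 : ℝ, 0 < L0 ∧ ∀ x ∈ closedBall p R, ∀ z ∈ closedBall p R,
      r x ≤ r z + L0 * ‖x - z‖ := by
  have hc : ContinuousOn (fun x => fderiv ℝ r x) (closedBall p R) :=
    (hr.continuous_fderiv (by simp)).continuousOn
  obtain ⟨C, hC⟩ := (isCompact_closedBall p R).exists_bound_of_continuousOn hc
  refine ⟨|C| + 1, by positivity, fun x hx z hz => ?_⟩
  have h1 := (convex_closedBall p R).norm_image_sub_le_of_norm_fderiv_le (𝕜 := ℝ) (f := r)
    (C := |C| + 1) (fun y _ => (hr.differentiable (by simp)).differentiableAt)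
    (fun y hy => (hC y hy).trans (by linarith [le_abs_self C])) hz hx
  rw [Real.norm_eq_abs] at h1
  linarith [le_abs_self (r x - r z)]

theorem st3_choose_l {d D : ℝ} (hd : 0 < d) (hdD : d ≤ D) :
    ∃ l : ℕ, (1 / 2 : ℝ) ^ l < d / 2 ∧ 2 ^ l * d ≤ max D 4 := by
  classical
  have hex : ∃ l : ℕ, (1 / 2 : ℝ) ^ l < d / 2 :=
    exists_pow_lt_of_lt_one (by positivity) (by norm_num)
  refine ⟨Nat.find hex, Nat.find_spec hex, ?_⟩
  rcases Nat.eq_zero_or_pos (Nat.find hex) with h | h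
  · rw [h, pow_zero, one_mul]
    exact hdD.trans (le_max_left _ _)
  · have h1 := Nat.find_min hex (m := Nat.find hex - 1) (by omega)
    push Not at h1
    obtain ⟨j, hj⟩ : ∃ j, Nat.find hex = j + 1 := ⟨Nat.find hex - 1, by omega⟩
    rw [hj] at h1 ⊢
    rw [Nat.add_sub_cancel] at h1
    refine le_trans ?_ (le_max_right _ _)
    have h2 : (2 : ℝ) ^ j * (1 / 2) ^ j = 1 := by rw [← mul_pow]; norm_num
    have h3 : (0 : ℝ) < 2 ^ j := by positivity
    rw [pow_succ]
    nlinarith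

/-- the lower bound at one point -/
theorem st3_lower {p : Cn n} {R4 : ℝ} {r : Cn n → ℝ} {ts : ℝ}
    {g : ℝ → Cn n → ℂ} {F : Set (Cn n)} {β : ℕ} (hβ : 2 ≤ β)
    {t0 : ℝ} (ht0 : 0 < t0) (ht0' : t0 < ts) (ht1 : t0 ≤ 1 / 2) {T : ℕ → Cn n → ℂ} {Cm : ℝ}
    {m : ℕ} (hCm : 0 ≤ Cm) (hT : TSeq p R4 r F g t0 β T Cm m) {z : Cn n}
    (hz : ‖z - p‖ < R4) (hrz : r z ≤ 0) (hd : 0 < infDist z F) :
    ∃ t ∈ Ioo 0 ts, t ≤ infDist z F ∧ (g t z).re ≤ (g t0 z + ∑' k, T k z).re := by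
  classical
  set d := infDist z F with hdd
  have hrt : ∀ k, r z < tk t0 β k := fun k => hrz.trans_lt (st3_tk_pos ht0 β k)
  obtain ⟨l, hl⟩ : ∃ l : ℕ, (1 / 2 : ℝ) ^ l < d :=
    exists_pow_lt_of_lt_one hd (by norm_num)
  have hzW : z ∈ Wl p R4 r F t0 β l := ⟨hz, hrt _, hl⟩
  have hsum := st3_summable ht0 hCm hT l hzW
  obtain ⟨K, hK⟩ : ∃ K : ℕ, (1 / 2 : ℝ) ^ K < d * (4 / 3) :=
    exists_pow_lt_of_lt_one (by positivity) (by norm_num)
  have hθ0 : ∀ k, K ≤ k → th F k z = 0 := by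
    intro k hk
    refine st3_lam_zero ?_
    have h1 : (2 : ℝ) ^ K * (1 / 2) ^ K = 1 := by rw [← mul_pow]; norm_num
    have h2 : (0 : ℝ) < 2 ^ K := by positivity
    have h3 : (2 : ℝ) ^ K ≤ 2 ^ k := pow_le_pow_right₀ (by norm_num) hk
    have h4 : (2 : ℝ) ^ K * d ≤ 2 ^ k * d := mul_le_mul_of_nonneg_right h3 hd.le
    rw [← hdd]
    nlinarith
  set x : ℕ → ℝ := fun k => (g (tk t0 β k) z).re with hx
  have hre : ∀ k, th F k z * (x (k + 1) - x k) ≤ (T k z).re := fun k => hT.re k z hz (hrt _)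
  have hG : x 0 + ∑ k ∈ Finset.range K, th F k z * (x (k + 1) - x k) ≤
      (g t0 z + ∑' k, T k z).re := by
    rw [Complex.add_re, Complex.re_tsum hsum]
    have h1 : x 0 = (g t0 z).re := by rw [hx]; simp only [st3_tk_zero]
    rw [h1]
    refine add_le_add le_rfl ?_
    refine (Finset.sum_le_sum fun k _ => hre k).trans ?_
    refine Summable.sum_le_tsum _ (fun k hk => ?_) (Complex.hasSum_re hsum.hasSum).summable
    have h2 : K ≤ k := by simpa using hk
    have h3 := hre k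
    rwa [hθ0 k h2, zero_mul] at h3
  set s := (Finset.range (K + 1)).filter fun j => th F j z < 1 with hs
  have hsne : s.Nonempty := ⟨K, by
    rw [hs, Finset.mem_filter]
    exact ⟨Finset.self_mem_range_succ K, by rw [hθ0 K le_rfl]; exact one_pos⟩⟩
  obtain ⟨j, hj, hjmin⟩ := Finset.exists_min_image s x hsne
  rw [hs, Finset.mem_filter] at hj
  have habel := st3_abel (fun k => th F k z) x (x j) (fun k => st3_lam_le _) (fun k => st3_lam_anti (by
      refine mul_le_mul_of_nonneg_right ?_ hd.le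
      exact pow_le_pow_right₀ (by norm_num) (by omega))) K (fun i hi hi1 => by
      refine hjmin i ?_
      rw [hs, Finset.mem_filter, Finset.mem_range]
      exact ⟨by omega, hi1⟩)
  rw [hθ0 K le_rfl, zero_mul] at habel
  have hjd : 1 / 2 < (2 : ℝ) ^ j * d := st3_lam_lt hj.2
  refine ⟨tk t0 β j, ⟨st3_tk_pos ht0 β j, ?_⟩, ?_, by linarith⟩
  · have := st3_tk_anti ht0 β (Nat.zero_le j)
    rw [st3_tk_zero] at this
    linarith
  · have h2 : (0 : ℝ) < 2 ^ j := by positivity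
    have h3 : tk t0 β j ≤ t0 / 2 ^ j := by
      unfold tk
      refine div_le_div_of_nonneg_left ht0.le h2 ?_
      exact pow_le_pow_right₀ (by norm_num) (by nlinarith)
    refine h3.trans ?_
    rw [div_le_iff₀ h2]
    linarith

/-- TARGET. PROOF. t_k = tk t0 beta k. G z := g t0 z + sum' k, T k z (t_0 = t0). d=infDist . F.
(1) On W_l (Wl p R4 r F t0 beta l, open): for k>l |T_k|<=Cm 2^{ml} 2^{-k}: summable, each T_k holomorphic on W_l for k>l (holW) and for k<=l (hol, since r<t_{l+1}<=t_{k+1}). So G is DifferentiableOn W_l. Several variables: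
 use hasFDerivAt_tsum_of_isPreconnected on small balls with the Cauchy estimate |fderiv C (T k) x| <= 2 sup/delta on the half ball (library: Pool/Agent/Y813/RL/HI.lean `norm_fderiv_le_of_bound`,
 Helper395/AA/MTest.lean `fderiv_bound`; or restrict to complex lines). Also |G z| <= |g t0 z| + sum_{k<=l} Cm 2^{mk} + Cm 2^{ml} <= C 2^{(m+1) l} on W_l; |g t0| is bounded on the compact set {|z-p|<=R4, r<=t0} (g t0 continuous on {|z-p|<R0, r<2t0}).
(2) For z in ball p R5, r z<=0, z notin F: 0<d(z)<=2 R5 =:T0. Let l be minimal with 2^{-l}<d/2: then 2^l <= max(T0,4)/d. r is L0-Lipschitz on ball p R4 (C^1 on a closed ball, convex). If |x-z|<rho with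
 rho <= R4-R5, rho<=d/2, L0 rho < t_{l+1} then x in W_l (d(x)>=d-rho>=d/2>2^{-l}). t_{l+1} = t0 2^{-beta(l+1)} >= c d^beta. So with m''=beta+m+2 (or similar) and c small, ball z (c d^{m''}) subset W_l and |G| d^{m''} <= Cb there.
(3) Lower bound at such z: r z<=0<t_{k+1} for all k. Re G(z) = Re g t0 z + sum' Re T_k(z) (summable: z in W_l), and by TSeq.re each Re T_k >= theta_k(x_{k+1}-x_k), theta_k = th F k z, x_k = Re g t_k z. theta_k = 0 for k large (2^k d>=3/4), so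
 Re G(z) >= m_K := x_0+sum_{k<K} theta_k(x_{k+1}-x_k) for K large with theta_k=0 for k>=K (x finite sums; compare partial sums: for k>=K Re T_k>=0). Let k0 be the least k with theta_k<1: theta_j=1 for j<k0 so m_K = x_{k0}+sum_{k0<=k<K} theta_k(x_{k+1}-x_k),
 theta decreasing in [0,1]: m_K >= min_{k0<=j<=K} x_j (elementary lemma by induction: m - a >= theta_{last}(x_last - a)). The minimum is attained at some j>=k0 and theta_j<1 means 2^j d>1/2 (also for j>=k0 since 2^j d is increasing), so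
 t_j <= t0 2^{-2j} <= 2^{-j-1} < d. So t=t_j works: 0<t_j<=t0<ts. -/
theorem step3 {p : Cn n} {R0 R4 R5 : ℝ} (h5 : 0 < R5) (h4 : R5 < R4) (h0 : R4 < R0)
    {r : Cn n → ℝ} (hr : ContDiff ℝ ∞ r) {ts A A0 A3 : ℝ} (hA0 : 0 ≤ A0)
    (hA3 : 0 ≤ A3) {g : ℝ → Cn n → ℂ} (hg : Fam p R0 r ts A A0 A3 g) {F : Set (Cn n)}
    (hFc : IsClosed F) (hF : F.Nonempty) (hF5 : F ⊆ closedBall p R5) (β : ℕ) (hβ : 2 ≤ β)
    (t0 : ℝ) (ht0 : 0 < t0) (ht0' : t0 < ts) (ht1 : t0 ≤ 1 / 2) (T : ℕ → Cn n → ℂ) (Cm : ℝ)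
    (m : ℕ) (hCm : 0 ≤ Cm) (hT : TSeq p R4 r F g t0 β T Cm m) :
    ∃ (G : Cn n → ℂ) (m : ℕ) (c Cb : ℝ), 0 < c ∧
      (∀ z ∈ ball p R5, r z ≤ 0 → z ∉ F →
        DifferentiableOn ℂ G (ball z (c * infDist z F ^ m)) ∧
        ∀ x ∈ ball z (c * infDist z F ^ m), ‖G x‖ * infDist z F ^ m ≤ Cb) ∧
      ∀ z ∈ ball p R5, r z ≤ 0 → z ∉ F →
        ∃ t ∈ Ioo 0 ts, t ≤ infDist z F ∧ (g t z).re ≤ (G z).re := by
  have hrc : Continuous r := hr.continuous
  have hdpos : ∀ z, z ∉ F → 0 < infDist z F := fun z hz =>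
    (hFc.notMem_iff_infDist_pos hF).mp hz
  -- bound for `g t0`
  have hgc : ContinuousOn (g t0) {z | ‖z - p‖ ≤ R4 ∧ r z ≤ t0} :=
    (hg.hol t0 ⟨ht0, ht0'⟩).continuousOn.mono fun z hz =>
      ⟨lt_of_le_of_lt hz.1 h0, by linarith [hz.2]⟩
  have hcomp : IsCompact {z : Cn n | ‖z - p‖ ≤ R4 ∧ r z ≤ t0} := by
    have hnc : Continuous fun z : Cn n => ‖z - p‖ := by fun_prop
    have h1 : IsClosed {z : Cn n | ‖z - p‖ ≤ R4 ∧ r z ≤ t0} :=
      (isClosed_le hnc continuous_const).inter (isClosed_le hrc continuous_const)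
    refine (isCompact_closedBall p R4).of_isClosed_subset h1 fun z hz => ?_
    rw [mem_closedBall, dist_eq_norm]; exact hz.1
  obtain ⟨B, hB⟩ := hcomp.exists_bound_of_continuousOn hgc
  obtain ⟨L0, hL0, hlip⟩ := st3_lip hr p R4
  -- constants
  set D : ℝ := max (2 * R5) 1 with hD
  have hD1 : 1 ≤ D := le_max_right _ _
  set T1 : ℝ := max D 4 with hT1
  have hT1' : 4 ≤ T1 := le_max_right _ _
  set N : ℕ := β + m + 2 with hN
  have hDN : 0 < D ^ N := by positivity
  set c : ℝ := min ((R4 - R5) / D ^ N) (min (1 / (2 * D ^ N))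
    (t0 / (2 ^ β * T1 ^ β * L0 * D ^ N))) with hc
  have hc0 : 0 < c := by
    rw [hc]
    refine lt_min (div_pos (by linarith) hDN) (lt_min (by positivity) (by positivity))
  have hc1 : c * D ^ N ≤ R4 - R5 := by
    rw [← le_div_iff₀ hDN]; exact min_le_left _ _
  have hc2 : c * D ^ N ≤ 1 / 2 := by
    rw [← le_div_iff₀ hDN]
    refine (min_le_right _ _).trans ((min_le_left _ _).trans (le_of_eq ?_))
    field_simp
  have hc3 : L0 * (c * D ^ N) ≤ t0 / (2 ^ β * T1 ^ β) := by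
    have h1 : c ≤ t0 / (2 ^ β * T1 ^ β * L0 * D ^ N) :=
      (min_le_right _ _).trans (min_le_right _ _)
    rw [le_div_iff₀ (by positivity)] at h1 ⊢
    linarith
  -- the main construction
  have hW : ∀ z ∈ ball p R5, r z ≤ 0 → z ∉ F → ∃ l : ℕ, 2 ^ l * infDist z F ≤ T1 ∧
      ball z (c * infDist z F ^ N) ⊆ Wl p R4 r F t0 β l := by
    intro z hz hrz hzF
    have hd := hdpos z hzF
    have hz' : ‖z - p‖ < R5 := by rwa [mem_ball, dist_eq_norm] at hz
    have hdD : infDist z F ≤ D := by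
      obtain ⟨f, hf⟩ := hF
      have h1 : dist f p ≤ R5 := hF5 hf
      have h2 : dist z p < R5 := hz
      have h3 : infDist z F ≤ dist z f := infDist_le_dist_of_mem hf
      have h4 : dist z f ≤ dist z p + dist p f := dist_triangle _ _ _
      rw [dist_comm p f] at h4
      exact le_trans (by linarith) (le_max_left _ _)
    obtain ⟨l, hl1, hl2⟩ := st3_choose_l hd hdD
    refine ⟨l, hl2, ?_⟩
    set d := infDist z F with hdd
    have hdN : d ^ N ≤ D ^ N := pow_le_pow_left₀ hd.le hdD N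
    have e1 : d ^ N ≤ d * D ^ N := by
      have h1 : d ^ N = d * d ^ (N - 1) := by rw [← pow_succ']; congr 1
      rw [h1]
      refine mul_le_mul_of_nonneg_left ?_ hd.le
      exact (pow_le_pow_left₀ hd.le hdD _).trans (pow_le_pow_right₀ hD1 (by omega))
    have e2 : d ^ N ≤ d ^ β * D ^ N := by
      have h1 : d ^ N = d ^ β * d ^ (m + 2) := by rw [← pow_add]; congr 1
      rw [h1]
      refine mul_le_mul_of_nonneg_left ?_ (by positivity)
      exact (pow_le_pow_left₀ hd.le hdD _).trans (pow_le_pow_right₀ hD1 (by omega))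
    have r1 : c * d ^ N ≤ R4 - R5 := (mul_le_mul_of_nonneg_left hdN hc0.le).trans hc1
    have r2 : c * d ^ N ≤ d / 2 := by
      calc c * d ^ N ≤ c * (d * D ^ N) := mul_le_mul_of_nonneg_left e1 hc0.le
        _ = d * (c * D ^ N) := by ring
        _ ≤ d * (1 / 2) := mul_le_mul_of_nonneg_left hc2 hd.le
        _ = d / 2 := by ring
    have r3 : L0 * (c * d ^ N) ≤ tk t0 β (l + 1) := by
      have h1 : L0 * (c * d ^ N) ≤ d ^ β * (t0 / (2 ^ β * T1 ^ β)) := by
        calc L0 * (c * d ^ N) ≤ L0 * (c * (d ^ β * D ^ N)) := by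
              refine mul_le_mul_of_nonneg_left ?_ hL0.le
              exact mul_le_mul_of_nonneg_left e2 hc0.le
          _ = d ^ β * (L0 * (c * D ^ N)) := by ring
          _ ≤ _ := mul_le_mul_of_nonneg_left hc3 (by positivity)
      refine h1.trans ?_
      unfold tk
      have h2 : (2 : ℝ) ^ (β * (l + 1)) = 2 ^ β * (2 ^ l) ^ β := by
        rw [← pow_mul, ← pow_add]; congr 1; ring
      rw [h2, mul_div_assoc', div_le_div_iff₀ (by positivity) (by positivity)]
      have h3 : (2 ^ l * d) ^ β ≤ T1 ^ β := pow_le_pow_left₀ (by positivity) hl2 β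
      calc d ^ β * t0 * (2 ^ β * (2 ^ l) ^ β) = t0 * 2 ^ β * (2 ^ l * d) ^ β := by
            rw [mul_pow]; ring
        _ ≤ t0 * 2 ^ β * T1 ^ β := mul_le_mul_of_nonneg_left h3 (by positivity)
        _ = t0 * (2 ^ β * T1 ^ β) := by ring
    intro x hx
    have hxz : ‖x - z‖ < c * d ^ N := by rwa [mem_ball, dist_eq_norm] at hx
    have hxp : ‖x - p‖ < R4 := by
      have : ‖x - p‖ ≤ ‖x - z‖ + ‖z - p‖ := by
        have h1 := norm_add_le (x - z) (z - p)
        rwa [sub_add_sub_cancel] at h1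
      linarith
    refine ⟨hxp, ?_, ?_⟩
    · have h1 := hlip x (by rw [mem_closedBall, dist_eq_norm]; exact hxp.le) z
        (by rw [mem_closedBall, dist_eq_norm]; linarith)
      have h2 : L0 * ‖x - z‖ < L0 * (c * d ^ N) := mul_lt_mul_of_pos_left hxz hL0
      linarith
    · have h1 : infDist z F ≤ infDist x F + dist z x := infDist_le_infDist_add_dist
      rw [dist_comm, dist_eq_norm, ← hdd] at h1
      linarith
  refine ⟨fun z => g t0 z + ∑' k, T k z, N, c, (|B| + 2 * Cm) * T1 ^ (m + 1) * D ^ N, hc0,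
    fun z hz hrz hzF => ?_, fun z hz hrz hzF => ?_⟩
  · obtain ⟨l, hl, hsub⟩ := hW z hz hrz hzF
    have hd := hdpos z hzF
    have htl : tk t0 β (l + 1) ≤ t0 := by
      have := st3_tk_anti ht0 β (Nat.zero_le (l + 1))
      rwa [st3_tk_zero] at this
    constructor
    · refine DifferentiableOn.add ?_ ((st3_hol hrc ht0 hCm hT l).mono hsub)
      exact (hg.hol t0 ⟨ht0, ht0'⟩).mono fun x hx =>
        ⟨(hsub hx).1.trans h0, by linarith [(hsub hx).2.1]⟩
    · intro x hx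
      have h1 := st3_norm_tsum ht0 hCm hT l (hsub hx)
      have h2 : ‖g t0 x‖ ≤ |B| :=
        (hB x ⟨(hsub hx).1.le, by linarith [(hsub hx).2.1]⟩).trans (le_abs_self B)
      have hdD : infDist z F ≤ D := by
        obtain ⟨f, hf⟩ := hF
        have h1 : dist f p ≤ R5 := hF5 hf
        have h2 : dist z p < R5 := hz
        have h3 : infDist z F ≤ dist z f := infDist_le_dist_of_mem hf
        have h4 : dist z f ≤ dist z p + dist p f := dist_triangle _ _ _
        rw [dist_comm p f] at h4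
        exact le_trans (by linarith) (le_max_left _ _)
      set d := infDist z F with hdd
      have h3 : ‖g t0 x + ∑' k, T k x‖ ≤ (|B| + 2 * Cm) * 2 ^ ((m + 1) * l) := by
        have h4 : (1 : ℝ) ≤ 2 ^ ((m + 1) * l) := one_le_pow₀ (by norm_num)
        have h5 : |B| * 1 ≤ |B| * 2 ^ ((m + 1) * l) :=
          mul_le_mul_of_nonneg_left h4 (abs_nonneg B)
        calc _ ≤ ‖g t0 x‖ + ‖∑' k, T k x‖ := norm_add_le _ _
          _ ≤ _ := by linarith
      have h4 : (2 : ℝ) ^ ((m + 1) * l) * d ^ (m + 1) ≤ T1 ^ (m + 1) := by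
        rw [mul_comm (m + 1) l, pow_mul, ← mul_pow]
        exact pow_le_pow_left₀ (by positivity) hl _
      have h5 : d ^ (β + 1) ≤ D ^ N :=
        (pow_le_pow_left₀ hd.le hdD _).trans (pow_le_pow_right₀ hD1 (by omega))
      have h6 : d ^ N = d ^ (m + 1) * d ^ (β + 1) := by
        rw [← pow_add]; congr 1; omega
      calc ‖g t0 x + ∑' k, T k x‖ * d ^ N
          ≤ (|B| + 2 * Cm) * 2 ^ ((m + 1) * l) * d ^ N :=
            mul_le_mul_of_nonneg_right h3 (by positivity)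
        _ = (|B| + 2 * Cm) * ((2 ^ ((m + 1) * l) * d ^ (m + 1)) * d ^ (β + 1)) := by
            rw [h6]; ring
        _ ≤ (|B| + 2 * Cm) * (T1 ^ (m + 1) * D ^ N) := by
            refine mul_le_mul_of_nonneg_left ?_ (by positivity)
            exact mul_le_mul h4 h5 (by positivity) (by positivity)
        _ = (|B| + 2 * Cm) * T1 ^ (m + 1) * D ^ N := by ring
  · have hz' : ‖z - p‖ < R4 := by
      rw [mem_ball, dist_eq_norm] at hz; linarith
    exact st3_lower hβ ht0 ht0' ht1 hCm hT hz' hrz (hdpos z hzF)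

end Pool.Agent.Helper123
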