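import Mathlib
import Pool.Agent.Helper123.Step1
import Pool.Agent.Helper123.Step2
import Pool.Agent.Helper123.Step3

/-! The local patching theorem (MP_fedc70_an, S06843). -/

set_option autoImplicit false

open MeasureTheory Metric Set Filter Topology
open scoped ENNReal NNReal ContDiff ComplexConjugate

namespace Pool.Agent.Helper123

open Pool.Agent.H805R2

variable {n : ℕ}

/-- the local patching theorem -/
theorem main_patch {p : Cn n} {R0 R1 R2 R3 R4 R5 : ℝ} (h5 : 0 < R5) (h4 : R5 < R4) (h3 : R4 < R3)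
    (h2 : R3 < R2) (h1 : R2 < R1) (h0 : R1 < R0) {r : Cn n → ℝ} (hr : ContDiff ℝ ∞ r)
    {τ0 c1 C C' : ℝ} (hτ0 : 0 < τ0) (hc1 : 0 < c1) (hC : 0 ≤ C) (hC' : 0 ≤ C') {M A : ℕ}
    (hA : 1 ≤ A) (hM : A + 1 ≤ M) {K1 K2 : ℝ → Cn n → Cn n → ℂ}
    (hK1 : KPack p R1 R2 r τ0 c1 C M K1) (hK2 : KPack p R3 R4 r τ0 c1 C' M K2)
    {ts A0 A3 : ℝ} (hts : 0 < ts) (hA0 : 0 ≤ A0) (hA3 : 0 ≤ A3) {g : ℝ → Cn n → ℂ}
    (hg : Fam p R0 r ts A A0 A3 g) {F : Set (Cn n)} (hFc : IsClosed F) (hF : F.Nonempty)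
    (hF5 : F ⊆ closedBall p R5) :
    ∃ (G : Cn n → ℂ) (m : ℕ) (c Cb : ℝ), 0 < c ∧
      (∀ z ∈ ball p R5, r z ≤ 0 → z ∉ F →
        DifferentiableOn ℂ G (ball z (c * infDist z F ^ m)) ∧
        ∀ x ∈ ball z (c * infDist z F ^ m), ‖G x‖ * infDist z F ^ m ≤ Cb) ∧
      ∀ z ∈ ball p R5, r z ≤ 0 → z ∉ F →
        ∃ t ∈ Ioo 0 ts, t ≤ infDist z F ∧ (g t z).re ≤ (G z).re := by
  have hA' : (0 : ℝ) < A := by exact_mod_cast hA
  obtain ⟨t1, ht1, ht1τ, ht1s, H1⟩ := step1 (by linarith) h1 h0 hr.continuous hτ0 hc1 hC hA hM hK1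
    hts hA0 hA3 hg hF (2 * (M + n + 1) + 20) rfl (1 / (8 * A)) (by positivity)
  obtain ⟨t2, ht2, ht2τ, ht2s, H2⟩ := step2 (by linarith) h3 h2 (by linarith) hr.continuous hτ0
    hc1 hC' hA hM hK2 hts hA0 hA3 hg hF (2 * (M + n + 1) + 20) rfl (1 / (8 * A)) (by positivity)
    le_rfl
  obtain ⟨t0, ht0, ht01, ht02, ht03⟩ : ∃ t0 : ℝ, 0 < t0 ∧ t0 ≤ t1 ∧ t0 ≤ t2 ∧ t0 ≤ 1 / 2 :=
    ⟨min (min t1 t2) (1 / 2), by positivity, (min_le_left _ _).trans (min_le_left _ _),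
      (min_le_left _ _).trans (min_le_right _ _), min_le_right _ _⟩
  obtain ⟨L, Cm, m, hCm, hL⟩ := H1 t0 ht0 ht01
  obtain ⟨T, Cm', m', hCm', hT⟩ := H2 t0 ht0 ht02 L Cm m hCm hL
  exact step3 h5 h4 (by linarith) hr hA0 hA3 hg hFc hF hF5 _ (by omega) t0 ht0 (by linarith) ht03
    T Cm' m' hCm' hT

end Pool.Agent.Helper123
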