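import Mathlib
import Pool.Agent.H805R2.Base
import Pool.Agent.Helper123.Defs
import Pool.Agent.Helper540.Holo

/-! Part of the proof of S06843 (MP_fedc70_an). -/

set_option autoImplicit false

open MeasureTheory Metric Set Filter Topology
open scoped ENNReal NNReal ContDiff ComplexConjugate

namespace Pool.Agent.Helper123

open Pool.Agent.H805R2

variable {n : ℕ}

section NufAux

variable {E : Type} [NormedAddCommGroup E] [NormedSpace ℂ E] [FiniteDimensional ℂ E]

theorem nuf_diff_fderiv {G : Type} [NormedAddCommGroup G] [NormedSpace ℂ G] [CompleteSpace G]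
    {f : E → G} {s : Set E} (hs : IsOpen s) (hf : DifferentiableOn ℂ f s) :
    DifferentiableOn ℂ (fderiv ℂ f) s := by
  have h2 : ContDiffOn ℂ ((2 : ℕ) : WithTop ℕ∞) f s :=
    Pool.Agent.Helper540.contDiffOn_of_differentiableOn hs hf 2
  have h3 : ContDiffOn ℂ 1 (fderiv ℂ f) s :=
    h2.fderiv_of_isOpen hs (by norm_num)
  exact h3.differentiableOn (by norm_num)

/-- Cauchy estimate for the Frechet derivative -/
theorem nuf_fderiv_bound {G : Type} [NormedAddCommGroup G] [NormedSpace ℂ G]
    {f : E → G} {x : E} {h M : ℝ} (hh : 0 < h)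
    (hf : ∀ z ∈ closedBall x h, DifferentiableAt ℂ f z)
    (hb : ∀ z ∈ closedBall x h, ‖f z‖ ≤ M) : ‖fderiv ℂ f x‖ ≤ M / h := by
  have hM : 0 ≤ M := (norm_nonneg _).trans (hb x (mem_closedBall_self hh.le))
  refine ContinuousLinearMap.opNorm_le_bound _ (by positivity) fun v => ?_
  rcases eq_or_ne v 0 with rfl | hv
  · simp
  have hv0 : 0 < ‖v‖ := norm_pos_iff.2 hv
  set ph : ℂ → G := fun ζ => f (x + ζ • v) with hph
  have hmem : ∀ ζ ∈ closedBall (0 : ℂ) (h / ‖v‖), x + ζ • v ∈ closedBall x h := by
    intro ζ hζ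
    rw [mem_closedBall, dist_eq_norm] at *
    rw [add_sub_cancel_left, norm_smul]
    rw [sub_zero] at hζ
    calc ‖ζ‖ * ‖v‖ ≤ h / ‖v‖ * ‖v‖ := by gcongr
      _ = h := by field_simp
  have hlin : ∀ ζ : ℂ, HasFDerivAt (fun ζ : ℂ => x + ζ • v)
      ((1 : ℂ →L[ℂ] ℂ).smulRight v) ζ := by
    intro ζ
    have := ((hasFDerivAt_id (𝕜 := ℂ) ζ).smul_const v).const_add x
    exact this
  have hphd : ∀ ζ ∈ closedBall (0 : ℂ) (h / ‖v‖), DifferentiableAt ℂ ph ζ := by
    intro ζ hζ
    exact (hf _ (hmem ζ hζ)).comp ζ (hlin ζ).differentiableAt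
  have hr : 0 < h / ‖v‖ := by positivity
  have hdc : DiffContOnCl ℂ ph (ball 0 (h / ‖v‖)) := by
    refine DifferentiableOn.diffContOnCl ?_
    intro ζ hζ
    rw [closure_ball _ hr.ne'] at hζ
    exact (hphd ζ hζ).differentiableWithinAt
  have h1 := Complex.norm_deriv_le_of_forall_mem_sphere_norm_le hr hdc
    (C := M) fun ζ hζ => hb _ (hmem ζ (sphere_subset_closedBall hζ))
  have h2 : deriv ph 0 = fderiv ℂ f x v := by
    have hx : x + (0 : ℂ) • v = x := by simp
    have hfx : HasFDerivAt f (fderiv ℂ f x) (x + (0 : ℂ) • v) := by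
      rw [hx]; exact (hf x (mem_closedBall_self hh.le)).hasFDerivAt
    have h3 := hfx.comp (0 : ℂ) (hlin 0)
    have h4 := h3.hasDerivAt.deriv
    have h5 : ph = f ∘ fun ζ : ℂ => x + ζ • v := rfl
    rw [h5, h4]
    simp
  rw [h2] at h1
  calc ‖fderiv ℂ f x v‖ ≤ M / (h / ‖v‖) := h1
    _ = M / h * ‖v‖ := by field_simp

/-- iterated Cauchy estimates -/
theorem nuf_iter_bound (k : ℕ) : ∀ {G : Type} [NormedAddCommGroup G] [NormedSpace ℂ G]
    [CompleteSpace G] {f : E → G} {y : E} {R h M : ℝ}, 0 < h → k * h < R →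
    DifferentiableOn ℂ f (ball y R) → (∀ z ∈ ball y R, ‖f z‖ ≤ M) →
    ‖iteratedFDeriv ℂ k f y‖ ≤ M / h ^ k := by
  induction k with
  | zero =>
    intro G _ _ _ f y R h M hh hR hf hb
    simp only [Nat.cast_zero, zero_mul] at hR
    rw [norm_iteratedFDeriv_zero, pow_zero, div_one]
    exact hb y (mem_ball_self hR)
  | succ k ih =>
    intro G _ _ _ f y R h M hh hR hf hb
    rw [← norm_iteratedFDeriv_fderiv]
    have hR' : k * h < R - h := by push_cast at hR; linarith
    have hsub : ∀ z ∈ ball y (R - h), closedBall z h ⊆ ball y R := by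
      intro z hz w hw
      rw [mem_ball] at *
      rw [mem_closedBall] at hw
      calc dist w y ≤ dist w z + dist z y := dist_triangle _ _ _
        _ < h + (R - h) := by linarith
        _ = R := by ring
    have h1 := ih (f := fderiv ℂ f) (y := y) (R := R - h) (h := h) (M := M / h) hh hR'
      ((nuf_diff_fderiv isOpen_ball hf).mono (ball_subset_ball (by linarith)))
      (fun z hz => nuf_fderiv_bound hh
        (fun w hw => hf.differentiableAt (isOpen_ball.mem_nhds (hsub z hz hw)))
        fun w hw => hb w (hsub z hz hw))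
    refine h1.trans (le_of_eq ?_)
    rw [pow_succ, div_div]
    congr 1
    ring

/-- iterated Cauchy estimates for the real derivatives -/
theorem nuf_iter_bound_real (k : ℕ) {f : E → ℂ} {y : E} {R M : ℝ} (hR : 0 < R)
    (hf : DifferentiableOn ℂ f (ball y R)) (hb : ∀ z ∈ ball y R, ‖f z‖ ≤ M) :
    ‖iteratedFDeriv ℝ k f y‖ ≤ M / (R / (k + 1)) ^ k := by
  have hk : (0 : ℝ) < k + 1 := by positivity
  have h1 := nuf_iter_bound k (f := f) (y := y) (R := R) (h := R / (k + 1)) (M := M)
    (by positivity) (by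
      rw [mul_div_assoc', div_lt_iff₀ hk]
      nlinarith) hf hb
  have hc : ContDiffAt ℂ (k : WithTop ℕ∞) f y :=
    (Pool.Agent.Helper540.contDiffOn_of_differentiableOn isOpen_ball hf k).contDiffAt
      (isOpen_ball.mem_nhds (mem_ball_self hR))
  have h2 := hc.restrictScalars_iteratedFDeriv (𝕜 := ℝ)
  rw [← h2, Function.comp_apply, ContinuousMultilinearMap.norm_restrictScalars]
  exact h1

end NufAux

/-- TARGET. PROOF. Put h z = if z in F then 0 else f z. D open, F subset frontier D so D inter F empty; near every z in closure D minus F we have h=f (F closed), f holomorphic on the ball B(z, c d^m), d=infDist z F>0, so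
h is holomorphic on D and continuous within closure D at z. At e in F: |h z| <= C d(z) <= C|z-e| (N=1), so continuous. For k: g_k z := if z in F then 0 else iteratedFDeriv R k f z; on D it equals iteratedFDeriv R k h z
(equality near z). Continuity at z notin F: f is smooth near z (holomorphic in several variables => analytic/smooth; library: grep 'DifferentiableOn ℂ' contDiffOn, Pool/Agent/Results/MP_149452_an/AnalyticApprox.lean or
Helper395/AA/MTest.lean `fderiv_bound`, `iter_bound`). At e in F: Cauchy estimates: |iteratedFDeriv R k f z| <= C_k sup_{ball z (c d^m)}|f| /(c d^m)^k <= C_k C_N d^{N-mk}/c^k with N=mk+1, tends to 0 as z->e.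
The zero set: f z != 0 off F, h=0 on F, F subset frontier D subset closure D. D nonempty and disjoint from F gives a point with h z != 0. -/
theorem NU_final {D : Set (Cn n)} (hne : D.Nonempty) (ho : IsOpen D)
    (hb : Bornology.IsBounded D) {F : Set (Cn n)} (hF : IsClosed F) (hFn : F.Nonempty)
    (hFD : F ⊆ frontier D) (H : NU D F) : ∃ f : Cn n → ℂ, AInf D F f := by
  classical
  obtain ⟨f, m, c, hc, hf, hN⟩ := H
  have hDF : ∀ z ∈ D, z ∉ F := by
    intro z hz hzF
    have h1 := hFD hzF
    rw [ho.frontier_eq] at h1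
    exact h1.2 hz
  have hpos : ∀ z ∉ F, 0 < infDist z F := fun z hz => (hF.notMem_iff_infDist_pos hFn).1 hz
  have hrad : ∀ z ∉ F, 0 < c * infDist z F ^ m := fun z hz => by
    have := hpos z hz
    positivity
  -- smoothness off `F`
  have hcd : ∀ z ∈ closure D \ F, ∀ k : ℕ, ContDiffAt ℝ (k : WithTop ℕ∞) f z := by
    intro z hz k
    have h1 := (Pool.Agent.Helper540.contDiffOn_of_differentiableOn isOpen_ball (hf z hz).1
      k).contDiffAt (isOpen_ball.mem_nhds (mem_ball_self (hrad z hz.2)))
    exact h1.restrict_scalars ℝ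
  -- the basic estimate
  have hest : ∀ k : ℕ, ∃ C : ℝ, 0 ≤ C ∧ ∀ z ∈ closure D \ F,
      ‖iteratedFDeriv ℝ k f z‖ ≤ C * infDist z F := by
    intro k
    obtain ⟨C, hC⟩ := hN (m * k + 1)
    refine ⟨|C| * ((k + 1) / c) ^ k, by positivity, fun z hz => ?_⟩
    have hd := hpos z hz.2
    have hr := hrad z hz.2
    have h1 := nuf_iter_bound_real k (f := f) (y := z) (R := c * infDist z F ^ m)
      (M := |C| * infDist z F ^ (m * k + 1)) hr (hf z hz).1 (fun x hx => (hC z hz x hx).trans (by
        gcongr
        exact le_abs_self C))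
    refine h1.trans (le_of_eq ?_)
    rw [pow_succ, pow_mul, div_pow, mul_pow, div_pow]
    field_simp
  -- a general continuity lemma
  have hcont : ∀ {G : Type} [NormedAddCommGroup G] (g : Cn n → G) (C : ℝ),
      (∀ z ∈ F, g z = 0) → (∀ z ∈ closure D \ F, ContinuousAt g z) →
      (∀ z ∈ closure D \ F, ‖g z‖ ≤ C * infDist z F) → 0 ≤ C → ContinuousOn g (closure D) := by
    intro G _ g C h0 h1 h2 hC
    intro e he
    by_cases heF : e ∈ F
    · rw [ContinuousWithinAt, h0 e heF]
      have h3 : Tendsto (fun z => C * dist z e) (𝓝[closure D] e) (𝓝 0) := by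
        have : Tendsto (fun z => C * dist z e) (𝓝 e) (𝓝 (C * dist e e)) :=
          (continuous_const.mul (continuous_id.dist continuous_const)).tendsto e
        rw [dist_self, mul_zero] at this
        exact this.mono_left nhdsWithin_le_nhds
      refine squeeze_zero_norm' ?_ h3
      filter_upwards [self_mem_nhdsWithin] with z hz
      by_cases hzF : z ∈ F
      · rw [h0 z hzF, norm_zero]; positivity
      · exact (h2 z ⟨hz, hzF⟩).trans (by
          gcongr
          exact infDist_le_dist_of_mem heF)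
    · exact (h1 e ⟨he, heF⟩).continuousWithinAt
  set h : Cn n → ℂ := fun z => if z ∈ F then 0 else f z with hdef
  have hev : ∀ z ∉ F, h =ᶠ[𝓝 z] f := by
    intro z hz
    filter_upwards [hF.isOpen_compl.mem_nhds hz] with w hw
    simp only [hdef]
    rw [if_neg hw]
  have hzero : ∀ z ∈ F, h z = 0 := fun z hz => by simp only [hdef]; rw [if_pos hz]
  have hnz : ∀ z ∈ closure D \ F, h z ≠ 0 := fun z hz => by
    simp only [hdef]; rw [if_neg hz.2]; exact (hf z hz).2
  refine ⟨h, ?_, ?_, ?_, ?_, ?_⟩
  · intro z hz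
    have hz' : z ∈ closure D \ F := ⟨subset_closure hz, hDF z hz⟩
    have h1 : DifferentiableAt ℂ f z :=
      (hf z hz').1.differentiableAt (isOpen_ball.mem_nhds (mem_ball_self (hrad z hz'.2)))
    exact ((hev z hz'.2).differentiableAt_iff.2 h1).differentiableWithinAt
  · obtain ⟨C, hC0, hC⟩ := hest 0
    refine hcont h C hzero (fun z hz => ?_) (fun z hz => ?_) hC0
    · exact ((hcd z hz 0).continuousAt).congr (hev z hz.2).symm
    · have := hC z hz
      rw [norm_iteratedFDeriv_zero] at this
      rw [(hev z hz.2).eq_of_nhds]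
      exact this
  · intro k
    obtain ⟨C, hC0, hC⟩ := hest k
    refine ⟨fun z => if z ∈ F then 0 else iteratedFDeriv ℝ k f z, ?_, ?_, ?_⟩
    · refine hcont _ C (fun z hz => if_pos hz) (fun z hz => ?_) (fun z hz => ?_) hC0
      · have h1 : ContDiffAt ℝ 0 (iteratedFDeriv ℝ k f) z :=
          (hcd z hz k).iteratedFDeriv_right (by simp)
        refine h1.continuousAt.congr ?_
        filter_upwards [hF.isOpen_compl.mem_nhds hz.2] with w hw
        rw [if_neg hw]
      · simp only [if_neg hz.2]; exact hC z hz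
    · intro z hz
      simp only [if_neg (hDF z hz)]
      exact ((hev z (hDF z hz)).iteratedFDeriv ℝ k).eq_of_nhds
    · intro z hz
      exact if_pos hz
  · obtain ⟨z, hz⟩ := hne
    exact ⟨z, hz, hnz z ⟨subset_closure hz, hDF z hz⟩⟩
  · ext z
    constructor
    · rintro ⟨hz, h0⟩
      by_contra hzF
      exact hnz z ⟨hz, hzF⟩ h0
    · intro hz
      exact ⟨frontier_subset_closure (hFD hz), hzero z hz⟩

end Pool.Agent.Helper123
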