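import Mathlib
import Pool.Agent.Y262.Hor3
import Pool.Agent.Helper303.LpWeyl
import Pool.Agent.H805R2.Base
import Pool.Agent.Helper123.Defs
import Pool.Agent.Helper123.CRX.Holo

set_option autoImplicit false

open MeasureTheory Metric Set Filter Topology
open scoped ENNReal NNReal ContDiff ComplexConjugate

namespace Pool.Agent.Helper123

open Pool.Agent.H805R2

variable {n : ℕ}

section hor

open Complex BK BK.JB3 BK.JB6 Pool.Agent.Y262
open scoped InnerProductSpace

/-- Hörmander's theorem on a bounded pseudoconvex domain (smooth exhaustion), weight `t|x|²` -/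
theorem cousin_hor (Ω : Set (En n)) (ho : IsOpen Ω) (hb : Bornology.IsBounded Ω) (hP : PscS Ω) :
    HorS Ω := by
  intro t ht g hg hgc
  have hWE : WE Ω := BK.JB9.we Ω ho hb hP
  obtain ⟨A, hA⟩ : ∃ A : ℝ, A = (1 + 1) * (t⁻¹ * ∑ j, ∫ x in Ω, ‖g j x‖ ^ 2 *
    Real.exp (-(t * N2 x))) := ⟨_, rfl⟩
  have hA0 : 0 ≤ A := by
    rw [hA]
    exact mul_nonneg (by norm_num) (mul_nonneg (inv_nonneg.2 ht.le) (Finset.sum_nonneg fun j _ =>
      integral_nonneg fun x => by positivity))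
  have hkey : ∀ ρ : tV Ω, ‖tL Ω g hg ρ‖ ≤ √A * ‖tT Ω t ρ‖ := by
    intro ρ
    have hρ : ∀ j, IsTest Ω ((ρ : Fin n → En n → ℂ) j) := ρ.2
    obtain ⟨L, hL⟩ : ∃ L : Set (En n), L = ⋃ j, tsupport ((ρ : Fin n → En n → ℂ) j) := ⟨_, rfl⟩
    have hLc : IsCompact L := by
      rw [hL]
      exact isCompact_iUnion fun j => (hρ j).compact
    have hLΩ : L ⊆ Ω := by
      rw [hL]
      exact Set.iUnion_subset fun j => (hρ j).supp
    obtain ⟨φ, ψ, η, hW⟩ := hWE L hLc hLΩ 1 one_pos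
    obtain ⟨v, hv1, hv2, hv3⟩ := hor2 Ω ho hW ht g hg hgc
    rw [← hA] at hv3
    have hd := dv_test hρ
    rw [← hL] at hd
    have ht1 : ∀ x ∈ L, φ x + t * N2 x - 2 * ψ x = t * N2 x := by
      intro x hx
      have h1 := hW.zL x hx
      have h2 := hW.φ2 x
      have h3 := hW.ψ0 x
      have h4 : ψ x = 0 := by linarith
      rw [h1, h4]
      ring
    -- pairing
    have hvt : ∀ (σ : En n → ℂ), IsTest Ω σ →
        Integrable (fun x => v x * σ x) (volume.restrict Ω) := by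
      intro σ hσ
      have hm : MemLp (fun x => (Real.exp ((φ x + t * N2 x - 2 * ψ x) / 2) : ℂ) * σ x) 2
          ((volume : Measure (En n)).restrict Ω) := by
        apply wd_memLp (w := fun x => Real.exp ((φ x + t * N2 x - 2 * ψ x) / 2)) ho _
          hσ.smooth.continuous hσ.compact hσ.supp
        apply Real.continuous_exp.comp_continuousOn
        apply ContinuousOn.div_const
        exact (hW.sφ.continuousOn.add (tN_smooth t).continuous.continuousOn).sub
          (continuousOn_const.mul hW.sψ.continuousOn)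
      have := hv1.integrable_mul hm
      refine this.congr (Eventually.of_forall fun x => ?_)
      have he : (Real.exp (-(φ x + t * N2 x - 2 * ψ x) / 2) : ℂ) *
          (Real.exp ((φ x + t * N2 x - 2 * ψ x) / 2) : ℂ) = 1 := by
        rw [← Complex.ofReal_mul, ← Real.exp_add,
          show -(φ x + t * N2 x - 2 * ψ x) / 2 + (φ x + t * N2 x - 2 * ψ x) / 2 = 0 by ring,
          Real.exp_zero, Complex.ofReal_one]
      simp only [Pi.mul_apply]
      linear_combination (v x * σ x) * he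
    have h1 : tL Ω g hg ρ = ∫ x in Ω, v x * dv (ρ : Fin n → En n → ℂ) x := by
      show -∑ j, ∫ x in Ω, g j x * (ρ : Fin n → En n → ℂ) j x = _
      rw [← Finset.sum_neg_distrib]
      unfold dv
      simp_rw [Finset.mul_sum]
      rw [integral_finsetSum _ fun j _ => hvt _ (wd_isTest (hρ j) j)]
      apply Finset.sum_congr rfl
      intro j _
      rw [hv2 j _ (hρ j)]
    -- Cauchy-Schwarz
    obtain ⟨f, hf⟩ : ∃ f : L2 Ω, (f : En n → ℂ) =ᵐ[(volume : Measure (En n)).restrict Ω]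
        fun x => conj (v x * (Real.exp (-(φ x + t * N2 x - 2 * ψ x) / 2) : ℝ)) :=
      ⟨(hv1.star).toLp _, (hv1.star).coeFn_toLp⟩
    have hfn : ‖f‖ ^ 2 ≤ A := by
      rw [wd_norm_sq]
      refine le_trans (le_of_eq ?_) hv3
      apply integral_congr_ae
      filter_upwards [hf] with x hx
      rw [hx, RCLike.norm_conj, norm_mul, Complex.norm_real, Real.norm_of_nonneg
        (Real.exp_pos _).le, mul_pow, ← Real.exp_nat_mul]
      congr 2
      push_cast
      ring
    have hTc : (tT Ω t ρ : En n → ℂ) =ᵐ[(volume : Measure (En n)).restrict Ω]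
        fun x => (Real.exp (t * N2 x / 2) : ℂ) * dv (ρ : Fin n → En n → ℂ) x :=
      (dv_memLp hρ t).coeFn_toLp
    have h2 : inner ℂ f (tT Ω t ρ) = ∫ x in Ω, v x * dv (ρ : Fin n → En n → ℂ) x := by
      rw [wd_inner]
      apply integral_congr_ae
      filter_upwards [hf, hTc] with x hx hx'
      rw [hx, hx', Complex.conj_conj]
      by_cases hxL : x ∈ L
      · rw [ht1 x hxL]
        have he : (Real.exp (-(t * N2 x) / 2) : ℂ) * (Real.exp (t * N2 x / 2) : ℂ) = 1 := by
          rw [← Complex.ofReal_mul, ← Real.exp_add,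
            show -(t * N2 x) / 2 + t * N2 x / 2 = 0 by ring, Real.exp_zero, Complex.ofReal_one]
        linear_combination (v x * dv (ρ : Fin n → En n → ℂ) x) * he
      · rw [hd.2 x hxL]
        ring
    rw [h1, ← h2]
    refine (norm_inner_le_norm _ _).trans ?_
    apply mul_le_mul_of_nonneg_right _ (norm_nonneg _)
    exact Real.le_sqrt_of_sq_le hfn
  obtain ⟨w, hw1, hw2⟩ := BK.JB8.km_of_dk_riesz (tT Ω t) (tL Ω g hg) (√A) (Real.sqrt_nonneg _) hkey
  have hwn : ‖w‖ ^ 2 ≤ A := by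
    calc ‖w‖ ^ 2 ≤ (√A) ^ 2 := pow_le_pow_left₀ (norm_nonneg _) hw1 2
      _ = A := Real.sq_sqrt hA0
  have hcm : AEStronglyMeasurable (fun x => conj (w x) * (Real.exp (t * N2 x / 2) : ℂ))
      ((volume : Measure (En n)).restrict Ω) := by
    refine ((Lp.memLp w).star.1).mul ?_
    exact (Complex.continuous_ofReal.comp (Real.continuous_exp.comp
      ((tN_smooth t).continuous.div_const 2))).aestronglyMeasurable
  have hnt : nt Ω t (fun x => conj (w x) * (Real.exp (t * N2 x / 2) : ℂ)) =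
      ENNReal.ofReal (‖w‖ ^ 2) := by
    rw [wd_norm_sq]
    have hi : Integrable (fun x => ‖w x‖ ^ 2) ((volume : Measure (En n)).restrict Ω) :=
      (Lp.memLp w).integrable_norm_pow (by norm_num)
    rw [ofReal_integral_eq_lintegral_ofReal hi (Eventually.of_forall fun x => by positivity)]
    unfold nt
    congr 1
    funext x
    rw [enorm_sq_mul_wt]
    congr 1
    rw [norm_mul, RCLike.norm_conj, Complex.norm_real, Real.norm_of_nonneg (Real.exp_pos _).le,
      mul_pow, ← Real.exp_nat_mul, mul_assoc, ← Real.exp_add]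
    have : ((2 : ℕ) : ℝ) * (t * N2 x / 2) + -(t * N2 x) = 0 := by push_cast; ring
    rw [this, Real.exp_zero, mul_one]
  refine ⟨fun x => conj (w x) * (Real.exp (t * N2 x / 2) : ℂ), ?_, ?_, ?_⟩
  · apply memLp_of_nt ho hb ht.le hcm
    rw [hnt]
    exact ENNReal.ofReal_ne_top
  · intro j ρ hρ
    have hmem : (Pi.single j ρ : Fin n → En n → ℂ) ∈ tV Ω := by
      intro k
      rcases eq_or_ne k j with rfl | hkj
      · rw [Pi.single_eq_same]; exact hρ
      · rw [Pi.single_eq_of_ne hkj]; exact isTest_zero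
    have h1 := hw2 ⟨_, hmem⟩
    have h2 : tL Ω g hg ⟨_, hmem⟩ = - ∫ x in Ω, g j x * ρ x := by
      show -∑ k, ∫ x in Ω, g k x * (Pi.single j ρ : Fin n → En n → ℂ) k x = _
      rw [Finset.sum_eq_single j]
      · rw [Pi.single_eq_same]
      · intro k _ hkj
        rw [Pi.single_eq_of_ne hkj]
        simp
      · intro h
        exact absurd (Finset.mem_univ j) h
    have h3 : ∀ x, dv (Pi.single j ρ : Fin n → En n → ℂ) x = dbar j ρ x := by
      intro x
      unfold dv
      rw [Finset.sum_eq_single j]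
      · rw [Pi.single_eq_same]
      · intro k _ hkj
        rw [Pi.single_eq_of_ne hkj]
        simp [dbar]
      · intro h
        exact absurd (Finset.mem_univ j) h
    have hTc : (tT Ω t ⟨_, hmem⟩ : En n → ℂ) =ᵐ[(volume : Measure (En n)).restrict Ω]
        fun x => (Real.exp (t * N2 x / 2) : ℂ) * dv (Pi.single j ρ : Fin n → En n → ℂ) x :=
      (dv_memLp hmem t).coeFn_toLp
    rw [h2, wd_inner] at h1
    rw [h1]
    apply integral_congr_ae
    filter_upwards [hTc] with x hx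
    rw [hx, h3]
    ring
  · rw [hnt]
    refine (ENNReal.ofReal_le_ofReal hwn).trans (le_of_eq ?_)
    rw [hA]
    simp_rw [nt_eq (hg _) ht.le]
    rw [← ENNReal.ofReal_sum_of_nonneg fun j _ => integral_nonneg fun x => by positivity,
      ← ENNReal.ofReal_mul (by positivity)]
    congr 1
    rw [div_eq_mul_inv]
    ring


end hor

section en

open Pool.Agent.Helper303.Mb

/-- `∂̄` of a function that is complex differentiable vanishes -/
theorem cousin_dbar_hol {G : (Fin n → ℂ) → ℂ} {x : Fin n → ℂ} (hG : DifferentiableAt ℂ G x)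
    (k : Fin n) : dbar k G x = 0 := by
  have h1 : HasFDerivAt G ((fderiv ℂ G x).restrictScalars ℝ) x :=
    hG.hasFDerivAt.restrictScalars ℝ
  have h2 : (Pi.single k Complex.I : Fin n → ℂ) = Complex.I • Pi.single k 1 := by
    ext i
    by_cases hi : i = k
    · subst hi; simp
    · simp [Pi.single_eq_of_ne hi]
  unfold dbar
  rw [h1.fderiv, h2]
  simp only [ContinuousLinearMap.coe_restrictScalars', map_smul, smul_eq_mul]
  rw [← mul_assoc, Complex.I_mul_I]
  ring

theorem cousin_dbar_congr {f g : (Fin n → ℂ) → ℂ} {x : Fin n → ℂ} (h : f =ᶠ[𝓝 x] g) (k : Fin n) :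
    dbar k f x = dbar k g x := by
  unfold dbar
  rw [h.fderiv_eq]

theorem cousin_dbar_mul {a G : (Fin n → ℂ) → ℂ} {x : Fin n → ℂ} (ha : DifferentiableAt ℝ a x)
    (hG : DifferentiableAt ℝ G x) (k : Fin n) :
    dbar k (fun y => a y * G y) x = dbar k a x * G x + a x * dbar k G x := by
  unfold dbar
  rw [fderiv_fun_mul ha hG]
  simp only [add_apply, smul_apply, smul_eq_mul]
  ring

/-- localisation of a product with the cut-off `a` -/
theorem cousin_cd {m : ℕ} {a G : (Fin n → ℂ) → ℂ} {W S : Set (Fin n → ℂ)} (hW : IsOpen W)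
    (hS : IsOpen S) (ha : ContDiff ℝ m a) (hG : ContDiffOn ℝ m G (W ∩ S))
    (hsupp : ∀ x ∈ W, x ∈ tsupport a → x ∈ S) :
    ContDiffOn ℝ m (fun x => a x * S.indicator G x) W := by
  intro x hx
  apply ContDiffAt.contDiffWithinAt
  by_cases hxS : x ∈ S
  · have h1 : ContDiffAt ℝ m (fun x => a x * G x) x :=
      ha.contDiffAt.mul (hG.contDiffAt ((hW.inter hS).mem_nhds ⟨hx, hxS⟩))
    refine h1.congr_of_eventuallyEq ?_
    filter_upwards [hS.mem_nhds hxS] with y hy
    rw [indicator_of_mem hy]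
  · have hxa : x ∈ (tsupport a)ᶜ := fun h => hxS (hsupp x hx h)
    refine (contDiffAt_const (c := (0 : ℂ))).congr_of_eventuallyEq ?_
    filter_upwards [(isClosed_tsupport a).isOpen_compl.mem_nhds hxa] with y hy
    rw [image_eq_zero_of_notMem_tsupport hy, zero_mul]

theorem cousin_cd_dbar {a G : (Fin n → ℂ) → ℂ} {W S : Set (Fin n → ℂ)} (hW : IsOpen W)
    (hS : IsOpen S) (ha : ContDiff ℝ 1 a) (hG : DifferentiableOn ℂ G (W ∩ S))
    (hsupp : ∀ x ∈ W, x ∈ tsupport a → x ∈ S) (k : Fin n) {x : Fin n → ℂ} (hx : x ∈ W) :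
    dbar k (fun x => a x * S.indicator G x) x = dbar k a x * S.indicator G x := by
  by_cases hxS : x ∈ S
  · have hGx : DifferentiableAt ℂ G x := hG.differentiableAt ((hW.inter hS).mem_nhds ⟨hx, hxS⟩)
    have h1 : (fun x => a x * S.indicator G x) =ᶠ[𝓝 x] fun x => a x * G x := by
      filter_upwards [hS.mem_nhds hxS] with y hy
      rw [indicator_of_mem hy]
    rw [cousin_dbar_congr h1, cousin_dbar_mul (ha.differentiable (by simp) x)
      (hGx.restrictScalars ℝ), cousin_dbar_hol hGx, mul_zero, add_zero, indicator_of_mem hxS]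
  · have hxa : x ∈ (tsupport a)ᶜ := fun h => hxS (hsupp x hx h)
    have h1 : (fun x => a x * S.indicator G x) =ᶠ[𝓝 x] fun _ => 0 := by
      filter_upwards [(isClosed_tsupport a).isOpen_compl.mem_nhds hxa] with y hy
      rw [image_eq_zero_of_notMem_tsupport hy, zero_mul]
    rw [cousin_dbar_congr h1, indicator_of_notMem hxS, mul_zero]
    simp [dbar]

/-- the gluing step: a smooth function plus an `L²` solution is a.e. holomorphic -/
theorem cousin_glue {Ω W : Set (Fin n → ℂ)} (hΩb : Bornology.IsBounded Ω)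
    (hW : IsOpen W) (hWΩ : W ⊆ Ω) {P c : (Fin n → ℂ) → ℂ} {φ : Fin n → (Fin n → ℂ) → ℂ}
    (hP : ContDiffOn ℝ 1 P W) (hPφ : ∀ k, ∀ x ∈ W, dbar k P x = - φ k x)
    (hc : MemLp c 2 (volume.restrict Ω))
    (hcw : ∀ j ρ, IsTest Ω ρ → ∫ x in Ω, c x * dbar j ρ x = - ∫ x in Ω, φ j x * ρ x) :
    ∃ H : (Fin n → ℂ) → ℂ, (∀ x ∈ W, DifferentiableAt ℂ H x ∧ ContDiffAt ℝ 1 H x) ∧
      ∀ᵐ x ∂(volume.restrict W), P x + c x = H x := by
  have hfin : IsFiniteMeasure ((volume : Measure (Fin n → ℂ)).restrict Ω) :=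
    ⟨by rw [Measure.restrict_apply_univ]; exact hΩb.measure_lt_top⟩
  have hcI : IntegrableOn c Ω := hc.integrable (by norm_num)
  apply Pool.Agent.Helper303.Lp.weyl' hW
  · intro a r har
    have h1 : IntegrableOn P (Metric.closedBall a r) :=
      (hP.continuousOn.mono har).integrableOn_compact (isCompact_closedBall a r)
    exact h1.add (hcI.mono_set (har.trans hWΩ))
  · intro j ρ hρ
    have hρΩ : IsTest Ω ρ := ⟨hρ.1, hρ.2.1, hρ.2.2.trans hWΩ⟩
    have hI1 : IntegrableOn (fun x => P x * dbar j ρ x) W :=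
      (integrable_mul_of_cs hW hP.continuousOn (hρ.continuous_dbar j) (hρ.hcs_dbar j)
        (hρ.tsupport_dbar j)).integrableOn
    have hI2 : IntegrableOn (fun x => c x * dbar j ρ x) W := by
      have h2 : MemLp (dbar j ρ) 2 (volume.restrict Ω) :=
        ((hρ.continuous_dbar j).memLp_of_hasCompactSupport (hρ.hcs_dbar j)).restrict Ω
      exact IntegrableOn.mono_set (hc.integrable_mul h2) hWΩ
    have h3 : ∫ x in W, (P x + c x) * dbar j ρ x =
        (∫ x in W, P x * dbar j ρ x) + ∫ x in W, c x * dbar j ρ x := by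
      rw [← integral_add hI1 hI2]
      congr 1
      funext x
      ring
    have h4 : ∫ x in W, c x * dbar j ρ x = ∫ x in Ω, c x * dbar j ρ x := by
      rw [setIntegral_eq_integral_of_forall_compl_eq_zero, setIntegral_eq_integral_of_forall_compl_eq_zero]
      · intro x hx
        rw [dbar_eq_zero_of_notMem (fun h => hx (hρΩ.2.2 h)), mul_zero]
      · intro x hx
        rw [dbar_eq_zero_of_notMem (fun h => hx (hρ.2.2 h)), mul_zero]
    have h5 : ∫ x in W, φ j x * ρ x = ∫ x in Ω, φ j x * ρ x := by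
      rw [setIntegral_eq_integral_of_forall_compl_eq_zero, setIntegral_eq_integral_of_forall_compl_eq_zero]
      · intro x hx
        rw [image_eq_zero_of_notMem_tsupport (fun h => hx (hρΩ.2.2 h)), mul_zero]
      · intro x hx
        rw [image_eq_zero_of_notMem_tsupport (fun h => hx (hρ.2.2 h)), mul_zero]
    have h6 : ∫ x in W, dbar j P x * ρ x = - ∫ x in W, φ j x * ρ x := by
      rw [← integral_neg]
      apply setIntegral_congr_fun hW.measurableSet
      intro x hx
      simp only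
      rw [hPφ j x hx, neg_mul]
    rw [h3, ibp hW hP hρ j, h4, hcw j ρ hρΩ, h6, h5]
    ring

/-- the Cousin problem on `Ω ⊆ ℂⁿ` (sup norm) with a cut-off function -/
theorem cousin_En {Ω O1 O2 : Set (Fin n → ℂ)} (hΩ : IsOpen Ω) (hΩb : Bornology.IsBounded Ω)
    (hP : BK.PscS Ω) (hO1 : IsOpen O1) (hO2 : IsOpen O2) {χ : (Fin n → ℂ) → ℂ}
    (hχ : ContDiff ℝ ∞ χ) (hχc : HasCompactSupport χ) (hχ1 : tsupport χ ⊆ O1)
    (hχ2 : tsupport (fun x => 1 - χ x) ⊆ O2) {G : (Fin n → ℂ) → ℂ}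
    (hG : DifferentiableOn ℂ G (Ω ∩ (O1 ∩ O2))) {B : ℝ} (hGB : ∀ x ∈ Ω ∩ (O1 ∩ O2), ‖G x‖ ≤ B) :
    ∃ G1 G2 : (Fin n → ℂ) → ℂ, DifferentiableOn ℂ G1 (Ω ∩ O1) ∧ DifferentiableOn ℂ G2 (Ω ∩ O2) ∧
      ∀ x ∈ Ω ∩ (O1 ∩ O2), G x = G1 x - G2 x := by
  have hS : IsOpen (O1 ∩ O2) := hO1.inter hO2
  have hG2 : ContDiffOn ℝ 2 G (Ω ∩ (O1 ∩ O2)) := by
    have := Pool.Agent.Helper123.CRX.Holo.contDiffOn_of_differentiableOn (hΩ.inter hS) hG 2
    exact_mod_cast this.restrict_scalars ℝ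
  have hχT : IsTest Set.univ χ := ⟨hχ, hχc, Set.subset_univ _⟩
  have hdsm : ∀ k, ContDiff ℝ ∞ (dbar k χ) := by
    intro k
    have h1 : ∀ v : Fin n → ℂ, ContDiff ℝ ∞ (fun x => fderiv ℝ χ x v) := fun v =>
      (hχ.fderiv_right (m := ∞) (by simp)).clm_apply contDiff_const
    exact ((h1 _).add (contDiff_const.mul (h1 _))).div_const _
  -- supports
  have hs1 : ∀ k x, x ∈ tsupport (dbar k χ) → x ∈ O1 ∩ O2 := by
    intro k x hx
    constructor
    · exact hχ1 (closure_minimal (fun y hy => by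
        by_contra h
        exact hy (dbar_eq_zero_of_notMem h k)) (isClosed_tsupport χ) hx)
    · refine hχ2 (closure_minimal (fun y hy => ?_) (isClosed_tsupport _) hx)
      by_contra h
      have h1 : dbar k (fun x => 1 - χ x) y = 0 := dbar_eq_zero_of_notMem h k
      apply hy
      have h2 : fderiv ℝ (fun x => 1 - χ x) y = - fderiv ℝ χ y := by
        rw [fderiv_const_sub]
      unfold dbar at h1 ⊢
      rw [h2] at h1
      simp only [neg_apply] at h1
      linear_combination -h1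
  obtain ⟨φ, hφ⟩ : ∃ φ : Fin n → (Fin n → ℂ) → ℂ,
      φ = fun k x => dbar k χ x * (O1 ∩ O2).indicator G x := ⟨_, rfl⟩
  have hφ1 : ∀ k, ContDiffOn ℝ 1 (φ k) Ω := by
    intro k
    rw [hφ]
    exact cousin_cd (m := 1) hΩ hS ((hdsm k).of_le (by simp)) (hG2.of_le (by norm_num))
      (fun x _ hx => hs1 k x hx)
  have hφd : ∀ j k, ∀ x ∈ Ω, dbar j (φ k) x = dbar j (dbar k χ) x * (O1 ∩ O2).indicator G x := by
    intro j k x hx
    rw [hφ]
    exact cousin_cd_dbar hΩ hS ((hdsm k).of_le (by simp)) hG (fun x _ hx => hs1 k x hx) j hx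
  have hφb : ∀ k, ∃ C, ∀ x ∈ Ω, ‖φ k x‖ ≤ C := by
    intro k
    obtain ⟨C, hC⟩ := (hχT.hcs_dbar k).exists_bound_of_continuous (hχT.continuous_dbar k)
    refine ⟨C * max B 0, fun x hx => ?_⟩
    have hC0 : 0 ≤ C := (norm_nonneg _).trans (hC x)
    rw [hφ]
    simp only [norm_mul]
    by_cases hxS : x ∈ O1 ∩ O2
    · rw [indicator_of_mem hxS]
      exact mul_le_mul (hC x) ((hGB x ⟨hx, hxS⟩).trans (le_max_left _ _)) (norm_nonneg _) hC0
    · rw [indicator_of_notMem hxS, norm_zero, mul_zero]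
      exact mul_nonneg hC0 (le_max_right _ _)
  have hfin : IsFiniteMeasure ((volume : Measure (Fin n → ℂ)).restrict Ω) :=
    ⟨by rw [Measure.restrict_apply_univ]; exact hΩb.measure_lt_top⟩
  have hφL : ∀ k, MemLp (φ k) 2 (volume.restrict Ω) := by
    intro k
    obtain ⟨C, hC⟩ := hφb k
    refine MemLp.of_bound ((hφ1 k).continuousOn.aestronglyMeasurable hΩ.measurableSet) C ?_
    filter_upwards [ae_restrict_mem hΩ.measurableSet] with x hx
    exact hC x hx
  have hconv : ∀ (j : Fin n) (ρ : (Fin n → ℂ) → ℂ) (x : Fin n → ℂ), BK.dbar j ρ x = dbar j ρ x := by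
    intro j ρ x
    unfold BK.dbar dbar
    ring
  have hχ2' : ContDiff ℝ 2 χ :=
    hχ.of_le (show ((2 : ℕ∞) : WithTop ℕ∞) ≤ _ from WithTop.coe_le_coe.2 le_top)
  -- Hörmander
  obtain ⟨c, hc, hcw, -⟩ := cousin_hor Ω hΩ hΩb hP 1 one_pos φ hφL (by
    intro j k ρ hρ
    have hρ' : IsTest Ω ρ := ⟨hρ.smooth, hρ.compact, hρ.supp⟩
    simp_rw [hconv]
    rw [ibp hΩ (hφ1 j) hρ' k, ibp hΩ (hφ1 k) hρ' j]
    congr 1
    apply setIntegral_congr_fun hΩ.measurableSet
    intro x hx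
    simp only
    rw [hφd k j x hx, hφd j k x hx, dbar_comm hχ2'.contDiffAt])
  have hcw' : ∀ j ρ, IsTest Ω ρ → ∫ x in Ω, c x * dbar j ρ x = - ∫ x in Ω, φ j x * ρ x := by
    intro j ρ hρ
    have := hcw j ρ ⟨hρ.1, hρ.2.1, hρ.2.2⟩
    simp_rw [hconv] at this
    exact this
  have h1le : ((1 : ℕ) : WithTop ℕ∞) ≤ ((⊤ : ℕ∞) : WithTop ℕ∞) := by simp
  have h1le' : (1 : WithTop ℕ∞) ≤ ((⊤ : ℕ∞) : WithTop ℕ∞) := by simp
  -- first function
  have hd1 : ∀ k x, dbar k (fun x => 1 - χ x) x = - dbar k χ x := by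
    intro k x
    unfold dbar
    rw [fderiv_const_sub]
    simp only [neg_apply]
    ring
  have hd2 : ∀ k x, dbar k (fun x => - χ x) x = - dbar k χ x := by
    intro k x
    unfold dbar
    rw [fderiv_fun_neg]
    simp only [neg_apply]
    ring
  have hts : tsupport (fun x => - χ x) = tsupport χ := by
    unfold tsupport
    congr 1
    ext x
    simp
  obtain ⟨H1, hH1, hH1'⟩ := cousin_glue hΩb (hΩ.inter hO1) Set.inter_subset_left
    (P := fun x => (1 - χ x) * (O1 ∩ O2).indicator G x) (φ := φ)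
    (by
      refine cousin_cd (m := 1) (hΩ.inter hO1) hS ((contDiff_const.sub hχ).of_le h1le)
        ((hG2.mono (Set.inter_subset_inter_left _ Set.inter_subset_left)).of_le (by norm_num)) ?_
      exact fun x hx hx' => ⟨hx.2, hχ2 hx'⟩)
    (by
      intro k x hx
      rw [cousin_cd_dbar (hΩ.inter hO1) hS ((contDiff_const.sub hχ).of_le h1le')
        (hG.mono (Set.inter_subset_inter_left _ Set.inter_subset_left))
        (fun x hx hx' => ⟨hx.2, hχ2 hx'⟩) k hx, hd1, hφ, neg_mul])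
    hc hcw'
  obtain ⟨H2, hH2, hH2'⟩ := cousin_glue hΩb (hΩ.inter hO2) Set.inter_subset_left
    (P := fun x => (- χ x) * (O1 ∩ O2).indicator G x) (φ := φ)
    (by
      refine cousin_cd (m := 1) (hΩ.inter hO2) hS (hχ.neg.of_le (by simp))
        ((hG2.mono (Set.inter_subset_inter_left _ Set.inter_subset_left)).of_le (by norm_num)) ?_
      exact fun x hx hx' => ⟨hχ1 (hts ▸ hx'), hx.2⟩)
    (by
      intro k x hx
      rw [cousin_cd_dbar (hΩ.inter hO2) hS (hχ.neg.of_le (by simp))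
        (hG.mono (Set.inter_subset_inter_left _ Set.inter_subset_left))
        (fun x hx hx' => ⟨hχ1 (hts ▸ hx'), hx.2⟩) k hx, hd2, hφ, neg_mul])
    hc hcw'
  refine ⟨H1, H2, fun x hx => (hH1 x hx).1.differentiableWithinAt,
    fun x hx => (hH2 x hx).1.differentiableWithinAt, ?_⟩
  have ho : IsOpen (Ω ∩ (O1 ∩ O2)) := hΩ.inter hS
  have hae : ∀ᵐ x ∂(volume.restrict (Ω ∩ (O1 ∩ O2))), G x = H1 x - H2 x := by
    have e1 := ae_mono (Measure.restrict_mono (show Ω ∩ (O1 ∩ O2) ⊆ Ω ∩ O1 from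
      fun x hx => ⟨hx.1, hx.2.1⟩) le_rfl) hH1'
    have e2 := ae_mono (Measure.restrict_mono (show Ω ∩ (O1 ∩ O2) ⊆ Ω ∩ O2 from
      fun x hx => ⟨hx.1, hx.2.2⟩) le_rfl) hH2'
    filter_upwards [e1, e2, ae_restrict_mem ho.measurableSet] with x h1 h2 hx
    rw [← h1, ← h2, indicator_of_mem hx.2]
    ring
  have := Measure.eqOn_open_of_ae_eq hae ho hG.continuousOn
    (fun x hx => ((hH1 x ⟨hx.1, hx.2.1⟩).1.continuousAt.sub
      (hH2 x ⟨hx.1, hx.2.2⟩).1.continuousAt).continuousWithinAt)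
  exact this

end en

/-- transfer of the exhaustion function to `Fin n → ℂ` -/
theorem cousin_psc {D' : Set (Cn n)} (ho : IsOpen D') (hP : PscE D')
    (e : (Fin n → ℂ) ≃L[ℂ] Cn n) : BK.PscS (e ⁻¹' D') := by
  obtain ⟨ψ, h1, h2, h3⟩ := hP
  obtain ⟨eR, hee⟩ : ∃ eR : (Fin n → ℂ) ≃L[ℝ] Cn n, ∀ x, eR x = e x :=
    ⟨{ toLinearEquiv := e.toLinearEquiv.restrictScalars ℝ
       continuous_toFun := e.continuous
       continuous_invFun := e.symm.continuous }, fun _ => rfl⟩
  have hfun : (fun x => ψ (e x)) = ψ ∘ eR := by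
    funext x
    rw [Function.comp_apply, hee]
  have hsm : ContDiffOn ℝ ∞ (fun x => ψ (e x)) (e ⁻¹' D') := by
    rw [hfun]
    refine h1.comp eR.contDiff.contDiffOn fun x hx => ?_
    rw [hee]
    exact hx
  refine ⟨fun x => ψ (e x), hsm, fun M => ?_, fun x hx a => ?_⟩
  · have h4 : {x ∈ e ⁻¹' D' | ψ (e x) ≤ M} = e.toHomeomorph ⁻¹' {z | z ∈ D' ∧ ψ z ≤ M} := rfl
    rw [h4, Homeomorph.isCompact_preimage]
    exact h2 M
  · have hfd : ∀ y a, fderiv ℝ (fun x => ψ (e x)) y a = fderiv ℝ ψ (e y) (e a) := by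
      intro y a
      rw [hfun, ContinuousLinearEquiv.comp_right_fderiv]
      simp [hee]
    have hdd : DifferentiableAt ℝ (fderiv ℝ ψ) (e x) := by
      have h5 : ContDiffAt ℝ 2 ψ (e x) := (h1.contDiffAt (ho.mem_nhds hx)).of_le
        (show ((2 : ℕ∞) : WithTop ℕ∞) ≤ _ from WithTop.coe_le_coe.2 le_top)
      exact (h5.fderiv_right (m := 1) (by norm_num)).differentiableAt (by simp)
    have hfd2 : ∀ a, fderiv ℝ (fun y => fderiv ℝ (fun x => ψ (e x)) y a) x a =
        D2 ψ (e x) (e a) (e a) := by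
      intro a
      have h6 : (fun y => fderiv ℝ (fun x => ψ (e x)) y a) = (fun z => fderiv ℝ ψ z (e a)) ∘ eR := by
        funext y
        rw [hfd, Function.comp_apply, hee]
      rw [h6, ContinuousLinearEquiv.comp_right_fderiv]
      have h7 : fderiv ℝ (fun z => fderiv ℝ ψ z (e a)) (e x) =
          (fderiv ℝ (fderiv ℝ ψ) (e x)).flip (e a) := by
        have := (hdd.hasFDerivAt.clm_apply (hasFDerivAt_const (e a) (e x))).fderiv
        rw [this]
        ext v
        simp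
      rw [ContinuousLinearMap.comp_apply, ContinuousLinearEquiv.coe_coe, hee, hee, h7,
        ContinuousLinearMap.flip_apply]
      rfl
    have h8 := h3 (e x) hx (e a)
    unfold BK.Lv
    rw [hfd2, hfd2]
    unfold levi at h8
    rw [map_smul]
    linarith

/-- TARGET. Additive Cousin splitting on a pseudoconvex domain. -/
theorem cousin (hn : 1 ≤ n) {D' : Set (Cn n)} (ho : IsOpen D') (hb : Bornology.IsBounded D')
    (hP : PscE D') (p : Cn n) (r1 r2 : ℝ) (h1 : 0 < r1) (h12 : r1 < r2) (G : Cn n → ℂ)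
    (hG : DifferentiableOn ℂ G (D' ∩ {z | r1 < ‖z - p‖ ∧ ‖z - p‖ < r2})) (B : ℝ)
    (hGB : ∀ z ∈ D', r1 < ‖z - p‖ → ‖z - p‖ < r2 → ‖G z‖ ≤ B) :
    ∃ G1 G2 : Cn n → ℂ, DifferentiableOn ℂ G1 (D' ∩ ball p r2) ∧
      DifferentiableOn ℂ G2 (D' \ closedBall p r1) ∧
      ∀ z ∈ D', r1 < ‖z - p‖ → ‖z - p‖ < r2 → G z = G1 z - G2 z := by
  obtain ⟨e, he⟩ : ∃ e : (Fin n → ℂ) ≃L[ℂ] Cn n, e = (EuclideanSpace.equiv (Fin n) ℂ).symm :=
    ⟨_, rfl⟩
  have hΩ : IsOpen (e ⁻¹' D') := ho.preimage e.continuous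
  have hΩb : Bornology.IsBounded (e ⁻¹' D') := by
    have h3 : e ⁻¹' D' = e.symm '' D' := by
      ext x
      constructor
      · intro hx
        exact ⟨e x, hx, e.symm_apply_apply x⟩
      · rintro ⟨z, hz, rfl⟩
        change e (e.symm z) ∈ D'
        rw [e.apply_symm_apply]
        exact hz
    rw [h3]
    exact (e.symm : Cn n →L[ℂ] (Fin n → ℂ)).lipschitz.isBounded_image hb
  obtain ⟨δ, hδ⟩ : ∃ δ : ℝ, δ = (r2 - r1) / 3 := ⟨_, rfl⟩
  have hδ0 : 0 < δ := by rw [hδ]; linarith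
  let f : ContDiffBump p := ⟨r1 + δ, r1 + 2 * δ, by linarith, by linarith⟩
  have hfin : f.rIn = r1 + δ := rfl
  have hfout : f.rOut = r1 + 2 * δ := rfl
  have hout : r1 + 2 * δ < r2 := by rw [hδ]; linarith
  have hO1 : IsOpen (e ⁻¹' ball p r2) := isOpen_ball.preimage e.continuous
  have hO2 : IsOpen (e ⁻¹' (closedBall p r1)ᶜ) :=
    isClosed_closedBall.isOpen_compl.preimage e.continuous
  have hχ : ContDiff ℝ ∞ (fun x : Fin n → ℂ => ((f (e x) : ℝ) : ℂ)) := by
    have h4 : ContDiff ℝ ∞ (fun x : Fin n → ℂ => e x) :=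
      ((e : (Fin n → ℂ) →L[ℂ] Cn n).restrictScalars ℝ).contDiff
    exact Complex.ofRealCLM.contDiff.comp (f.contDiff.comp h4)
  have hts : tsupport (fun x : Fin n → ℂ => ((f (e x) : ℝ) : ℂ)) ⊆
      e ⁻¹' closedBall p (r1 + 2 * δ) := by
    refine closure_minimal (fun x hx => ?_) (isClosed_closedBall.preimage e.continuous)
    by_contra h
    apply hx
    have h5 : f (e x) = 0 := f.zero_of_le_dist (by
      rw [hfout]
      have h6 : e x ∉ closedBall p (r1 + 2 * δ) := h
      rw [mem_closedBall, not_le] at h6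
      exact h6.le)
    change ((f (e x) : ℝ) : ℂ) = 0
    rw [h5, Complex.ofReal_zero]
  have hχc : HasCompactSupport (fun x : Fin n → ℂ => ((f (e x) : ℝ) : ℂ)) := by
    have h7 : IsCompact (e ⁻¹' closedBall p (r1 + 2 * δ)) := by
      have := (isCompact_closedBall p (r1 + 2 * δ))
      exact (e.toHomeomorph.isCompact_preimage).2 this
    exact h7.of_isClosed_subset (isClosed_tsupport _) hts
  have hχ1 : tsupport (fun x : Fin n → ℂ => ((f (e x) : ℝ) : ℂ)) ⊆ e ⁻¹' ball p r2 := by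
    intro x hx
    have h8 : e x ∈ closedBall p (r1 + 2 * δ) := hts hx
    exact closedBall_subset_ball hout h8
  have hχ2 : tsupport (fun x : Fin n → ℂ => 1 - ((f (e x) : ℝ) : ℂ)) ⊆
      e ⁻¹' (closedBall p r1)ᶜ := by
    have h9 : tsupport (fun x : Fin n → ℂ => 1 - ((f (e x) : ℝ) : ℂ)) ⊆
        e ⁻¹' (ball p (r1 + δ))ᶜ := by
      refine closure_minimal (fun x hx => ?_) (isOpen_ball.isClosed_compl.preimage e.continuous)
      intro h
      apply hx
      have h10 : f (e x) = 1 := f.one_of_mem_closedBall (ball_subset_closedBall h)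
      change 1 - ((f (e x) : ℝ) : ℂ) = 0
      rw [h10, Complex.ofReal_one, sub_self]
    intro x hx hx'
    exact h9 hx (closedBall_subset_ball (by linarith) hx')
  have hmem : ∀ z : Cn n, z ∈ D' → r1 < ‖z - p‖ → ‖z - p‖ < r2 →
      e.symm z ∈ (e ⁻¹' D') ∩ (e ⁻¹' ball p r2 ∩ e ⁻¹' (closedBall p r1)ᶜ) := by
    intro z hz hz1 hz2
    refine ⟨?_, ?_, ?_⟩
    · change e (e.symm z) ∈ D'
      rw [e.apply_symm_apply]; exact hz
    · change e (e.symm z) ∈ ball p r2
      rw [e.apply_symm_apply, mem_ball_iff_norm]; exact hz2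
    · change e (e.symm z) ∈ (closedBall p r1)ᶜ
      rw [e.apply_symm_apply, mem_compl_iff, mem_closedBall_iff_norm, not_le]; exact hz1
  have hmem' : ∀ x ∈ (e ⁻¹' D') ∩ (e ⁻¹' ball p r2 ∩ e ⁻¹' (closedBall p r1)ᶜ),
      e x ∈ D' ∧ r1 < ‖e x - p‖ ∧ ‖e x - p‖ < r2 := by
    rintro x ⟨hx1, hx2, hx3⟩
    refine ⟨hx1, ?_, ?_⟩
    · have h11 : e x ∉ closedBall p r1 := hx3
      rw [mem_closedBall_iff_norm, not_le] at h11
      exact h11
    · exact mem_ball_iff_norm.1 hx2
  obtain ⟨G1, G2, hG1, hG2, hG12⟩ := cousin_En hΩ hΩb (cousin_psc ho hP e) hO1 hO2 hχ hχc hχ1 hχ2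
    (G := fun x => G (e x)) (B := B)
    (hG.comp e.differentiable.differentiableOn fun x hx => ⟨(hmem' x hx).1, (hmem' x hx).2⟩)
    (fun x hx => hGB _ (hmem' x hx).1 (hmem' x hx).2.1 (hmem' x hx).2.2)
  refine ⟨fun z => G1 (e.symm z), fun z => G2 (e.symm z), ?_, ?_, ?_⟩
  · refine hG1.comp e.symm.differentiable.differentiableOn fun z hz => ?_
    refine ⟨?_, ?_⟩
    · change e (e.symm z) ∈ D'
      rw [e.apply_symm_apply]; exact hz.1
    · change e (e.symm z) ∈ ball p r2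
      rw [e.apply_symm_apply]; exact hz.2
  · refine hG2.comp e.symm.differentiable.differentiableOn fun z hz => ?_
    refine ⟨?_, ?_⟩
    · change e (e.symm z) ∈ D'
      rw [e.apply_symm_apply]; exact hz.1
    · change e (e.symm z) ∈ (closedBall p r1)ᶜ
      rw [e.apply_symm_apply]; exact hz.2
  · intro z hz hz1 hz2
    have := hG12 (e.symm z) (hmem z hz hz1 hz2)
    simpa using this

end Pool.Agent.Helper123
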