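import Mathlib
import Pool.Agent.H805R2.Base
import Pool.Agent.Helper123.Defs

set_option autoImplicit false

open MeasureTheory Metric Set Filter Topology
open scoped ENNReal NNReal ContDiff ComplexConjugate

namespace Pool.Agent.Helper123

open Pool.Agent.H805R2

variable {n : ℕ}

lemma dp_D2_nsq (z ξ : Cn n) : D2 (fun x : Cn n => ‖x‖ ^ 2) z ξ ξ = 2 * ‖ξ‖ ^ 2 := by
  have h1 : ∀ x : Cn n, HasFDerivAt (fun x : Cn n => ‖x‖ ^ 2) (2 • innerSL ℝ x) x :=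
    fun x => (hasStrictFDerivAt_norm_sq x).hasFDerivAt
  have h2 : fderiv ℝ (fun x : Cn n => ‖x‖ ^ 2) = fun x => 2 • innerSL ℝ x := by
    funext x; exact (h1 x).fderiv
  unfold D2
  rw [h2]
  have h3 : HasFDerivAt (fun x : Cn n => (2 : ℕ) • innerSL ℝ x)
      ((2 : ℕ) • (innerSL ℝ : Cn n →L[ℝ] Cn n →L[ℝ] ℝ)) z := by
    exact ((innerSL ℝ : Cn n →L[ℝ] Cn n →L[ℝ] ℝ).hasFDerivAt).const_smul (2 : ℕ)
  rw [h3.fderiv]
  have : ((innerSL ℝ) ξ) ξ = ‖ξ‖ ^ 2 := by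
    rw [innerSL_apply_apply]; exact real_inner_self_eq_norm_sq ξ
  simp [this]

lemma dp_levi_nonneg {ρ : Cn n → ℝ} (hρ : ContDiff ℝ ∞ ρ) (ε A : ℝ) (z : Cn n) (hz : ρ z < ε)
    (ξ : Cn n) (h : 0 ≤ (ε - ρ z)⁻¹ * levi ρ z ξ + A * ‖ξ‖ ^ 2) :
    0 ≤ levi (fun x => -Real.log (ε - ρ x) + A * ‖x‖ ^ 2) z ξ := by
  have hd : Differentiable ℝ ρ := hρ.differentiable (by simp)
  have hd1 : ContDiff ℝ ∞ (fderiv ℝ ρ) := hρ.fderiv_right (m := ∞) (by simp)
  have hdd : Differentiable ℝ (fderiv ℝ ρ) := hd1.differentiable (by simp)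
  have hop : IsOpen {x | ρ x < ε} := isOpen_lt hρ.continuous continuous_const
  have hN : Differentiable ℝ (fun x : Cn n => ‖x‖ ^ 2) := fun x =>
    (hasStrictFDerivAt_norm_sq x).hasFDerivAt.differentiableAt
  have hN1 : ContDiff ℝ ∞ (fun x : Cn n => ‖x‖ ^ 2) := contDiff_norm_sq ℝ
  have hN2 : Differentiable ℝ (fderiv ℝ (fun x : Cn n => ‖x‖ ^ 2)) :=
    (hN1.fderiv_right (m := ∞) (by simp)).differentiable (by simp)
  have h1 : ∀ x, ρ x < ε → HasFDerivAt (fun x => -Real.log (ε - ρ x) + A * ‖x‖ ^ 2)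
      ((ε - ρ x)⁻¹ • fderiv ℝ ρ x + A • fderiv ℝ (fun x : Cn n => ‖x‖ ^ 2) x) x := by
    intro x hx
    have a1 : HasFDerivAt (fun x => ε - ρ x) (-(fderiv ℝ ρ x)) x := by
      simpa using (hd x).hasFDerivAt.const_sub ε
    have a2 := (a1.log (sub_pos.2 hx).ne').neg
    have a3 := ((hN x).hasFDerivAt.const_mul A)
    have a4 := a2.add a3
    refine a4.congr_fderiv ?_
    simp
  have h2 : fderiv ℝ (fun x => -Real.log (ε - ρ x) + A * ‖x‖ ^ 2) =ᶠ[𝓝 z]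
      fun x => (ε - ρ x)⁻¹ • fderiv ℝ ρ x + A • fderiv ℝ (fun x : Cn n => ‖x‖ ^ 2) x := by
    filter_upwards [hop.mem_nhds hz] with x hx
    exact (h1 x hx).fderiv
  have h3 : HasFDerivAt (fun x => (ε - ρ x)⁻¹ • fderiv ℝ ρ x +
      A • fderiv ℝ (fun x : Cn n => ‖x‖ ^ 2) x)
      (((ε - ρ z)⁻¹ • fderiv ℝ (fderiv ℝ ρ) z +
        ((((ε - ρ z) ^ 2)⁻¹ • fderiv ℝ ρ z).smulRight (fderiv ℝ ρ z))) +
        A • fderiv ℝ (fderiv ℝ (fun x : Cn n => ‖x‖ ^ 2)) z) z := by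
    have a1 : HasFDerivAt (fun x => ε - ρ x) (-(fderiv ℝ ρ z)) z := by
      simpa using (hd z).hasFDerivAt.const_sub ε
    have hne : ε - ρ z ≠ 0 := (sub_pos.2 hz).ne'
    have a2 : HasFDerivAt (fun x => (ε - ρ x)⁻¹) (((ε - ρ z) ^ 2)⁻¹ • fderiv ℝ ρ z) z := by
      have := (hasDerivAt_inv hne).comp_hasFDerivAt z a1
      refine this.congr_fderiv ?_
      simp
    have a3 := a2.smul (hdd z).hasFDerivAt
    exact a3.add ((hN2 z).hasFDerivAt.const_smul A)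
  have key : ∀ v : Cn n, D2 (fun x => -Real.log (ε - ρ x) + A * ‖x‖ ^ 2) z v v =
      (ε - ρ z)⁻¹ * D2 ρ z v v + ((ε - ρ z) ^ 2)⁻¹ * (fderiv ℝ ρ z v) ^ 2 + A * (2 * ‖v‖ ^ 2) := by
    intro v
    have h4 := dp_D2_nsq z v
    unfold D2 at h4 ⊢
    rw [h2.fderiv_eq, h3.fderiv]
    simp only [add_apply, smul_apply, ContinuousLinearMap.smulRight_apply, smul_eq_mul, h4]
    ring
  have hI : ‖(Complex.I • ξ : Cn n)‖ = ‖ξ‖ := by rw [norm_smul]; simp
  unfold levi at h ⊢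
  rw [key, key, hI]
  have hp : 0 < ((ε - ρ z) ^ 2)⁻¹ := by
    have : 0 < ε - ρ z := sub_pos.2 hz
    positivity
  have q1 : 0 ≤ ((ε - ρ z) ^ 2)⁻¹ * (fderiv ℝ ρ z ξ) ^ 2 := by positivity
  have q2 : 0 ≤ ((ε - ρ z) ^ 2)⁻¹ * (fderiv ℝ ρ z (Complex.I • ξ)) ^ 2 := by positivity
  nlinarith [h, q1, q2]

lemma dp_levi_bound {ρ : Cn n → ℝ} (z ξ : Cn n) {K : ℝ}
    (hK : ‖fderiv ℝ (fderiv ℝ ρ) z‖ ≤ K) : |levi ρ z ξ| ≤ K * ‖ξ‖ ^ 2 := by
  have hI : ‖(Complex.I • ξ : Cn n)‖ = ‖ξ‖ := by rw [norm_smul]; simp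
  have h0 : ∀ v : Cn n, |D2 ρ z v v| ≤ K * ‖v‖ ^ 2 := by
    intro v
    unfold D2
    have h1 := (fderiv ℝ (fderiv ℝ ρ) z v).le_opNorm v
    have h2 := (fderiv ℝ (fderiv ℝ ρ) z).le_opNorm v
    rw [Real.norm_eq_abs] at h1
    calc |fderiv ℝ (fderiv ℝ ρ) z v v| ≤ ‖fderiv ℝ (fderiv ℝ ρ) z v‖ * ‖v‖ := h1
      _ ≤ (‖fderiv ℝ (fderiv ℝ ρ) z‖ * ‖v‖) * ‖v‖ := by gcongr
      _ ≤ (K * ‖v‖) * ‖v‖ := by gcongr
      _ = K * ‖v‖ ^ 2 := by ring
  have a := h0 ξ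
  have b := h0 (Complex.I • ξ)
  rw [hI] at b
  unfold levi
  rw [abs_div, abs_of_pos (by norm_num : (0 : ℝ) < 4)]
  have c := abs_add_le (D2 ρ z ξ ξ) (D2 ρ z (Complex.I • ξ) (Complex.I • ξ))
  have hK0 : 0 ≤ K * ‖ξ‖ ^ 2 := le_trans (abs_nonneg _) a
  rw [div_le_iff₀ (by norm_num)]
  linarith

lemma dp_levi_sub {ρ : Cn n → ℝ} (z w ξ : Cn n) {K : ℝ}
    (hK : ‖fderiv ℝ (fderiv ℝ ρ) z - fderiv ℝ (fderiv ℝ ρ) w‖ ≤ K) :
    |levi ρ z ξ - levi ρ w ξ| ≤ K * ‖ξ‖ ^ 2 := by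
  have hI : ‖(Complex.I • ξ : Cn n)‖ = ‖ξ‖ := by rw [norm_smul]; simp
  have h0 : ∀ v : Cn n, |D2 ρ z v v - D2 ρ w v v| ≤ K * ‖v‖ ^ 2 := by
    intro v
    unfold D2
    set T := fderiv ℝ (fderiv ℝ ρ) z - fderiv ℝ (fderiv ℝ ρ) w with hT
    have e : fderiv ℝ (fderiv ℝ ρ) z v v - fderiv ℝ (fderiv ℝ ρ) w v v = T v v := by
      simp [hT]
    rw [e]
    have h1 := (T v).le_opNorm v
    have h2 := T.le_opNorm v
    rw [Real.norm_eq_abs] at h1
    calc |T v v| ≤ ‖T v‖ * ‖v‖ := h1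
      _ ≤ (‖T‖ * ‖v‖) * ‖v‖ := by gcongr
      _ ≤ (K * ‖v‖) * ‖v‖ := by gcongr
      _ = K * ‖v‖ ^ 2 := by ring
  have a := h0 ξ
  have b := h0 (Complex.I • ξ)
  rw [hI] at b
  have hK0 : 0 ≤ K * ‖ξ‖ ^ 2 := le_trans (abs_nonneg _) a
  unfold levi
  rw [abs_le] at a b ⊢
  constructor <;> linarith [a.1, a.2, b.1, b.2]

lemma dp_cn : Continuous (fun T : Cn n →L[ℝ] Cn n →L[ℝ] ℝ => ‖T‖) :=
  @continuous_norm (Cn n →L[ℝ] Cn n →L[ℝ] ℝ) _

lemma dp_closure {D : Set (Cn n)} {ρ : Cn n → ℝ} {c : ℝ} (hD : SPD D ρ c) :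
    closure D = {z | ρ z ≤ 0} := by
  have hc := hD.smooth.continuous
  apply Subset.antisymm
  · have : IsClosed {z | ρ z ≤ 0} := isClosed_le hc continuous_const
    refine closure_minimal ?_ this
    rw [hD.eq]; intro z hz; exact (show ρ z < 0 from hz).le
  · intro z hz
    rcases lt_or_eq_of_le (show ρ z ≤ 0 from hz) with h | h
    · exact subset_closure (by rw [hD.eq]; exact h)
    · have hg := hD.grad z h
      obtain ⟨v, hv⟩ : ∃ v, fderiv ℝ ρ z v ≠ 0 := by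
        by_contra hcon
        push Not at hcon
        exact hg (ContinuousLinearMap.ext hcon)
      -- a direction of decrease
      obtain ⟨v, hv⟩ : ∃ v, fderiv ℝ ρ z v < 0 := by
        rcases lt_or_gt_of_ne hv with h' | h'
        · exact ⟨v, h'⟩
        · exact ⟨-v, by simpa using h'⟩
      have hd : HasFDerivAt ρ (fderiv ℝ ρ z) z :=
        (hD.smooth.differentiable (by simp) z).hasFDerivAt
      have hline : HasDerivAt (fun t : ℝ => ρ (z + t • v)) (fderiv ℝ ρ z v) 0 := by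
        have h1 : HasDerivAt (fun t : ℝ => z + t • v) v 0 := by
          simpa using ((hasDerivAt_id (0 : ℝ)).smul_const v).const_add z
        have h2 : HasFDerivAt ρ (fderiv ℝ ρ z) ((fun t : ℝ => z + t • v) 0) := by
          simpa using hd
        exact h2.comp_hasDerivAt 0 h1
      have hev : ∀ᶠ t in 𝓝[>] (0 : ℝ), ρ (z + t • v) < 0 := by
        have hs := hasDerivAt_iff_tendsto_slope.1 hline
        have h3 : ∀ᶠ t in 𝓝[≠] (0 : ℝ), slope (fun t : ℝ => ρ (z + t • v)) 0 t < 0 :=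
          hs.eventually (gt_mem_nhds hv)
        have h4 : ∀ᶠ t in 𝓝[>] (0 : ℝ), slope (fun t : ℝ => ρ (z + t • v)) 0 t < 0 :=
          h3.filter_mono (nhdsWithin_mono _ (fun t ht => ne_of_gt ht))
        filter_upwards [h4, self_mem_nhdsWithin] with t ht ht0
        have ht0' : (0 : ℝ) < t := ht0
        rw [slope_def_field] at ht
        simp only [zero_smul, add_zero, h, sub_zero] at ht
        exact (div_neg_iff.1 ht).resolve_left (fun hh => absurd hh.2 (not_lt.2 ht0'.le)) |>.1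
      have htend : Tendsto (fun t : ℝ => z + t • v) (𝓝[>] (0 : ℝ)) (𝓝 z) := by
        have h1 : Continuous (fun t : ℝ => z + t • v) := by fun_prop
        have h2 := h1.tendsto 0
        simp only [zero_smul, add_zero] at h2
        exact h2.mono_left nhdsWithin_le_nhds
      refine mem_closure_of_tendsto htend ?_
      filter_upwards [hev] with t ht
      rw [hD.eq]; exact ht

/-- TARGET -/
theorem exists_Dplus {D : Set (Cn n)} {ρ : Cn n → ℝ} {c : ℝ} (hD : SPD D ρ c) (O : Set (Cn n))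
    (hO : IsOpen O) (hDO : closure D ⊆ O) :
    ∃ D' : Set (Cn n), IsOpen D' ∧ Bornology.IsBounded D' ∧ closure D ⊆ D' ∧ D' ⊆ O ∧
      PscE D' := by
  have hρ := hD.smooth
  have hc : Continuous ρ := hρ.continuous
  have hcl := dp_closure hD
  have hcc : IsCompact (closure D) := hD.bdd.isCompact_closure
  have hH : Continuous (fderiv ℝ (fderiv ℝ ρ)) :=
    ((hρ.fderiv_right (m := ∞) (by simp)).fderiv_right (m := ∞) (by simp)).continuous
  set P : Set (Cn n) := {z | ∀ ξ : Cn n, 0 ≤ levi ρ z ξ} with hP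
  have hPn : ∀ z, ρ z = 0 → P ∈ 𝓝 z := by
    intro z hz
    have h1 : ∀ᶠ w in 𝓝 z, ‖fderiv ℝ (fderiv ℝ ρ) w - fderiv ℝ (fderiv ℝ ρ) z‖ < c := by
      have : Tendsto (fun w => ‖fderiv ℝ (fderiv ℝ ρ) w - fderiv ℝ (fderiv ℝ ρ) z‖) (𝓝 z)
          (𝓝 ‖fderiv ℝ (fderiv ℝ ρ) z - fderiv ℝ (fderiv ℝ ρ) z‖) := by
        have h0 : Continuous (fun w => fderiv ℝ (fderiv ℝ ρ) w - fderiv ℝ (fderiv ℝ ρ) z) :=
          hH.sub continuous_const
        exact (dp_cn.comp h0).tendsto z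
      rw [sub_self, show ‖(0 : Cn n →L[ℝ] Cn n →L[ℝ] ℝ)‖ = 0 from @norm_zero (Cn n →L[ℝ] Cn n →L[ℝ] ℝ) _] at this
      exact this.eventually (gt_mem_nhds hD.c_pos)
    filter_upwards [h1] with w hw ξ
    have h2 := dp_levi_sub w z ξ hw.le
    have h3 := hD.levi z hz ξ
    rw [abs_le] at h2
    linarith [h2.1]
  set W := interior P with hW
  have hWo : IsOpen W := isOpen_interior
  set U := (W ∪ {z | ρ z < 0}) ∩ O with hU
  have hUo : IsOpen U := (hWo.union (isOpen_lt hc continuous_const)).inter hO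
  have hDU : closure D ⊆ U := by
    intro z hz
    refine ⟨?_, hDO hz⟩
    rw [hcl] at hz
    rcases lt_or_eq_of_le (show ρ z ≤ 0 from hz) with h | h
    · exact Or.inr h
    · exact Or.inl (mem_interior_iff_mem_nhds.2 (hPn z h))
  obtain ⟨s, hs0, hs⟩ := hcc.exists_cthickening_subset_open hUo hDU
  set N := thickening s (closure D) with hN
  set C := cthickening s (closure D) with hC
  have hCc : IsCompact C := hcc.cthickening
  have hNC : N ⊆ C := thickening_subset_cthickening _ _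
  have hNo : IsOpen N := isOpen_thickening
  have hDN : closure D ⊆ N := self_subset_thickening hs0 _
  -- the level `ε`
  obtain ⟨ε, hε0, hε⟩ : ∃ ε > 0, ∀ z ∈ C, z ∉ N → ε ≤ ρ z := by
    have hK : IsCompact (C \ N) := hCc.diff hNo
    rcases (C \ N).eq_empty_or_nonempty with he | hne
    · exact ⟨1, one_pos, fun z hz hz' => absurd (show z ∈ C \ N from ⟨hz, hz'⟩) (by rw [he]; simp)⟩
    · obtain ⟨z0, hz0, hmin⟩ := hK.exists_isMinOn hne hc.continuousOn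
      have hpos : 0 < ρ z0 := by
        by_contra hcon
        exact hz0.2 (hDN (by rw [hcl]; exact not_lt.1 hcon))
      exact ⟨ρ z0, hpos, fun z hz hz' => hmin (show z ∈ C \ N from ⟨hz, hz'⟩)⟩
  obtain ⟨δ, hδ0, hδ⟩ : ∃ δ > 0, ∀ z ∈ C, z ∉ W → ρ z ≤ -δ := by
    have hK : IsCompact (C \ W) := hCc.diff hWo
    rcases (C \ W).eq_empty_or_nonempty with he | hne
    · exact ⟨1, one_pos, fun z hz hz' => absurd (show z ∈ C \ W from ⟨hz, hz'⟩) (by rw [he]; simp)⟩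
    · obtain ⟨z0, hz0, hmax⟩ := hK.exists_isMaxOn hne hc.continuousOn
      have hneg : ρ z0 < 0 := by
        rcases (hs hz0.1).1 with h | h
        · exact absurd h hz0.2
        · exact h
      refine ⟨-ρ z0, by linarith, fun z hz hz' => ?_⟩
      have := hmax (show z ∈ C \ W from ⟨hz, hz'⟩)
      simpa using this
  obtain ⟨K, hK0, hK⟩ : ∃ K ≥ 0, ∀ z ∈ C, ‖fderiv ℝ (fderiv ℝ ρ) z‖ ≤ K := by
    have h0 : Continuous (fun z => ‖fderiv ℝ (fderiv ℝ ρ) z‖) := dp_cn.comp hH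
    obtain ⟨K, hK⟩ := hCc.exists_bound_of_continuousOn h0.continuousOn
    exact ⟨max K 0, le_max_right _ _, fun z hz => by
      have := hK z hz
      rw [Real.norm_eq_abs] at this
      exact (le_abs_self _).trans (this.trans (le_max_left _ _))⟩
  set A := K / δ with hA
  have hA0 : 0 ≤ A := by positivity
  set D' : Set (Cn n) := {z | z ∈ N ∧ ρ z < ε} with hD'
  have hD'o : IsOpen D' := hNo.inter (isOpen_lt hc continuous_const)
  refine ⟨D', hD'o, hCc.isBounded.subset (fun z hz => hNC hz.1), ?_, ?_, ?_⟩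
  · intro z hz
    refine ⟨hDN hz, ?_⟩
    rw [hcl] at hz
    exact lt_of_le_of_lt hz hε0
  · intro z hz
    exact (hs (hNC hz.1)).2
  · set ψ : Cn n → ℝ := fun x => -Real.log (ε - ρ x) + A * ‖x‖ ^ 2 with hψ
    have hψs : ∀ z, ρ z < ε → ContDiffAt ℝ ∞ ψ z := by
      intro z hz
      have h1 : ContDiffAt ℝ ∞ (fun x => ε - ρ x) z := contDiffAt_const.sub hρ.contDiffAt
      have h2 : ContDiffAt ℝ ∞ (fun x => Real.log (ε - ρ x)) z := h1.log (sub_pos.2 hz).ne'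
      exact h2.neg.add (contDiffAt_const.mul (contDiff_norm_sq ℝ).contDiffAt)
    refine ⟨ψ, fun z hz => (hψs z hz.2).contDiffWithinAt, ?_, ?_⟩
    · intro M
      set T : Set (Cn n) := C ∩ {z | ρ z ≤ ε - Real.exp (-M)} with hT
      have hTc : IsCompact T := hCc.inter_right (isClosed_le hc continuous_const)
      have hTε : ∀ z ∈ T, ρ z < ε := fun z hz => by
        have h1 : ρ z ≤ ε - Real.exp (-M) := hz.2
        linarith [Real.exp_pos (-M)]
      have heq : {z | z ∈ D' ∧ ψ z ≤ M} = T ∩ ψ ⁻¹' (Iic M) := by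
        ext z
        constructor
        · rintro ⟨hz, hM⟩
          refine ⟨⟨hNC hz.1, ?_⟩, hM⟩
          have hpos : 0 < ε - ρ z := sub_pos.2 hz.2
          have h1 : -M ≤ Real.log (ε - ρ z) := by
            have h2 : -Real.log (ε - ρ z) + A * ‖z‖ ^ 2 ≤ M := hM
            have h3 : 0 ≤ A * ‖z‖ ^ 2 := by positivity
            linarith
          have h4 := (Real.le_log_iff_exp_le hpos).1 h1
          show ρ z ≤ ε - Real.exp (-M)
          linarith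
        · rintro ⟨hz, hM⟩
          refine ⟨⟨?_, hTε z hz⟩, hM⟩
          by_contra hcon
          have := hε z hz.1 hcon
          linarith [hTε z hz]
      rw [heq]
      have hcT : ContinuousOn ψ T := fun z hz => (hψs z (hTε z hz)).continuousAt.continuousWithinAt
      exact hTc.of_isClosed_subset (hcT.preimage_isClosed_of_isClosed hTc.isClosed isClosed_Iic)
        inter_subset_left
    · intro z hz ξ
      apply dp_levi_nonneg hρ ε A z hz.2 ξ
      have hpos : 0 < ε - ρ z := sub_pos.2 hz.2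
      by_cases hzW : z ∈ W
      · have h1 : 0 ≤ levi ρ z ξ := interior_subset hzW ξ
        positivity
      · have h1 := hδ z (hNC hz.1) hzW
        have h2 := dp_levi_bound z ξ (hK z (hNC hz.1))
        rw [abs_le] at h2
        have h3 : (ε - ρ z)⁻¹ ≤ δ⁻¹ := by
          apply inv_anti₀ hδ0; linarith
        have h4 : (ε - ρ z)⁻¹ * (-(K * ‖ξ‖ ^ 2)) ≤ (ε - ρ z)⁻¹ * levi ρ z ξ :=
          mul_le_mul_of_nonneg_left h2.1 (by positivity)
        have h5 : (ε - ρ z)⁻¹ * (K * ‖ξ‖ ^ 2) ≤ δ⁻¹ * (K * ‖ξ‖ ^ 2) :=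
          mul_le_mul_of_nonneg_right h3 (by positivity)
        have h6 : A * ‖ξ‖ ^ 2 = δ⁻¹ * (K * ‖ξ‖ ^ 2) := by rw [hA, div_eq_mul_inv]; ring
        rw [h6]
        linarith

end Pool.Agent.Helper123
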