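import Mathlib
import Pool.Agent.Helper123.Cousin
import Pool.Agent.Helper123.Dplus
import Pool.Agent.H805R2.Base
import Pool.Agent.Helper123.Defs

/-! Part of the proof of S06843 (MP_fedc70_an). -/

set_option autoImplicit false

open MeasureTheory Metric Set Filter Topology
open scoped ENNReal NNReal ContDiff ComplexConjugate

namespace Pool.Agent.Helper123

open Pool.Agent.H805R2

variable {n : ℕ}



/-- TARGET. PROOF. closure D subset {rho<=0}. d(z)=infDist z F. Fix r0<r1<r2<R5, r12=(r1+r2)/2. S = closure D inter {r1<=|z-p|<=r2} is compact, d>=r1-r0>0 on it, so G is holomorphic on the balls B(z, c' d^m), z in S, and bounded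
there; with delta=c'(r1-r0)^m the open delta-neighbourhood S_d of S is covered. O := S_d union ball p r1 union (closedBall p r2)^c is open and contains closure D; O inter {r1<|z-p|<r2} subset S_d. exists_Dplus gives
D' in O, cousin gives G1 (on D' inter ball p r2), G2 (on D' minus closedBall p r1), G=G1-G2 on the shell in D'. dist(closure D, complement of D')=: delta1>0. f_F(x) := if |x-p|<r12 then exp(-(G x - G1 x)) else exp(G2 x).
For z in closure D minus F take the ball of radius c2 d(z)^{m2} with c2, m2 (m2 = 2m+something) such that it is <= min(delta1, (r2-r1)/8, c' d^m/2...). Holomorphy: if |z-p|<r12 - small the first formula on the ball, if crossing,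
both formulas agree on the shell (-(G-G1) = G2), else the second. Never zero. Bound |f_F x|<=C_N d^N: (i) if |z-p|>=r12-small: d>=const, f_F is bounded by compactness (closed small neighbourhood of the compact set closure D
minus ball; G2 continuous on a compact subset of D' minus closedBall p r1); (ii) if |z-p|<r12: gradient bound |dG| <= Cb d^{-m}/(c'd^m/2) on the half ball, so |G x-G z|<=1 if |x-z|<=c2 d^{2m}, c2 small; Re G z >= -log|f(z-t nu)|
with t<=d, e in F with |z-e|=d: |f(z-t nu)| <= C(|z-e|+t|nu|)^N <= C' d^N and f(z-t nu) != 0, so |exp(-G z)| = exp(-Re G z) <= |f(z-t nu)| <= C'd^N; exp(G1) is bounded on a compact neighbourhood (closed delta1/2-neighbourhood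
of closure D intersected with closedBall p (r12+small) in D' inter ball p r2). If D (closure D) is empty everything is vacuous. -/
theorem NU_of_patch {D : Set (Cn n)} {ρ : Cn n → ℝ} {c : ℝ} (hn : 1 ≤ n) (hD : SPD D ρ c)
    (p : Cn n) (R5 : ℝ) (f : Cn n → ℂ) (ν : Cn n) (F : Set (Cn n)) (hFc : IsClosed F) (hF : F.Nonempty)
    (r0 : ℝ) (hr0 : 0 < r0) (hr5 : r0 < R5) (hFr : F ⊆ closedBall p r0) (hFD : F ⊆ frontier D)
    (Rf : ℝ)
    (hfl : ∀ N : ℕ, ∃ C : ℝ, ∀ z ∈ D, ‖z - p‖ < Rf → ∀ e ∈ F, ‖f z‖ ≤ C * ‖z - e‖ ^ N)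
    (ts : ℝ) (hts : ∀ t ∈ Ioo 0 ts, ∀ z ∈ closure D, ‖z - p‖ < R5 →
      z - (t : ℂ) • ν ∈ D ∧ ‖z - (t : ℂ) • ν - p‖ < Rf ∧ f (z - (t : ℂ) • ν) ≠ 0)
    (G : Cn n → ℂ) (m : ℕ) (c' Cb : ℝ) (hc' : 0 < c')
    (hG : ∀ z ∈ ball p R5, ρ z ≤ 0 → z ∉ F →
        DifferentiableOn ℂ G (ball z (c' * infDist z F ^ m)) ∧
        ∀ x ∈ ball z (c' * infDist z F ^ m), ‖G x‖ * infDist z F ^ m ≤ Cb)
    (hG2 : ∀ z ∈ ball p R5, ρ z ≤ 0 → z ∉ F →
        ∃ t ∈ Ioo 0 ts, t ≤ infDist z F ∧ - Real.log ‖f (z - (t : ℂ) • ν)‖ ≤ (G z).re) :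
    NU D F := by
  -- the radii
  obtain ⟨δ0, hδ0⟩ : ∃ δ0 : ℝ, δ0 = (R5 - r0) / 4 := ⟨_, rfl⟩
  have hδpos : 0 < δ0 := by rw [hδ0]; linarith
  have hR5 : R5 = r0 + 4 * δ0 := by rw [hδ0]; ring
  obtain ⟨e0, he0⟩ := hF
  have hdist : ∀ z : Cn n, ‖z - p‖ - r0 ≤ infDist z F := by
    intro z
    refine (le_infDist ⟨e0, he0⟩).2 fun e he => ?_
    have h1 : ‖e - p‖ ≤ r0 := by
      have := hFr he
      rwa [mem_closedBall, dist_eq_norm] at this
    have h2 : ‖z - p‖ ≤ ‖z - e‖ + ‖e - p‖ := by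
      have : z - p = (z - e) + (e - p) := by abel
      rw [this]
      exact norm_add_le _ _
    rw [dist_eq_norm]
    linarith
  have hclρ : ∀ z ∈ closure D, ρ z ≤ 0 := by
    intro z hz
    have hcl : IsClosed {z : Cn n | ρ z ≤ 0} := isClosed_le hD.smooth.continuous continuous_const
    refine (closure_minimal ?_ hcl) hz
    intro y hy
    rw [hD.eq] at hy
    have hy' : ρ y < 0 := hy
    exact hy'.le
  have hcomp : IsCompact (closure D) := hD.bdd.isCompact_closure
  -- the neighbourhood of the shell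
  obtain ⟨δs, hδs⟩ : ∃ δs : ℝ, δs = c' * δ0 ^ m := ⟨_, rfl⟩
  have hδsp : 0 < δs := by rw [hδs]; positivity
  obtain ⟨S, hS⟩ : ∃ S : Set (Cn n), S = closure D ∩ {z | r0 + δ0 ≤ ‖z - p‖ ∧ ‖z - p‖ ≤ r0 + 3 * δ0} :=
    ⟨_, rfl⟩
  have hSball : ∀ z ∈ S, z ∈ ball p R5 ∧ ρ z ≤ 0 ∧ z ∉ F ∧ δ0 ≤ infDist z F := by
    intro z hz
    rw [hS] at hz
    obtain ⟨z1, z2, z3⟩ := hz
    have hd : δ0 ≤ infDist z F := by have := hdist z; linarith
    refine ⟨?_, hclρ z z1, ?_, hd⟩
    · rw [mem_ball, dist_eq_norm]; linarith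
    · intro hzF
      have := hFr hzF
      rw [mem_closedBall, dist_eq_norm] at this
      linarith
  have hSG : ∀ x ∈ thickening δs S, DifferentiableAt ℂ G x ∧ ‖G x‖ ≤ Cb / δ0 ^ m := by
    intro x hx
    rw [mem_thickening_iff] at hx
    obtain ⟨z, hz, hxz⟩ := hx
    obtain ⟨a1, a2, a3, a4⟩ := hSball z hz
    obtain ⟨b1, b2⟩ := hG z a1 a2 a3
    have hp : δ0 ^ m ≤ infDist z F ^ m := pow_le_pow_left₀ hδpos.le a4 m
    have hxb : x ∈ ball z (c' * infDist z F ^ m) := by
      rw [mem_ball]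
      refine hxz.trans_le ?_
      rw [hδs]
      exact mul_le_mul_of_nonneg_left hp hc'.le
    refine ⟨b1.differentiableAt (isOpen_ball.mem_nhds hxb), ?_⟩
    rw [le_div_iff₀ (by positivity)]
    exact (mul_le_mul_of_nonneg_left hp (norm_nonneg _)).trans (b2 x hxb)
  -- the open set `O`
  obtain ⟨O, hO⟩ : ∃ O : Set (Cn n), O = thickening δs S ∪ ball p (r0 + δ0) ∪ (closedBall p (r0 + 3 * δ0))ᶜ :=
    ⟨_, rfl⟩
  have hOo : IsOpen O := by
    rw [hO]
    exact (isOpen_thickening.union isOpen_ball).union isClosed_closedBall.isOpen_compl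
  have hDO : closure D ⊆ O := by
    intro z hz
    rw [hO]
    by_cases h1 : ‖z - p‖ < r0 + δ0
    · exact Or.inl (Or.inr (by rwa [mem_ball, dist_eq_norm]))
    · by_cases h2 : ‖z - p‖ ≤ r0 + 3 * δ0
      · refine Or.inl (Or.inl (self_subset_thickening hδsp _ ?_))
        rw [hS]
        exact ⟨hz, not_lt.1 h1, h2⟩
      · refine Or.inr ?_
        rw [mem_compl_iff, mem_closedBall, dist_eq_norm]
        exact h2
  have hOs : ∀ x ∈ O, r0 + δ0 < ‖x - p‖ → ‖x - p‖ < r0 + 3 * δ0 → x ∈ thickening δs S := by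
    intro x hx h1 h2
    rw [hO] at hx
    rcases hx with (hx | hx) | hx
    · exact hx
    · rw [mem_ball, dist_eq_norm] at hx
      linarith
    · rw [mem_compl_iff, mem_closedBall, dist_eq_norm] at hx
      exact absurd h2.le hx
  obtain ⟨D', hD'o, hD'b, hDD', hD'O, hD'P⟩ := exists_Dplus hD O hOo hDO
  obtain ⟨G1, G2, hG1, hG2', hG12⟩ := cousin hn hD'o hD'b hD'P p (r0 + δ0) (r0 + 3 * δ0)
    (by linarith) (by linarith) G
    (fun x hx => (hSG x (hOs x (hD'O hx.1) hx.2.1 hx.2.2)).1.differentiableWithinAt)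
    (Cb / δ0 ^ m) (fun x hx h1 h2 => (hSG x (hOs x (hD'O hx) h1 h2)).2)
  obtain ⟨δ1, hδ1, hδ1D⟩ := hcomp.exists_cthickening_subset_open hD'o hDD'
  have hK : IsCompact (cthickening δ1 (closure D)) := hcomp.cthickening
  -- bounds of `G1`, `G2`
  obtain ⟨B1, hB1⟩ : ∃ B1 : ℝ, ∀ x ∈ cthickening δ1 (closure D), ‖x - p‖ ≤ r0 + 2 * δ0 →
      ‖G1 x‖ ≤ B1 := by
    have hK1 : IsCompact (cthickening δ1 (closure D) ∩ closedBall p (r0 + 2 * δ0)) :=
      hK.inter_right isClosed_closedBall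
    have hc1 : ContinuousOn G1 (cthickening δ1 (closure D) ∩ closedBall p (r0 + 2 * δ0)) :=
      hG1.continuousOn.mono fun x hx => ⟨hδ1D hx.1, by
        have h2 := hx.2
        rw [mem_closedBall] at h2
        rw [mem_ball]
        linarith⟩
    obtain ⟨B, hB⟩ := hK1.exists_bound_of_continuousOn hc1
    exact ⟨B, fun x h1 h2 => hB x ⟨h1, by rwa [mem_closedBall, dist_eq_norm]⟩⟩
  obtain ⟨B2, hB2⟩ : ∃ B2 : ℝ, ∀ x ∈ cthickening δ1 (closure D), r0 + 5 / 4 * δ0 ≤ ‖x - p‖ →
      ‖G2 x‖ ≤ B2 := by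
    have hcl : IsClosed {x : Cn n | r0 + 5 / 4 * δ0 ≤ ‖x - p‖} :=
      isClosed_le continuous_const (by fun_prop)
    have hK1 : IsCompact (cthickening δ1 (closure D) ∩ {x : Cn n | r0 + 5 / 4 * δ0 ≤ ‖x - p‖}) :=
      hK.inter_right hcl
    have hc1 : ContinuousOn G2 (cthickening δ1 (closure D) ∩ {x : Cn n | r0 + 5 / 4 * δ0 ≤ ‖x - p‖}) :=
      hG2'.continuousOn.mono fun x hx => ⟨hδ1D hx.1, by
        have h2 : r0 + 5 / 4 * δ0 ≤ ‖x - p‖ := hx.2
        rw [mem_closedBall, dist_eq_norm]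
        intro h3
        linarith⟩
    obtain ⟨B, hB⟩ := hK1.exists_bound_of_continuousOn hc1
    exact ⟨B, fun x h1 h2 => hB x ⟨h1, h2⟩⟩
  -- bound of the distance
  obtain ⟨M, hM1, hM⟩ : ∃ M : ℝ, 1 ≤ M ∧ ∀ z ∈ closure D, infDist z F ≤ M := by
    obtain ⟨M, hM⟩ := hcomp.isBounded.subset_closedBall e0
    refine ⟨max M 1, le_max_right _ _, fun z hz => ?_⟩
    have h1 := hM hz
    rw [mem_closedBall] at h1
    exact ((infDist_le_dist_of_mem he0).trans h1).trans (le_max_left _ _)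
  obtain ⟨Ca, hCa⟩ : ∃ Ca : ℝ, Ca = |Cb| + 1 := ⟨_, rfl⟩
  have hCa0 : 0 < Ca := by rw [hCa]; positivity
  have hCba : Cb ≤ Ca := by rw [hCa]; linarith [le_abs_self Cb]
  -- the constant of the radius
  obtain ⟨c2, hc2⟩ : ∃ c2 : ℝ, c2 = min (min (δ1 / M ^ (2 * m)) (δ0 / 4 / M ^ (2 * m)))
      (min (c' / M ^ m) (c' / (2 * Ca))) := ⟨_, rfl⟩
  have hM0 : 0 < M := by linarith
  have hc2p : 0 < c2 := by
    rw [hc2]
    refine lt_min (lt_min ?_ ?_) (lt_min ?_ ?_) <;> positivity
  have hrad : ∀ z ∈ closure D, z ∉ F → 0 < infDist z F ∧ c2 * infDist z F ^ (2 * m) ≤ δ1 ∧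
      c2 * infDist z F ^ (2 * m) ≤ δ0 / 4 ∧
      c2 * infDist z F ^ (2 * m) ≤ c' * infDist z F ^ m ∧ c2 * (2 * Ca) ≤ c' := by
    intro z hz hzF
    have hd0 : 0 < infDist z F := (hFc.notMem_iff_infDist_pos ⟨e0, he0⟩).1 hzF
    have hdM := hM z hz
    have hp2 : infDist z F ^ (2 * m) ≤ M ^ (2 * m) := pow_le_pow_left₀ hd0.le hdM _
    have hp1 : infDist z F ^ m ≤ M ^ m := pow_le_pow_left₀ hd0.le hdM _
    refine ⟨hd0, ?_, ?_, ?_, ?_⟩
    · have h1 : c2 ≤ δ1 / M ^ (2 * m) := by rw [hc2]; exact (min_le_left _ _).trans (min_le_left _ _)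
      calc c2 * infDist z F ^ (2 * m) ≤ δ1 / M ^ (2 * m) * M ^ (2 * m) :=
            mul_le_mul h1 hp2 (by positivity) (by positivity)
        _ = δ1 := by field_simp
    · have h1 : c2 ≤ δ0 / 4 / M ^ (2 * m) := by
        rw [hc2]; exact (min_le_left _ _).trans (min_le_right _ _)
      calc c2 * infDist z F ^ (2 * m) ≤ δ0 / 4 / M ^ (2 * m) * M ^ (2 * m) :=
            mul_le_mul h1 hp2 (by positivity) (by positivity)
        _ = δ0 / 4 := by field_simp
    · have h1 : c2 ≤ c' / M ^ m := by rw [hc2]; exact (min_le_right _ _).trans (min_le_left _ _)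
      calc c2 * infDist z F ^ (2 * m) = c2 * infDist z F ^ m * infDist z F ^ m := by
            rw [two_mul, pow_add]; ring
        _ ≤ (c' / M ^ m * M ^ m) * infDist z F ^ m :=
            mul_le_mul_of_nonneg_right (mul_le_mul h1 hp1 (by positivity) (by positivity))
              (by positivity)
        _ = c' * infDist z F ^ m := by field_simp
    · have h1 : c2 ≤ c' / (2 * Ca) := by rw [hc2]; exact (min_le_right _ _).trans (min_le_right _ _)
      calc c2 * (2 * Ca) ≤ c' / (2 * Ca) * (2 * Ca) := mul_le_mul_of_nonneg_right h1 (by positivity)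
        _ = c' := by field_simp
  -- points of the ball
  have hpt : ∀ z ∈ closure D, z ∉ F → ∀ x ∈ ball z (c2 * infDist z F ^ (2 * m)),
      x ∈ cthickening δ1 (closure D) ∧ |‖x - p‖ - ‖z - p‖| < δ0 / 4 ∧
      x ∈ ball z (c' * infDist z F ^ m) := by
    intro z hz hzF x hx
    obtain ⟨-, h1, h2, h3, -⟩ := hrad z hz hzF
    rw [mem_ball] at hx
    refine ⟨?_, ?_, ?_⟩
    · exact mem_cthickening_of_dist_le x z δ1 _ hz (hx.le.trans h1)
    · have h4 := abs_norm_sub_norm_le (x - p) (z - p)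
      rw [sub_sub_sub_cancel_right] at h4
      rw [dist_eq_norm] at hx
      linarith
    · rw [mem_ball]
      linarith
  -- the function
  obtain ⟨fF, hfF⟩ : ∃ fF : Cn n → ℂ, fF = fun x =>
      if ‖x - p‖ < r0 + 2 * δ0 then Complex.exp (-(G x - G1 x)) else Complex.exp (G2 x) := ⟨_, rfl⟩
  have hfin : ∀ x, ‖x - p‖ < r0 + 2 * δ0 → fF x = Complex.exp (-(G x - G1 x)) := by
    intro x hx; rw [hfF]; exact if_pos hx
  have hfout : ∀ x ∈ D', r0 + δ0 < ‖x - p‖ → fF x = Complex.exp (G2 x) := by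
    intro x hx h1
    rw [hfF]
    by_cases h2 : ‖x - p‖ < r0 + 2 * δ0
    · show (if ‖x - p‖ < r0 + 2 * δ0 then Complex.exp (-(G x - G1 x)) else Complex.exp (G2 x)) = _
      rw [if_pos h2, hG12 x hx h1 (by linarith)]
      congr 1
      ring
    · exact if_neg h2
  refine ⟨fF, 2 * m, c2, hc2p, ?_, ?_⟩
  · rintro z ⟨hz, hzF⟩
    have hb := hpt z hz hzF
    refine ⟨?_, ?_⟩
    · by_cases hcase : ‖z - p‖ < r0 + 3 / 2 * δ0
      · -- inner case
        have e1 : ∀ x ∈ ball z (c2 * infDist z F ^ (2 * m)), fF x = Complex.exp (-(G x - G1 x)) := by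
          intro x hx
          have h1 := abs_lt.1 (hb x hx).2.1
          exact hfin x (by linarith)
        refine DifferentiableOn.congr ?_ e1
        have d1 : DifferentiableOn ℂ G (ball z (c2 * infDist z F ^ (2 * m))) :=
          (hG z (by rw [mem_ball, dist_eq_norm]; linarith) (hclρ z hz) hzF).1.mono
            fun x hx => (hb x hx).2.2
        have d2 : DifferentiableOn ℂ G1 (ball z (c2 * infDist z F ^ (2 * m))) :=
          hG1.mono fun x hx => ⟨hδ1D (hb x hx).1, by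
            have h1 := abs_lt.1 (hb x hx).2.1
            rw [mem_ball, dist_eq_norm]
            linarith⟩
        exact (d1.sub d2).neg.cexp
      · -- outer case
        have e1 : ∀ x ∈ ball z (c2 * infDist z F ^ (2 * m)), fF x = Complex.exp (G2 x) := by
          intro x hx
          have h1 := abs_lt.1 (hb x hx).2.1
          exact hfout x (hδ1D (hb x hx).1) (by linarith)
        refine DifferentiableOn.congr ?_ e1
        have d2 : DifferentiableOn ℂ G2 (ball z (c2 * infDist z F ^ (2 * m))) :=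
          hG2'.mono fun x hx => ⟨hδ1D (hb x hx).1, by
            have h1 := abs_lt.1 (hb x hx).2.1
            rw [mem_closedBall, dist_eq_norm]
            intro h3
            linarith⟩
        exact d2.cexp
    · rw [hfF]
      show (if ‖z - p‖ < r0 + 2 * δ0 then Complex.exp (-(G z - G1 z)) else Complex.exp (G2 z)) ≠ 0
      split_ifs <;> exact Complex.exp_ne_zero _
  · intro N
    obtain ⟨C, hC⟩ := hfl N
    obtain ⟨C1, hC1⟩ : ∃ C1 : ℝ, C1 = Real.exp (1 + B1) * (|C| * (1 + ‖ν‖) ^ N) := ⟨_, rfl⟩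
    obtain ⟨C2, hC2⟩ : ∃ C2 : ℝ, C2 = Real.exp B2 / δ0 ^ N := ⟨_, rfl⟩
    have hC1p : 0 ≤ C1 := by rw [hC1]; positivity
    have hC2p : 0 ≤ C2 := by rw [hC2]; positivity
    refine ⟨C1 + C2, ?_⟩
    rintro z ⟨hz, hzF⟩ x hx
    obtain ⟨hd0, -, -, hr3, hr4⟩ := hrad z hz hzF
    obtain ⟨hx1, hx2, hx3⟩ := hpt z hz hzF x hx
    have hx2' := abs_lt.1 hx2
    have hdN : 0 ≤ infDist z F ^ N := by positivity
    by_cases hcase : ‖z - p‖ < r0 + 3 / 2 * δ0
    · rw [hfin x (by linarith)]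
      have hzb : z ∈ ball p R5 := by rw [mem_ball, dist_eq_norm]; linarith
      obtain ⟨g1, g2⟩ := hG z hzb (hclρ z hz) hzF
      -- oscillation of `G`
      have hosc : ‖G x - G z‖ ≤ 1 := by
        have hdm : 0 < infDist z F ^ m := by positivity
        have hGb : ∀ y ∈ ball z (c' * infDist z F ^ m), ‖G y‖ ≤ Ca / infDist z F ^ m := by
          intro y hy
          rw [le_div_iff₀ hdm]
          exact (g2 y hy).trans hCba
        have hzz : z ∈ ball z (c' * infDist z F ^ m) := mem_ball_self (by positivity)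
        have hmaps : MapsTo G (ball z (c' * infDist z F ^ m))
            (closedBall (G z) (2 * (Ca / infDist z F ^ m))) := by
          intro y hy
          rw [mem_closedBall, dist_eq_norm]
          have h1 := norm_sub_le (G y) (G z)
          have h2 := hGb y hy
          have h3 := hGb z hzz
          linarith
        have h1 := Complex.dist_le_div_mul_dist_of_mapsTo_ball g1 hmaps hx3
        rw [dist_eq_norm] at h1
        refine h1.trans ?_
        have h2 : dist x z ≤ c2 * infDist z F ^ (2 * m) := (mem_ball.1 hx).le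
        calc 2 * (Ca / infDist z F ^ m) / (c' * infDist z F ^ m) * dist x z
            ≤ 2 * (Ca / infDist z F ^ m) / (c' * infDist z F ^ m) * (c2 * infDist z F ^ (2 * m)) :=
              mul_le_mul_of_nonneg_left h2 (by positivity)
          _ = c2 * (2 * Ca) / c' := by
              rw [two_mul m, pow_add]
              field_simp
          _ ≤ 1 := by
              rw [div_le_one hc']
              exact hr4
      obtain ⟨t, ht, htd, hlog⟩ := hG2 z hzb (hclρ z hz) hzF
      obtain ⟨q1, q2, q3⟩ := hts t ht z hz (by rwa [mem_ball, dist_eq_norm] at hzb)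
      -- flatness
      obtain ⟨e, he, hed⟩ := hFc.exists_infDist_eq_dist ⟨e0, he0⟩ z
      have hf1 : ‖f (z - (t : ℂ) • ν)‖ ≤ |C| * (1 + ‖ν‖) ^ N * infDist z F ^ N := by
        have h1 := hC _ q1 q2 e he
        have h2 : ‖z - (t : ℂ) • ν - e‖ ≤ infDist z F * (1 + ‖ν‖) := by
          have h3 : z - (t : ℂ) • ν - e = (z - e) - (t : ℂ) • ν := by abel
          rw [h3]
          refine (norm_sub_le _ _).trans ?_
          rw [norm_smul, Complex.norm_real, Real.norm_eq_abs, abs_of_pos ht.1, ← dist_eq_norm, ← hed]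
          nlinarith [norm_nonneg ν]
        have h4 : ‖z - (t : ℂ) • ν - e‖ ^ N ≤ (infDist z F * (1 + ‖ν‖)) ^ N :=
          pow_le_pow_left₀ (norm_nonneg _) h2 N
        calc ‖f (z - (t : ℂ) • ν)‖ ≤ C * ‖z - (t : ℂ) • ν - e‖ ^ N := h1
          _ ≤ |C| * ‖z - (t : ℂ) • ν - e‖ ^ N :=
              mul_le_mul_of_nonneg_right (le_abs_self C) (by positivity)
          _ ≤ |C| * (infDist z F * (1 + ‖ν‖)) ^ N := mul_le_mul_of_nonneg_left h4 (abs_nonneg C)
          _ = |C| * (1 + ‖ν‖) ^ N * infDist z F ^ N := by rw [mul_pow]; ring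
      have hexp : Real.exp (-(G z).re) ≤ ‖f (z - (t : ℂ) • ν)‖ := by
        have hpos : 0 < ‖f (z - (t : ℂ) • ν)‖ := norm_pos_iff.2 q3
        rw [← Real.exp_log hpos]
        exact Real.exp_le_exp.2 (by linarith)
      have hre : (G z).re - 1 ≤ (G x).re := by
        have h1 := Complex.abs_re_le_norm (G x - G z)
        have h2 := (abs_le.1 (h1.trans hosc)).1
        rw [Complex.sub_re] at h2
        linarith
      have hre1 : (G1 x).re ≤ B1 :=
        (Complex.re_le_norm _).trans (hB1 x hx1 (by linarith))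
      rw [Complex.norm_exp]
      have h5 : (-(G x - G1 x)).re ≤ (1 + B1) + -(G z).re := by
        rw [Complex.neg_re, Complex.sub_re]
        linarith
      calc Real.exp (-(G x - G1 x)).re ≤ Real.exp ((1 + B1) + -(G z).re) := Real.exp_le_exp.2 h5
        _ = Real.exp (1 + B1) * Real.exp (-(G z).re) := Real.exp_add _ _
        _ ≤ Real.exp (1 + B1) * (|C| * (1 + ‖ν‖) ^ N * infDist z F ^ N) :=
            mul_le_mul_of_nonneg_left (hexp.trans hf1) (Real.exp_pos _).le
        _ = C1 * infDist z F ^ N := by rw [hC1]; ring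
        _ ≤ (C1 + C2) * infDist z F ^ N := mul_le_mul_of_nonneg_right (by linarith) hdN
    · rw [hfout x (hδ1D hx1) (by linarith), Complex.norm_exp]
      have h1 : (G2 x).re ≤ B2 := (Complex.re_le_norm _).trans (hB2 x hx1 (by linarith))
      have h2 : δ0 ≤ infDist z F := by have := hdist z; linarith
      have h3 : δ0 ^ N ≤ infDist z F ^ N := pow_le_pow_left₀ hδpos.le h2 N
      calc Real.exp (G2 x).re ≤ Real.exp B2 := Real.exp_le_exp.2 h1
        _ = C2 * δ0 ^ N := by rw [hC2]; field_simp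
        _ ≤ C2 * infDist z F ^ N := mul_le_mul_of_nonneg_left h3 hC2p
        _ ≤ (C1 + C2) * infDist z F ^ N := mul_le_mul_of_nonneg_right (by linarith) hdN

end Pool.Agent.Helper123
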