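import Mathlib
import Pool.Agent.H805R2.Base
import Pool.Agent.Helper123.Defs

/-! Part of the proof of S06843 (MP_fedc70_an). -/

set_option autoImplicit false

open MeasureTheory Metric Set Filter Topology
open scoped ENNReal NNReal ContDiff ComplexConjugate

namespace Pool.Agent.Helper123

open Pool.Agent.H805R2

variable {n : ℕ}

lemma nuu_infDist_union {z : Cn n} {F1 F2 : Set (Cn n)} :
    infDist z (F1 ∪ F2) = infDist z F1 ∨ infDist z (F1 ∪ F2) = infDist z F2 := by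
  unfold Metric.infDist
  rw [Metric.infEDist_union]
  rcases le_total (Metric.infEDist z F1) (Metric.infEDist z F2) with h | h
  · left; rw [inf_eq_left.2 h]
  · right; rw [inf_eq_right.2 h]

/-- TARGET. PROOF. f=f1 f2. For z in closure D minus (F1 union F2), d=infDist z (F1 u F2) <= d_i = infDist z F_i (infDist_anti), and d equals d_1 or d_2 (closed nonempty sets in a proper space: the distance is attained), d_i <= T
(closure D bounded), T>=1. m = max m1 m2 (or m1+m2), c small: c d^m <= c_i d_i^{m_i} because d^m <= d_i^m <= d_i^{m_i} T^{m-m_i}. Differentiability and f z != 0 are clear. Bound: if d=d_1 then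
|f1 x| <= C_1 d_1^N = C_1 d^N and |f2 x| <= C_2 (N=0); symmetric otherwise (take constants >= 0 via max). -/
theorem NU_union {D : Set (Cn n)} (hb : Bornology.IsBounded D) {F1 F2 : Set (Cn n)}
    (h1 : F1.Nonempty) (h2 : F2.Nonempty) (hF1 : IsClosed F1) (hF2 : IsClosed F2)
    (H1 : NU D F1) (H2 : NU D F2) : NU D (F1 ∪ F2) := by
  obtain ⟨f1, m1, c1, hc1, hd1, hb1⟩ := H1
  obtain ⟨f2, m2, c2, hc2, hd2, hb2⟩ := H2
  obtain ⟨e1, he1⟩ := h1
  obtain ⟨e2, he2⟩ := h2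
  have h1 : F1.Nonempty := ⟨e1, he1⟩
  have h2 : F2.Nonempty := ⟨e2, he2⟩
  -- a bound for the distances
  obtain ⟨T, hT1, hTb⟩ : ∃ T : ℝ, 1 ≤ T ∧ ∀ z ∈ closure D, infDist z (F1 ∪ F2) ≤ T := by
    obtain ⟨r, hr⟩ := (hb.closure).subset_closedBall e1
    refine ⟨max 1 r, le_max_left _ _, fun z hz => ?_⟩
    have h := mem_closedBall.1 (hr hz)
    calc infDist z (F1 ∪ F2) ≤ dist z e1 := infDist_le_dist_of_mem (Or.inl he1)
      _ ≤ r := h
      _ ≤ max 1 r := le_max_right _ _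
  have hT0 : 0 < T := by linarith
  set c : ℝ := min (c1 / T ^ m2) (c2 / T ^ m1) with hc
  have hc0 : 0 < c := lt_min (by positivity) (by positivity)
  have key : ∀ z ∈ closure D, c * infDist z (F1 ∪ F2) ^ (m1 + m2) ≤ c1 * infDist z F1 ^ m1 ∧
      c * infDist z (F1 ∪ F2) ^ (m1 + m2) ≤ c2 * infDist z F2 ^ m2 := by
    intro z hz
    have hd0 : 0 ≤ infDist z (F1 ∪ F2) := infDist_nonneg
    have hdT := hTb z hz
    have ha1 : infDist z (F1 ∪ F2) ≤ infDist z F1 := infDist_le_infDist_of_subset subset_union_left h1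
    have ha2 : infDist z (F1 ∪ F2) ≤ infDist z F2 := infDist_le_infDist_of_subset subset_union_right h2
    have hp1 : infDist z (F1 ∪ F2) ^ m1 ≤ infDist z F1 ^ m1 := pow_le_pow_left₀ hd0 ha1 _
    have hp2 : infDist z (F1 ∪ F2) ^ m2 ≤ infDist z F2 ^ m2 := pow_le_pow_left₀ hd0 ha2 _
    have hq1 : infDist z (F1 ∪ F2) ^ m1 ≤ T ^ m1 := pow_le_pow_left₀ hd0 hdT _
    have hq2 : infDist z (F1 ∪ F2) ^ m2 ≤ T ^ m2 := pow_le_pow_left₀ hd0 hdT _
    constructor
    · calc c * infDist z (F1 ∪ F2) ^ (m1 + m2)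
          = c * (infDist z (F1 ∪ F2) ^ m1 * infDist z (F1 ∪ F2) ^ m2) := by rw [pow_add]
        _ ≤ (c1 / T ^ m2) * (infDist z F1 ^ m1 * T ^ m2) := by
            exact mul_le_mul (min_le_left _ _) (mul_le_mul hp1 hq2 (pow_nonneg hd0 _)
              (pow_nonneg infDist_nonneg _)) (mul_nonneg (pow_nonneg hd0 _) (pow_nonneg hd0 _))
              (by positivity)
        _ = c1 * infDist z F1 ^ m1 := by field_simp
    · calc c * infDist z (F1 ∪ F2) ^ (m1 + m2)
          = c * (infDist z (F1 ∪ F2) ^ m1 * infDist z (F1 ∪ F2) ^ m2) := by rw [pow_add]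
        _ ≤ (c2 / T ^ m1) * (T ^ m1 * infDist z F2 ^ m2) := by
            exact mul_le_mul (min_le_right _ _) (mul_le_mul hq1 hp2 (pow_nonneg hd0 _)
              (pow_nonneg hT0.le _)) (mul_nonneg (pow_nonneg hd0 _) (pow_nonneg hd0 _))
              (by positivity)
        _ = c2 * infDist z F2 ^ m2 := by field_simp
  refine ⟨fun z => f1 z * f2 z, m1 + m2, c, hc0, ?_, ?_⟩
  · rintro z ⟨hz, hzF⟩
    have hz1 : z ∈ closure D \ F1 := ⟨hz, fun h => hzF (Or.inl h)⟩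
    have hz2 : z ∈ closure D \ F2 := ⟨hz, fun h => hzF (Or.inr h)⟩
    obtain ⟨k1, k2⟩ := key z hz
    refine ⟨?_, mul_ne_zero (hd1 z hz1).2 (hd2 z hz2).2⟩
    exact ((hd1 z hz1).1.mono (ball_subset_ball k1)).mul ((hd2 z hz2).1.mono (ball_subset_ball k2))
  · intro N
    obtain ⟨C1, hC1⟩ := hb1 N
    obtain ⟨C2, hC2⟩ := hb2 N
    obtain ⟨E1, hE1⟩ := hb1 0
    obtain ⟨E2, hE2⟩ := hb2 0
    refine ⟨max (|C1| * |E2|) (|E1| * |C2|), ?_⟩
    rintro z ⟨hz, hzF⟩ x hx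
    have hz1 : z ∈ closure D \ F1 := ⟨hz, fun h => hzF (Or.inl h)⟩
    have hz2 : z ∈ closure D \ F2 := ⟨hz, fun h => hzF (Or.inr h)⟩
    obtain ⟨k1, k2⟩ := key z hz
    have hx1 := ball_subset_ball k1 hx
    have hx2 := ball_subset_ball k2 hx
    have hd0 : 0 ≤ infDist z (F1 ∪ F2) := infDist_nonneg
    have hdN : 0 ≤ infDist z (F1 ∪ F2) ^ N := by positivity
    simp only [norm_mul]
    rcases nuu_infDist_union (z := z) (F1 := F1) (F2 := F2) with h | h
    · have a1 : ‖f1 x‖ ≤ |C1| * infDist z (F1 ∪ F2) ^ N := by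
        calc ‖f1 x‖ ≤ C1 * infDist z F1 ^ N := hC1 z hz1 x hx1
          _ = C1 * infDist z (F1 ∪ F2) ^ N := by rw [h]
          _ ≤ |C1| * infDist z (F1 ∪ F2) ^ N := mul_le_mul_of_nonneg_right (le_abs_self _) hdN
      have a2 : ‖f2 x‖ ≤ |E2| := by
        calc ‖f2 x‖ ≤ E2 * infDist z F2 ^ 0 := hE2 z hz2 x hx2
          _ = E2 := by simp
          _ ≤ |E2| := le_abs_self _
      calc ‖f1 x‖ * ‖f2 x‖ ≤ (|C1| * infDist z (F1 ∪ F2) ^ N) * |E2| :=
            mul_le_mul a1 a2 (norm_nonneg _) (by positivity)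
        _ = (|C1| * |E2|) * infDist z (F1 ∪ F2) ^ N := by ring
        _ ≤ _ := mul_le_mul_of_nonneg_right (le_max_left _ _) hdN
    · have a1 : ‖f2 x‖ ≤ |C2| * infDist z (F1 ∪ F2) ^ N := by
        calc ‖f2 x‖ ≤ C2 * infDist z F2 ^ N := hC2 z hz2 x hx2
          _ = C2 * infDist z (F1 ∪ F2) ^ N := by rw [h]
          _ ≤ |C2| * infDist z (F1 ∪ F2) ^ N := mul_le_mul_of_nonneg_right (le_abs_self _) hdN
      have a2 : ‖f1 x‖ ≤ |E1| := by
        calc ‖f1 x‖ ≤ E1 * infDist z F1 ^ 0 := hE1 z hz1 x hx1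
          _ = E1 := by simp
          _ ≤ |E1| := le_abs_self _
      calc ‖f1 x‖ * ‖f2 x‖ ≤ |E1| * (|C2| * infDist z (F1 ∪ F2) ^ N) :=
            mul_le_mul a2 a1 (norm_nonneg _) (by positivity)
        _ = (|E1| * |C2|) * infDist z (F1 ∪ F2) ^ N := by ring
        _ ≤ _ := mul_le_mul_of_nonneg_right (le_max_right _ _) hdN

end Pool.Agent.Helper123
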