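import Mathlib
import Pool.Agent.H805R2.Base
import Pool.Agent.Helper123.Defs

/-! Part of the proof of S06843 (MP_fedc70_an). -/

set_option autoImplicit false

open MeasureTheory Metric Set Filter Topology
open scoped ENNReal NNReal ContDiff ComplexConjugate

namespace Pool.Agent.Helper123

open Pool.Agent.H805R2

variable {n : ℕ}

/-- compactness: if `Q ≥ 0` and `Q = 0` implies `P > 0` on a compact set, then `P + B Q ≥ c > 0`. -/
lemma spd_compact {X : Type*} [TopologicalSpace X] {S : Set X} (hS : IsCompact S) {P Q : X → ℝ}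
    (hP : Continuous P) (hQ : Continuous Q) (hQ0 : ∀ s ∈ S, 0 ≤ Q s)
    (hPQ : ∀ s ∈ S, Q s = 0 → 0 < P s) :
    ∃ B : ℝ, 0 < B ∧ ∃ c : ℝ, 0 < c ∧ ∀ s ∈ S, c ≤ P s + B * Q s := by
  have hcov : S ⊆ ⋃ N : ℕ, {s | 0 < P s + ((N : ℝ) + 1) * max (Q s) 0} := by
    intro s hs
    rw [mem_iUnion]
    rcases (hQ0 s hs).eq_or_lt with h | h
    · refine ⟨0, ?_⟩
      have := hPQ s hs h.symm
      simp only [mem_ofPred_eq]
      rw [← h]
      simpa using this
    · obtain ⟨N, hN⟩ := exists_nat_gt (-(P s) / Q s)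
      refine ⟨N, ?_⟩
      simp only [mem_ofPred_eq]
      rw [max_eq_left h.le]
      rw [div_lt_iff₀ h] at hN
      nlinarith
  obtain ⟨N, hN⟩ := hS.elim_directed_cover
    (fun N : ℕ => {s | 0 < P s + ((N : ℝ) + 1) * max (Q s) 0})
    (fun N => isOpen_lt continuous_const (by fun_prop)) hcov
    (by
      intro a b
      refine ⟨max a b, ?_, ?_⟩
      · intro s hs
        simp only [mem_ofPred_eq] at hs ⊢
        have h1 : (a : ℝ) ≤ ((max a b : ℕ) : ℝ) := by exact_mod_cast le_max_left a b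
        have h2 : 0 ≤ max (Q s) 0 := le_max_right _ _
        nlinarith
      · intro s hs
        simp only [mem_ofPred_eq] at hs ⊢
        have h1 : (b : ℝ) ≤ ((max a b : ℕ) : ℝ) := by exact_mod_cast le_max_right a b
        have h2 : 0 ≤ max (Q s) 0 := le_max_right _ _
        nlinarith)
  refine ⟨(N : ℝ) + 1, by positivity, ?_⟩
  rcases S.eq_empty_or_nonempty with he | hne
  · refine ⟨1, one_pos, ?_⟩
    intro s hs
    rw [he] at hs
    exact absurd hs (notMem_empty s)
  · obtain ⟨s0, hs0, hmin⟩ := hS.exists_isMinOn hne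
      (f := fun s => P s + ((N : ℝ) + 1) * Q s) (by fun_prop)
    refine ⟨P s0 + ((N : ℝ) + 1) * Q s0, ?_, ?_⟩
    · have := hN hs0
      simp only [mem_ofPred_eq] at this
      rwa [max_eq_left (hQ0 s0 hs0)] at this
    · intro s hs
      exact hmin hs

/-- the zero set of a defining function of a bounded set is compact -/
lemma spd_zero_compact (D : Set (Cn n)) (hb : Bornology.IsBounded D) (ρ : Cn n → ℝ)
    (hρ : ContDiff ℝ ∞ ρ) (hD : D = {z | ρ z < 0})
    (hgrad : ∀ z, ρ z = 0 → fderiv ℝ ρ z ≠ 0) : IsCompact {z | ρ z = 0} := by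
  apply Metric.isCompact_of_isClosed_isBounded
  · exact isClosed_eq hρ.continuous continuous_const
  · refine hb.closure.subset ?_
    intro z hz
    simp only [mem_ofPred_eq] at hz
    have hdiff : DifferentiableAt ℝ ρ z := (hρ.differentiable (by simp)).differentiableAt
    obtain ⟨v, hv⟩ : ∃ v, fderiv ℝ ρ z v < 0 := by
      have h := hgrad z hz
      obtain ⟨w, hw⟩ : ∃ w, fderiv ℝ ρ z w ≠ 0 := by
        by_contra hcon
        push Not at hcon
        exact h (ContinuousLinearMap.ext hcon)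
      rcases lt_or_gt_of_ne hw with h1 | h1
      · exact ⟨w, h1⟩
      · refine ⟨-w, ?_⟩
        rw [map_neg]
        linarith
    -- the function t ↦ ρ (z + t v) has negative derivative at 0
    have hder : HasDerivAt (fun t : ℝ => ρ (z + t • v)) (fderiv ℝ ρ z v) 0 := by
      have h1 : HasDerivAt (fun t : ℝ => z + t • v) v 0 := by
        simpa using ((hasDerivAt_id (0 : ℝ)).smul_const v).const_add z
      have h2 : HasFDerivAt ρ (fderiv ℝ ρ z) (z + (0 : ℝ) • v) := by
        simpa using hdiff.hasFDerivAt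
      exact h2.comp_hasDerivAt (0 : ℝ) h1
    rw [Metric.mem_closure_iff]
    intro ε hε
    have hev : ∀ᶠ t in 𝓝[>] (0 : ℝ), ρ (z + t • v) < 0 := by
      have hs := hasDerivAt_iff_tendsto_slope.1 hder
      have hs' : Tendsto (slope (fun t : ℝ => ρ (z + t • v)) 0) (𝓝[>] 0) (𝓝 (fderiv ℝ ρ z v)) :=
        hs.mono_left (nhdsWithin_mono _ (fun x hx => ne_of_gt hx))
      have := hs'.eventually (gt_mem_nhds hv)
      filter_upwards [this, self_mem_nhdsWithin] with t ht ht0
      have ht0' : (0 : ℝ) < t := ht0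
      rw [slope_def_field] at ht
      simp only [zero_smul, add_zero, sub_zero, hz] at ht
      rw [div_lt_iff₀ ht0'] at ht
      simpa using ht
    have hcont : Tendsto (fun t : ℝ => z + t • v) (𝓝[>] 0) (𝓝 z) := by
      have : Tendsto (fun t : ℝ => z + t • v) (𝓝 0) (𝓝 (z + (0 : ℝ) • v)) := by
        apply Continuous.tendsto
        fun_prop
      simp only [zero_smul, add_zero] at this
      exact this.mono_left nhdsWithin_le_nhds
    have hev2 : ∀ᶠ t in 𝓝[>] (0 : ℝ), dist (z + t • v) z < ε :=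
      hcont.eventually (Metric.ball_mem_nhds z hε)
    obtain ⟨t, ht1, ht2⟩ := (hev.and hev2).exists
    refine ⟨z + t • v, ?_, ?_⟩
    · rw [hD]
      exact ht1
    · rw [dist_comm]
      exact ht2

lemma spd_fderiv (ρ : Cn n → ℝ) (hρ : ContDiff ℝ ∞ ρ) (B : ℝ) (z : Cn n) :
    fderiv ℝ (fun w => Real.exp (B * ρ w) - 1) z = (B * Real.exp (B * ρ z)) • fderiv ℝ ρ z := by
  have hdiff : DifferentiableAt ℝ ρ z := (hρ.differentiable (by simp)).differentiableAt
  have h1 : HasFDerivAt (fun w => B * ρ w) (B • fderiv ℝ ρ z) z := hdiff.hasFDerivAt.const_mul B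
  have h2 := (h1.exp).sub_const (1 : ℝ)
  rw [h2.fderiv, smul_smul, mul_comm]

lemma spd_D2 (ρ : Cn n → ℝ) (hρ : ContDiff ℝ ∞ ρ) (B : ℝ) (z ξ ζ : Cn n) :
    D2 (fun w => Real.exp (B * ρ w) - 1) z ξ ζ =
      B * Real.exp (B * ρ z) * (D2 ρ z ξ ζ + B * (fderiv ℝ ρ z ξ * fderiv ℝ ρ z ζ)) := by
  have hdiff : DifferentiableAt ℝ ρ z := (hρ.differentiable (by simp)).differentiableAt
  have hdiff2 : DifferentiableAt ℝ (fderiv ℝ ρ) z :=
    ((hρ.fderiv_right (m := 1) (by norm_cast)).differentiable (by norm_num)).differentiableAt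
  unfold D2
  have h0 : fderiv ℝ (fun w => Real.exp (B * ρ w) - 1) =
      fun w => (B * Real.exp (B * ρ w)) • fderiv ℝ ρ w := by
    funext w
    exact spd_fderiv ρ hρ B w
  rw [h0]
  have h1 : HasFDerivAt (fun w => B * ρ w) (B • fderiv ℝ ρ z) z := hdiff.hasFDerivAt.const_mul B
  have h2 := (h1.exp).const_mul B
  have h3 : HasFDerivAt (fun w => (B * Real.exp (B * ρ w)) • fderiv ℝ ρ w) _ z :=
    h2.smul hdiff2.hasFDerivAt
  rw [h3.fderiv]
  simp only [add_apply, smul_apply, smul_eq_mul, ContinuousLinearMap.smulRight_apply]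
  ring

lemma spd_levi (ρ : Cn n → ℝ) (hρ : ContDiff ℝ ∞ ρ) (B : ℝ) (z ξ : Cn n) (hz : ρ z = 0) :
    levi (fun w => Real.exp (B * ρ w) - 1) z ξ =
      B * (levi ρ z ξ + B * ((fderiv ℝ ρ z ξ ^ 2 + fderiv ℝ ρ z (Complex.I • ξ) ^ 2) / 4)) := by
  unfold levi
  rw [spd_D2 ρ hρ, spd_D2 ρ hρ, hz]
  simp only [mul_zero, Real.exp_zero, mul_one]
  ring

/-- TARGET. -/
theorem exists_spd (D : Set (Cn n)) (hne : D.Nonempty) (ho : IsOpen D)
    (hb : Bornology.IsBounded D) (ρ : Cn n → ℝ) (hρ : ContDiff ℝ ∞ ρ) (hD : D = {z | ρ z < 0})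
    (hgrad : ∀ z, ρ z = 0 → fderiv ℝ ρ z ≠ 0)
    (hlevi : ∀ z, ρ z = 0 → ∀ w : Cn n, w ≠ 0 → fderiv ℝ ρ z w = 0 →
      fderiv ℝ ρ z (Complex.I • w) = 0 →
      0 < iteratedFDeriv ℝ 2 ρ z ![w, w] +
        iteratedFDeriv ℝ 2 ρ z ![Complex.I • w, Complex.I • w]) :
    ∃ (ρ1 : Cn n → ℝ) (c : ℝ), SPD D ρ1 c := by
  have hK := spd_zero_compact D hb ρ hρ hD hgrad
  have hS : IsCompact ({z : Cn n | ρ z = 0} ×ˢ sphere (0 : Cn n) 1) :=
    hK.prod (isCompact_sphere _ _)
  have hc1 : Continuous (fderiv ℝ ρ) := hρ.continuous_fderiv (by simp)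
  have hc2 : Continuous (fderiv ℝ (fderiv ℝ ρ)) :=
    (hρ.fderiv_right (m := 1) (by norm_cast)).continuous_fderiv (by norm_num)
  have hP : Continuous (fun s : Cn n × Cn n => levi ρ s.1 s.2) := by
    unfold levi D2
    have e1 : Continuous fun s : Cn n × Cn n => fderiv ℝ (fderiv ℝ ρ) s.1 s.2 s.2 := by
      have a : Continuous fun s : Cn n × Cn n => fderiv ℝ (fderiv ℝ ρ) s.1 := hc2.comp continuous_fst
      exact (a.clm_apply continuous_snd).clm_apply continuous_snd
    have e2 : Continuous fun s : Cn n × Cn n =>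
        fderiv ℝ (fderiv ℝ ρ) s.1 (Complex.I • s.2) (Complex.I • s.2) := by
      have a : Continuous fun s : Cn n × Cn n => fderiv ℝ (fderiv ℝ ρ) s.1 := hc2.comp continuous_fst
      have b : Continuous fun s : Cn n × Cn n => Complex.I • s.2 := by fun_prop
      exact (a.clm_apply b).clm_apply b
    exact (e1.add e2).div_const 4
  have hQ : Continuous (fun s : Cn n × Cn n =>
      (fderiv ℝ ρ s.1 s.2 ^ 2 + fderiv ℝ ρ s.1 (Complex.I • s.2) ^ 2) / 4) := by
    have a : Continuous fun s : Cn n × Cn n => fderiv ℝ ρ s.1 := hc1.comp continuous_fst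
    have b : Continuous fun s : Cn n × Cn n => Complex.I • s.2 := by fun_prop
    exact (((a.clm_apply continuous_snd).pow 2).add ((a.clm_apply b).pow 2)).div_const 4
  obtain ⟨B, hB, c, hc, hbd⟩ := spd_compact hS hP hQ
    (by intro s _; positivity)
    (by
      rintro ⟨z, ξ⟩ ⟨hz, hξ⟩ h0
      simp only [mem_ofPred_eq, mem_sphere_iff_norm, sub_zero] at hz hξ h0 ⊢
      have hs1 : 0 ≤ fderiv ℝ ρ z ξ ^ 2 := sq_nonneg _
      have hs2 : 0 ≤ fderiv ℝ ρ z (Complex.I • ξ) ^ 2 := sq_nonneg _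
      have hq1 : fderiv ℝ ρ z ξ = 0 := by
        have h : fderiv ℝ ρ z ξ ^ 2 = 0 := by linarith
        exact pow_eq_zero_iff (two_ne_zero) |>.1 h
      have hq2 : fderiv ℝ ρ z (Complex.I • ξ) = 0 := by
        have h : fderiv ℝ ρ z (Complex.I • ξ) ^ 2 = 0 := by linarith
        exact pow_eq_zero_iff (two_ne_zero) |>.1 h
      have hne0 : ξ ≠ 0 := by
        rintro rfl
        simp at hξ
      have h := hlevi z hz ξ hne0 hq1 hq2
      rw [iteratedFDeriv_two_apply, iteratedFDeriv_two_apply] at h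
      simp only [Matrix.cons_val_zero, Matrix.cons_val_one] at h
      unfold levi D2
      linarith)
  refine ⟨fun w => Real.exp (B * ρ w) - 1, B * c, ?_⟩
  refine ⟨?_, ?_, hb, ?_, by positivity, ?_⟩
  · exact ((contDiff_const.mul hρ).exp).sub contDiff_const
  · rw [hD]
    ext z
    simp only [mem_ofPred_eq, sub_neg, Real.exp_lt_one_iff]
    constructor
    · intro h
      exact mul_neg_of_pos_of_neg hB h
    · intro h
      by_contra hcon
      push Not at hcon
      have := mul_nonneg hB.le hcon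
      linarith
  · intro z hz
    have hz0 : ρ z = 0 := by
      have : Real.exp (B * ρ z) = 1 := by linarith
      rw [Real.exp_eq_one_iff] at this
      rcases mul_eq_zero.1 this with h | h
      · exact absurd h hB.ne'
      · exact h
    rw [spd_fderiv ρ hρ, hz0]
    simp only [mul_zero, Real.exp_zero, mul_one]
    exact smul_ne_zero hB.ne' (hgrad z hz0)
  · intro z hz ξ
    have hz0 : ρ z = 0 := by
      have : Real.exp (B * ρ z) = 1 := by linarith
      rw [Real.exp_eq_one_iff] at this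
      rcases mul_eq_zero.1 this with h | h
      · exact absurd h hB.ne'
      · exact h
    rw [spd_levi ρ hρ B z ξ hz0]
    rcases eq_or_ne ξ 0 with h0 | h0
    · subst h0
      simp [levi, D2]
    · have hn : ‖ξ‖ ≠ 0 := norm_ne_zero_iff.2 h0
      set u : Cn n := (‖ξ‖⁻¹ : ℝ) • ξ with hu
      have hun : ‖u‖ = 1 := by
        rw [hu, norm_smul, norm_inv, norm_norm, inv_mul_cancel₀ hn]
      have hξ : ξ = ‖ξ‖ • u := by
        rw [hu, smul_smul, mul_inv_cancel₀ hn, one_smul]
      have key := hbd (z, u) ⟨hz0, by simpa [mem_sphere_iff_norm] using hun⟩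
      simp only at key
      have hI : Complex.I • ξ = ‖ξ‖ • (Complex.I • u) := by
        conv_lhs => rw [hξ]
        rw [smul_comm]
      have e1 : fderiv ℝ ρ z ξ = ‖ξ‖ * fderiv ℝ ρ z u := by
        conv_lhs => rw [hξ]
        rw [map_smul, smul_eq_mul]
      have e2 : fderiv ℝ ρ z (Complex.I • ξ) = ‖ξ‖ * fderiv ℝ ρ z (Complex.I • u) := by
        rw [hI, map_smul, smul_eq_mul]
      have e3 : levi ρ z ξ = ‖ξ‖ ^ 2 * levi ρ z u := by
        unfold levi D2
        rw [hI]
        conv_lhs => rw [show (fderiv ℝ (fderiv ℝ ρ) z) ξ ξ =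
          (fderiv ℝ (fderiv ℝ ρ) z) (‖ξ‖ • u) (‖ξ‖ • u) by rw [← hξ]]
        simp only [map_smul, smul_apply, smul_eq_mul]
        ring
      rw [e1, e2, e3]
      have hpos : 0 ≤ B * ‖ξ‖ ^ 2 := by positivity
      have := mul_le_mul_of_nonneg_left key hpos
      nlinarith [this]

end Pool.Agent.Helper123
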