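import Mathlib
import Pool.Agent.Helper123.MainPatch
import Pool.Agent.Helper123.KPackEx
import Pool.Agent.Helper123.Levi
import Pool.Agent.Helper123.Spd
import Pool.Agent.Helper123.Flat
import Pool.Agent.Helper123.FamEx
import Pool.Agent.Helper123.NUPatch
import Pool.Agent.Helper123.NUUnion
import Pool.Agent.Helper123.NUFinal

/-! Assembly of S06843 (MP_fedc70_an). -/

set_option autoImplicit false

open MeasureTheory Metric Set Filter Topology
open scoped ENNReal NNReal ContDiff ComplexConjugate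

namespace Pool.Agent.Helper123

open Pool.Agent.H805R2

variable {n : ℕ}

/-- points of the frontier of `{ρ < 0}` are zeros of `ρ` -/
theorem asm_frontier {D : Set (Cn n)} {ρ : Cn n → ℝ} (hρ : Continuous ρ) (hD : D = {z | ρ z < 0})
    {p : Cn n} (hp : p ∈ frontier D) : ρ p = 0 := by
  have ho : IsOpen D := by rw [hD]; exact isOpen_lt hρ continuous_const
  rw [ho.frontier_eq] at hp
  have h1 : ρ p ≤ 0 := by
    have : closure D ⊆ {z | ρ z ≤ 0} := by
      apply closure_minimal _ (isClosed_le hρ continuous_const)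
      rw [hD]; intro z hz; exact (show ρ z < 0 from hz).le
    exact this hp.1
  have h2 : ¬ ρ p < 0 := by
    intro h
    apply hp.2
    rw [hD]; exact h
  linarith [not_lt.1 h2]

theorem asm_closure {D : Set (Cn n)} {ρ : Cn n → ℝ} (hρ : Continuous ρ) (hD : D = {z | ρ z < 0})
    {p : Cn n} (hp : p ∈ closure D) : ρ p ≤ 0 := by
  have : closure D ⊆ {z | ρ z ≤ 0} := by
    apply closure_minimal _ (isClosed_le hρ continuous_const)
    rw [hD]; intro z hz; exact (show ρ z < 0 from hz).le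
  exact this hp

/-- scaling of a member of `A^∞` so that it is small -/
theorem asm_scale {D E : Set (Cn n)} (hb : Bornology.IsBounded D) {f : Cn n → ℂ}
    (hf : AInf D E f) : ∃ δ : ℝ, 0 < δ ∧ ∀ z ∈ D, ‖(δ : ℂ) * f z‖ ≤ Real.exp (-1) := by
  have hc : IsCompact (closure D) := hb.isCompact_closure
  obtain ⟨B, hB⟩ := hc.exists_bound_of_continuousOn hf.2.1
  have hB' : ∀ z ∈ D, ‖f z‖ ≤ |B| + 1 := fun z hz =>
    (hB z (subset_closure hz)).trans ((le_abs_self B).trans (by linarith))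
  have hB0 : 0 < |B| + 1 := by positivity
  refine ⟨Real.exp (-1) / (|B| + 1), by positivity, ?_⟩
  intro z hz
  rw [norm_mul, Complex.norm_real, Real.norm_of_nonneg (by positivity)]
  calc Real.exp (-1) / (|B| + 1) * ‖f z‖ ≤ Real.exp (-1) / (|B| + 1) * (|B| + 1) := by
        gcongr
        exact hB' z hz
    _ = Real.exp (-1) := by field_simp

theorem asm_nondeg (K : KD n) (hK : IsLeviData K) (p : Cn n) (hp : fderiv ℝ K.r p ≠ 0) :
    ∃ (j0 : Fin n) (c0 : ℝ), 0 < c0 ∧ ∃ Rn > 0, ∀ z ∈ ball p Rn, c0 ≤ ‖K.a j0 z‖ := by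
  have h1 : ∃ j0, K.a j0 p ≠ 0 := by
    by_contra h
    push Not at h
    apply hp
    have hd : DifferentiableAt ℝ K.r p := (K.hr.differentiable (by simp)).differentiableAt
    have hz : ∀ j, fderiv ℝ K.r p (bas j) = 0 ∧ fderiv ℝ K.r p (Complex.I • bas j) = 0 := by
      intro j
      have := h j
      rw [hK.ha, wd, fderiv_ofReal p _ hd, fderiv_ofReal p _ hd] at this
      have h2 : ((fderiv ℝ K.r p (bas j) : ℝ) : ℂ) -
          Complex.I * ((fderiv ℝ K.r p (Complex.I • bas j) : ℝ) : ℂ) = 0 := by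
        have := congrArg (fun x => x * 2) this
        simpa using this
      constructor
      · have := congrArg Complex.re h2
        simpa using this
      · have := congrArg Complex.im h2
        simpa using this
    ext v
    rw [sum_bas v, map_sum]
    simp only [zero_apply]
    apply Finset.sum_eq_zero
    intro j _
    rw [smul_dec, map_add, map_smul, map_smul, (hz j).1, (hz j).2]
    simp
  obtain ⟨j0, hj0⟩ := h1
  have hc : Continuous (fun z => ‖K.a j0 z‖) := (K.ha j0).continuous.norm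
  have hpos : 0 < ‖K.a j0 p‖ := norm_pos_iff.2 hj0
  have hev : ∀ᶠ z in 𝓝 p, ‖K.a j0 p‖ / 2 < ‖K.a j0 z‖ :=
    hc.continuousAt.eventually (lt_mem_nhds (by linarith))
  obtain ⟨Rn, hRn, h⟩ := Metric.eventually_nhds_iff_ball.1 hev
  exact ⟨j0, ‖K.a j0 p‖ / 2, by linarith, Rn, hRn, fun z hz => (h z hz).le⟩

theorem Fam.mono {p : Cn n} {R0 : ℝ} {r : Cn n → ℝ} {ts ts' A A0 A3 : ℝ} {g : ℝ → Cn n → ℂ}
    (h : Fam p R0 r ts A A0 A3 g) (hts : ts' ≤ ts) : Fam p R0 r ts' A A0 A3 g where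
  hol t ht := h.hol t ⟨ht.1, ht.2.trans_le hts⟩
  re1 t ht := h.re1 t ⟨ht.1, ht.2.trans_le hts⟩
  lip t' t h1 h2 h3 := h.lip t' t h1 h2 (h3.trans_le hts)
  grow t ht := h.grow t ⟨ht.1, ht.2.trans_le hts⟩

theorem KD.LP.mono {K : KD n} {p : Cn n} {R0 R0' c1 : ℝ} (h : K.LP p R0 c1) (hR : R0' ≤ R0) :
    K.LP p R0' c1 := fun ζ hζ z hz => h ζ (ball_subset_ball hR hζ) z (ball_subset_ball hR hz)

theorem local_nu (hn : 1 ≤ n) {D : Set (Cn n)} {ρ : Cn n → ℝ} {c : ℝ} (hD : SPD D ρ c)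
    {E : Set (Cn n)} {f : Cn n → ℂ} (hE : E ⊆ frontier D) (hf : AInf D E f) (p : Cn n)
    (hp : p ∈ E) :
    ∃ r0 > 0, ∀ F : Set (Cn n), IsClosed F → F.Nonempty → F ⊆ E → F ⊆ closedBall p r0 →
      NU D F := by
  have hρc : Continuous ρ := hD.smooth.continuous
  have ho : IsOpen D := by rw [hD.eq]; exact isOpen_lt hρc continuous_const
  have hp0 : ρ p = 0 := asm_frontier hρc hD.eq (hE hp)
  obtain ⟨δ, hδ, hδf⟩ := asm_scale hD.bdd hf
  obtain ⟨Kd, hKr, hKl⟩ := exists_leviData ρ hD.smooth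
  obtain ⟨Ra, hRa, c1, hc1, hLP⟩ := LP_of_levi Kd hKl p c hD.c_pos (by
    intro ξ; rw [hKr]; exact hD.levi p hp0 ξ)
  obtain ⟨Rf, hRf, hflat⟩ := flat hD hE hf p hp0
  have hf0 : ∀ z ∈ D, f z ≠ 0 := by
    intro z hz h0
    have h1 : z ∈ E := by
      rw [← hf.2.2.2.2]; exact ⟨subset_closure hz, h0⟩
    have h2 := asm_frontier hρc hD.eq (hE h1)
    rw [hD.eq] at hz
    exact absurd hz (by simp [h2])
  obtain ⟨Rm, hRm, hfam⟩ := exists_fam hD p hp0 (f := fun z => (δ : ℂ) * f z)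
    (hf.1.const_mul _) (fun z hz => mul_ne_zero (by exact_mod_cast hδ.ne') (hf0 z hz)) hδf
  obtain ⟨j0, c0, hc0, Rn, hRn, hnd⟩ := asm_nondeg Kd hKl p (by
    rw [hKr]; exact hD.grad p hp0)
  obtain ⟨R0, hR0, hR0a, hR0m, hR0f, hR0n⟩ : ∃ R0 : ℝ, 0 < R0 ∧ R0 ≤ Ra ∧ R0 < Rm ∧ R0 < Rf ∧
      R0 ≤ Rn := by
    refine ⟨min (min Ra Rm) (min Rf Rn) / 2, by positivity, ?_, ?_, ?_, ?_⟩
    · have := min_le_left (min Ra Rm) (min Rf Rn)
      have := min_le_left Ra Rm
      have : 0 < min (min Ra Rm) (min Rf Rn) := by positivity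
      linarith
    · have := min_le_left (min Ra Rm) (min Rf Rn)
      have := min_le_right Ra Rm
      have : 0 < min (min Ra Rm) (min Rf Rn) := by positivity
      linarith
    · have := min_le_right (min Ra Rm) (min Rf Rn)
      have := min_le_left Rf Rn
      have : 0 < min (min Ra Rm) (min Rf Rn) := by positivity
      linarith
    · have := min_le_right (min Ra Rm) (min Rf Rn)
      have := min_le_right Rf Rn
      have : 0 < min (min Ra Rm) (min Rf Rn) := by positivity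
      linarith
  obtain ⟨ν, ts, A0, A3, A, g, hts, hA0, hA3, hA, hFam, hlast⟩ := hfam R0 hR0 hR0m
  obtain ⟨ts', hts', hts'1, hts'2⟩ : ∃ ts' : ℝ, 0 < ts' ∧ ts' ≤ ts ∧ ts' * ‖ν‖ ≤ Rf - R0 := by
    refine ⟨min ts ((Rf - R0) / (‖ν‖ + 1)), ?_, min_le_left _ _, ?_⟩
    · have : 0 < Rf - R0 := by linarith
      positivity
    · have h1 : 0 < Rf - R0 := by linarith
      calc min ts ((Rf - R0) / (‖ν‖ + 1)) * ‖ν‖ ≤ (Rf - R0) / (‖ν‖ + 1) * (‖ν‖ + 1) := by
            gcongr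
            · exact min_le_right _ _
            · linarith
        _ = Rf - R0 := by field_simp
  have hFam' := hFam.mono hts'1
  have hLP' := hLP.mono hR0a
  have hnd' : ∀ z ∈ ball p R0, c0 ≤ ‖Kd.a j0 z‖ := fun z hz => hnd z (ball_subset_ball hR0n hz)
  obtain ⟨C, K1, hC, hK1⟩ := exists_kpack hn Kd p (R0 * (9 / 10)) (R0 * (8 / 10)) R0 1 c1
    (by positivity) (by linarith) (by linarith) zero_le_one hc1 hLP' j0 c0 hc0 hnd' (A + 1)
    (by omega)
  obtain ⟨C', K2, hC', hK2⟩ := exists_kpack hn Kd p (R0 * (7 / 10)) (R0 * (6 / 10)) R0 1 c1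
    (by positivity) (by linarith) (by linarith) zero_le_one hc1 hLP' j0 c0 hc0 hnd' (A + 1)
    (by omega)
  rw [hKr] at hK1 hK2
  refine ⟨R0 * (1 / 4), by positivity, ?_⟩
  intro F hFc hFn hFE hFr
  obtain ⟨G, m, c', Cb, hc', hG1, hG2⟩ := main_patch (R5 := R0 * (5 / 10)) (by positivity)
    (by linarith) (by linarith) (by linarith) (by linarith) (by linarith) hD.smooth zero_lt_one
    hc1 hC hC' hA le_rfl hK1 hK2 hts' hA0 hA3 hFam' hFc hFn
    (hFr.trans (closedBall_subset_closedBall (by linarith)))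
  apply NU_of_patch hn hD p (R0 * (5 / 10)) (fun z => (δ : ℂ) * f z) ν F hFc hFn (R0 * (1 / 4))
    (by positivity) (by linarith) hFr (hFE.trans hE) Rf ?_ ts' ?_ G m c' Cb hc' hG1 ?_
  · intro N
    obtain ⟨C1, hC1⟩ := hflat N
    refine ⟨δ * C1, ?_⟩
    intro z hz hzp e he
    have he' : ‖e - p‖ < Rf := by
      have := hFr he
      rw [mem_closedBall, dist_eq_norm] at this
      linarith
    rw [norm_mul, Complex.norm_real, Real.norm_of_nonneg hδ.le, mul_assoc]
    exact mul_le_mul_of_nonneg_left (hC1 z hz hzp e (hFE he) he') hδ.le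
  · intro t ht z hz hzp
    have hρz : ρ z ≤ 0 := asm_closure hρc hD.eq hz
    have h1 := hlast t ⟨ht.1, ht.2.trans_le hts'1⟩ z (by linarith) (by linarith [ht.1])
    refine ⟨h1.1, ?_, mul_ne_zero (by exact_mod_cast hδ.ne') (hf0 _ h1.1)⟩
    have h2 : ‖z - (t : ℂ) • ν - p‖ ≤ ‖z - p‖ + t * ‖ν‖ := by
      calc ‖z - (t : ℂ) • ν - p‖ = ‖(z - p) - (t : ℂ) • ν‖ := by congr 1; abel
        _ ≤ ‖z - p‖ + ‖(t : ℂ) • ν‖ := norm_sub_le _ _
        _ = ‖z - p‖ + t * ‖ν‖ := by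
            rw [norm_smul, Complex.norm_real, Real.norm_of_nonneg ht.1.le]
    have h3 : t * ‖ν‖ ≤ ts' * ‖ν‖ := mul_le_mul_of_nonneg_right ht.2.le (norm_nonneg _)
    linarith
  · intro z hz hρz hzF
    obtain ⟨t, ht, htd, hle⟩ := hG2 z hz hρz hzF
    refine ⟨t, ht, htd, ?_⟩
    rw [mem_ball, dist_eq_norm] at hz
    rw [← (hlast t ⟨ht.1, ht.2.trans_le hts'1⟩ z (by linarith) (by linarith [ht.1])).2]
    exact hle

theorem NU_of_subset (hn : 1 ≤ n) {D : Set (Cn n)} {ρ : Cn n → ℝ} {c : ℝ} (hD : SPD D ρ c)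
    {E : Set (Cn n)} {f : Cn n → ℂ} (hE : E ⊆ frontier D) (hf : AInf D E f) (F : Set (Cn n))
    (hFc : IsClosed F) (hFn : F.Nonempty) (hFE : F ⊆ E) : NU D F := by
  have hFb : Bornology.IsBounded F :=
    (hD.bdd.closure).subset ((hFE.trans hE).trans frontier_subset_closure)
  have hFk : IsCompact F := Metric.isCompact_of_isClosed_isBounded hFc hFb
  choose! r0 hr0 h using fun p (hp : p ∈ E) => local_nu hn hD hE hf p hp
  obtain ⟨s, hsF, hs⟩ := hFk.elim_nhds_subcover (fun p => ball p (r0 p))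
    (fun p hp => ball_mem_nhds p (hr0 p (hFE hp)))
  -- finite unions
  have key : ∀ t : Finset (Cn n), t.Nonempty → (∀ p ∈ t, p ∈ F) →
      (IsClosed (⋃ p ∈ t, F ∩ closedBall p (r0 p)) ∧ (⋃ p ∈ t, F ∩ closedBall p (r0 p)).Nonempty ∧
        NU D (⋃ p ∈ t, F ∩ closedBall p (r0 p))) := by
    intro t ht
    induction ht using Finset.Nonempty.cons_induction with
    | singleton a =>
      intro haF
      have ha : a ∈ F := haF a (by simp)
      have h1 : IsClosed (F ∩ closedBall a (r0 a)) := hFc.inter isClosed_closedBall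
      have h2 : (F ∩ closedBall a (r0 a)).Nonempty :=
        ⟨a, ha, mem_closedBall_self (hr0 a (hFE ha)).le⟩
      simp only [Finset.mem_singleton, iUnion_iUnion_eq_left]
      exact ⟨h1, h2, h a (hFE ha) _ h1 h2 (inter_subset_left.trans hFE) inter_subset_right⟩
    | cons a t hat htn ih =>
      intro haF
      have ha : a ∈ F := haF a (by simp)
      have h1 : IsClosed (F ∩ closedBall a (r0 a)) := hFc.inter isClosed_closedBall
      have h2 : (F ∩ closedBall a (r0 a)).Nonempty :=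
        ⟨a, ha, mem_closedBall_self (hr0 a (hFE ha)).le⟩
      have h3 : NU D (F ∩ closedBall a (r0 a)) :=
        h a (hFE ha) _ h1 h2 (inter_subset_left.trans hFE) inter_subset_right
      obtain ⟨i1, i2, i3⟩ := ih (fun p hp => haF p (by simp [hp]))
      have he : (⋃ p ∈ Finset.cons a t hat, F ∩ closedBall p (r0 p)) =
          (F ∩ closedBall a (r0 a)) ∪ ⋃ p ∈ t, F ∩ closedBall p (r0 p) := by
        ext x
        simp only [Finset.mem_cons, mem_iUnion, mem_union, exists_prop]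
        constructor
        · rintro ⟨p, rfl | hp, hx⟩
          · exact Or.inl hx
          · exact Or.inr ⟨p, hp, hx⟩
        · rintro (hx | ⟨p, hp, hx⟩)
          · exact ⟨a, Or.inl rfl, hx⟩
          · exact ⟨p, Or.inr hp, hx⟩
      rw [he]
      exact ⟨h1.union i1, h2.inl, NU_union hD.bdd h2 i2 h1 i1 h3 i3⟩
  have hsn : s.Nonempty := by
    by_contra h0
    rw [Finset.not_nonempty_iff_eq_empty] at h0
    obtain ⟨x, hx⟩ := hFn
    have := hs hx
    rw [h0] at this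
    simp at this
  have hU : (⋃ p ∈ s, F ∩ closedBall p (r0 p)) = F := by
    apply Subset.antisymm
    · intro x hx
      simp only [mem_iUnion] at hx
      obtain ⟨p, _, hx⟩ := hx
      exact hx.1
    · intro x hx
      have := hs hx
      simp only [mem_iUnion] at this ⊢
      obtain ⟨p, hp, hx'⟩ := this
      exact ⟨p, hp, hx, ball_subset_closedBall hx'⟩
  rw [← hU]
  exact (key s hsn hsF).2.2

/-- the full statement -/
theorem main_result : ∀ n : ℕ, 2 ≤ n → ∀ D : Set (EuclideanSpace ℂ (Fin n)),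
    IsOpen D → IsConnected D → Bornology.IsBounded D →
    (∃ ρ : EuclideanSpace ℂ (Fin n) → ℝ, ContDiff ℝ ((⊤ : ℕ∞) : WithTop ℕ∞) ρ ∧
      D = {z | ρ z < 0} ∧
      (∀ z, ρ z = 0 → fderiv ℝ ρ z ≠ 0) ∧
      (∀ z, ρ z = 0 → ∀ w : EuclideanSpace ℂ (Fin n), w ≠ 0 →
        fderiv ℝ ρ z w = 0 → fderiv ℝ ρ z (Complex.I • w) = 0 →
        0 < iteratedFDeriv ℝ 2 ρ z ![w, w] +
              iteratedFDeriv ℝ 2 ρ z ![Complex.I • w, Complex.I • w])) →
    ∀ E : Set (EuclideanSpace ℂ (Fin n)), E ⊆ frontier D → IsClosed E →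
    (∃ f : EuclideanSpace ℂ (Fin n) → ℂ, DifferentiableOn ℂ f D ∧
      ContinuousOn f (closure D) ∧
      (∀ k : ℕ, ∃ g : EuclideanSpace ℂ (Fin n) →
          ContinuousMultilinearMap ℝ (fun _ : Fin k => EuclideanSpace ℂ (Fin n)) ℂ,
        ContinuousOn g (closure D) ∧ (∀ z ∈ D, iteratedFDeriv ℝ k f z = g z) ∧
        (∀ z ∈ E, g z = 0)) ∧
      (∃ z ∈ D, f z ≠ 0) ∧
      {z | z ∈ closure D ∧ f z = 0} = E) →
    ∀ F : Set (EuclideanSpace ℂ (Fin n)), F ⊆ E → IsClosed F →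
    (∃ f : EuclideanSpace ℂ (Fin n) → ℂ, DifferentiableOn ℂ f D ∧
      ContinuousOn f (closure D) ∧
      (∀ k : ℕ, ∃ g : EuclideanSpace ℂ (Fin n) →
          ContinuousMultilinearMap ℝ (fun _ : Fin k => EuclideanSpace ℂ (Fin n)) ℂ,
        ContinuousOn g (closure D) ∧ (∀ z ∈ D, iteratedFDeriv ℝ k f z = g z) ∧
        (∀ z ∈ F, g z = 0)) ∧
      (∃ z ∈ D, f z ≠ 0) ∧
      {z | z ∈ closure D ∧ f z = 0} = F) := by
  intro n hn D ho hc hb ⟨ρ, hρ, hDρ, hgrad, hlevi⟩ E hE hEc ⟨f, hf⟩ F hFE hFc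
  rcases F.eq_empty_or_nonempty with rfl | hFn
  · obtain ⟨z0, hz0⟩ := hc.nonempty
    refine ⟨fun _ => 1, differentiableOn_const _, continuousOn_const, ?_, ⟨z0, hz0, one_ne_zero⟩, ?_⟩
    · intro k
      refine ⟨iteratedFDeriv ℝ k (fun _ => (1 : ℂ)), ?_, fun z _ => rfl, fun z hz => absurd hz (by simp)⟩
      have h1 : ContDiff ℝ ∞ (fun _ : EuclideanSpace ℂ (Fin n) => (1 : ℂ)) := contDiff_const
      exact (h1.continuous_iteratedFDeriv (m := k) (by exact_mod_cast le_top)).continuousOn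
    · ext z; simp
  · obtain ⟨ρ1, c, hD⟩ := exists_spd D hc.nonempty ho hb ρ hρ hDρ hgrad hlevi
    have hNU : NU D F := NU_of_subset (by omega) hD hE (f := f) hf F hFc hFn hFE
    obtain ⟨f', hf'⟩ := NU_final hc.nonempty ho hb hFc hFn (hFE.trans hE) hNU
    exact ⟨f', hf'⟩

end Pool.Agent.Helper123
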